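import Pool.Agent.PTN.Defs

set_option autoImplicit false

/-!
CCJ: adapt SYL/CCJ.lean: with the K-algebra structure φ ∘ algebraMap K L on ℂ, complex conjugation is a K-algebra automorphism of ℂ
(ψ is real), restrict it to the normal extension L.
-/

namespace Pool.Agent.PTN

open NumberField

/-- Complex conjugation on `L`, over the real field `K`. -/
theorem exists_conj {K : Type} [Field K] [NumberField K] (ψ : K →+* ℝ) (L : Type) [Field L]
    [NumberField L] [Algebra K L] [IsGalois K L] (φ : L →+* ℂ)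
    (hφ : ∀ x : K, φ (algebraMap K L x) = ((ψ x : ℝ) : ℂ)) :
    ∃ c : L ≃ₐ[K] L, ∀ x : L, φ (c x) = (starRingEnd ℂ) (φ x) := by
  let _ : Algebra L ℂ := φ.toAlgebra
  let _ : Algebra K ℂ := (φ.comp (algebraMap K L)).toAlgebra
  have _ : IsScalarTower K L ℂ := IsScalarTower.of_algebraMap_eq' rfl
  have hfix : ∀ x : K, Complex.conjAe.toRingEquiv (algebraMap K ℂ x) = algebraMap K ℂ x := by
    intro x
    have h1 : (algebraMap K ℂ x) = ((ψ x : ℝ) : ℂ) := hφ x
    rw [h1]
    exact Complex.conj_ofReal (ψ x)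
  let σ : ℂ ≃ₐ[K] ℂ := AlgEquiv.ofRingEquiv (f := Complex.conjAe.toRingEquiv) hfix
  exact ⟨σ.restrictNormal L, fun x => AlgEquiv.restrictNormal_commutes σ L x⟩

end Pool.Agent.PTN
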