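import Pool.Agent.PTN.Defs

set_option autoImplicit false

/-!
CHS: choice of the real root. Let T0 be the smallest real root of G (finite set of roots). No real root below T0, so G has constant
sign on (-∞, T0) and G (T0 - e) /= 0. By hnc also G (T0 + e) /= 0.
Case A: G (T0 - e) G (T0 + e) > 0: take T = T0. Case B: G (T0 - e) G (T0 + e) < 0: then there is a real root T of ODD multiplicity in
[T0, T0 + e) (lemma below applied to a = T0 - e, b = T0 + e; a root in (a, b) is >= T0). Take it. In both cases T - e (j+1) < T0 for all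
j >= 0 (T - e < T0 in case B), so all G (T - e (j+1)) are not 0 and have the sign of G on (-∞, T0); s = - that sign.
Lemma: if G in ℝ[X], a < b, G a, G b /= 0 and all roots of G in (a, b) have even multiplicity then G a * G b > 0. Induction on natDegree G: if
there is no root in (a, b), then by the intermediate value theorem there is no sign change; if r is a root in (a, b) with even
multiplicity mu, G = (X - r)^mu G2 with G2 r /= 0, G2 has smaller degree, the multiplicities of the other roots are the same, and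
(a - r)^mu, (b - r)^mu > 0.
-/

namespace Pool.Agent.PTN

open Polynomial

/-- No sign change between two points if all roots in between have even multiplicity. -/
theorem same_sign : ∀ (n : ℕ) (G : ℝ[X]), G.natDegree = n → G ≠ 0 → ∀ a b : ℝ, a < b →
    G.eval a ≠ 0 → G.eval b ≠ 0 →
    (∀ x, a < x → x < b → G.eval x = 0 → Even (G.rootMultiplicity x)) →
    0 < G.eval a * G.eval b := by
  intro n
  induction n using Nat.strong_induction_on with
  | _ n ih =>
    intro G hn hG a b hab ha hb hev
    by_cases h : ∃ r, a < r ∧ r < b ∧ G.eval r = 0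
    · obtain ⟨r, har, hrb, hr⟩ := h
      obtain ⟨G2, hG2, hnd⟩ := Polynomial.exists_eq_pow_rootMultiplicity_mul_and_not_dvd G hG r
      have hmu := hev r har hrb hr
      have hmu1 : 0 < G.rootMultiplicity r := (rootMultiplicity_pos hG).2 hr
      set μ := G.rootMultiplicity r with hμ
      have hG20 : G2 ≠ 0 := by
        rintro rfl
        exact hnd (dvd_zero _)
      have hr2 : G2.eval r ≠ 0 := fun h0 => hnd (dvd_iff_isRoot.2 h0)
      have hX0 : ((X - C r : ℝ[X]) ^ μ) ≠ 0 := pow_ne_zero _ (X_sub_C_ne_zero r)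
      have hdeg : G2.natDegree < n := by
        have h1 : G.natDegree = μ + G2.natDegree := by
          conv_lhs => rw [hG2]
          rw [natDegree_mul hX0 hG20, natDegree_pow, natDegree_X_sub_C, mul_one]
        omega
      have hev1 : ∀ x : ℝ, G.eval x = (x - r) ^ μ * G2.eval x := by
        intro x
        conv_lhs => rw [hG2]
        simp
      have ha2 : G2.eval a ≠ 0 := by
        intro h0
        apply ha
        rw [hev1, h0, mul_zero]
      have hb2 : G2.eval b ≠ 0 := by
        intro h0
        apply hb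
        rw [hev1, h0, mul_zero]
      have hev2 : ∀ x, a < x → x < b → G2.eval x = 0 → Even (G2.rootMultiplicity x) := by
        intro x hax hxb hx
        have hxr : x ≠ r := by
          rintro rfl
          exact hr2 hx
        have h1 := hev x hax hxb (by rw [hev1, hx, mul_zero])
        have h2 : G.rootMultiplicity x = G2.rootMultiplicity x := by
          conv_lhs => rw [hG2]
          rw [rootMultiplicity_mul (mul_ne_zero hX0 hG20)]
          have h3 : ((X - C r : ℝ[X]) ^ μ).rootMultiplicity x = 0 := by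
            apply rootMultiplicity_eq_zero
            intro h4
            have h5 : (x - r) ^ μ = 0 := by simpa [IsRoot] using h4
            exact hxr (sub_eq_zero.1 (pow_eq_zero_iff hmu1.ne' |>.1 h5))
          rw [h3, zero_add]
        rw [← h2]
        exact h1
      have hfin := ih _ hdeg G2 rfl hG20 a b hab ha2 hb2 hev2
      have hpa : 0 < (a - r) ^ μ := hmu.pow_pos (sub_ne_zero.2 har.ne)
      have hpb : 0 < (b - r) ^ μ := hmu.pow_pos (sub_ne_zero.2 hrb.ne')
      rw [hev1 a, hev1 b]
      have : (a - r) ^ μ * G2.eval a * ((b - r) ^ μ * G2.eval b) =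
          ((a - r) ^ μ * (b - r) ^ μ) * (G2.eval a * G2.eval b) := by ring
      rw [this]
      exact mul_pos (mul_pos hpa hpb) hfin
    · by_contra hneg
      have hlt : G.eval a * G.eval b < 0 :=
        lt_of_le_of_ne (not_lt.1 hneg) (mul_ne_zero ha hb)
      apply h
      have hc : ContinuousOn (fun x => G.eval x) (Set.Icc a b) := G.continuous.continuousOn
      rcases mul_neg_iff.1 hlt with ⟨h1, h2⟩ | ⟨h1, h2⟩
      · obtain ⟨r, hr, hr0⟩ := intermediate_value_Icc' hab.le hc
          (show (0 : ℝ) ∈ Set.Icc (G.eval b) (G.eval a) from ⟨h2.le, h1.le⟩)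
        refine ⟨r, lt_of_le_of_ne hr.1 ?_, lt_of_le_of_ne hr.2 ?_, hr0⟩
        · rintro rfl
          exact ha hr0
        · rintro rfl
          exact hb hr0
      · obtain ⟨r, hr, hr0⟩ := intermediate_value_Icc hab.le hc
          (show (0 : ℝ) ∈ Set.Icc (G.eval a) (G.eval b) from ⟨h1.le, h2.le⟩)
        refine ⟨r, lt_of_le_of_ne hr.1 ?_, lt_of_le_of_ne hr.2 ?_, hr0⟩
        · rintro rfl
          exact ha hr0
        · rintro rfl
          exact hb hr0

/-- Choice of a real root with constant signs to the left. -/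
theorem exists_root_choice (G : ℝ[X]) (hG : G ≠ 0) (e : ℝ) (he : 0 < e)
    (hroot : ∃ x : ℝ, G.eval x = 0) (hnc : ∀ x : ℝ, G.eval x = 0 → G.eval (x + e) ≠ 0) :
    ∃ (T : ℝ) (s : ℤ), (s = 1 ∨ s = -1) ∧ G.eval T = 0 ∧
      (∀ j : ℕ, 0 < -(s : ℝ) * G.eval (T - e * ((j : ℝ) + 1))) ∧
      (0 < G.eval (T - e) * G.eval (T + e) ∨ Odd (G.rootMultiplicity T)) := by
  classical
  obtain ⟨x0, hx0⟩ := hroot
  have hne : G.roots.toFinset.Nonempty :=
    ⟨x0, by rw [Multiset.mem_toFinset, mem_roots hG]; exact hx0⟩
  obtain ⟨T0, hT0, hmin⟩ : ∃ T0 : ℝ, G.eval T0 = 0 ∧ ∀ x, G.eval x = 0 → T0 ≤ x := by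
    refine ⟨G.roots.toFinset.min' hne, ?_, ?_⟩
    · have := Finset.min'_mem _ hne
      rw [Multiset.mem_toFinset, mem_roots hG] at this
      exact this
    · intro x hx
      apply Finset.min'_le
      rw [Multiset.mem_toFinset, mem_roots hG]
      exact hx
  have hnz : ∀ x, x < T0 → G.eval x ≠ 0 := fun x hx h0 => absurd (hmin x h0) (not_le.2 hx)
  have hsame : ∀ x y, x < T0 → y < T0 → 0 < G.eval x * G.eval y := by
    intro x y hx hy
    rcases lt_trichotomy x y with hxy | hxy | hxy
    · exact same_sign _ G rfl hG x y hxy (hnz x hx) (hnz y hy)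
        (fun z _ hz h0 => absurd h0 (hnz z (hz.trans hy)))
    · subst hxy
      exact mul_self_pos.2 (hnz x hx)
    · rw [mul_comm]
      exact same_sign _ G rfl hG y x hxy (hnz y hy) (hnz x hx)
        (fun z _ hz h0 => absurd h0 (hnz z (hz.trans hx)))
  have hTe : T0 - e < T0 := by linarith
  obtain ⟨s, hs, hsx⟩ : ∃ s : ℤ, (s = 1 ∨ s = -1) ∧ ∀ x, x < T0 → 0 < -(s : ℝ) * G.eval x := by
    rcases lt_or_gt_of_ne (hnz _ hTe) with h1 | h1
    · refine ⟨1, Or.inl rfl, fun x hx => ?_⟩
      have h2 := hsame x _ hx hTe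
      have h3 : G.eval x < 0 := by
        by_contra h4
        have := mul_nonpos_of_nonneg_of_nonpos (not_lt.1 h4) h1.le
        linarith
      push_cast
      linarith
    · refine ⟨-1, Or.inr rfl, fun x hx => ?_⟩
      have h2 := hsame x _ hx hTe
      have h3 : 0 < G.eval x := by
        by_contra h4
        have := mul_nonpos_of_nonpos_of_nonneg (not_lt.1 h4) h1.le
        linarith
      push_cast
      linarith
  have hleft : ∀ T : ℝ, T - e < T0 → ∀ j : ℕ, 0 < -(s : ℝ) * G.eval (T - e * ((j : ℝ) + 1)) := by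
    intro T hT j
    apply hsx
    have hj : (0 : ℝ) ≤ (j : ℝ) := Nat.cast_nonneg j
    have : 0 ≤ e * (j : ℝ) := mul_nonneg he.le hj
    nlinarith
  by_cases hpos : 0 < G.eval (T0 - e) * G.eval (T0 + e)
  · exact ⟨T0, s, hs, hT0, hleft T0 hTe, Or.inl hpos⟩
  · have hex : ∃ x, T0 - e < x ∧ x < T0 + e ∧ G.eval x = 0 ∧ Odd (G.rootMultiplicity x) := by
      by_contra hno
      push Not at hno
      apply hpos
      apply same_sign _ G rfl hG (T0 - e) (T0 + e) (by linarith) (hnz _ hTe) (hnc T0 hT0)
      intro x h1 h2 h3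
      exact Nat.not_odd_iff_even.1 (hno x h1 h2 h3)
    obtain ⟨T, _, hT2, hT3, hT4⟩ := hex
    exact ⟨T, s, hs, hT3, hleft T (by linarith), Or.inr hT4⟩

end Pool.Agent.PTN
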