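import Pool.Agent.PTN.Defs

set_option autoImplicit false

/-!
INE: ramification at a hit of odd order (as SYL/INE.lean, base `K` instead of `ℚ`, and an odd power
`𝔩 ^ m` exactly dividing `A`). Suppose all inertia elements fix `z`; `F` is the fixed field of the
inertia group of `P` in `Gal(L/K)`, `𝔭 = P ∩ 𝓞 F` has ramification index 1 over `𝔩`, so the `𝔭`-order
of `A` is `m`; the orders of `x`, `z` give a contradiction.
-/

namespace Pool.Agent.PTN

open NumberField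

open scoped Pointwise

/-- The inertia field of `P`. -/
abbrev ineF (K L : Type) [Field K] [NumberField K] [Field L] [NumberField L] [Algebra K L]
    (P : Ideal (𝓞 L)) : IntermediateField K L :=
  FixedPoints.intermediateField (Ideal.inertia Gal(L/K) P)

theorem ine_group (K L : Type) [Field K] [NumberField K] [Field L] [NumberField L] [Algebra K L]
    [IsGalois K L] (P : Ideal (𝓞 L)) :
    IsGaloisGroup (Ideal.inertia Gal(L/K) P) (𝓞 (ineF K L P)) (𝓞 L) :=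
  IsGaloisGroup.of_isFractionRing _ _ _ (ineF K L P) L

/-- The prime of the inertia field is unramified over `𝔩`. -/
theorem ine_ram (K L : Type) [Field K] [NumberField K] [Field L] [NumberField L] [Algebra K L]
    [IsGalois K L] (P : Ideal (𝓞 L)) (hP : P.IsMaximal) (hp0 : P.under (𝓞 K) ≠ ⊥) :
    ¬ (P.under (𝓞 K)).map (algebraMap (𝓞 K) (𝓞 (ineF K L P))) ≤
      (P.under (𝓞 (ineF K L P))) ^ 2 := by
  have hG := ine_group K L P
  have hPp : P.IsPrime := hP.isPrime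
  have hp0max : (P.under (𝓞 K)).IsMaximal := Ideal.IsMaximal.under (𝓞 K) P
  have hfin0 : Finite (𝓞 K ⧸ P.under (𝓞 K)) := Ring.HasFiniteQuotients.finiteQuotient hp0
  have h1 := Ideal.card_inertia_eq_ramificationIdxIn (G := Gal(L/K)) (P.under (𝓞 K)) P
  have hover : (P.under (𝓞 (ineF K L P))).LiesOver (P.under (𝓞 K)) := by
    constructor
    rw [Ideal.under_under]
  have hp1 : P.under (𝓞 (ineF K L P)) ≠ ⊥ := by
    intro h
    apply hp0
    rw [hover.over, h]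
    exact Ideal.under_bot _ _
  have hp1max : (P.under (𝓞 (ineF K L P))).IsMaximal := Ideal.IsMaximal.under _ P
  have hfin1 : Finite (𝓞 (ineF K L P) ⧸ P.under (𝓞 (ineF K L P))) :=
    Ring.HasFiniteQuotients.finiteQuotient hp1
  have h2 := Ideal.card_inertia_eq_ramificationIdxIn (G := Ideal.inertia Gal(L/K) P)
    (P.under (𝓞 (ineF K L P))) P
  have h3 : Nat.card (P.inertia (Ideal.inertia Gal(L/K) P)) =
      Nat.card (Ideal.inertia Gal(L/K) P) := by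
    have : P.inertia (Ideal.inertia Gal(L/K) P) = ⊤ := by
      rw [eq_top_iff]
      intro σ _
      intro x
      exact σ.2 x
    rw [this]
    exact Subgroup.card_top
  rw [Ideal.ramificationIdxIn_eq_ramificationIdx _ P Gal(L/K)] at h1
  rw [Ideal.ramificationIdxIn_eq_ramificationIdx _ P (Ideal.inertia Gal(L/K) P), h3, h1] at h2
  have h4 := Ideal.ramificationIdx_tower (R := 𝓞 K) (P.under (𝓞 (ineF K L P))) P
  rw [← h2] at h4
  have hpos : 0 < P.ramificationIdx (𝓞 K) := Ideal.ramificationIdx_pos P (𝓞 K)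
  have h5 : (P.under (𝓞 (ineF K L P))).ramificationIdx (𝓞 K) = 1 := by
    have : 1 * P.ramificationIdx (𝓞 K) =
        (P.under (𝓞 (ineF K L P))).ramificationIdx (𝓞 K) * P.ramificationIdx (𝓞 K) := by
      rw [one_mul]
      exact h4
    exact (Nat.eq_of_mul_eq_mul_right hpos this).symm
  have h6 := Ideal.ramificationIdx'_eq_ramificationIdx (P.under (𝓞 K))
    (P.under (𝓞 (ineF K L P))) hp0
  rw [h5] at h6
  have hle : (P.under (𝓞 K)).map (algebraMap (𝓞 K) (𝓞 (ineF K L P))) ≤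
      P.under (𝓞 (ineF K L P)) := by
    rw [Ideal.map_le_iff_le_comap]
    exact hover.over.le
  intro hmem
  exact (Ideal.ramificationIdx'_ne_one_iff hle).mpr hmem h6

theorem ine_lift (K L : Type) [Field K] [NumberField K] [Field L] [NumberField L] [Algebra K L]
    [IsGalois K L] (P : Ideal (𝓞 L)) (x : 𝓞 L)
    (hx : InFixK K P (x : L)) :
    ∃ x' : 𝓞 (ineF K L P), algebraMap (𝓞 (ineF K L P)) (𝓞 L) x' = x := by
  have hG := ine_group K L P
  apply Algebra.IsInvariant.isInvariant (G := Ideal.inertia Gal(L/K) P)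
  intro σ
  apply RingOfIntegers.ext
  apply hx σ.1
  intro a
  refine ⟨σ.1 • a - a, σ.2 a, ?_⟩
  have : ((σ.1 • a - a : 𝓞 L) : L) = σ.1 (a : L) - (a : L) := rfl
  rw [this]
  ring

/-- The order arithmetic: `x (x + D) = A y`, `z (z + A) = B x` with `A` of exact odd order. -/
theorem ine_arith {R : Type*} [CommRing R] [IsDedekindDomain R] (𝔭 : Ideal R)
    (hp : 𝔭.IsPrime) (hne : 𝔭 ≠ ⊥) (A B D x y z : R) (m : ℕ) (hm : Odd m)
    (hA : A ∈ 𝔭 ^ m) (hA2 : A ∉ 𝔭 ^ (m + 1)) (hB : B ∉ 𝔭) (hD : D ∉ 𝔭) (hy : y ∉ 𝔭)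
    (hx : x ∈ 𝔭) (h1 : x * (x + D) = A * y) (h2 : z * (z + A) = B * x) : False := by
  have hpp : Prime 𝔭 := Ideal.prime_of_isPrime hne hp
  have hspan : ∀ (a : R) (k : ℕ), 𝔭 ^ k ∣ Ideal.span {a} ↔ a ∈ 𝔭 ^ k :=
    fun a k => Ideal.dvd_span_singleton
  have hunit : ∀ a : R, a ∉ 𝔭 → emultiplicity 𝔭 (Ideal.span {a}) = 0 := by
    intro a ha
    rw [emultiplicity_eq_zero, Ideal.dvd_span_singleton]
    exact ha
  have hmul : ∀ a b : R, emultiplicity 𝔭 (Ideal.span {a * b}) =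
      emultiplicity 𝔭 (Ideal.span {a}) + emultiplicity 𝔭 (Ideal.span {b}) := by
    intro a b
    rw [← Ideal.span_singleton_mul_span_singleton, emultiplicity_mul hpp]
  have hvA : emultiplicity 𝔭 (Ideal.span {A}) = (m : ℕ∞) := by
    rw [emultiplicity_eq_coe, hspan, hspan]
    exact ⟨hA, hA2⟩
  have hxD : x + D ∉ 𝔭 := fun h => hD ((Ideal.add_mem_iff_right 𝔭 hx).1 h)
  have hvx : emultiplicity 𝔭 (Ideal.span {x}) = (m : ℕ∞) := by
    have h3 := hmul x (x + D)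
    rw [h1, hmul, hunit y hy, hunit _ hxD, hvA, add_zero, add_zero] at h3
    exact h3.symm
  have h4 : (m : ℕ∞) = emultiplicity 𝔭 (Ideal.span {z}) +
      emultiplicity 𝔭 (Ideal.span {z + A}) := by
    have h3 := hmul z (z + A)
    rw [h2, hmul, hunit B hB, hvx, zero_add] at h3
    exact h3
  have hfin : emultiplicity 𝔭 (Ideal.span {z}) ≠ ⊤ := by
    intro h5
    rw [h5, top_add] at h4
    exact absurd h4 (ENat.natCast_ne_top m)
  obtain ⟨k, hk⟩ := ENat.ne_top_iff_exists.1 hfin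
  rw [← hk] at h4
  have hk2 := (emultiplicity_eq_coe.1 hk.symm)
  rw [hspan, hspan] at hk2
  by_cases hkm : k < m
  · have h5 : emultiplicity 𝔭 (Ideal.span {z + A}) = (k : ℕ∞) := by
      rw [emultiplicity_eq_coe, hspan, hspan]
      have hAk1 : A ∈ 𝔭 ^ (k + 1) := Ideal.pow_le_pow_right hkm hA
      have hAk : A ∈ 𝔭 ^ k := Ideal.pow_le_pow_right hkm.le hA
      refine ⟨(𝔭 ^ k).add_mem hk2.1 hAk, fun h6 => hk2.2 ?_⟩
      exact (Ideal.add_mem_iff_left _ hAk1).1 h6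
    rw [h5] at h4
    have h6 : m = k + k := by exact_mod_cast h4
    obtain ⟨t, ht⟩ := hm
    omega
  · push Not at hkm
    have h5 : (m : ℕ∞) ≤ emultiplicity 𝔭 (Ideal.span {z + A}) := by
      rw [← pow_dvd_iff_le_emultiplicity, hspan]
      exact (𝔭 ^ m).add_mem (Ideal.pow_le_pow_right hkm hk2.1) hA
    have h6 : ((k + m : ℕ) : ℕ∞) ≤ (m : ℕ∞) := by
      push_cast
      calc (k : ℕ∞) + m ≤ k + emultiplicity 𝔭 (Ideal.span {z + A}) := by gcongr
        _ = m := h4.symm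
    have h7 : k + m ≤ m := by exact_mod_cast h6
    obtain ⟨t, ht⟩ := hm
    omega

/-- The exact order of `A` is unchanged in an extension which is unramified at `𝔭`. -/
theorem ine_exact {R S : Type*} [CommRing R] [IsDedekindDomain R] [CommRing S]
    [IsDedekindDomain S] [Algebra R S] (𝔩 : Ideal R) (𝔭 : Ideal S)
    (hp : 𝔭.IsPrime) (hne : 𝔭 ≠ ⊥) (hlp : 𝔭.comap (algebraMap R S) = 𝔩)
    (hram : ¬ 𝔩.map (algebraMap R S) ≤ 𝔭 ^ 2) (A : R) (m : ℕ) (hA : A ∈ 𝔩 ^ m)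
    (hA2 : A ∉ 𝔩 ^ (m + 1)) :
    algebraMap R S A ∈ 𝔭 ^ m ∧ algebraMap R S A ∉ 𝔭 ^ (m + 1) := by
  have hpp : Prime 𝔭 := Ideal.prime_of_isPrime hne hp
  have hle : 𝔩.map (algebraMap R S) ≤ 𝔭 := by
    rw [Ideal.map_le_iff_le_comap, hlp]
  have hl1 : emultiplicity 𝔭 (𝔩.map (algebraMap R S)) = ((1 : ℕ) : ℕ∞) := by
    rw [emultiplicity_eq_coe, pow_one, Ideal.dvd_iff_le, Ideal.dvd_iff_le]
    exact ⟨hle, hram⟩
  obtain ⟨𝔞, h𝔞⟩ : 𝔩 ^ m ∣ Ideal.span {A} := Ideal.dvd_span_singleton.2 hA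
  have ha : ¬ 𝔭 ∣ 𝔞.map (algebraMap R S) := by
    intro h
    rw [Ideal.dvd_iff_le, Ideal.map_le_iff_le_comap, hlp, ← Ideal.dvd_iff_le] at h
    apply hA2
    rw [← Ideal.dvd_span_singleton, h𝔞, pow_succ]
    exact mul_dvd_mul_left _ h
  have hmain : emultiplicity 𝔭 (Ideal.span {algebraMap R S A}) = (m : ℕ∞) := by
    have h1 : (Ideal.span {A}).map (algebraMap R S) = Ideal.span {algebraMap R S A} := by
      rw [Ideal.map_span, Set.image_singleton]
    rw [← h1, h𝔞, Ideal.map_mul, Ideal.map_pow, emultiplicity_mul hpp, emultiplicity_pow hpp, hl1,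
      emultiplicity_eq_zero.2 ha]
    simp
  rw [emultiplicity_eq_coe, Ideal.dvd_span_singleton, Ideal.dvd_span_singleton] at hmain
  exact hmain

/-- Ramification at a hit of odd order: some inertia element moves `z`. -/
theorem exists_inertia_moving {K : Type} [Field K] [NumberField K] (L : Type) [Field L]
    [NumberField L] [Algebra K L] [IsGalois K L]
    (P : Ideal (𝓞 L)) (hP : P.IsMaximal) (𝔩 : Ideal (𝓞 K)) (h𝔩 : 𝔩 ≠ ⊥)
    (hPl : P.comap (algebraMap (𝓞 K) (𝓞 L)) = 𝔩)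
    (A B D : 𝓞 K) (m : ℕ) (hm : Odd m) (hA : A ∈ 𝔩 ^ m) (hA2 : A ∉ 𝔩 ^ (m + 1))
    (hB : B ∉ 𝔩) (hD : D ∉ 𝔩)
    (x y z : 𝓞 L) (hyP : y ∉ P) (hxP : x ∈ P)
    (hx : x * (x + algebraMap (𝓞 K) (𝓞 L) D) = algebraMap (𝓞 K) (𝓞 L) A * y)
    (hz : z * (z + algebraMap (𝓞 K) (𝓞 L) A) = algebraMap (𝓞 K) (𝓞 L) B * x)
    (hfx : InFixK K P (x : L)) (hfy : InFixK K P (y : L)) :
    ∃ σ : L ≃ₐ[K] L, InertK P σ ∧ σ (z : L) ≠ (z : L) := by
  by_contra hcon
  push Not at hcon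
  obtain ⟨x', hx'⟩ := ine_lift K L P x hfx
  obtain ⟨y', hy'⟩ := ine_lift K L P y hfy
  obtain ⟨z', hz'⟩ := ine_lift K L P z hcon
  have hPu : P.under (𝓞 K) = 𝔩 := hPl
  have hram := ine_ram K L P hP (by rw [hPu]; exact h𝔩)
  rw [hPu] at hram
  have hPp : P.IsPrime := hP.isPrime
  have hinj : Function.Injective (algebraMap (𝓞 (ineF K L P)) (𝓞 L)) :=
    FaithfulSMul.algebraMap_injective _ _
  have htow : ∀ a : 𝓞 K, algebraMap (𝓞 (ineF K L P)) (𝓞 L)
      (algebraMap (𝓞 K) (𝓞 (ineF K L P)) a) = algebraMap (𝓞 K) (𝓞 L) a :=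
    fun a => (IsScalarTower.algebraMap_apply (𝓞 K) (𝓞 (ineF K L P)) (𝓞 L) a).symm
  have hx2 : x' * (x' + algebraMap (𝓞 K) (𝓞 (ineF K L P)) D) =
      algebraMap (𝓞 K) (𝓞 (ineF K L P)) A * y' := by
    apply hinj
    rw [map_mul, map_add, map_mul, htow, htow, hx', hy']
    exact hx
  have hz2 : z' * (z' + algebraMap (𝓞 K) (𝓞 (ineF K L P)) A) =
      algebraMap (𝓞 K) (𝓞 (ineF K L P)) B * x' := by
    apply hinj
    rw [map_mul, map_add, map_mul, htow, htow, hx', hz']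
    exact hz
  set 𝔭 := P.under (𝓞 (ineF K L P)) with h𝔭
  have hmem : ∀ w : 𝓞 (ineF K L P), w ∈ 𝔭 ↔ algebraMap (𝓞 (ineF K L P)) (𝓞 L) w ∈ P :=
    fun w => Iff.rfl
  have h𝔭p : 𝔭.IsPrime := Ideal.IsPrime.under _ P
  have hcomap : 𝔭.comap (algebraMap (𝓞 K) (𝓞 (ineF K L P))) = 𝔩 := by
    rw [← hPu]
    ext a
    rw [Ideal.mem_comap, hmem, htow]
    rfl
  have h𝔭0 : 𝔭 ≠ ⊥ := by
    intro h
    apply h𝔩
    rw [← hcomap, h]
    exact Ideal.under_bot _ _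
  have hnot : ∀ a : 𝓞 K, a ∉ 𝔩 → algebraMap (𝓞 K) (𝓞 (ineF K L P)) a ∉ 𝔭 := by
    intro a ha h
    apply ha
    rw [← hcomap]
    exact h
  obtain ⟨hA3, hA4⟩ := ine_exact 𝔩 𝔭 h𝔭p h𝔭0 hcomap hram A m hA hA2
  exact ine_arith 𝔭 h𝔭p h𝔭0 _ _ _ x' y' z' m hm hA3 hA4 (hnot B hB) (hnot D hD)
    (by rw [hmem, hy']; exact hyP) (by rw [hmem, hx']; exact hxP) hx2 hz2

end Pool.Agent.PTN
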