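import Pool.Agent.PTN.Defs

set_option autoImplicit false

/-!
LEV: elementary facts on chains and levels over a ring (as SYL/LEVB.lean).
-/

namespace Pool.Agent.PTN

open NumberField

theorem lv_zero {R : Type*} [CommRing R] (q : R) (C : ℕ → R) : Lv q C 0 = {q} := by
  ext z
  constructor
  · rintro ⟨x, hx, rfl⟩
    exact hx.1
  · intro hz
    rw [Set.mem_singleton_iff] at hz
    subst hz
    exact ⟨fun _ => z, ⟨rfl, fun j hj => absurd hj (Nat.not_lt_zero j)⟩, rfl⟩

/-- A child of a level `j` element has level `j + 1`. -/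
theorem lv_child {R : Type*} [CommRing R] {q : R} {C : ℕ → R} {j : ℕ} {x y : R}
    (hx : x ∈ Lv q C j) (hy : y * (y + C j) = C (j + 1) * x) :
    y ∈ Lv q C (j + 1) := by
  obtain ⟨c, ⟨h0, hc⟩, rfl⟩ := hx
  refine ⟨fun k => if k ≤ j then c k else y, ⟨?_, ?_⟩, ?_⟩
  · change (if 0 ≤ j then c 0 else y) = _
    rw [if_pos (Nat.zero_le j), h0]
  · intro k hk
    change (if k + 1 ≤ j then c (k + 1) else y) * ((if k + 1 ≤ j then c (k + 1) else y) + _) =
      _ * (if k ≤ j then c k else y)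
    by_cases h : k + 1 ≤ j
    · rw [if_pos h, if_pos (by omega : k ≤ j)]
      exact hc k h
    · have hkj : k = j := by omega
      subst hkj
      rw [if_neg h, if_pos le_rfl]
      exact hy
  · change (if j + 1 ≤ j then c (j + 1) else y) = y
    rw [if_neg (by omega)]

/-- Every element of level `j + 1` has a parent. -/
theorem lv_parent {R : Type*} [CommRing R] {q : R} {C : ℕ → R} {j : ℕ} {y : R}
    (hy : y ∈ Lv q C (j + 1)) :
    ∃ x ∈ Lv q C j, y * (y + C j) = C (j + 1) * x := by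
  obtain ⟨c, ⟨h0, hc⟩, rfl⟩ := hy
  exact ⟨c j, ⟨c, ⟨h0, fun k hk => hc k (by omega)⟩, rfl⟩, hc j (by omega)⟩

theorem lv_map {R S : Type*} [CommRing R] [CommRing S] (f : R →+* S) {q : R} {C : ℕ → R} {M : ℕ}
    {x : R} (hx : x ∈ Lv q C M) : f x ∈ Lv (f q) (fun j => f (C j)) M := by
  obtain ⟨c, ⟨h0, hc⟩, rfl⟩ := hx
  refine ⟨fun k => f (c k), ⟨?_, ?_⟩, rfl⟩
  · change f (c 0) = _
    rw [h0]
  · intro k hk
    have h := congrArg f (hc k hk)
    rw [map_mul, map_add, map_mul] at h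
    exact h

theorem lv_finite {F : Type*} [Field F] (q : F) (C : ℕ → F) (M : ℕ) : (Lv q C M).Finite := by
  induction M with
  | zero =>
    rw [lv_zero]
    exact Set.finite_singleton _
  | succ M ih =>
    have hq : ∀ a b : F, {y : F | y * (y + a) = b}.Finite := by
      intro a b
      by_cases hne : ({y : F | y * (y + a) = b}).Nonempty
      · obtain ⟨y0, hy0⟩ := hne
        refine (Set.toFinite ({y0, -y0 - a} : Set F)).subset ?_
        intro y hy
        have h1 : y * (y + a) = b := hy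
        have h2 : y0 * (y0 + a) = b := hy0
        have h3 : (y - y0) * (y - (-y0 - a)) = 0 := by linear_combination h1 - h2
        rcases mul_eq_zero.1 h3 with h | h
        · exact Or.inl (sub_eq_zero.1 h)
        · exact Or.inr (sub_eq_zero.1 h)
      · rw [Set.not_nonempty_iff_eq_empty] at hne
        rw [hne]
        exact Set.finite_empty
    refine (ih.biUnion (t := fun x => {y : F | y * (y + C M) = C (M + 1) * x})
      fun x _ => hq _ _).subset ?_
    intro y hy
    obtain ⟨x, hx, hxy⟩ := lv_parent hy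
    exact Set.mem_biUnion hx hxy

theorem lv_ne_zero {F : Type*} [CommRing F] [IsDomain F] {q : F} {C : ℕ → F} {M : ℕ} (hq : q ≠ 0)
    (hC : ∀ j, j < M → C (j + 1) ≠ 0) {x : F} (hx : x ∈ Lv q C M) : x ≠ 0 := by
  induction M generalizing x with
  | zero =>
    rw [lv_zero, Set.mem_singleton_iff] at hx
    rw [hx]
    exact hq
  | succ M ih =>
    obtain ⟨z, hz, hzx⟩ := lv_parent hx
    have hz0 := ih (fun j hj => hC j (by omega)) hz
    rintro rfl
    rw [zero_mul] at hzx
    exact mul_ne_zero (hC M (by omega)) hz0 hzx.symm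

/-- Level elements are integral. -/
theorem lv_isIntegral {F : Type*} [CommRing F] {q : F} {C : ℕ → F} {M : ℕ} (hq : IsIntegral ℤ q)
    (hC : ∀ j, IsIntegral ℤ (C j)) {x : F} (hx : x ∈ Lv q C M) : IsIntegral ℤ x := by
  induction M generalizing x with
  | zero =>
    rw [lv_zero, Set.mem_singleton_iff] at hx
    rw [hx]
    exact hq
  | succ M ih =>
    obtain ⟨z, hz, hzx⟩ := lv_parent hx
    have hzi := ih hz
    let A := integralClosure ℤ F
    have hb : C (M + 1) * z ∈ A := A.mul_mem (hC _) hzi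
    have hA : IsIntegral A x := by
      refine ⟨Polynomial.X ^ 2 + Polynomial.C (⟨C M, hC _⟩ : A) * Polynomial.X -
        Polynomial.C (⟨_, hb⟩ : A), ?_, ?_⟩
      · monicity!
      · simp only [Polynomial.eval₂_sub, Polynomial.eval₂_add, Polynomial.eval₂_mul,
          Polynomial.eval₂_pow, Polynomial.eval₂_X, Polynomial.eval₂_C]
        change x ^ 2 + C M * x - C (M + 1) * z = 0
        linear_combination hzx
    exact isIntegral_trans (R := ℤ) (A := A) x hA

section

variable {K : Type} [Field K] [NumberField K] {L : Type} [Field L] [NumberField L] [Algebra K L]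

theorem alg_isIntegral (a : 𝓞 K) : IsIntegral ℤ (algebraMap (𝓞 K) L a) :=
  (RingOfIntegers.isIntegral a).map (algebraMap (𝓞 K) L).toIntAlgHom

theorem alg_coe (a : 𝓞 K) : ((algebraMap (𝓞 K) (𝓞 L) a : 𝓞 L) : L) = algebraMap (𝓞 K) L a := rfl

theorem alg_comm (g : L ≃ₐ[K] L) (a : 𝓞 K) :
    g (algebraMap (𝓞 K) L a) = algebraMap (𝓞 K) L a := by
  rw [IsScalarTower.algebraMap_apply (𝓞 K) K L]
  exact g.commutes _

theorem lvA_isIntegral {q : 𝓞 K} {C : ℕ → 𝓞 K} {M : ℕ} {x : L} (hx : x ∈ LvA L q C M) :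
    IsIntegral ℤ x :=
  lv_isIntegral (alg_isIntegral q) (fun j => alg_isIntegral (C j)) hx

theorem lvA_map (g : L ≃ₐ[K] L) {q : 𝓞 K} {C : ℕ → 𝓞 K} {r : ℕ} {x : L} (hx : x ∈ LvA L q C r) :
    g x ∈ LvA L q C r := by
  have h := lv_map (g : L →+* L) hx
  have h1 : ∀ a : 𝓞 K, (g : L →+* L) (algebraMap (𝓞 K) L a) = algebraMap (𝓞 K) L a :=
    fun a => alg_comm g a
  simp only [h1] at h
  exact h

theorem lvA_coe {q : 𝓞 K} {C : ℕ → 𝓞 K} {r : ℕ} {x : 𝓞 L} (hx : x ∈ LvA (𝓞 L) q C r) :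
    (x : L) ∈ LvA L q C r :=
  lv_map (algebraMap (𝓞 L) L) hx

/-- Level elements are integral: lifting to the ring of integers. -/
theorem lvA_int {q : 𝓞 K} {C : ℕ → 𝓞 K} {M : ℕ} {x : L}
    (hx : x ∈ LvA L q C M) : ∃ x' : 𝓞 L, x' ∈ LvA (𝓞 L) q C M ∧ (x' : L) = x := by
  induction M generalizing x with
  | zero =>
    have hx2 : x = algebraMap (𝓞 K) L q := by
      have h := hx
      rw [LvA, lv_zero, Set.mem_singleton_iff] at h
      exact h
    refine ⟨algebraMap (𝓞 K) (𝓞 L) q, ?_, ?_⟩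
    · rw [LvA, lv_zero]
      exact rfl
    · rw [hx2]
      rfl
  | succ M ih =>
    have hxi : IsIntegral ℤ x := lvA_isIntegral hx
    obtain ⟨z, hz, hzx⟩ := lv_parent hx
    obtain ⟨z', hz', rfl⟩ := ih hz
    refine ⟨⟨x, hxi⟩, lv_child hz' ?_, rfl⟩
    apply RingOfIntegers.coe_injective
    exact hzx

end

end Pool.Agent.PTN
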