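import Pool.Agent.PTN.Defs

set_option autoImplicit false

/-!
POS: the positive real chain (as SYL/POSR.lean, with c : ℕ → ℝ instead of natural numbers).
-/

namespace Pool.Agent.PTN

theorem posr_zero (q : ℝ) (c : ℕ → ℝ) : posr q c 0 = q := rfl

theorem posr_pos {q : ℝ} {c : ℕ → ℝ} (hq : 0 < q) (h0 : c 0 = 0) (hc : ∀ j, 0 < c (j + 1)) :
    ∀ j, 0 < posr q c j := by
  have hc0 : ∀ j, 0 ≤ c j := by
    intro j
    cases j with
    | zero => exact h0.ge
    | succ j => exact (hc j).le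
  intro j
  induction j with
  | zero => exact hq
  | succ j ih =>
    show 0 < (-c j + Real.sqrt (c j ^ 2 + 4 * c (j + 1) * posr q c j)) / 2
    have h2 := hc j
    have h4 : c j < Real.sqrt (c j ^ 2 + 4 * c (j + 1) * posr q c j) := by
      rw [Real.lt_sqrt (hc0 j)]
      have : 0 < 4 * c (j + 1) * posr q c j := by positivity
      linarith
    linarith

theorem posr_rec {q : ℝ} {c : ℕ → ℝ} (hq : 0 < q) (h0 : c 0 = 0) (hc : ∀ j, 0 < c (j + 1)) :
    ∀ j, posr q c (j + 1) * (posr q c (j + 1) + c j) = c (j + 1) * posr q c j := by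
  intro j
  have h1 := posr_pos hq h0 hc j
  have h2 := hc j
  have h4 : 0 ≤ c j ^ 2 + 4 * c (j + 1) * posr q c j := by positivity
  have h5 := Real.sq_sqrt h4
  have h6 : posr q c (j + 1) =
    (-c j + Real.sqrt (c j ^ 2 + 4 * c (j + 1) * posr q c j)) / 2 := rfl
  rw [h6]
  nlinarith

/-- The two roots of the quadratic above `posr j`, in `ℂ`. -/
theorem posr_child {q : ℝ} {c : ℕ → ℝ} (hq : 0 < q) (h0 : c 0 = 0) (hc : ∀ j, 0 < c (j + 1))
    {j : ℕ} {y : ℂ}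
    (hy : y * (y + ((c j : ℝ) : ℂ)) = ((c (j + 1) : ℝ) : ℂ) * ((posr q c j : ℝ) : ℂ)) :
    y = ((posr q c (j + 1) : ℝ) : ℂ) ∨ y = -((c j : ℝ) : ℂ) - ((posr q c (j + 1) : ℝ) : ℂ) := by
  have h1 := posr_rec hq h0 hc j
  have h2 : ((posr q c (j + 1) : ℝ) : ℂ) * (((posr q c (j + 1) : ℝ) : ℂ) + ((c j : ℝ) : ℂ)) =
      ((c (j + 1) : ℝ) : ℂ) * ((posr q c j : ℝ) : ℂ) := by
    exact_mod_cast h1
  have h3 : (y - ((posr q c (j + 1) : ℝ) : ℂ)) *
      (y - (-((c j : ℝ) : ℂ) - ((posr q c (j + 1) : ℝ) : ℂ))) = 0 := by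
    linear_combination hy - h2
  rcases mul_eq_zero.1 h3 with h | h
  · exact Or.inl (sub_eq_zero.1 h)
  · exact Or.inr (sub_eq_zero.1 h)

end Pool.Agent.PTN
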