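import Pool.Agent.PTN.Defs
import Pool.Agent.PTN.LEV
import Pool.Agent.PTN.POS

set_option autoImplicit false

/-!
VCH: adapt SYL/VCH.lean (posr_child, posr_rec).
-/

namespace Pool.Agent.PTN

open NumberField

/-- `φ` on the coefficients. -/
theorem phi_coe {K : Type} [Field K] [NumberField K] {ψ : K →+* ℝ} {L : Type} [Field L]
    [NumberField L] [Algebra K L] {φ : L →+* ℂ}
    (hφ : ∀ x : K, φ (algebraMap K L x) = ((ψ x : ℝ) : ℂ)) (a : 𝓞 K) :
    φ (algebraMap (𝓞 K) L a) = ((ψ (a : K) : ℝ) : ℂ) := by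
  rw [IsScalarTower.algebraMap_apply (𝓞 K) K L]
  exact hφ _

/-- The positive real chain inside `L`. -/
theorem exists_chain {K : Type} [Field K] [NumberField K] (ψ : K →+* ℝ) (q : 𝓞 K) (C : ℕ → 𝓞 K)
    (i : ℕ) (hq : 0 < ψ (q : K)) (hC0 : C 0 = 0) (hC : ∀ j, 0 < ψ (C (j + 1) : K))
    (L : Type) [Field L] [NumberField L] [Algebra K L] (φ : L →+* ℂ)
    (hφ : ∀ x : K, φ (algebraMap K L x) = ((ψ x : ℝ) : ℂ)) (hfull : FullA L q C (i + 1)) :
    ∃ v : ℕ → L, (∀ j, j ≤ i + 1 → v j ∈ LvA L q C j) ∧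
      (∀ j, j ≤ i + 1 →
        φ (v j) = ((posr (ψ (q : K)) (fun j => ψ (C j : K)) j : ℝ) : ℂ)) := by
  have hc0 : (fun j => ψ (C j : K)) 0 = 0 := by
    show ψ (C 0 : K) = 0
    rw [hC0]
    simp
  have key : ∀ j, j ≤ i + 1 → ∃ z : L, z ∈ LvA L q C j ∧
      φ z = ((posr (ψ (q : K)) (fun j => ψ (C j : K)) j : ℝ) : ℂ) := by
    intro j
    induction j with
    | zero =>
      intro _
      refine ⟨algebraMap (𝓞 K) L q, ?_, ?_⟩
      · show algebraMap (𝓞 K) L q ∈ Lv (algebraMap (𝓞 K) L q) _ 0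
        rw [lv_zero]
        rfl
      · rw [phi_coe hφ, posr_zero]
    | succ j ih =>
      intro hj
      obtain ⟨x, hx, hφx⟩ := ih (by omega)
      obtain ⟨y, hy⟩ := hfull j (by omega) x hx
      have h1 : φ y * (φ y + ((ψ (C j : K) : ℝ) : ℂ)) = ((ψ (C (j + 1) : K) : ℝ) : ℂ) *
          ((posr (ψ (q : K)) (fun j => ψ (C j : K)) j : ℝ) : ℂ) := by
        rw [← hφx, ← phi_coe hφ (C j), ← phi_coe hφ (C (j + 1)), ← map_add, ← map_mul,
          ← map_mul, hy]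
      rcases posr_child (c := fun j => ψ (C j : K)) hq hc0 hC h1 with h2 | h2
      · exact ⟨y, lv_child hx hy, h2⟩
      · refine ⟨-(algebraMap (𝓞 K) L (C j)) - y, lv_child hx ?_, ?_⟩
        · rw [← hy]
          ring
        · rw [map_sub, map_neg, phi_coe hφ, h2]
          ring
  choose! v hv1 hv2 using key
  exact ⟨v, hv1, hv2⟩

/-- In the Galois setting the positive chain satisfies the recursion. -/
theorem v_rec {K : Type} [Field K] [NumberField K] {ψ : K →+* ℝ} {q : 𝓞 K} {C : ℕ → 𝓞 K}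
    {I1 i : ℕ} {𝔩 : Ideal (𝓞 K)} (h : PatK ψ q C I1 i 𝔩)
    {L : Type} [Field L] [NumberField L] [Algebra K L] {φ : L →+* ℂ} {c : L ≃ₐ[K] L}
    {v : ℕ → L} (hG : GalK ψ q C i L φ c v) :
    ∀ j, j ≤ i → v (j + 1) * (v (j + 1) + algebraMap (𝓞 K) L (C j)) =
      algebraMap (𝓞 K) L (C (j + 1)) * v j := by
  intro j hj
  apply φ.injective
  rw [map_mul, map_add, map_mul, phi_coe hG.base, phi_coe hG.base, hG.vpos (j + 1) (by omega),
    hG.vpos j (by omega)]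
  have hc0 : (fun j => ψ (C j : K)) 0 = 0 := by
    show ψ (C 0 : K) = 0
    rw [h.hC0]
    simp
  have h1 := posr_rec (c := fun j => ψ (C j : K)) h.hq hc0 h.cpos j
  exact_mod_cast h1

end Pool.Agent.PTN
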