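import Pool.Agent.PTN.Defs
import Pool.Agent.PTN.LEV
import Pool.Agent.PTN.POS
import Pool.Agent.PTN.VCH

set_option autoImplicit false

/-!
ORB: adapt SYL/ORB.lean: real_lev is now the hypothesis h.real, irrationality is h.irr (v r not in K), ℚ is replaced by K.
-/

namespace Pool.Agent.PTN

open NumberField

/-- The two roots of `y (y + b) = a`. -/
theorem orb_roots {F : Type*} [Field F] {a b y z : F} (hy : y * (y + b) = a)
    (hz : z * (z + b) = a) : z = y ∨ z = -b - y := by
  have h : (z - y) * (z - (-b - y)) = 0 := by linear_combination hz - hy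
  rcases mul_eq_zero.1 h with h | h
  · exact Or.inl (sub_eq_zero.1 h)
  · exact Or.inr (sub_eq_zero.1 h)

/-- The other root. -/
theorem orb_other {F : Type*} [CommRing F] {a b y : F} (hy : y * (y + b) = a) :
    (-b - y) * ((-b - y) + b) = a := by
  linear_combination hy

/-- Real elements are fixed by complex conjugation and conversely. -/
theorem orb_fixed_iff {K L : Type} [Field K] [Field L] [Algebra K L] {φ : L →+* ℂ}
    {c : L ≃ₐ[K] L} (hc : ∀ x : L, φ (c x) = (starRingEnd ℂ) (φ x)) (x : L) :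
    c x = x ↔ (φ x).im = 0 := by
  rw [← φ.injective.eq_iff, hc]
  exact Complex.conj_eq_iff_im

/-- Orbits of level elements have cardinality a power of two (dividing `2 ^ r`). -/
theorem orbit_card {K : Type} [Field K] [NumberField K] {q : 𝓞 K} {C : ℕ → 𝓞 K} {r : ℕ}
    (hC : ∀ j, j < r → C (j + 1) ≠ 0) (L : Type) [Field L] [NumberField L] [Algebra K L]
    [IsGalois K L] {x : L} (hx : x ∈ LvA L q C r) :
    ({y : L | ∃ g : L ≃ₐ[K] L, g x = y}.ncard) ∣ 2 ^ r := by
  have key : ∀ r, (∀ j, j < r → C (j + 1) ≠ 0) → ∀ x ∈ LvA L q C r,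
      (MulAction.stabilizer (L ≃ₐ[K] L) x).index ∣ 2 ^ r := by
    intro r
    induction r with
    | zero =>
      intro _ x hx
      rw [LvA, lv_zero] at hx
      have hx' : x = algebraMap (𝓞 K) L q := hx
      have h1 : MulAction.stabilizer (L ≃ₐ[K] L) x = ⊤ := by
        rw [eq_top_iff]
        intro g _
        rw [MulAction.mem_stabilizer_iff, hx', AlgEquiv.smul_def, alg_comm]
      rw [h1, Subgroup.index_top, pow_zero]
    | succ r ih =>
      intro hC x hx
      obtain ⟨x', hx', hxx⟩ := lv_parent hx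
      have hC0 : algebraMap (𝓞 K) L (C (r + 1)) ≠ 0 := by
        intro h0
        apply hC r (Nat.lt_succ_self r)
        rw [IsScalarTower.algebraMap_apply (𝓞 K) K L] at h0
        have h1 := (map_eq_zero (algebraMap K L)).1 h0
        exact RingOfIntegers.coe_injective (h1.trans (map_zero (algebraMap (𝓞 K) K)).symm)
      have hle : MulAction.stabilizer (L ≃ₐ[K] L) x ≤ MulAction.stabilizer (L ≃ₐ[K] L) x' := by
        intro g hg
        rw [MulAction.mem_stabilizer_iff, AlgEquiv.smul_def] at hg ⊢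
        have h1 := congrArg g hxx
        rw [map_mul, map_mul, map_add, alg_comm, alg_comm, hg, hxx] at h1
        exact (mul_left_cancel₀ hC0 h1).symm
      rw [← Subgroup.relIndex_mul_index hle, pow_succ, mul_comm]
      refine mul_dvd_mul (ih (fun j hj => hC j (hj.trans (Nat.lt_succ_self r))) x' hx') ?_
      have h2 : (MulAction.stabilizer (L ≃ₐ[K] L) x).relIndex
          (MulAction.stabilizer (L ≃ₐ[K] L) x') =
          (MulAction.orbit (MulAction.stabilizer (L ≃ₐ[K] L) x') x).ncard := by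
        rw [← MulAction.index_stabilizer]
        rfl
      rw [h2]
      have h3 : MulAction.orbit (MulAction.stabilizer (L ≃ₐ[K] L) x') x ⊆
          {x, -algebraMap (𝓞 K) L (C r) - x} := by
        rintro _ ⟨⟨g, hg⟩, rfl⟩
        rw [MulAction.mem_stabilizer_iff, AlgEquiv.smul_def] at hg
        have h1 := congrArg g hxx
        rw [map_mul, map_mul, map_add, alg_comm, alg_comm, hg] at h1
        exact orb_roots hxx h1
      have h4 : (MulAction.orbit (MulAction.stabilizer (L ≃ₐ[K] L) x') x).ncard ≤ 2 :=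
        (Set.ncard_le_ncard h3 (Set.toFinite _)).trans
          ((Set.ncard_insert_le _ _).trans (by rw [Set.ncard_singleton]))
      have h5 : 0 < (MulAction.orbit (MulAction.stabilizer (L ≃ₐ[K] L) x') x).ncard :=
        (Set.ncard_pos ((Set.toFinite _).subset h3)).2 (MulAction.nonempty_orbit x)
      interval_cases h6 : (MulAction.orbit (MulAction.stabilizer (L ≃ₐ[K] L) x') x).ncard
      · exact one_dvd 2
      · exact dvd_refl 2
  have h1 := key r hC x hx
  rw [MulAction.index_stabilizer] at h1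
  exact h1

/-- Parity: the sibling of the real element `v r` is conjugate to it. -/
theorem exists_conj_sib {K : Type} [Field K] [NumberField K] {ψ : K →+* ℝ} {q : 𝓞 K}
    {C : ℕ → 𝓞 K} {I1 i : ℕ} {𝔩 : Ideal (𝓞 K)} (h : PatK ψ q C I1 i 𝔩)
    {L : Type} [Field L] [NumberField L] [Algebra K L] [IsGalois K L] {φ : L →+* ℂ}
    {c : L ≃ₐ[K] L} {v : ℕ → L} (hG : GalK ψ q C i L φ c v) {r : ℕ} (hr1 : I1 ≤ r)
    (hr2 : r ≤ i) :
    ∃ g : L ≃ₐ[K] L, g (v r) = -algebraMap (𝓞 K) L (C (r - 1)) - v r := by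
  classical
  by_contra hcon
  have hCne : ∀ j, C (j + 1) ≠ 0 := by
    intro j h0
    have h1 := h.cpos j
    rw [h0] at h1
    have h2 : ψ (algebraMap (𝓞 K) K 0) = 0 := by
      rw [map_zero, map_zero]
    exact lt_irrefl (0 : ℝ) (h1.trans_eq h2)
  have hvr : v r ∈ LvA L q C r := hG.vlev r (by omega)
  set O : Set L := {y : L | ∃ g : L ≃ₐ[K] L, g (v r) = y} with hO
  have hOfin : O.Finite := Set.toFinite (Set.range fun g : L ≃ₐ[K] L => g (v r))
  have hcard : O.ncard ∣ 2 ^ r := orbit_card (fun j _ => hCne j) L hvr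
  have hne1 : O.ncard ≠ 1 := by
    intro h1
    obtain ⟨y, hy⟩ := Set.ncard_eq_one.1 h1
    have hfix : ∀ g : L ≃ₐ[K] L, g (v r) = v r := by
      intro g
      have h2 : g (v r) ∈ O := ⟨g, rfl⟩
      have h3 : v r ∈ O := ⟨1, rfl⟩
      rw [hy] at h2 h3
      exact h2.trans h3.symm
    obtain ⟨x, hx⟩ := (IsGalois.mem_range_algebraMap_iff_fixed (F := K) (v r)).2 hfix
    apply h.irr r hr1 x
    have h2 := hG.vpos r (by omega)
    rw [← hx, hG.base] at h2
    exact_mod_cast h2
  have heven : 2 ∣ O.ncard := by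
    obtain ⟨k, _, hk⟩ := (Nat.dvd_prime_pow Nat.prime_two).1 hcard
    rw [hk]
    rcases Nat.eq_zero_or_pos k with h0 | h0
    · rw [h0, pow_zero] at hk
      exact absurd hk hne1
    · exact dvd_pow_self 2 h0.ne'
  -- the involution
  have hcc : ∀ x : L, c (c x) = x := by
    intro x
    apply φ.injective
    rw [hG.conj, hG.conj, Complex.conj_conj]
  have hcO : ∀ y ∈ O, c y ∈ O := by
    rintro _ ⟨g, rfl⟩
    exact ⟨c * g, rfl⟩
  have : Fintype O := hOfin.fintype
  let f : Function.End O := fun y => ⟨c y.1, hcO y.1 y.2⟩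
  have hf : f ^ 2 ^ 1 = 1 := by
    rw [pow_one, pow_two]
    funext y
    apply Subtype.ext
    exact hcc y.1
  have : Fact (Nat.Prime 2) := ⟨Nat.prime_two⟩
  have hmod := Equiv.Perm.card_fixedPoints_modEq (p := 2) (n := 1) hf
  have hO2 : Fintype.card O = O.ncard := by
    rw [← Nat.card_coe_set_eq, Nat.card_eq_fintype_card]
  have hfixv : c (v r) = v r := by
    rw [orb_fixed_iff hG.conj, hG.vpos r (by omega)]
    exact Complex.ofReal_im _
  have hsub : ∀ y ∈ O, c y = y → y = v r := by
    intro y hy hcy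
    have him : (φ y).im = 0 := (orb_fixed_iff hG.conj y).1 hcy
    have hyl : φ y ∈ LvC (ψ (q : K)) (fun j => ψ (C j : K)) r := by
      obtain ⟨g, rfl⟩ := hy
      have h5 := lv_map φ (lvA_map g hvr)
      simp only [phi_coe hG.base] at h5
      exact h5
    rcases h.real r hr1 _ hyl him with h1 | h1
    · rw [← hG.vpos r (by omega)] at h1
      exact φ.injective h1
    · exfalso
      apply hcon
      obtain ⟨g, hg⟩ := hy
      refine ⟨g, ?_⟩
      rw [hg]
      apply φ.injective
      rw [h1, map_sub, map_neg, phi_coe hG.base, hG.vpos r (by omega)]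
  have hone : Fintype.card f.fixedPoints = 1 := by
    rw [Fintype.card_eq_one_iff]
    refine ⟨⟨⟨v r, ⟨1, rfl⟩⟩, Subtype.ext hfixv⟩, ?_⟩
    rintro ⟨⟨y, hy⟩, hy2⟩
    apply Subtype.ext
    apply Subtype.ext
    exact hsub y hy (congrArg Subtype.val hy2)
  rw [hone, hO2] at hmod
  have h9 : O.ncard % 2 = 1 := hmod
  omega

end Pool.Agent.PTN
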