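import Pool.Agent.PTN.Defs
import Pool.Agent.PTN.LEV

set_option autoImplicit false

/-!
STP: adapt SYL/STP.lean.
-/

namespace Pool.Agent.PTN

open NumberField

/-- Children of an inertia fixed element with discriminant outside `P`. -/
theorem children_fixed {K : Type} [Field K] [NumberField K] {C : ℕ → 𝓞 K} {j : ℕ} {L : Type}
    [Field L] [NumberField L] [Algebra K L] (P : Ideal (𝓞 L)) (hP : P.IsPrime) {w z : L}
    (hz' : IsIntegral ℤ z) (hw : InFixK K P w)
    (hz : z * (z + algebraMap (𝓞 K) L (C j)) = algebraMap (𝓞 K) L (C (j + 1)) * w)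
    (hd : ∀ d : 𝓞 L, (d : L) = (algebraMap (𝓞 K) L (C j)) ^ 2 +
      4 * algebraMap (𝓞 K) L (C (j + 1)) * w → d ∉ P) :
    InFixK K P z := by
  intro σ hσ
  have h1 : σ w = w := hw σ hσ
  have h2 : σ z * (σ z + algebraMap (𝓞 K) L (C j)) = algebraMap (𝓞 K) L (C (j + 1)) * w := by
    have h := congrArg σ hz
    rw [map_mul, map_add, map_mul, alg_comm, alg_comm, h1] at h
    exact h
  obtain ⟨b, hb, hbz⟩ := hσ ⟨z, hz'⟩
  have hbz' : σ z = z + (b : L) := hbz
  have h3 : (σ z - z) * (σ z + z + algebraMap (𝓞 K) L (C j)) = 0 := by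
    linear_combination h2 - hz
  rcases mul_eq_zero.mp h3 with h4 | h4
  · exact sub_eq_zero.mp h4
  · exfalso
    refine hd (b ^ 2) ?_ (P.pow_mem_of_mem hb 2 (by norm_num))
    have h5 : (b : L) = - algebraMap (𝓞 K) L (C j) - 2 * z := by
      linear_combination h4 - hbz'
    have h6 : ((b ^ 2 : 𝓞 L) : L) = (b : L) ^ 2 := by
      rw [RingOfIntegers.coe_eq_algebraMap, RingOfIntegers.coe_eq_algebraMap, map_pow]
    rw [h6, h5]
    linear_combination 4 * hz

/-- If `c`, `4` are not in `P` and `z - z'` is not in `P`, one of the two has discriminant outside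
`P` (difference of the two: `4 c (z - z')`). -/
theorem exists_good_child {R : Type*} [CommRing R] (P : Ideal R) (hP : P.IsPrime)
    (h2 : (2 : R) ∉ P) (b c z z' : R) (hc : c ∉ P) (hzz : z - z' ∉ P) :
    b ^ 2 + 4 * c * z ∉ P ∨ b ^ 2 + 4 * c * z' ∉ P := by
  by_contra hcon
  push Not at hcon
  obtain ⟨h3, h4⟩ := hcon
  have h5 := P.sub_mem h3 h4
  have h6 : b ^ 2 + 4 * c * z - (b ^ 2 + 4 * c * z') = 2 * (2 * (c * (z - z'))) := by ring
  rw [h6] at h5
  rcases hP.mem_or_mem h5 with h | h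
  · exact h2 h
  · rcases hP.mem_or_mem h with h | h
    · exact h2 h
    · rcases hP.mem_or_mem h with h | h
      · exact hc h
      · exact hzz h

end Pool.Agent.PTN
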