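import Pool.Agent.PTN.Defs
import Pool.Agent.PTN.LEV
import Pool.Agent.PTN.POS
import Pool.Agent.PTN.VCH
import Pool.Agent.PTN.ORB

set_option autoImplicit false

/-!
TRN: adapt SYL/TRN.lean.
-/

namespace Pool.Agent.PTN

open NumberField

/-- Both children of an element of the orbit of `v r` lie in the orbit of `v (r+1)`. -/
theorem child_mem_orbit {K : Type} [Field K] [NumberField K] {ψ : K →+* ℝ} {q : 𝓞 K}
    {C : ℕ → 𝓞 K} {I1 i : ℕ} {𝔩 : Ideal (𝓞 K)} (h : PatK ψ q C I1 i 𝔩)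
    {L : Type} [Field L] [NumberField L] [Algebra K L] [IsGalois K L] {φ : L →+* ℂ}
    {c : L ≃ₐ[K] L} {v : ℕ → L} (hG : GalK ψ q C i L φ c v) {r : ℕ} (hr1 : I1 ≤ r)
    (hr2 : r < i) {g : L ≃ₐ[K] L} {z : L}
    (hz : z * (z + algebraMap (𝓞 K) L (C r)) = algebraMap (𝓞 K) L (C (r + 1)) * g (v r)) :
    ∃ g' : L ≃ₐ[K] L, g' (v (r + 1)) = z := by
  have hrec := v_rec h hG r hr2.le
  obtain ⟨g1, hg1⟩ := exists_conj_sib h hG (r := r + 1) (by omega) hr2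
  rw [Nat.add_sub_cancel] at hg1
  obtain ⟨y, hy⟩ : ∃ y, g y = z := ⟨g.symm z, g.apply_symm_apply z⟩
  have h1 : y * (y + algebraMap (𝓞 K) L (C r)) = algebraMap (𝓞 K) L (C (r + 1)) * v r := by
    apply g.injective
    rw [map_mul, map_add, map_mul, alg_comm, alg_comm, hy, hz]
  rcases orb_roots hrec h1 with h3 | h3
  · refine ⟨g, ?_⟩
    rw [← h3, hy]
  · refine ⟨g1.trans g, ?_⟩
    rw [AlgEquiv.trans_apply, hg1, ← h3, hy]

end Pool.Agent.PTN
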