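import Pool.Agent.PTN.Defs
import Pool.Agent.PTN.LEV
import Pool.Agent.PTN.POS
import Pool.Agent.PTN.VCH
import Pool.Agent.PTN.ORB
import Pool.Agent.PTN.TRN
import Pool.Agent.PTN.STP

set_option autoImplicit false

/-!
PTB: adapt SYL/PTB.lean, with one new point: hits C j ∈ 𝔩 with I1 + 1 < j < i are allowed. P lies over 𝔩 (hPl: a ∈ 𝔩 iff its image is in P).
Invariant PInv r w: w in level r, in the orbit of v r, fixed by inertia, w ∉ P (as an integral element), discriminant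
C r ^ 2 + 4 C (r+1) w ∉ P, sibling -C (r-1) - w fixed by inertia.
Start r = I1: all level <= I1 elements are outside P (q, C 1 .. C I1 ∉ 𝔩, z * (z + C) = C' x), level I1 separated (SepA, hD) so fixed by
inertia and v I1 - v' I1 ∉ P, C (I1+1) ∉ 𝔩: exists_good_child.
Step r -> r+1 (r + 1 < i), children z, z' = -C r - z of w: both fixed by inertia (children_fixed); (z - z')^2 = disc ∉ P; z z' = -C (r+1) w.
 (a) C (r+1) ∈ 𝔩: then C r ∉ 𝔩 (nocons), one of z, z' is not in P (z + z' = -C r); it has discriminant C (r+1)^2 + 4 C (r+2) z, not in P since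
     C (r+2) ∉ 𝔩 (nocons), 2 ∉ 𝔩.
 (b) C (r+1) ∉ 𝔩: both are outside P (z z' = -C (r+1) w). If C (r+2) ∈ 𝔩 then the discriminant is C (r+1)^2 mod P: fine for any child.
     Otherwise exists_good_child.
 Orbit: child_mem_orbit (r + 1 <= i).
-/

namespace Pool.Agent.PTN

open NumberField

private theorem ptb_ext {L : Type*} [Field L] {a b : 𝓞 L}
    (h : algebraMap (𝓞 L) L a = algebraMap (𝓞 L) L b) : a = b :=
  RingOfIntegers.ext h

section

variable {K : Type} [Field K] [NumberField K] {L : Type} [Field L] [NumberField L] [Algebra K L]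

/-- The discriminant as an integer. -/
private theorem ptb_disc {d z : 𝓞 L} {m n : 𝓞 K} {x : L}
    (hd : (d : L) = algebraMap (𝓞 K) L m ^ 2 + 4 * algebraMap (𝓞 K) L n * x) (hz : (z : L) = x) :
    d = (algebraMap (𝓞 K) (𝓞 L) m) ^ 2 + 4 * (algebraMap (𝓞 K) (𝓞 L) n) * z := by
  apply ptb_ext
  have hd2 : algebraMap (𝓞 L) L d = algebraMap (𝓞 K) L m ^ 2 + 4 * algebraMap (𝓞 K) L n * x := hd
  have hz2 : algebraMap (𝓞 L) L z = x := hz
  have hm : algebraMap (𝓞 L) L (algebraMap (𝓞 K) (𝓞 L) m) = algebraMap (𝓞 K) L m := rfl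
  have hn : algebraMap (𝓞 L) L (algebraMap (𝓞 K) (𝓞 L) n) = algebraMap (𝓞 K) L n := rfl
  rw [hd2, map_add, map_mul, map_mul, map_pow, hm, hn, hz2, map_ofNat]

/-- Elements of the separated level are fixed by inertia. -/
private theorem ptb_lev_inFix {q : 𝓞 K} {C : ℕ → 𝓞 K} {I D : ℕ} (hs : SepA K q C I D)
    (P : Ideal (𝓞 L)) (hP : P.IsPrime)
    (hDP : ((D : ℕ) : 𝓞 L) ∉ P) {x : L} (hx : x ∈ LvA L q C I) : InFixK K P x := by
  intro σ hσ
  obtain ⟨x', hx', rfl⟩ := lvA_int hx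
  obtain ⟨b, hb, hb'⟩ := hσ x'
  have h1 : σ (x' : L) ∈ LvA L q C I := lvA_map σ hx
  obtain ⟨y', hy', hy⟩ := lvA_int h1
  have h2 : y' - x' = b := by
    apply ptb_ext
    have hy2 : algebraMap (𝓞 L) L y' = σ (x' : L) := hy
    rw [map_sub, hy2, hb']
    exact add_sub_cancel_left _ _
  by_contra hne
  have h3 : y' ≠ x' := by
    rintro rfl
    exact hne hy.symm
  exact hs L P hP hDP y' x' hy' hx' h3 (by rw [h2]; exact hb)

private theorem ptb_memP {𝔩 : Ideal (𝓞 K)} {P : Ideal (𝓞 L)}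
    (hPl : P.comap (algebraMap (𝓞 K) (𝓞 L)) = 𝔩) (a : 𝓞 K) :
    algebraMap (𝓞 K) (𝓞 L) a ∈ P ↔ a ∈ 𝔩 := by
  rw [← hPl, Ideal.mem_comap]

end

section

variable {K : Type} [Field K] [NumberField K] {ψ : K →+* ℝ} {q : 𝓞 K}
    {C : ℕ → 𝓞 K} {I1 i : ℕ} {𝔩 : Ideal (𝓞 K)} (h : PatK ψ q C I1 i 𝔩)
    {D : ℕ} (hD : ((D : ℕ) : 𝓞 K) ∉ 𝔩) (hs : SepA K q C I1 D)
    {L : Type} [Field L] [NumberField L] [Algebra K L] [IsGalois K L] {φ : L →+* ℂ}
    {c : L ≃ₐ[K] L} {v : ℕ → L} (hG : GalK ψ q C i L φ c v) (P : Ideal (𝓞 L)) (hP : P.IsPrime)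
    (hPl : P.comap (algebraMap (𝓞 K) (𝓞 L)) = 𝔩)

/-- The invariant of the path. -/
private def PInv (q : 𝓞 K) (C : ℕ → 𝓞 K) {L : Type} [Field L] [NumberField L] [Algebra K L]
    (v : ℕ → L) (P : Ideal (𝓞 L)) (r : ℕ) (w : L) : Prop :=
  w ∈ LvA L q C r ∧ (∃ g : L ≃ₐ[K] L, g (v r) = w) ∧ InFixK K P w ∧
    (∀ d : 𝓞 L, (d : L) = (algebraMap (𝓞 K) L (C r)) ^ 2 +
      4 * algebraMap (𝓞 K) L (C (r + 1)) * w → d ∉ P) ∧
    InFixK K P (-algebraMap (𝓞 K) L (C (r - 1)) - w) ∧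
    (∀ a : 𝓞 L, (a : L) = w → a ∉ P)

include h hPl in
private theorem ptb_two : (2 : 𝓞 L) ∉ P := by
  intro hmem
  apply h.two
  rw [← ptb_memP hPl, map_ofNat]
  exact hmem

include hP in
private theorem ptb_children {r : ℕ} {w : L} (hw : PInv q C v P r w) (z : L)
    (hz : z * (z + algebraMap (𝓞 K) L (C r)) = algebraMap (𝓞 K) L (C (r + 1)) * w) :
    InFixK K P z :=
  children_fixed (C := C) P hP (lvA_isIntegral (q := q) (C := C) (M := r + 1)
    (lv_child hw.1 hz)) hw.2.2.1 hz hw.2.2.2.1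

include h hP hPl in
/-- The elements of the levels up to `I1` are units at `P`. -/
private theorem ptb_unit : ∀ r, r ≤ I1 → ∀ a : 𝓞 L, a ∈ LvA (𝓞 L) q C r → a ∉ P := by
  intro r
  induction r with
  | zero =>
    intro _ a ha
    rw [LvA, lv_zero, Set.mem_singleton_iff] at ha
    rw [ha, ptb_memP hPl]
    exact h.notq
  | succ r ih =>
    intro hr a ha hmem
    obtain ⟨x, hx, hxa⟩ := lv_parent ha
    have h1 := ih (by omega) x hx
    have h2 : algebraMap (𝓞 K) (𝓞 L) (C (r + 1)) * x ∈ P := by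
      rw [← hxa]
      exact P.mul_mem_right _ hmem
    rcases hP.mem_or_mem h2 with h3 | h3
    · rw [ptb_memP hPl] at h3
      exact h.first (r + 1) (by omega) (by omega) h3
    · exact h1 h3

include h hD hs hG hP hPl in
private theorem ptb_start : ∃ w : L, PInv q C v P I1 w := by
  have hlt : I1 < i := by
    have := h.late
    omega
  have h2P := ptb_two h P hPl
  have hDP : ((D : ℕ) : 𝓞 L) ∉ P := by
    intro hmem
    apply hD
    rw [← ptb_memP hPl, map_natCast]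
    exact hmem
  have hv : v I1 ∈ LvA L q C I1 := hG.vlev I1 (by omega)
  obtain ⟨g, hg⟩ := exists_conj_sib h hG (r := I1) le_rfl hlt.le
  have hv' : -algebraMap (𝓞 K) L (C (I1 - 1)) - v I1 ∈ LvA L q C I1 := by
    rw [← hg]
    exact lvA_map g hv
  have hc0 : (fun j => ψ (C j : K)) 0 = 0 := by
    show ψ (C 0 : K) = 0
    rw [h.hC0]
    simp
  have hne : v I1 ≠ -algebraMap (𝓞 K) L (C (I1 - 1)) - v I1 := by
    intro he
    have h1 := congrArg φ he
    rw [map_sub, map_neg, phi_coe hG.base, hG.vpos I1 (by omega)] at h1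
    have h2 : (posr (ψ (q : K)) (fun j => ψ (C j : K)) I1 : ℝ) =
        -(ψ (C (I1 - 1) : K)) - posr (ψ (q : K)) (fun j => ψ (C j : K)) I1 := by
      exact_mod_cast h1
    have h3 : 0 < posr (ψ (q : K)) (fun j => ψ (C j : K)) I1 :=
      posr_pos (c := fun j => ψ (C j : K)) h.hq hc0 h.cpos I1
    have h4 : (0 : ℝ) ≤ ψ (C (I1 - 1) : K) := by
      rcases Nat.eq_zero_or_pos (I1 - 1) with h5 | h5
      · rw [h5]
        exact hc0.ge
      · obtain ⟨j, hj⟩ : ∃ j, I1 - 1 = j + 1 := ⟨I1 - 2, by omega⟩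
        rw [hj]
        exact (h.cpos j).le
    linarith
  obtain ⟨z, hz, hzv⟩ := lvA_int hv
  obtain ⟨z', hz', hzv'⟩ := lvA_int hv'
  have hzz : z ≠ z' := by
    rintro rfl
    exact hne (hzv.symm.trans hzv')
  have hsep := hs L P hP hDP z z' hz hz' hzz
  have hC1 : algebraMap (𝓞 K) (𝓞 L) (C (I1 + 1)) ∉ P := by
    rw [ptb_memP hPl]
    exact h.first (I1 + 1) (by omega) le_rfl
  have hfix : ∀ x ∈ LvA L q C I1, InFixK K P x := fun x hx => ptb_lev_inFix hs P hP hDP hx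
  have hunit : ∀ x ∈ LvA L q C I1, ∀ a : 𝓞 L, (a : L) = x → a ∉ P := by
    intro x hx a ha
    obtain ⟨x', hx', hxx⟩ := lvA_int hx
    have h1 : a = x' := ptb_ext (ha.trans hxx.symm)
    rw [h1]
    exact ptb_unit h P hP hPl I1 le_rfl x' hx'
  rcases exists_good_child P hP h2P (algebraMap (𝓞 K) (𝓞 L) (C I1))
    (algebraMap (𝓞 K) (𝓞 L) (C (I1 + 1))) z z' hC1 hsep with h1 | h1
  · refine ⟨v I1, hv, ⟨1, rfl⟩, hfix _ hv, ?_, hfix _ hv', hunit _ hv⟩
    intro d hd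
    rw [ptb_disc hd hzv]
    exact h1
  · refine ⟨-algebraMap (𝓞 K) L (C (I1 - 1)) - v I1, hv', ⟨g, hg⟩, hfix _ hv', ?_, ?_,
      hunit _ hv'⟩
    · intro d hd
      rw [ptb_disc hd hzv']
      exact h1
    · have e : -algebraMap (𝓞 K) L (C (I1 - 1)) - (-algebraMap (𝓞 K) L (C (I1 - 1)) - v I1) =
        v I1 := by ring
      rw [e]
      exact hfix _ hv

include h hG hP hPl in
private theorem ptb_step {r : ℕ} (hr0 : I1 ≤ r) (hr : r + 1 < i) {w : L}
    (hw : PInv q C v P r w) :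
    ∃ w' : L, PInv q C v P (r + 1) w' ∧
      w' * (w' + algebraMap (𝓞 K) L (C r)) = algebraMap (𝓞 K) L (C (r + 1)) * w := by
  have h2P := ptb_two h P hPl
  obtain ⟨z, hz⟩ := hG.full r (by omega) w hw.1
  have hz2 := orb_other hz
  have hzl : z ∈ LvA L q C (r + 1) := lv_child hw.1 hz
  have hzl2 : -algebraMap (𝓞 K) L (C r) - z ∈ LvA L q C (r + 1) := lv_child hw.1 hz2
  obtain ⟨a, ha, haz⟩ := lvA_int hzl
  obtain ⟨a', ha', haz'⟩ := lvA_int hzl2
  obtain ⟨b, hb, hbw⟩ := lvA_int hw.1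
  have hfz := ptb_children P hP hw z hz
  have hfz2 := ptb_children P hP hw _ hz2
  have hbP : b ∉ P := hw.2.2.2.2.2 b hbw
  have haa : a - a' ∉ P := by
    intro hmem
    have h1 : (a - a') ^ 2 ∉ P := by
      apply hw.2.2.2.1
      have e : (((a - a') ^ 2 : 𝓞 L) : L) = ((a : L) - (a' : L)) ^ 2 := by
        change algebraMap (𝓞 L) L ((a - a') ^ 2) = _
        rw [map_pow, map_sub]
      rw [e, haz, haz']
      linear_combination 4 * hz
    exact h1 (by rw [pow_two]; exact P.mul_mem_left _ hmem)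
  -- the sum and the product
  have hsum : a + a' = -algebraMap (𝓞 K) (𝓞 L) (C r) := by
    apply ptb_ext
    have e1 : algebraMap (𝓞 L) L a = z := haz
    have e2 : algebraMap (𝓞 L) L a' = -algebraMap (𝓞 K) L (C r) - z := haz'
    have e3 : algebraMap (𝓞 L) L (algebraMap (𝓞 K) (𝓞 L) (C r)) = algebraMap (𝓞 K) L (C r) := rfl
    rw [map_add, map_neg, e1, e2, e3]
    ring
  have hprod : a * a' = -(algebraMap (𝓞 K) (𝓞 L) (C (r + 1)) * b) := by
    apply ptb_ext
    have e1 : algebraMap (𝓞 L) L a = z := haz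
    have e2 : algebraMap (𝓞 L) L a' = -algebraMap (𝓞 K) L (C r) - z := haz'
    have e3 : algebraMap (𝓞 L) L (algebraMap (𝓞 K) (𝓞 L) (C (r + 1))) =
      algebraMap (𝓞 K) L (C (r + 1)) := rfl
    have e4 : algebraMap (𝓞 L) L b = w := hbw
    rw [map_mul, map_neg, map_mul, e1, e2, e3, e4, ← hz]
    ring
  obtain ⟨g, hg⟩ := hw.2.1
  have horb : ∀ y : L, y * (y + algebraMap (𝓞 K) L (C r)) =
      algebraMap (𝓞 K) L (C (r + 1)) * w → ∃ g' : L ≃ₐ[K] L, g' (v (r + 1)) = y := by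
    intro y hy
    rw [← hg] at hy
    exact child_mem_orbit h hG hr0 (by omega) hy
  -- the choice
  have hchoice : (a ∉ P ∧ (algebraMap (𝓞 K) (𝓞 L) (C (r + 1))) ^ 2 +
      4 * (algebraMap (𝓞 K) (𝓞 L) (C (r + 2))) * a ∉ P) ∨
      (a' ∉ P ∧ (algebraMap (𝓞 K) (𝓞 L) (C (r + 1))) ^ 2 +
      4 * (algebraMap (𝓞 K) (𝓞 L) (C (r + 2))) * a' ∉ P) := by
    by_cases hC1 : C (r + 1) ∈ 𝔩
    · have hCr : C r ∉ 𝔩 := fun h1 => h.nocons r (by omega) h1 hC1
      have hC2 : C (r + 2) ∉ 𝔩 := h.nocons (r + 1) (by omega) hC1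
      have hC1' : algebraMap (𝓞 K) (𝓞 L) (C (r + 1)) ∈ P := (ptb_memP hPl _).2 hC1
      have hCr' : algebraMap (𝓞 K) (𝓞 L) (C r) ∉ P := fun h1 => hCr ((ptb_memP hPl _).1 h1)
      have hC2' : algebraMap (𝓞 K) (𝓞 L) (C (r + 2)) ∉ P :=
        fun h1 => hC2 ((ptb_memP hPl _).1 h1)
      have hd : ∀ y : 𝓞 L, y ∉ P → (algebraMap (𝓞 K) (𝓞 L) (C (r + 1))) ^ 2 +
          4 * (algebraMap (𝓞 K) (𝓞 L) (C (r + 2))) * y ∉ P := by
        intro y hy hmem
        have h3 : (algebraMap (𝓞 K) (𝓞 L) (C (r + 1))) ^ 2 ∈ P := by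
          rw [pow_two]
          exact P.mul_mem_left _ hC1'
        have h4 : 4 * (algebraMap (𝓞 K) (𝓞 L) (C (r + 2))) * y ∈ P :=
          (P.add_mem_iff_right h3).1 hmem
        have h5 : 2 * (2 * (algebraMap (𝓞 K) (𝓞 L) (C (r + 2)) * y)) ∈ P := by
          have e : (2 : 𝓞 L) * (2 * (algebraMap (𝓞 K) (𝓞 L) (C (r + 2)) * y)) =
            4 * (algebraMap (𝓞 K) (𝓞 L) (C (r + 2))) * y := by ring
          rw [e]
          exact h4
        rcases hP.mem_or_mem h5 with h6 | h6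
        · exact h2P h6
        · rcases hP.mem_or_mem h6 with h6 | h6
          · exact h2P h6
          · rcases hP.mem_or_mem h6 with h6 | h6
            · exact hC2' h6
            · exact hy h6
      by_cases haP : a ∈ P
      · right
        have ha'P : a' ∉ P := by
          intro h3
          have h4 := P.add_mem haP h3
          rw [hsum] at h4
          exact hCr' ((P.neg_mem_iff).1 h4)
        exact ⟨ha'P, hd a' ha'P⟩
      · left
        exact ⟨haP, hd a haP⟩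
    · have hC1' : algebraMap (𝓞 K) (𝓞 L) (C (r + 1)) ∉ P :=
        fun h1 => hC1 ((ptb_memP hPl _).1 h1)
      have hprodP : a * a' ∉ P := by
        rw [hprod]
        intro h1
        rcases hP.mem_or_mem ((P.neg_mem_iff).1 h1) with h3 | h3
        · exact hC1' h3
        · exact hbP h3
      have haP : a ∉ P := fun h1 => hprodP (P.mul_mem_right _ h1)
      have ha'P : a' ∉ P := fun h1 => hprodP (P.mul_mem_left _ h1)
      by_cases hC2 : C (r + 2) ∈ 𝔩
      · left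
        refine ⟨haP, fun hmem => ?_⟩
        have hC2' : algebraMap (𝓞 K) (𝓞 L) (C (r + 2)) ∈ P := (ptb_memP hPl _).2 hC2
        have h3 : 4 * (algebraMap (𝓞 K) (𝓞 L) (C (r + 2))) * a ∈ P :=
          P.mul_mem_right _ (P.mul_mem_left _ hC2')
        have h4 : (algebraMap (𝓞 K) (𝓞 L) (C (r + 1))) ^ 2 ∈ P := (P.add_mem_iff_left h3).1 hmem
        exact hC1' (hP.mem_of_pow_mem 2 h4)
      · have hC2' : algebraMap (𝓞 K) (𝓞 L) (C (r + 2)) ∉ P :=
          fun h1 => hC2 ((ptb_memP hPl _).1 h1)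
        rcases exists_good_child P hP h2P (algebraMap (𝓞 K) (𝓞 L) (C (r + 1)))
          (algebraMap (𝓞 K) (𝓞 L) (C (r + 2))) a a' hC2' haa with h1 | h1
        · exact Or.inl ⟨haP, h1⟩
        · exact Or.inr ⟨ha'P, h1⟩
  rcases hchoice with ⟨h0, h1⟩ | ⟨h0, h1⟩
  · refine ⟨z, ⟨hzl, horb z hz, hfz, ?_, ?_, ?_⟩, hz⟩
    · intro d hd
      rw [ptb_disc hd haz]
      exact h1
    · exact hfz2
    · intro y hy
      rw [ptb_ext (hy.trans haz.symm)]
      exact h0
  · refine ⟨-algebraMap (𝓞 K) L (C r) - z, ⟨hzl2, horb _ hz2, hfz2, ?_, ?_, ?_⟩, hz2⟩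
    · intro d hd
      rw [ptb_disc hd haz']
      exact h1
    · have e : -algebraMap (𝓞 K) L (C (r + 1 - 1)) - (-algebraMap (𝓞 K) L (C r) - z) = z := by
        rw [Nat.add_sub_cancel]
        ring
      rw [e]
      exact hfz
    · intro y hy
      rw [ptb_ext (hy.trans haz'.symm)]
      exact h0

include h hD hs hG hP hPl in
private theorem ptb_build (m : ℕ) (hm : I1 + m < i) :
    ∃ w : ℕ → L, (∀ r, I1 ≤ r → r ≤ I1 + m → PInv q C v P r (w r)) ∧
      ∀ r, I1 ≤ r → r + 1 ≤ I1 + m →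
        w (r + 1) * (w (r + 1) + algebraMap (𝓞 K) L (C r)) =
          algebraMap (𝓞 K) L (C (r + 1)) * w r := by
  induction m with
  | zero =>
    obtain ⟨w, hw⟩ := ptb_start h hD hs hG P hP hPl
    refine ⟨fun _ => w, fun r h1 h2 => ?_, fun r h1 h2 => by omega⟩
    have : r = I1 := by omega
    rw [this]
    exact hw
  | succ m ih =>
    obtain ⟨w, hw1, hw2⟩ := ih (by omega)
    obtain ⟨r0, hr0⟩ : ∃ r0, r0 = I1 + m := ⟨_, rfl⟩
    obtain ⟨w', hw', hww⟩ := ptb_step h hG P hP hPl (r := r0) (by omega) (by omega)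
      (hw1 r0 (by omega) (by omega))
    refine ⟨Function.update w (r0 + 1) w', fun r h1 h2 => ?_, fun r h1 h2 => ?_⟩
    · by_cases hr : r = r0 + 1
      · rw [hr, Function.update_self]
        exact hw'
      · rw [Function.update_of_ne hr]
        exact hw1 r h1 (by omega)
    · have hne : r ≠ r0 + 1 := by omega
      rw [Function.update_of_ne hne]
      by_cases hr : r = r0
      · rw [hr, Function.update_self]
        exact hww
      · have hne2 : r + 1 ≠ r0 + 1 := by omega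
        rw [Function.update_of_ne hne2]
        exact hw2 r h1 (by omega)

end

/-- A path of inertia fixed unit elements of the orbits, with both children different modulo `P`. -/
theorem exists_path {K : Type} [Field K] [NumberField K] {ψ : K →+* ℝ} {q : 𝓞 K}
    {C : ℕ → 𝓞 K} {I1 i : ℕ} {𝔩 : Ideal (𝓞 K)} (h : PatK ψ q C I1 i 𝔩)
    {D : ℕ} (hD : ((D : ℕ) : 𝓞 K) ∉ 𝔩) (hs : SepA K q C I1 D)
    {L : Type} [Field L] [NumberField L] [Algebra K L] [IsGalois K L] {φ : L →+* ℂ}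
    {c : L ≃ₐ[K] L} {v : ℕ → L} (hG : GalK ψ q C i L φ c v) (P : Ideal (𝓞 L)) (hP : P.IsPrime)
    (hPl : P.comap (algebraMap (𝓞 K) (𝓞 L)) = 𝔩) :
    ∃ w : ℕ → L,
      (∀ r, I1 ≤ r → r < i → w r ∈ LvA L q C r ∧
        (∃ g : L ≃ₐ[K] L, g (v r) = w r) ∧ InFixK K P (w r) ∧
        (∀ z : L, z * (z + algebraMap (𝓞 K) L (C r)) = algebraMap (𝓞 K) L (C (r + 1)) * w r →
          InFixK K P z) ∧
        InFixK K P (-algebraMap (𝓞 K) L (C (r - 1)) - w r) ∧
        (∀ a : 𝓞 L, (a : L) = w r → a ∉ P)) ∧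
      (∀ r, I1 ≤ r → r + 1 < i →
        w (r + 1) * (w (r + 1) + algebraMap (𝓞 K) L (C r)) =
          algebraMap (𝓞 K) L (C (r + 1)) * w r) ∧
      (∀ x ∈ LvA L q C I1, InFixK K P x) := by
  have hlate := h.late
  have hDP : ((D : ℕ) : 𝓞 L) ∉ P := by
    intro hmem
    apply hD
    rw [← ptb_memP hPl, map_natCast]
    exact hmem
  obtain ⟨w, hw1, hw2⟩ := ptb_build h hD hs hG P hP hPl (i - 1 - I1) (by omega)
  refine ⟨w, fun r h1 h2 => ?_, fun r h1 h2 => hw2 r h1 (by omega),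
    fun x hx => ptb_lev_inFix hs P hP hDP hx⟩
  have h3 := hw1 r h1 (by omega)
  exact ⟨h3.1, h3.2.1, h3.2.2.1, fun z hz => ptb_children P hP h3 z hz, h3.2.2.2.2.1,
    h3.2.2.2.2.2⟩

end Pool.Agent.PTN
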