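import Pool.Agent.PTN.Defs
import Pool.Agent.PTN.LEV
import Pool.Agent.PTN.POS
import Pool.Agent.PTN.VCH
import Pool.Agent.PTN.ORB
import Pool.Agent.PTN.TRN
import Pool.Agent.PTN.STP
import Pool.Agent.PTN.PTB
import Pool.Agent.PTN.INE

set_option autoImplicit false

/-!
PTC: adapt SYL/PTC.lean. P = a maximal ideal of 𝓞 L above 𝔩 (Ideal.exists_maximal_ideal_liesOver_of_isIntegral). The unit property of
w (i-1) is now in the output of exists_path; C (i-1) ∉ 𝔩 and C (i+1) ∉ 𝔩 by nocons (C i ∈ 𝔩 since m is odd, so m >= 1).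
-/

namespace Pool.Agent.PTN

open NumberField

/-- There is a maximal ideal above `𝔩`. -/
theorem ptc_maximal {K : Type} [Field K] [NumberField K] (L : Type) [Field L] [NumberField L]
    [Algebra K L] (𝔩 : Ideal (𝓞 K)) (hl : 𝔩.IsPrime) (h0 : 𝔩 ≠ ⊥) :
    ∃ P : Ideal (𝓞 L), P.IsMaximal ∧ P.comap (algebraMap (𝓞 K) (𝓞 L)) = 𝔩 := by
  have hmax : 𝔩.IsMaximal := hl.isMaximal h0
  obtain ⟨P, hP, hlo⟩ := Ideal.exists_maximal_ideal_liesOver_of_isIntegral (S := 𝓞 L) 𝔩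
  exact ⟨P, hP, hlo.over.symm⟩

/-- If one child is moved by `σ` (which fixes the parent) then every child is. -/
private theorem ptc_moved {K L : Type} [Field K] [NumberField K] [Field L] [NumberField L]
    [Algebra K L] (σ : L ≃ₐ[K] L) {w y : L} {m n : 𝓞 K}
    (hy : y * (y + algebraMap (𝓞 K) L m) = algebraMap (𝓞 K) L n * w) (hne : σ y ≠ y) (z : L)
    (hz : z * (z + algebraMap (𝓞 K) L m) = algebraMap (𝓞 K) L n * w) : σ z ≠ z := by
  rcases orb_roots hy hz with h1 | h1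
  · rw [h1]
    exact hne
  · intro h2
    rw [h1, map_sub, map_neg, alg_comm] at h2
    exact hne (sub_right_injective h2)

/-- The core: an inertia element moving the children of one child `x0` of `w (i-1)`, and fixing
those of the other one. -/
private theorem ptc_core {K : Type} [Field K] [NumberField K] {ψ : K →+* ℝ} {q : 𝓞 K}
    {C : ℕ → 𝓞 K} {I1 i : ℕ} {𝔩 : Ideal (𝓞 K)} (h : PatK ψ q C I1 i 𝔩)
    {L : Type} [Field L] [NumberField L] [Algebra K L] [IsGalois K L] {φ : L →+* ℂ}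
    {c : L ≃ₐ[K] L} {v : ℕ → L} (hG : GalK ψ q C i L φ c v) (P : Ideal (𝓞 L))
    (hPm : P.IsMaximal) (hPl : P.comap (algebraMap (𝓞 K) (𝓞 L)) = 𝔩) {u : L}
    (hu : u ∈ LvA L q C (i - 1)) (hfu : InFixK K P u) (huP : ∀ a : 𝓞 L, (a : L) = u → a ∉ P)
    (hch : ∀ z : L, z * (z + algebraMap (𝓞 K) L (C (i - 1))) =
      algebraMap (𝓞 K) L (C i) * u → InFixK K P z) :
    ∃ (x0 : L) (σ : L ≃ₐ[K] L),
      x0 * (x0 + algebraMap (𝓞 K) L (C (i - 1))) = algebraMap (𝓞 K) L (C i) * u ∧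
      InertK P σ ∧
      (∀ y : L, y * (y + algebraMap (𝓞 K) L (C i)) = algebraMap (𝓞 K) L (C (i + 1)) * x0 →
        σ y ≠ y) ∧
      (∀ y : L, y * (y + algebraMap (𝓞 K) L (C i)) = algebraMap (𝓞 K) L (C (i + 1)) *
        (-algebraMap (𝓞 K) L (C (i - 1)) - x0) → σ y = y) := by
  have hP : P.IsPrime := hPm.isPrime
  have hmem : ∀ a : 𝓞 K, a ∈ 𝔩 ↔ algebraMap (𝓞 K) (𝓞 L) a ∈ P := by
    intro a
    rw [← hPl, Ideal.mem_comap]
  have hlate := h.late
  have hI0 := h.hI1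
  have hi1 : i - 1 + 1 = i := by omega
  obtain ⟨m, hm, hA, hA2⟩ := h.hit
  have hCi : C i ∈ 𝔩 := Ideal.pow_le_self (by obtain ⟨k, hk⟩ := hm; omega) hA
  have hnext : C (i + 1) ∉ 𝔩 := h.nocons i le_rfl hCi
  have hprev : C (i - 1) ∉ 𝔩 := by
    intro hc
    have := h.nocons (i - 1) (by omega) hc
    rw [hi1] at this
    exact this hCi
  have hfull := hG.full (i - 1) (by omega) u hu
  rw [hi1] at hfull
  obtain ⟨z0, hz0⟩ := hfull
  obtain ⟨u', hu', hu'u⟩ := lvA_int hu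
  have hu'P : u' ∉ P := huP u' hu'u
  have hu2 : algebraMap (𝓞 L) L u' = u := hu'u
  have hcoe : ∀ a : 𝓞 K, algebraMap (𝓞 L) L (algebraMap (𝓞 K) (𝓞 L) a) =
    algebraMap (𝓞 K) L a := fun a => alg_coe a
  have hext : ∀ a b : 𝓞 L, algebraMap (𝓞 L) L a = algebraMap (𝓞 L) L b → a = b :=
    fun a b hab => RingOfIntegers.coe_injective hab
  have hCiP : algebraMap (𝓞 K) (𝓞 L) (C i) ∈ P := (hmem _).1 hCi
  -- the child in `P`
  have hex : ∃ x0 : 𝓞 L, (x0 : L) ∈ LvA L q C i ∧ x0 ∈ P ∧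
      x0 * (x0 + algebraMap (𝓞 K) (𝓞 L) (C (i - 1))) =
        algebraMap (𝓞 K) (𝓞 L) (C i) * u' := by
    have hlev : z0 ∈ LvA L q C i := by
      have : z0 ∈ LvA L q C (i - 1 + 1) := lv_child (j := i - 1) hu (y := z0) (by
        rw [hi1]; exact hz0)
      rwa [hi1] at this
    have hz0' := orb_other hz0
    have hlev' : -algebraMap (𝓞 K) L (C (i - 1)) - z0 ∈ LvA L q C i := by
      have : -algebraMap (𝓞 K) L (C (i - 1)) - z0 ∈ LvA L q C (i - 1 + 1) :=
        lv_child (j := i - 1) hu (y := -algebraMap (𝓞 K) L (C (i - 1)) - z0) (by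
          rw [hi1]; exact hz0')
      rwa [hi1] at this
    obtain ⟨a, ha, haz⟩ := lvA_int hlev
    obtain ⟨a', ha', haz'⟩ := lvA_int hlev'
    have haz2 : algebraMap (𝓞 L) L a = z0 := haz
    have haz2' : algebraMap (𝓞 L) L a' = -algebraMap (𝓞 K) L (C (i - 1)) - z0 := haz'
    have e1 : a * (a + algebraMap (𝓞 K) (𝓞 L) (C (i - 1))) =
        algebraMap (𝓞 K) (𝓞 L) (C i) * u' := by
      apply hext
      rw [map_mul, map_add, map_mul, haz2, hu2, hcoe, hcoe]
      exact hz0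
    have e1' : a' * (a' + algebraMap (𝓞 K) (𝓞 L) (C (i - 1))) =
        algebraMap (𝓞 K) (𝓞 L) (C i) * u' := by
      apply hext
      rw [map_mul, map_add, map_mul, haz2', hu2, hcoe, hcoe]
      exact hz0'
    have e2 : a' = -(a + algebraMap (𝓞 K) (𝓞 L) (C (i - 1))) := by
      apply hext
      rw [map_neg, map_add, haz2, haz2', hcoe]
      ring
    have e3 : a * (a + algebraMap (𝓞 K) (𝓞 L) (C (i - 1))) ∈ P := by
      rw [e1]
      exact P.mul_mem_right _ hCiP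
    rcases hP.mem_or_mem e3 with e4 | e4
    · exact ⟨a, by rw [haz]; exact hlev, e4, e1⟩
    · refine ⟨a', by rw [haz']; exact hlev', ?_, e1'⟩
      rw [e2]
      exact P.neg_mem e4
  obtain ⟨x0, hx0l, hx0P, hx0⟩ := hex
  have hx0L : (x0 : L) * ((x0 : L) + algebraMap (𝓞 K) L (C (i - 1))) =
      algebraMap (𝓞 K) L (C i) * u := by
    have h1 := congrArg (algebraMap (𝓞 L) L) hx0
    rw [map_mul, map_add, map_mul, hu2, hcoe, hcoe] at h1
    exact h1
  have hfx0 : InFixK K P (x0 : L) := hch _ hx0L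
  -- a child of x0
  obtain ⟨z, hz⟩ := hG.full i (by omega) _ hx0l
  have hzl : z ∈ LvA L q C (i + 1) := lv_child hx0l hz
  obtain ⟨z', hz'l, hz'⟩ := lvA_int hzl
  have hz'2 : algebraMap (𝓞 L) L z' = z := hz'
  have hzO : z' * (z' + algebraMap (𝓞 K) (𝓞 L) (C i)) =
      algebraMap (𝓞 K) (𝓞 L) (C (i + 1)) * x0 := by
    apply hext
    rw [map_mul, map_add, map_mul, hz'2, hcoe, hcoe]
    exact hz
  obtain ⟨σ, hσ, hσz⟩ := exists_inertia_moving L P hPm 𝔩 h.nebot hPl (C i) (C (i + 1))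
    (C (i - 1)) m hm hA hA2 hnext hprev x0 u' z' hu'P hx0P hx0 hzO hfx0
    (by rw [hu'u]; exact hfu)
  rw [hz'] at hσz
  refine ⟨x0, σ, hx0L, hσ, fun y hy => ptc_moved σ hz hσz y hy, fun y hy => ?_⟩
  -- children of x1
  have hx1L : (-algebraMap (𝓞 K) L (C (i - 1)) - (x0 : L)) *
      ((-algebraMap (𝓞 K) L (C (i - 1)) - (x0 : L)) + algebraMap (𝓞 K) L (C (i - 1))) =
      algebraMap (𝓞 K) L (C i) * u := orb_other hx0L
  have hfx1 : InFixK K P (-algebraMap (𝓞 K) L (C (i - 1)) - (x0 : L)) := hch _ hx1L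
  have hx1lev : (-algebraMap (𝓞 K) L (C (i - 1)) - (x0 : L)) ∈ LvA L q C i := by
    have : -algebraMap (𝓞 K) L (C (i - 1)) - (x0 : L) ∈ LvA L q C (i - 1 + 1) :=
      lv_child (j := i - 1) hu (y := -algebraMap (𝓞 K) L (C (i - 1)) - (x0 : L)) (by
        rw [hi1]; exact hx1L)
    rwa [hi1] at this
  have hylev : y ∈ LvA L q C (i + 1) := lv_child hx1lev hy
  refine children_fixed P hP (lvA_isIntegral hylev) hfx1 hy ?_ σ hσ
  intro d hd hdP
  have hd2 : d = (algebraMap (𝓞 K) (𝓞 L) (C i)) ^ 2 + 4 * algebraMap (𝓞 K) (𝓞 L) (C (i + 1)) *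
      (-algebraMap (𝓞 K) (𝓞 L) (C (i - 1)) - x0) := by
    apply hext
    have hd3 : algebraMap (𝓞 L) L d = (algebraMap (𝓞 K) L (C i)) ^ 2 +
      4 * algebraMap (𝓞 K) L (C (i + 1)) *
      (-algebraMap (𝓞 K) L (C (i - 1)) - (x0 : L)) := hd
    rw [hd3]
    simp only [map_add, map_sub, map_neg, map_mul, map_pow, map_ofNat, hcoe]
  have h1 : (4 : 𝓞 L) * algebraMap (𝓞 K) (𝓞 L) (C (i + 1)) *
      (-algebraMap (𝓞 K) (𝓞 L) (C (i - 1)) - x0) ∈ P := by
    have h2 : (algebraMap (𝓞 K) (𝓞 L) (C i)) ^ 2 ∈ P := by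
      rw [pow_two]
      exact P.mul_mem_left _ hCiP
    rw [hd2] at hdP
    exact (P.add_mem_iff_right h2).1 hdP
  have h2P : (2 : 𝓞 L) ∉ P := by
    intro hmem2
    have h5 : algebraMap (𝓞 K) (𝓞 L) 2 ∈ P := by
      rw [map_ofNat]
      exact hmem2
    exact h.two ((hmem 2).2 h5)
  rcases hP.mem_or_mem h1 with h2 | h2
  · rcases hP.mem_or_mem h2 with h3 | h3
    · have h4 : (2 : 𝓞 L) * 2 ∈ P := by
        have h5 : (2 : 𝓞 L) * 2 = 4 := by norm_num
        rw [h5]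
        exact h3
      rcases hP.mem_or_mem h4 with h5 | h5
      · exact h2P h5
      · exact h2P h5
    · exact hnext ((hmem _).2 h3)
  · have h3 : (-algebraMap (𝓞 K) (𝓞 L) (C (i - 1))) ∈ P := (P.sub_mem_iff_left hx0P).1 h2
    have h5 : algebraMap (𝓞 K) (𝓞 L) (C (i - 1)) ∈ P := by
      rw [← P.neg_mem_iff]
      exact h3
    exact hprev ((hmem _).2 h5)

/-- Main local step: an inertia element with an asymmetry, in normalised form. -/
theorem exists_asym {K : Type} [Field K] [NumberField K] {ψ : K →+* ℝ} {q : 𝓞 K}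
    {C : ℕ → 𝓞 K} {I1 i : ℕ} {𝔩 : Ideal (𝓞 K)} (h : PatK ψ q C I1 i 𝔩)
    {D : ℕ} (hD : ((D : ℕ) : 𝓞 K) ∉ 𝔩) (hs : SepA K q C I1 D)
    {L : Type} [Field L] [NumberField L] [Algebra K L] [IsGalois K L] {φ : L →+* ℂ}
    {c : L ≃ₐ[K] L} {v : ℕ → L} (hG : GalK ψ q C i L φ c v) :
    ∃ (σ : L ≃ₐ[K] L) (t : ℕ) (w : ℕ → L), I1 ≤ t ∧ t ≤ i ∧
      (∃ g : L ≃ₐ[K] L, g (v t) = w t) ∧
      (∀ r, I1 ≤ r → r < t →
        w (r + 1) * (w (r + 1) + algebraMap (𝓞 K) L (C r)) =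
          algebraMap (𝓞 K) L (C (r + 1)) * w r) ∧
      (∀ x ∈ LvA L q C I1, σ x = x) ∧
      (∀ r, I1 ≤ r → r ≤ t → σ (w r) = w r) ∧
      (∀ r, I1 ≤ r → r ≤ t → ∀ y : L,
        y * (y + algebraMap (𝓞 K) L (C r)) = algebraMap (𝓞 K) L (C (r + 1)) *
          (-algebraMap (𝓞 K) L (C (r - 1)) - w r) → σ y = y) ∧
      (∀ y : L, y * (y + algebraMap (𝓞 K) L (C t)) =
        algebraMap (𝓞 K) L (C (t + 1)) * w t → σ y ≠ y) := by
  classical
  obtain ⟨P, hPm, hPl⟩ := ptc_maximal L 𝔩 h.prime h.nebot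
  have hP : P.IsPrime := hPm.isPrime
  obtain ⟨w, hw1, hw2, hw3⟩ := exists_path h hD hs hG P hP hPl
  have hlate := h.late
  have hI1 := h.hI1
  have hi1 : i - 1 + 1 = i := by omega
  obtain ⟨hwl, ⟨g0, hg0⟩, hwf, hwc, -, hwP⟩ := hw1 (i - 1) (by omega) (by omega)
  rw [hi1] at hwc
  obtain ⟨x0, σ, hx0, hσ, hmov, hfix⟩ := ptc_core h hG P hPm hPl hwl hwf hwP hwc
  have hlevfix : ∀ x ∈ LvA L q C I1, σ x = x := fun x hx => hw3 x hx σ hσ
  by_cases hS : ∃ r, (I1 ≤ r ∧ r < i) ∧ ∃ y : L,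
      y * (y + algebraMap (𝓞 K) L (C r)) = algebraMap (𝓞 K) L (C (r + 1)) *
        (-algebraMap (𝓞 K) L (C (r - 1)) - w r) ∧ σ y ≠ y
  · -- the sibling branch is moved somewhere
    have hspec := Nat.find_spec hS
    have hmin := fun r hr => Nat.find_min hS (m := r) hr
    set t := Nat.find hS with ht
    obtain ⟨⟨ht1, ht2⟩, y0, hy0, hy0m⟩ := hspec
    obtain ⟨htl, ⟨g, hg⟩, htf, htc, hts, -⟩ := hw1 t ht1 ht2
    obtain ⟨g1, hg1⟩ := exists_conj_sib h hG (r := t) ht1 ht2.le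
    refine ⟨σ, t, fun r => if r = t then -algebraMap (𝓞 K) L (C (t - 1)) - w t else w r, ht1,
      ht2.le, ?_, ?_, hlevfix, ?_, ?_, ?_⟩
    · refine ⟨g * g1, ?_⟩
      beta_reduce
      rw [if_pos rfl, AlgEquiv.mul_apply, hg1, map_sub, map_neg, alg_comm, hg]
    · intro r hr1 hr2
      beta_reduce
      rw [if_neg (by omega : ¬ r = t)]
      by_cases hrt : r + 1 = t
      · rw [if_pos hrt]
        have h1 := hw2 r hr1 (by omega)
        have h2 := orb_other h1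
        have h3 : t - 1 = r := by omega
        rw [h3, ← hrt]
        exact h2
      · rw [if_neg hrt]
        exact hw2 r hr1 (by omega)
    · intro r hr1 hr2
      beta_reduce
      by_cases hrt : r = t
      · rw [if_pos hrt]
        exact hts σ hσ
      · rw [if_neg hrt]
        exact (hw1 r hr1 (by omega)).2.2.1 σ hσ
    · intro r hr1 hr2 y hy
      beta_reduce at hy
      by_cases hrt : r = t
      · rw [if_pos hrt, hrt] at hy
        have e : -algebraMap (𝓞 K) L (C (t - 1)) - (-algebraMap (𝓞 K) L (C (t - 1)) - w t) =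
          w t := by ring
        rw [e] at hy
        exact htc y hy σ hσ
      · rw [if_neg hrt] at hy
        by_contra hne
        exact hmin r (by omega) ⟨⟨hr1, by omega⟩, y, hy, hne⟩
    · intro y hy
      beta_reduce at hy
      rw [if_pos rfl] at hy
      exact ptc_moved σ hy0 hy0m y hy
  · -- no sibling branch is moved
    have hS' : ∀ r, I1 ≤ r → r < i → ∀ y : L,
        y * (y + algebraMap (𝓞 K) L (C r)) = algebraMap (𝓞 K) L (C (r + 1)) *
          (-algebraMap (𝓞 K) L (C (r - 1)) - w r) → σ y = y := by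
      intro r hr1 hr2 y hy
      by_contra hne
      exact hS ⟨r, ⟨hr1, hr2⟩, y, hy, hne⟩
    have hx0' : x0 * (x0 + algebraMap (𝓞 K) L (C (i - 1))) =
        algebraMap (𝓞 K) L (C (i - 1 + 1)) * g0 (v (i - 1)) := by
      rw [hi1, hg0]
      exact hx0
    obtain ⟨g', hg'⟩ := child_mem_orbit h hG (r := i - 1) (by omega) (by omega) hx0'
    rw [hi1] at hg'
    refine ⟨σ, i, fun r => if r = i then x0 else w r, by omega, le_rfl, ?_, ?_, hlevfix, ?_, ?_,
      ?_⟩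
    · exact ⟨g', by beta_reduce; rw [if_pos rfl]; exact hg'⟩
    · intro r hr1 hr2
      beta_reduce
      rw [if_neg (by omega : ¬ r = i)]
      by_cases hri : r + 1 = i
      · rw [if_pos hri]
        have h3 : r = i - 1 := by omega
        rw [hri, h3]
        exact hx0
      · rw [if_neg hri]
        exact hw2 r hr1 (by omega)
    · intro r hr1 hr2
      beta_reduce
      by_cases hri : r = i
      · rw [if_pos hri]
        exact hwc x0 hx0 σ hσ
      · rw [if_neg hri]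
        exact (hw1 r hr1 (by omega)).2.2.1 σ hσ
    · intro r hr1 hr2 y hy
      beta_reduce at hy
      by_cases hri : r = i
      · rw [if_pos hri, hri] at hy
        exact hfix y hy
      · rw [if_neg hri] at hy
        exact hS' r hr1 (by omega) y hy
    · intro y hy
      beta_reduce at hy
      rw [if_pos rfl] at hy
      exact hmov y hy

end Pool.Agent.PTN
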