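import Pool.Agent.PTN.Defs
import Pool.Agent.PTN.LEV
import Pool.Agent.PTN.POS
import Pool.Agent.PTN.VCH
import Pool.Agent.PTN.ORB
import Pool.Agent.PTN.TRN
import Pool.Agent.PTN.STP
import Pool.Agent.PTN.PTB
import Pool.Agent.PTN.INE
import Pool.Agent.PTN.PTC

set_option autoImplicit false

/-!
DRG: adapt SYL/DRG.lean (h.real at I1 instead of real_lev, h.sib instead of sib_child_im).
-/

namespace Pool.Agent.PTN

open NumberField

/-- A Galois automorphism over `K` without fixed points on level `i + 1`. -/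
theorem exists_derangement {K : Type} [Field K] [NumberField K] {ψ : K →+* ℝ} {q : 𝓞 K}
    {C : ℕ → 𝓞 K} {I1 i : ℕ} {𝔩 : Ideal (𝓞 K)} (h : PatK ψ q C I1 i 𝔩)
    {D : ℕ} (hD : ((D : ℕ) : 𝓞 K) ∉ 𝔩) (hs : SepA K q C I1 D)
    {L : Type} [Field L] [NumberField L] [Algebra K L] [IsGalois K L] {φ : L →+* ℂ}
    {c : L ≃ₐ[K] L} {v : ℕ → L} (hG : GalK ψ q C i L φ c v) :
    ∃ γ : L ≃ₐ[K] L, ∀ x ∈ LvA L q C (i + 1), γ x ≠ x := by
  obtain ⟨σ, t, w, ht1, ht2, ⟨g, hg⟩, hrec, hlev, hσw, hσs, hmov⟩ := exists_asym h hD hs hG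
  have hvrec := v_rec h hG
  have hC0 : ∀ r, algebraMap (𝓞 K) L (C (r + 1)) ≠ 0 := by
    intro r h0
    have h1 := h.cpos r
    have h2 : φ (algebraMap (𝓞 K) L (C (r + 1))) = 0 := by
      rw [h0, map_zero]
    rw [phi_coe hG.base] at h2
    have h3 : ψ (C (r + 1) : K) = 0 := by exact_mod_cast h2
    exact h1.ne' h3
  -- A: g (v r) = w r
  have hgv : ∀ m, m ≤ t - I1 → g (v (t - m)) = w (t - m) := by
    intro m
    induction m with
    | zero =>
      intro _
      rw [Nat.sub_zero]
      exact hg
    | succ m ih =>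
      intro hm
      have h1 := ih (by omega)
      obtain ⟨r, hr⟩ : ∃ r, r = t - (m + 1) := ⟨_, rfl⟩
      have hr1 : t - m = r + 1 := by omega
      rw [hr1] at h1
      rw [← hr]
      have h2 := hrec r (by omega) (by omega)
      have h3 := congrArg g (hvrec r (by omega))
      rw [map_mul, map_mul, map_add, alg_comm, alg_comm, h1, h2] at h3
      exact (mul_left_cancel₀ (hC0 r) h3).symm
  have hgv' : ∀ r, I1 ≤ r → r ≤ t → g (v r) = w r := by
    intro r h1 h2
    have := hgv (t - r) (by omega)
    rwa [show t - (t - r) = r by omega] at this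
  -- B: the conjugate of σ
  set s : L ≃ₐ[K] L := g⁻¹ * σ * g with hsdef
  have hs_apply : ∀ x, g (s x) = σ (g x) := by
    intro x
    rw [hsdef, AlgEquiv.mul_apply, AlgEquiv.mul_apply]
    exact AlgEquiv.apply_symm_apply g _
  have hs_fix : ∀ x, σ (g x) = g x → s x = x := by
    intro x hx
    apply g.injective
    rw [hs_apply, hx]
  have hs_lev : ∀ x ∈ LvA L q C I1, s x = x := fun x hx => hs_fix x (hlev _ (lvA_map g hx))
  have hs_sib : ∀ r, I1 ≤ r → r ≤ t → ∀ y : L,
      y * (y + algebraMap (𝓞 K) L (C r)) = algebraMap (𝓞 K) L (C (r + 1)) *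
        (-algebraMap (𝓞 K) L (C (r - 1)) - v r) → s y = y := by
    intro r h1 h2 y hy
    apply hs_fix
    apply hσs r h1 h2
    have h3 := congrArg g hy
    rw [map_mul, map_mul, map_add, map_sub, map_neg, alg_comm, alg_comm, alg_comm,
      hgv' r h1 h2] at h3
    exact h3
  have hs_mov : ∀ y : L, y * (y + algebraMap (𝓞 K) L (C t)) =
      algebraMap (𝓞 K) L (C (t + 1)) * v t → s y ≠ y := by
    intro y hy hcon
    have h3 := congrArg g hy
    rw [map_mul, map_mul, map_add, alg_comm, alg_comm, hgv' t ht1 le_rfl] at h3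
    apply hmov _ h3
    rw [← hs_apply, hcon]
  refine ⟨c * s, fun x hx hfix => ?_⟩
  obtain ⟨X, ⟨hX0, hXrec⟩, rfl⟩ := hx
  have hXlev : ∀ r, r ≤ i + 1 → X r ∈ LvA L q C r := fun r hr =>
    ⟨X, ⟨hX0, fun j hj => hXrec j (by omega)⟩, rfl⟩
  -- all ancestors are fixed
  have hXfix : ∀ m, m ≤ i + 1 → c (s (X (i + 1 - m))) = X (i + 1 - m) := by
    intro m
    induction m with
    | zero =>
      intro _
      exact hfix
    | succ m ih =>
      intro hm
      have h1 := ih (by omega)
      obtain ⟨r, hr⟩ : ∃ r, r = i + 1 - (m + 1) := ⟨_, rfl⟩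
      have hr1 : i + 1 - m = r + 1 := by omega
      rw [hr1] at h1
      rw [← hr]
      have h2 := hXrec r (by omega)
      have h3 := congrArg (fun z => c (s z)) h2
      simp only [map_mul, map_add, alg_comm, h1] at h3
      rw [h2] at h3
      exact (mul_left_cancel₀ (hC0 r) h3).symm
  have hXf : ∀ r, r ≤ i + 1 → c (s (X r)) = X r := by
    intro r hr
    have := hXfix (i + 1 - r) (by omega)
    rwa [show i + 1 - (i + 1 - r) = r by omega] at this
  have hlate := h.late
  -- X r = v r on [I1, t]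
  have hnosib : ∀ r, I1 ≤ r → r ≤ t →
      X r = v r ∨ X r = -algebraMap (𝓞 K) L (C (r - 1)) - v r → X r = v r := by
    intro r h1 h2 h3
    rcases h3 with h3 | h3
    · exact h3
    · exfalso
      have h4 := hXrec r (by omega)
      rw [h3] at h4
      have h5 := hs_sib r h1 h2 _ h4
      have h6 := hXf (r + 1) (by omega)
      rw [h5] at h6
      have him := (orb_fixed_iff hG.conj _).1 h6
      have h7 := congrArg φ h4
      rw [map_mul, map_mul, map_add, map_sub, map_neg, phi_coe hG.base, phi_coe hG.base,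
        phi_coe hG.base, hG.vpos r (by omega)] at h7
      exact h.sib r h1 _ h7 him
  have hX : ∀ m, I1 + m ≤ t → X (I1 + m) = v (I1 + m) := by
    intro m
    induction m with
    | zero =>
      intro hm
      rw [Nat.add_zero] at hm ⊢
      have h1 := hXf I1 (by omega)
      rw [hs_lev _ (hXlev I1 (by omega))] at h1
      have him := (orb_fixed_iff hG.conj _).1 h1
      have hlv : φ (X I1) ∈ LvC (ψ (q : K)) (fun j => ψ (C j : K)) I1 := by
        have h2 := lv_map φ (hXlev I1 (by omega))
        have h3 : (fun j => φ (algebraMap (𝓞 K) L (C j))) =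
            fun j => ((ψ (C j : K) : ℝ) : ℂ) := by
          funext j
          exact phi_coe hG.base _
        show φ (X I1) ∈ Lv ((ψ (q : K) : ℝ) : ℂ) (fun j => ((ψ (C j : K) : ℝ) : ℂ)) I1
        rw [← h3, ← phi_coe hG.base q]
        exact h2
      apply hnosib I1 le_rfl hm
      rcases h.real I1 le_rfl _ hlv him with h2 | h2
      · left
        apply φ.injective
        rw [h2, hG.vpos I1 (by omega)]
      · right
        apply φ.injective
        rw [h2, map_sub, map_neg, phi_coe hG.base, hG.vpos I1 (by omega)]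
    | succ m ih =>
      intro hm
      have h1 := ih (by omega)
      have h2 := hXrec (I1 + m) (by omega)
      rw [h1] at h2
      have h3 := hvrec (I1 + m) (by omega)
      have h4 := orb_roots h3 h2
      exact hnosib (I1 + m + 1) (by omega) hm h4
  have hXt : X t = v t := by
    have := hX (t - I1) (by omega)
    rwa [show I1 + (t - I1) = t by omega] at this
  have h1 := hXrec t (by omega)
  rw [hXt] at h1
  have h2 := hvrec t (by omega)
  have hcv : c (v (t + 1)) = v (t + 1) := by
    rw [orb_fixed_iff hG.conj, hG.vpos (t + 1) (by omega)]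
    exact Complex.ofReal_im _
  have hcX : c (X (t + 1)) = X (t + 1) := by
    rcases orb_roots h2 h1 with h3 | h3
    · rw [h3, hcv]
    · rw [h3, map_sub, map_neg, alg_comm, hcv]
  have h4 := hXf (t + 1) (by omega)
  exact hs_mov _ h1 (c.injective (h4.trans hcX.symm))

end Pool.Agent.PTN
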