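import Mathlib

set_option autoImplicit false

/-!
PTN: polynomial tail numerators (MP_45c6b9_nt). Definitions: backward chains over a ring, levels,
positive real chain, Galois data over a real number field `K`.
-/

namespace Pool.Agent.PTN

open NumberField

/-- Backward chain of length `M` in the ring `R`: `x 0 = q` and
`x (j+1) * (x (j+1) + C j) = C (j+1) * x j` for `j < M`. -/
def IsCh {R : Type*} [CommRing R] (q : R) (C : ℕ → R) (M : ℕ) (x : ℕ → R) : Prop :=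
  x 0 = q ∧ ∀ j, j < M → x (j + 1) * (x (j + 1) + C j) = C (j + 1) * x j

/-- The elements of level `M`: the last terms of chains of length `M`. -/
def Lv {R : Type*} [CommRing R] (q : R) (C : ℕ → R) (M : ℕ) : Set R :=
  {z | ∃ x : ℕ → R, IsCh q C M x ∧ x M = z}

/-- Levels in an algebra over the ring containing the coefficients. -/
def LvA {A : Type*} [CommRing A] (R : Type*) [CommRing R] [Algebra A R] (q : A) (C : ℕ → A)
    (M : ℕ) : Set R :=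
  Lv (algebraMap A R q) (fun j => algebraMap A R (C j)) M

/-- All elements of level `j < M` have a child in `R`. -/
def FullA {A : Type*} [CommRing A] (R : Type*) [CommRing R] [Algebra A R] (q : A) (C : ℕ → A)
    (M : ℕ) : Prop :=
  ∀ j, j < M → ∀ x ∈ LvA R q C j, ∃ y : R,
    y * (y + algebraMap A R (C j)) = algebraMap A R (C (j + 1)) * x

/-- The positive real chain. -/
noncomputable def posr (q : ℝ) (c : ℕ → ℝ) : ℕ → ℝ
  | 0 => q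
  | (j + 1) => (-c j + Real.sqrt (c j ^ 2 + 4 * c (j + 1) * posr q c j)) / 2

/-- Levels in `ℂ` of a real pattern. -/
def LvC (q : ℝ) (c : ℕ → ℝ) (M : ℕ) : Set ℂ :=
  Lv ((q : ℝ) : ℂ) (fun j => ((c j : ℝ) : ℂ)) M

/-- Different integral elements of level `I` are different modulo every prime not containing the
integer `D`. -/
def SepA (K : Type) [Field K] [NumberField K] (q : 𝓞 K) (C : ℕ → 𝓞 K) (I D : ℕ) : Prop :=
  ∀ (L : Type) [Field L] [NumberField L] [Algebra K L] (P : Ideal (𝓞 L)), P.IsPrime →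
    ((D : ℕ) : 𝓞 L) ∉ P →
    ∀ x y : 𝓞 L, x ∈ LvA (𝓞 L) q C I → y ∈ LvA (𝓞 L) q C I → x ≠ y → x - y ∉ P

/-- `σ` lies in the inertia group of `P` (over `K`). -/
def InertK {K L : Type} [Field K] [Field L] [Algebra K L] (P : Ideal (𝓞 L))
    (σ : L ≃ₐ[K] L) : Prop :=
  ∀ a : 𝓞 L, ∃ b ∈ P, σ (a : L) = (a : L) + (b : L)

/-- `x` is fixed by the inertia group of `P` (over `K`). -/
def InFixK (K : Type) {L : Type} [Field K] [Field L] [Algebra K L] (P : Ideal (𝓞 L))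
    (x : L) : Prop :=
  ∀ σ : L ≃ₐ[K] L, InertK P σ → σ x = x

/-- Arithmetic hypotheses on a pattern `q, C` over the real number field `K`: `I1` is a level from
which on the real elements are known and irrational, and the prime ideal `𝔩` has a hit of odd
order at the index `i`. -/
structure PatK {K : Type} [Field K] [NumberField K] (ψ : K →+* ℝ) (q : 𝓞 K) (C : ℕ → 𝓞 K)
    (I1 i : ℕ) (𝔩 : Ideal (𝓞 K)) : Prop where
  hq : 0 < ψ (q : K)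
  hC0 : C 0 = 0
  cpos : ∀ j, 0 < ψ (C (j + 1) : K)
  hI1 : 1 ≤ I1
  real : ∀ r, I1 ≤ r → ∀ z ∈ LvC (ψ (q : K)) (fun j => ψ (C j : K)) r, z.im = 0 →
    z = ((posr (ψ (q : K)) (fun j => ψ (C j : K)) r : ℝ) : ℂ) ∨
    z = -((ψ (C (r - 1) : K) : ℝ) : ℂ) - ((posr (ψ (q : K)) (fun j => ψ (C j : K)) r : ℝ) : ℂ)
  sib : ∀ r, I1 ≤ r → ∀ z : ℂ, z * (z + ((ψ (C r : K) : ℝ) : ℂ)) =
    ((ψ (C (r + 1) : K) : ℝ) : ℂ) * (-((ψ (C (r - 1) : K) : ℝ) : ℂ) -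
      ((posr (ψ (q : K)) (fun j => ψ (C j : K)) r : ℝ) : ℂ)) → z.im ≠ 0
  irr : ∀ r, I1 ≤ r → ∀ x : K, ψ x ≠ posr (ψ (q : K)) (fun j => ψ (C j : K)) r
  prime : 𝔩.IsPrime
  nebot : 𝔩 ≠ ⊥
  two : (2 : 𝓞 K) ∉ 𝔩
  notq : q ∉ 𝔩
  first : ∀ j, 1 ≤ j → j ≤ I1 + 1 → C j ∉ 𝔩
  nocons : ∀ j, j ≤ i → C j ∈ 𝔩 → C (j + 1) ∉ 𝔩
  hit : ∃ m : ℕ, Odd m ∧ C i ∈ 𝔩 ^ m ∧ C i ∉ 𝔩 ^ (m + 1)
  late : I1 + 1 < i

/-- Galois data: a number field `L` Galois over `K` containing the tree up to level `i + 1`, an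
embedding in `ℂ` extending `ψ`, complex conjugation `c` and the positive real chain `v`. -/
structure GalK {K : Type} [Field K] [NumberField K] (ψ : K →+* ℝ) (q : 𝓞 K) (C : ℕ → 𝓞 K)
    (i : ℕ) (L : Type) [Field L] [NumberField L] [Algebra K L]
    (φ : L →+* ℂ) (c : L ≃ₐ[K] L) (v : ℕ → L) : Prop where
  full : FullA L q C (i + 1)
  base : ∀ x : K, φ (algebraMap K L x) = ((ψ x : ℝ) : ℂ)
  conj : ∀ x : L, φ (c x) = (starRingEnd ℂ) (φ x)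
  vlev : ∀ j, j ≤ i + 1 → v j ∈ LvA L q C j
  vpos : ∀ j, j ≤ i + 1 → φ (v j) = ((posr (ψ (q : K)) (fun j => ψ (C j : K)) j : ℝ) : ℂ)

/-- Chain of integers modulo the ideal `𝔭`. -/
def ChMod {K : Type} [Field K] [NumberField K] (𝔭 : Ideal (𝓞 K)) (q : 𝓞 K) (C : ℕ → 𝓞 K)
    (M : ℕ) (x : ℕ → ℤ) : Prop :=
  ((x 0 : ℤ) : 𝓞 K) - q ∈ 𝔭 ∧ ∀ j, j < M →
    ((x (j + 1) : ℤ) : 𝓞 K) * (((x (j + 1) : ℤ) : 𝓞 K) + C j) -
      C (j + 1) * ((x j : ℤ) : 𝓞 K) ∈ 𝔭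

/-- Degree one primes of `K` above arbitrarily large rational primes without integer chains. -/
def Killed {K : Type} [Field K] [NumberField K] (q : 𝓞 K) (C : ℕ → 𝓞 K) (M : ℕ) : Prop :=
  ∀ X : ℕ, ∃ p : ℕ, p.Prime ∧ X < p ∧ ∃ 𝔭 : Ideal (𝓞 K), 𝔭.IsPrime ∧ ((p : ℕ) : 𝓞 K) ∈ 𝔭 ∧
    (∀ a : 𝓞 K, ∃ k : ℤ, a - (k : 𝓞 K) ∈ 𝔭) ∧ ¬ ∃ x : ℕ → ℤ, ChMod 𝔭 q C M x

end Pool.Agent.PTN
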