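import Pool.Agent.PTN.Defs
import Pool.Agent.PTN.LEV

set_option autoImplicit false

/-!
FLD: adapt SYL/FLD.lean. Make ℂ a K-algebra through τ (let _ : Algebra K ℂ := τ.toAlgebra); S = all elements of the levels <= M in ℂ
(finite, integral over ℤ so over K); p = product of the minpoly K x; L = adjoin K (p.rootSet ℂ), splitting field over K, so normal, Galois (char 0),
finite over K, so finite over ℚ (number field). φ = the inclusion.
-/

namespace Pool.Agent.PTN

open NumberField

private theorem fld_child (x b a : ℂ) : ∃ y : ℂ, y * (y + b) = a * x := by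
  obtain ⟨s, hs⟩ := IsAlgClosed.exists_eq_mul_self (b ^ 2 + 4 * (a * x))
  refine ⟨(-b + s) / 2, ?_⟩
  have h : s * s = b ^ 2 + 4 * (a * x) := hs.symm
  linear_combination (1 / 4) * h

/-- A number field, Galois over `K`, embedded in `ℂ` over `τ`, containing the tree up to level `M`. -/
theorem exists_field (K : Type) [Field K] [NumberField K] (τ : K →+* ℂ) (q : 𝓞 K) (C : ℕ → 𝓞 K)
    (M : ℕ) :
    ∃ (L : Type) (_ : Field L) (_ : NumberField L) (_ : Algebra K L) (_ : IsGalois K L)
      (φ : L →+* ℂ), (∀ x : K, φ (algebraMap K L x) = τ x) ∧ FullA L q C M := by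
  classical
  letI : Algebra K ℂ := τ.toAlgebra
  let S : Set ℂ := {x | ∃ j, j ≤ M ∧ x ∈ Lv (τ (q : K)) (fun j => τ (C j : K)) j}
  have hS : S.Finite := by
    have h1 : S = ⋃ j ∈ Finset.range (M + 1), Lv (τ (q : K)) (fun j => τ (C j : K)) j := by
      ext x
      simp only [S, Set.mem_ofPred_eq, Set.mem_iUnion, Finset.mem_range, exists_prop]
      constructor
      · rintro ⟨j, hj, hx⟩
        exact ⟨j, by omega, hx⟩
      · rintro ⟨j, hj, hx⟩
        exact ⟨j, by omega, hx⟩
    rw [h1]
    exact Set.Finite.biUnion (Finset.finite_toSet _) fun j _ => lv_finite _ _ j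
  have hτint : ∀ a : 𝓞 K, IsIntegral ℤ (τ (a : K)) := fun a =>
    ((RingOfIntegers.isIntegral_coe a)).map τ.toIntAlgHom
  have hint : ∀ x ∈ S, IsIntegral K x := by
    rintro x ⟨j, _, hx⟩
    exact (lv_isIntegral (hτint q) (fun j => hτint (C j)) hx).tower_top
  let p : Polynomial K := ∏ x ∈ hS.toFinset, minpoly K x
  have hp0 : p ≠ 0 := by
    rw [Finset.prod_ne_zero_iff]
    intro x hx
    exact minpoly.ne_zero (hint x (by simpa using hx))
  let L : IntermediateField K ℂ := IntermediateField.adjoin K (p.rootSet ℂ)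
  have hspl : (p.map (algebraMap K ℂ)).Splits := IsAlgClosed.splits _
  have hsf : p.IsSplittingField K L := IntermediateField.adjoin_rootSet_isSplittingField hspl
  have hfd : FiniteDimensional K L := Polynomial.IsSplittingField.finiteDimensional L p
  have hnorm : Normal K L := Normal.of_isSplittingField p
  have hfdQ : FiniteDimensional ℚ L := Module.Finite.trans K L
  have hNF : NumberField L := NumberField.mk
  have hgal : IsGalois K L := { }
  have hSL : ∀ x ∈ S, x ∈ L := by
    intro x hx
    apply IntermediateField.subset_adjoin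
    rw [Polynomial.mem_rootSet]
    refine ⟨hp0, ?_⟩
    have h1 : minpoly K x ∣ p := Finset.dvd_prod_of_mem _ (by simpa using hx)
    exact Polynomial.aeval_eq_zero_of_dvd_aeval_eq_zero h1 (minpoly.aeval K x)
  have hbase : ∀ x : K, algebraMap L ℂ (algebraMap K L x) = τ x := by
    intro x
    rw [← IsScalarTower.algebraMap_apply K L ℂ]
    rfl
  have hbase' : ∀ a : 𝓞 K, algebraMap L ℂ (algebraMap (𝓞 K) L a) = τ (a : K) := by
    intro a
    rw [IsScalarTower.algebraMap_apply (𝓞 K) K L]
    exact hbase _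
  refine ⟨L, inferInstance, hNF, inferInstance, hgal, algebraMap L ℂ, hbase, ?_⟩
  intro j hj x hx
  have hx' : ((x : L) : ℂ) ∈ Lv (τ (q : K)) (fun j => τ (C j : K)) j := by
    have h := lv_map (algebraMap L ℂ) hx
    simp only [hbase'] at h
    exact h
  obtain ⟨y, hy⟩ := fld_child ((x : L) : ℂ) (τ (C j : K)) (τ (C (j + 1) : K))
  have hyL : y ∈ L := hSL y ⟨j + 1, hj, lv_child hx' hy⟩
  refine ⟨⟨y, hyL⟩, ?_⟩
  apply (algebraMap L ℂ).injective
  rw [map_mul, map_add, map_mul, hbase', hbase']
  exact hy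

end Pool.Agent.PTN
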