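import Pool.Agent.PTN.Defs
import Pool.Agent.PTN.LEV

set_option autoImplicit false

/-!
LFT: adapt SYL/LFT.lean (chain of integers modulo 𝔭 instead of a chain in ZMod p; P above 𝔭: images of 𝔭 lie in P).
-/

namespace Pool.Agent.PTN

open NumberField

/-- Lifting of integer chains modulo `𝔭` to level `M` elements of `𝓞 L`. -/
theorem exists_lift {K : Type} [Field K] [NumberField K] {q : 𝓞 K} {C : ℕ → 𝓞 K} {M : ℕ}
    {L : Type} [Field L] [NumberField L] [Algebra K L] (hfull : FullA L q C M)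
    (𝔭 : Ideal (𝓞 K)) (P : Ideal (𝓞 L)) (hP : P.IsPrime)
    (hPp : ∀ a ∈ 𝔭, algebraMap (𝓞 K) (𝓞 L) a ∈ P) (x : ℕ → ℤ) (hx : ChMod 𝔭 q C M x) :
    ∃ (y : 𝓞 L) (k : ℤ), y ∈ LvA (𝓞 L) q C M ∧ y - ((k : ℤ) : 𝓞 L) ∈ P := by
  have key : ∀ j, j ≤ M → ∃ y : 𝓞 L, y ∈ LvA (𝓞 L) q C j ∧ y - ((x j : ℤ) : 𝓞 L) ∈ P := by
    intro j
    induction j with
    | zero =>
      intro _
      refine ⟨algebraMap (𝓞 K) (𝓞 L) q, by rw [LvA, lv_zero]; rfl, ?_⟩
      have h := hPp _ hx.1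
      rw [map_sub, map_intCast] at h
      rw [← neg_sub]
      exact P.neg_mem h
    | succ j ih =>
      intro hj
      obtain ⟨y, hy, hyP⟩ := ih (by omega)
      have hyL : (y : L) ∈ LvA L q C j := lvA_coe hy
      obtain ⟨z0, hz0⟩ := hfull j (by omega) _ hyL
      obtain ⟨z, hz, hzz⟩ := lvA_int (lv_child hyL hz0)
      have hze : z * (z + algebraMap (𝓞 K) (𝓞 L) (C j)) =
          algebraMap (𝓞 K) (𝓞 L) (C (j + 1)) * y := by
        apply RingOfIntegers.coe_injective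
        rw [← hzz] at hz0
        exact hz0
      have hz' : (-(algebraMap (𝓞 K) (𝓞 L) (C j)) - z) ∈ LvA (𝓞 L) q C (j + 1) := by
        refine lv_child hy ?_
        change (-(algebraMap (𝓞 K) (𝓞 L) (C j)) - z) *
          ((-(algebraMap (𝓞 K) (𝓞 L) (C j)) - z) + algebraMap (𝓞 K) (𝓞 L) (C j)) =
          algebraMap (𝓞 K) (𝓞 L) (C (j + 1)) * y
        rw [← hze]
        ring
      have hmul : (((x (j + 1) : ℤ) : 𝓞 L) - z) *
          (((x (j + 1) : ℤ) : 𝓞 L) + algebraMap (𝓞 K) (𝓞 L) (C j) + z) ∈ P := by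
        have h1 := hPp _ (hx.2 j (by omega))
        rw [map_sub, map_mul, map_mul, map_add, map_intCast, map_intCast] at h1
        have h2 := P.mul_mem_left (algebraMap (𝓞 K) (𝓞 L) (C (j + 1))) hyP
        have h3 := P.sub_mem h1 h2
        have h4 : (((x (j + 1) : ℤ) : 𝓞 L) - z) *
            (((x (j + 1) : ℤ) : 𝓞 L) + algebraMap (𝓞 K) (𝓞 L) (C j) + z) =
            ((x (j + 1) : ℤ) : 𝓞 L) * (((x (j + 1) : ℤ) : 𝓞 L) +
              algebraMap (𝓞 K) (𝓞 L) (C j)) -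
              algebraMap (𝓞 K) (𝓞 L) (C (j + 1)) * ((x j : ℤ) : 𝓞 L) -
            algebraMap (𝓞 K) (𝓞 L) (C (j + 1)) * (y - ((x j : ℤ) : 𝓞 L)) := by
          linear_combination (-1 : 𝓞 L) * hze
        rw [h4]
        exact h3
      rcases hP.mem_or_mem hmul with h | h
      · refine ⟨z, hz, ?_⟩
        rw [← neg_sub]
        exact P.neg_mem h
      · refine ⟨_, hz', ?_⟩
        have : -(algebraMap (𝓞 K) (𝓞 L) (C j)) - z - ((x (j + 1) : ℤ) : 𝓞 L) =
          -(((x (j + 1) : ℤ) : 𝓞 L) + algebraMap (𝓞 K) (𝓞 L) (C j) + z) := by ring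
        rw [this]
        exact P.neg_mem h
  obtain ⟨y, hy, hyP⟩ := key M le_rfl
  exact ⟨y, _, hy, hyP⟩

end Pool.Agent.PTN
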