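import Pool.Agent.PTN.Defs
import Pool.Agent.PTN.LEV

set_option autoImplicit false

/-!
SEP: adapt SYL/SEP.lean. For every embedding τ : K →+* ℂ (finitely many) the level I set S_τ = Lv (τ q) (τ ∘ C) I in ℂ is finite; for
z = x - y <> 0 with x, y in S_τ choose (sep_poly) R, d <> 0 integer with z R(z) = d; D = product (or lcm) over τ and pairs of |d| (product with
1 for the trivial pairs), so D > 0 and d | D always. For L, P: take any φ : L →+* ℂ, τ = φ ∘ algebraMap K L; z R(z) = d transfers to 𝓞 L by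
injectivity; z in P gives d in P so D in P.
-/

namespace Pool.Agent.PTN

open NumberField

private theorem sep_poly (z : ℂ) (hz : IsIntegral ℤ z) (h0 : z ≠ 0) :
    ∃ (R : Polynomial ℤ) (d : ℤ), d ≠ 0 ∧ z * Polynomial.aeval z R = (d : ℂ) := by
  refine ⟨(minpoly ℤ z).divX, -(minpoly ℤ z).coeff 0, ?_, ?_⟩
  · have h1 := minpoly.isIntegrallyClosed_eq_field_fractions' ℚ hz
    have h2 : (minpoly ℚ z).coeff 0 ≠ 0 := minpoly.coeff_zero_ne_zero hz.tower_top h0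
    rw [h1, Polynomial.coeff_map] at h2
    intro h3
    apply h2
    rw [neg_eq_zero.1 h3, map_zero]
  · have h1 := minpoly.aeval ℤ z
    have h2 := Polynomial.X_mul_divX_add (minpoly ℤ z)
    rw [← h2] at h1
    rw [map_add, map_mul, Polynomial.aeval_X, Polynomial.aeval_C] at h1
    rw [eq_intCast] at h1
    push_cast
    linear_combination h1

/-- The level `I` elements are separated modulo all primes not containing some `D > 0`. -/
theorem exists_sep (K : Type) [Field K] [NumberField K] (q : 𝓞 K) (C : ℕ → 𝓞 K) (I : ℕ) :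
    ∃ D : ℕ, 0 < D ∧ SepA K q C I D := by
  classical
  have hfin : ∀ τ : K →+* ℂ, (Lv (τ (q : K)) (fun j => τ (C j : K)) I).Finite := fun τ =>
    lv_finite _ _ _
  have hex : ∀ z : ℂ, ∃ (R : Polynomial ℤ) (d : ℤ), d ≠ 0 ∧ (IsIntegral ℤ z → z ≠ 0 →
      z * Polynomial.aeval z R = (d : ℂ)) := by
    intro z
    by_cases h : IsIntegral ℤ z ∧ z ≠ 0
    · obtain ⟨R, d, h1, h2⟩ := sep_poly z h.1 h.2
      exact ⟨R, d, h1, fun _ _ => h2⟩
    · exact ⟨0, 1, one_ne_zero, fun h1 h2 => absurd ⟨h1, h2⟩ h⟩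
  choose R d hd0 hRd using hex
  refine ⟨∏ τ : K →+* ℂ, ∏ p ∈ (hfin τ).toFinset ×ˢ (hfin τ).toFinset, (d (p.1 - p.2)).natAbs,
    ?_, ?_⟩
  · refine Finset.prod_pos fun τ _ => Finset.prod_pos fun p _ => ?_
    exact Int.natAbs_pos.2 (hd0 _)
  intro L _ _ _ P hP hDP x y hx hy hxy hmem
  obtain ⟨φ⟩ : Nonempty (L →+* ℂ) := inferInstance
  let f : 𝓞 L →+* ℂ := φ.comp (algebraMap (𝓞 L) L)
  let τ : K →+* ℂ := φ.comp (algebraMap K L)
  have hfτ : ∀ a : 𝓞 K, f (algebraMap (𝓞 K) (𝓞 L) a) = τ (a : K) := by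
    intro a
    change φ ((algebraMap (𝓞 K) (𝓞 L) a : 𝓞 L) : L) = φ (algebraMap K L (a : K))
    rw [alg_coe, IsScalarTower.algebraMap_apply (𝓞 K) K L]
  have hf : Function.Injective f := by
    intro a b hab
    exact RingOfIntegers.coe_injective (φ.injective hab)
  have hmap : ∀ z : 𝓞 L, z ∈ LvA (𝓞 L) q C I → f z ∈ Lv (τ (q : K)) (fun j => τ (C j : K)) I := by
    intro z hz
    have h := lv_map f hz
    simp only [hfτ] at h
    exact h
  have hfx := hmap x hx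
  have hfy := hmap y hy
  have hne : f x - f y ≠ 0 := sub_ne_zero.2 (fun h => hxy (hf h))
  have hintf : ∀ z : 𝓞 L, IsIntegral ℤ (f z) := fun z =>
    (RingOfIntegers.isIntegral z).map f.toIntAlgHom
  have hd := hRd (f x - f y) ((hintf x).sub (hintf y)) hne
  set D0 := d (f x - f y) with hD0
  set R0 := R (f x - f y) with hR0
  have hdvd : D0.natAbs ∣ ∏ τ : K →+* ℂ, ∏ p ∈ (hfin τ).toFinset ×ˢ (hfin τ).toFinset,
      (d (p.1 - p.2)).natAbs := by
    have hm : ((f x, f y) : ℂ × ℂ) ∈ (hfin τ).toFinset ×ˢ (hfin τ).toFinset :=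
      Finset.mem_product.2 ⟨(hfin τ).mem_toFinset.2 hfx, (hfin τ).mem_toFinset.2 hfy⟩
    exact (Finset.dvd_prod_of_mem (fun p : ℂ × ℂ => (d (p.1 - p.2)).natAbs) hm).trans
      (Finset.dvd_prod_of_mem (fun τ : K →+* ℂ => ∏ p ∈ (hfin τ).toFinset ×ˢ (hfin τ).toFinset,
        (d (p.1 - p.2)).natAbs) (Finset.mem_univ τ))
  have heq : (x - y) * Polynomial.aeval (x - y) R0 = ((D0 : ℤ) : 𝓞 L) := by
    apply hf
    rw [map_mul, map_sub, map_intCast, ← hd]
    congr 1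
    rw [← map_sub]
    have := Polynomial.aeval_algHom_apply f.toIntAlgHom (x - y) R0
    exact this.symm
  have hdP : ((D0 : ℤ) : 𝓞 L) ∈ P := by
    rw [← heq]
    exact P.mul_mem_right _ hmem
  apply hDP
  obtain ⟨e, he⟩ := (Int.natCast_dvd_natCast.2 hdvd)
  have h2 : (D0 : ℤ) ∣ ((∏ τ : K →+* ℂ, ∏ p ∈ (hfin τ).toFinset ×ˢ (hfin τ).toFinset,
      (d (p.1 - p.2)).natAbs : ℕ) : ℤ) := (Int.dvd_natAbs.2 dvd_rfl).trans ⟨e, he⟩
  obtain ⟨e', he'⟩ := h2
  have h3 : ((∏ τ : K →+* ℂ, ∏ p ∈ (hfin τ).toFinset ×ˢ (hfin τ).toFinset,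
      (d (p.1 - p.2)).natAbs : ℕ) : 𝓞 L) = ((D0 : ℤ) : 𝓞 L) * ((e' : ℤ) : 𝓞 L) := by
    have h4 := congrArg (fun t : ℤ => (t : 𝓞 L)) he'
    simp only [Int.cast_natCast, Int.cast_mul] at h4
    exact h4
  rw [h3]
  exact P.mul_mem_right _ hdP

end Pool.Agent.PTN
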