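import Pool.Agent.PTN.Defs
import Pool.Agent.PTN.LEV
import Pool.Agent.PTN.LFT
import Pool.Agent.PTN.SEP
import Pool.Agent.SYL.FRA

set_option autoImplicit false

/-!
FRA: adapt SYL/FRA.lean (nonsplit_kill) with tower K ⊆ E ⊆ L. The group theoretic lemmas fra_int, fra_notmem, fra_odd of SYL/FRA.lean can be
cited. 𝔭 = 𝔮 ∩ 𝓞 K. The conclusion is that no integer chain modulo 𝔭 exists.
-/

namespace Pool.Agent.PTN

open NumberField

theorem fra_alg {K E L : Type} [Field K] [NumberField K] [Field E] [NumberField E]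
    [Field L] [NumberField L] [Algebra K E] [Algebra K L]
    [Algebra E L] [IsScalarTower K E L] (σ : L ≃ₐ[E] L) (b : 𝓞 K) :
    MulSemiringAction.toRingHom (L ≃ₐ[E] L) (𝓞 L) σ (algebraMap (𝓞 K) (𝓞 L) b) =
      algebraMap (𝓞 K) (𝓞 L) b := by
  rw [IsScalarTower.algebraMap_apply (𝓞 K) (𝓞 E) (𝓞 L)]
  apply RingOfIntegers.ext
  exact σ.commutes (algebraMap (𝓞 K) (𝓞 E) b : E)

theorem fra_smul {K E L : Type} [Field K] [NumberField K] [Field E] [NumberField E]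
    [Field L] [NumberField L] [Algebra K E] [Algebra K L]
    [Algebra E L] [IsScalarTower K E L] (σ : L ≃ₐ[E] L) {q : 𝓞 K} {C : ℕ → 𝓞 K} {M : ℕ}
    {y : 𝓞 L} (hy : y ∈ LvA (𝓞 L) q C M) : σ • y ∈ LvA (𝓞 L) q C M := by
  have h := lv_map (MulSemiringAction.toRingHom (L ≃ₐ[E] L) (𝓞 L) σ) hy
  simp only [fra_alg] at h
  exact h

theorem fra_coe {K L : Type} [Field K] [NumberField K] [Field L] [NumberField L] [Algebra K L]
    {q : 𝓞 K} {C : ℕ → 𝓞 K} {M : ℕ} {y : 𝓞 L} (hy : y ∈ LvA (𝓞 L) q C M) :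
    (y : L) ∈ LvA L q C M := lv_map (algebraMap (𝓞 L) L) hy

/-- A degree one prime of `E` which is not split in the quadratic subfield lies above a prime of
`K` without integer chains. `L / E` is cyclic of 2-power degree, generator `g`. -/
theorem nonsplit_kill (K E L : Type) [Field K] [NumberField K] [Field E] [NumberField E]
    [Field L] [NumberField L] [Algebra K E] [Algebra K L]
    [Algebra E L] [IsScalarTower K E L] [IsGalois E L] (g : L ≃ₐ[E] L) (a : ℕ)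
    (hg : orderOf g = 2 ^ (a + 1))
    (hgen : ∀ σ : L ≃ₐ[E] L, σ ∈ Subgroup.zpowers g) (q : 𝓞 K) (C : ℕ → 𝓞 K) (M : ℕ)
    (hfull : FullA L q C M) (hfix : ∀ x ∈ LvA L q C M, g x ≠ x) :
    ∃ D : ℕ, ∀ p : ℕ, p.Prime → D < p → ∀ 𝔮 : Ideal (𝓞 E), 𝔮.IsPrime → Ideal.absNorm 𝔮 = p →
      Pool.Agent.SYL.NonSplit E (IntermediateField.fixedField (Subgroup.zpowers (g ^ 2))) 𝔮 →
      ¬ ∃ x : ℕ → ℤ, ChMod (𝔮.comap (algebraMap (𝓞 K) (𝓞 E))) q C M x := by
  classical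
  obtain ⟨D1, hD1pos, hD1⟩ := exists_sep K q C M
  have hα0 : ∃ α0 : 𝓞 (IntermediateField.fixedField (Subgroup.zpowers (g ^ 2))),
      g • (algebraMap (𝓞 (IntermediateField.fixedField (Subgroup.zpowers (g ^ 2)))) (𝓞 L) α0) ≠
        algebraMap (𝓞 (IntermediateField.fixedField (Subgroup.zpowers (g ^ 2)))) (𝓞 L) α0 := by
    by_contra hcon
    push Not at hcon
    apply Pool.Agent.SYL.fra_notmem g a hg
    rw [← IntermediateField.fixingSubgroup_fixedField (Subgroup.zpowers (g ^ 2)),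
      IntermediateField.mem_fixingSubgroup_iff]
    intro x hx
    obtain ⟨α, β, hβ, hxy⟩ := IsFractionRing.div_surjective
      (A := 𝓞 (IntermediateField.fixedField (Subgroup.zpowers (g ^ 2))))
      (⟨x, hx⟩ : IntermediateField.fixedField (Subgroup.zpowers (g ^ 2)))
    have h1 : x = (algebraMap (𝓞 (IntermediateField.fixedField (Subgroup.zpowers (g ^ 2)))) (𝓞 L) α : L) /
        (algebraMap (𝓞 (IntermediateField.fixedField (Subgroup.zpowers (g ^ 2)))) (𝓞 L) β : L) := by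
      have h2 := congrArg (algebraMap (IntermediateField.fixedField (Subgroup.zpowers (g ^ 2))) L) hxy
      rw [map_div₀] at h2
      exact h2.symm
    have h2 := congrArg (algebraMap (𝓞 L) L) (hcon α)
    have h3 := congrArg (algebraMap (𝓞 L) L) (hcon β)
    rw [h1, map_div₀]
    exact congrArg₂ (· / ·) h2 h3
  obtain ⟨α0, hα0⟩ := hα0
  set δ : 𝓞 L := g • (algebraMap (𝓞 (IntermediateField.fixedField (Subgroup.zpowers (g ^ 2)))) (𝓞 L) α0) -
      algebraMap (𝓞 (IntermediateField.fixedField (Subgroup.zpowers (g ^ 2)))) (𝓞 L) α0 with hδ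
  have hδ0 : δ ≠ 0 := sub_ne_zero.mpr hα0
  set d : ℕ := Ideal.absNorm (Ideal.span {δ}) with hd
  have hd0 : d ≠ 0 := by
    rw [hd, Ne, Ideal.absNorm_eq_zero_iff, Ideal.span_singleton_eq_bot]
    exact hδ0
  have hdδ : ((d : ℕ) : 𝓞 L) ∈ Ideal.span {δ} := Ideal.absNorm_mem _
  refine ⟨max D1 d, fun p hp hDp 𝔮 h𝔮 hN hns => ?_⟩
  rintro ⟨x, hx⟩
  have hD1p : D1 < p := lt_of_le_of_lt (le_max_left _ _) hDp
  have hdp : d < p := lt_of_le_of_lt (le_max_right _ _) hDp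
  have hp𝔮 : ((p : ℕ) : 𝓞 E) ∈ 𝔮 := by
    rw [← hN]; exact Ideal.absNorm_mem 𝔮
  have h𝔮0 : 𝔮 ≠ ⊥ := by
    intro h
    rw [h, Ideal.mem_bot] at hp𝔮
    exact hp.ne_zero (by exact_mod_cast hp𝔮)
  have h𝔮max : 𝔮.IsMaximal := h𝔮.isMaximal h𝔮0
  obtain ⟨Q, hQmax, hQover⟩ := Ideal.exists_maximal_ideal_liesOver_of_isIntegral (S := 𝓞 L) 𝔮
  have hQcomap : Q.comap (algebraMap (𝓞 E) (𝓞 L)) = 𝔮 := hQover.over.symm
  have hQp : Q.IsPrime := hQmax.isPrime
  have hpQ : ((p : ℕ) : 𝓞 L) ∈ Q := by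
    have : (algebraMap (𝓞 E) (𝓞 L)) ((p : ℕ) : 𝓞 E) ∈ Q := by
      rw [← Ideal.mem_comap, hQcomap]; exact hp𝔮
    rwa [map_natCast] at this
  have hQ0 : Q ≠ ⊥ := by
    intro h
    rw [h, Ideal.mem_bot] at hpQ
    exact hp.ne_zero (by exact_mod_cast hpQ)
  have hfin : Finite (𝓞 L ⧸ Q) := Ring.HasFiniteQuotients.finiteQuotient hQ0
  obtain ⟨σ, hσ⟩ := IsArithFrobAt.exists_of_isInvariant (𝓞 E) (L ≃ₐ[E] L) Q
  have hcard : Nat.card (𝓞 E ⧸ Q.under (𝓞 E)) = p := by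
    have h1 : Q.under (𝓞 E) = 𝔮 := hQcomap
    rw [h1, ← hN, Ideal.absNorm_apply, Submodule.cardQuot_apply]
  have hfrob : ∀ z : 𝓞 L, σ • z - z ^ p ∈ Q := by
    intro z
    have := hσ z
    rw [hcard] at this
    exact this
  have hone' : ∀ e : ℕ, e ≠ 0 → e < p → ((e : ℕ) : 𝓞 L) ∉ Q := by
    intro e he0 hep heQ
    have hcop : Nat.Coprime e p := ((Nat.Prime.coprime_iff_not_dvd hp).mpr
      (fun h => absurd (Nat.le_of_dvd (Nat.pos_of_ne_zero he0) h) (not_le.mpr hep))).symm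
    have hone : (1 : 𝓞 L) ∈ Q := by
      have h1 : IsCoprime (e : ℤ) (p : ℤ) := Nat.isCoprime_iff_coprime.mpr hcop
      obtain ⟨u, v, huv⟩ := h1
      have h2 : (1 : 𝓞 L) = (u : 𝓞 L) * (e : 𝓞 L) + (v : 𝓞 L) * (p : 𝓞 L) := by
        have := congrArg (Int.cast : ℤ → 𝓞 L) huv
        push_cast at this
        exact this.symm
      rw [h2]
      exact Q.add_mem (Q.mul_mem_left _ heQ) (Q.mul_mem_left _ hpQ)
    exact hQp.ne_top ((Ideal.eq_top_iff_one Q).mpr hone)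
  have hPp : ∀ b ∈ 𝔮.comap (algebraMap (𝓞 K) (𝓞 E)), algebraMap (𝓞 K) (𝓞 L) b ∈ Q := by
    intro b hb
    rw [Ideal.mem_comap, ← hQcomap, Ideal.mem_comap, ← IsScalarTower.algebraMap_apply] at hb
    exact hb
  obtain ⟨y, k, hy, hyk⟩ := exists_lift hfull _ Q hQp hPp x hx
  have hσy : σ • y - y ∈ Q := by
    have h1 := hfrob y
    have h2 : y ^ p - ((k:ℤ) : 𝓞 L) ^ p ∈ Q := Q.mem_of_dvd (sub_dvd_pow_sub_pow _ _ p) hyk
    have h3 : ((k:ℤ) : 𝓞 L) ^ p - ((k:ℤ) : 𝓞 L) ∈ Q := by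
      have h4 : (p:ℤ) ∣ (k:ℤ) ^ p - k := by
        have : Fact p.Prime := ⟨hp⟩
        rw [← ZMod.intCast_zmod_eq_zero_iff_dvd]
        push_cast
        rw [ZMod.pow_card, sub_self]
      obtain ⟨c, hc⟩ := h4
      have h5 : ((k:ℤ) : 𝓞 L) ^ p - ((k:ℤ) : 𝓞 L) = (p : 𝓞 L) * (c : 𝓞 L) := by
        have := congrArg (Int.cast : ℤ → 𝓞 L) hc
        push_cast at this
        exact this
      rw [h5]
      exact Q.mul_mem_right _ hpQ
    have h6 : σ • y - y = (σ • y - y ^ p) + (y ^ p - ((k:ℤ) : 𝓞 L) ^ p) +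
        (((k:ℤ) : 𝓞 L) ^ p - ((k:ℤ) : 𝓞 L)) - (y - ((k:ℤ) : 𝓞 L)) := by ring
    rw [h6]
    exact Q.sub_mem (Q.add_mem (Q.add_mem h1 h2) h3) hyk
  have hσy' : σ • y = y := by
    by_contra hne
    have h1 : σ • y ∈ LvA (𝓞 L) q C M := fra_smul σ hy
    exact hD1 L Q hQp (hone' D1 hD1pos.ne' hD1p) (σ • y) y h1 hy hne hσy
  obtain ⟨m, hm⟩ := hgen σ
  simp only at hm
  have heven : (2:ℤ) ∣ m := by
    by_contra hodd
    have h1 := Pool.Agent.SYL.fra_odd g a hg m hodd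
    rw [hm] at h1
    have h2 : g ∈ MulAction.stabilizer (L ≃ₐ[E] L) y :=
      (Subgroup.zpowers_le.mpr (show σ ∈ MulAction.stabilizer (L ≃ₐ[E] L) y from hσy')) h1
    have h3 : g • y = y := h2
    exact hfix (y : L) (fra_coe hy) (congrArg (algebraMap (𝓞 L) L) h3)
  have hσH : σ ∈ Subgroup.zpowers (g ^ 2) := by
    obtain ⟨m', hm'⟩ := heven
    refine ⟨m', ?_⟩
    show (g ^ 2) ^ m' = σ
    rw [← hm, hm', zpow_mul, zpow_ofNat]
  have hfixE : ∀ α : 𝓞 (IntermediateField.fixedField (Subgroup.zpowers (g ^ 2))),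
      (algebraMap (𝓞 (IntermediateField.fixedField (Subgroup.zpowers (g ^ 2)))) (𝓞 L) α) ^ p -
        algebraMap (𝓞 (IntermediateField.fixedField (Subgroup.zpowers (g ^ 2)))) (𝓞 L) α ∈ Q := by
    intro α
    have h1 : σ • (algebraMap (𝓞 (IntermediateField.fixedField (Subgroup.zpowers (g ^ 2)))) (𝓞 L) α) =
        algebraMap (𝓞 (IntermediateField.fixedField (Subgroup.zpowers (g ^ 2)))) (𝓞 L) α := by
      apply RingOfIntegers.ext
      have h2 := (α : IntermediateField.fixedField (Subgroup.zpowers (g ^ 2))).2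
      rw [IntermediateField.mem_fixedField_iff] at h2
      exact h2 σ hσH
    have h3 := hfrob (algebraMap (𝓞 (IntermediateField.fixedField (Subgroup.zpowers (g ^ 2)))) (𝓞 L) α)
    rw [h1] at h3
    rw [← neg_sub]
    exact Q.neg_mem h3
  obtain ⟨k0, hk0⟩ := Pool.Agent.SYL.fra_int Q p hp hpQ _ (hfixE α0)
  -- the two primes of the quadratic subfield
  set f1 : 𝓞 (IntermediateField.fixedField (Subgroup.zpowers (g ^ 2))) →+* 𝓞 L :=
    algebraMap (𝓞 (IntermediateField.fixedField (Subgroup.zpowers (g ^ 2)))) (𝓞 L) with hf1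
  set gh : 𝓞 L →+* 𝓞 L := MulSemiringAction.toRingHom (L ≃ₐ[E] L) (𝓞 L) g with hgh
  have hcm1 : (Q.comap f1).comap (algebraMap (𝓞 E)
      (𝓞 (IntermediateField.fixedField (Subgroup.zpowers (g ^ 2))))) = 𝔮 := by
    rw [Ideal.comap_comap, hf1, ← IsScalarTower.algebraMap_eq, hQcomap]
  have hcm2 : ((Q.comap gh).comap f1).comap (algebraMap (𝓞 E)
      (𝓞 (IntermediateField.fixedField (Subgroup.zpowers (g ^ 2))))) = 𝔮 := by
    rw [Ideal.comap_comap, hf1, ← IsScalarTower.algebraMap_eq, ← hQcomap]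
    ext z
    rw [Ideal.mem_comap, Ideal.mem_comap, Ideal.mem_comap]
    have : gh (algebraMap (𝓞 E) (𝓞 L) z) = algebraMap (𝓞 E) (𝓞 L) z := by
      apply RingOfIntegers.ext
      exact g.commutes (z : E)
    rw [this]
  have hQg : (Q.comap gh).IsPrime := Ideal.IsPrime.comap gh
  have heq := hns (Q.comap f1) ((Q.comap gh).comap f1) (Ideal.IsPrime.comap f1)
    (Ideal.IsPrime.comap f1) hcm1 hcm2
  have hmem1 : α0 - (k0 : 𝓞 (IntermediateField.fixedField (Subgroup.zpowers (g ^ 2)))) ∈ Q.comap f1 := by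
    rw [Ideal.mem_comap, map_sub, map_intCast]
    exact hk0
  have hmem2 := hmem1
  rw [heq, Ideal.mem_comap, Ideal.mem_comap, map_sub, map_sub, map_intCast, map_intCast] at hmem2
  have hδQ : δ ∈ Q := by
    have h1 : δ = (gh (f1 α0) - (k0 : 𝓞 L)) - (f1 α0 - (k0 : 𝓞 L)) := by
      rw [hδ]
      show gh (f1 α0) - f1 α0 = _
      ring
    rw [h1]
    exact Q.sub_mem hmem2 hk0
  have hdQ : ((d : ℕ) : 𝓞 L) ∈ Q := (Ideal.span_singleton_le_iff_mem Q).mpr hδQ hdδ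
  exact hone' d hd0 hdp hdQ

end Pool.Agent.PTN
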