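import Pool.Agent.PTN.Defs
import Pool.Agent.PTN.LEV

set_option autoImplicit false

/-!
POW: adapt SYL/POW.lean.
-/

namespace Pool.Agent.PTN

open NumberField

private lemma pow_fix {K : Type} [Field K] [NumberField K] {q : 𝓞 K} {C : ℕ → 𝓞 K} (L : Type)
    [Field L] [NumberField L] [Algebra K L] (γ : L ≃ₐ[K] L) :
    ∀ j : ℕ, ∀ y ∈ LvA L q C j, (γ ^ (2 ^ j)) y = y := by
  intro j
  induction j with
  | zero =>
    intro y hy
    rw [LvA, lv_zero, Set.mem_singleton_iff] at hy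
    rw [hy]
    exact alg_comm _ _
  | succ j ih =>
    intro y hy
    obtain ⟨x, hx, he⟩ := lv_parent hy
    set τ := γ ^ (2 ^ j) with hτ
    have hτx : τ x = x := ih x hx
    have he' : y * (y + algebraMap (𝓞 K) L (C j)) = algebraMap (𝓞 K) L (C (j + 1)) * x := he
    have h1 : τ y * (τ y + algebraMap (𝓞 K) L (C j)) = algebraMap (𝓞 K) L (C (j + 1)) * x := by
      have := congrArg τ he'
      rw [map_mul, map_add, map_mul, alg_comm, alg_comm, hτx] at this
      exact this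
    have h2 : (τ y - y) * (τ y + y + algebraMap (𝓞 K) L (C j)) = 0 := by
      linear_combination h1 - he'
    have h3 : γ ^ (2 ^ (j + 1)) = τ * τ := by
      rw [hτ, ← pow_add]
      congr 1
      ring
    rw [h3, AlgEquiv.mul_apply]
    rcases mul_eq_zero.1 h2 with h | h
    · have h4 : τ y = y := sub_eq_zero.1 h
      rw [h4, h4]
    · have h4 : τ y = -algebraMap (𝓞 K) L (C j) - y := by linear_combination h
      rw [h4, map_sub, map_neg, alg_comm, h4]
      ring

/-- Replace `γ` by an element of order a power of two. -/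
theorem exists_two_power {K : Type} [Field K] [NumberField K] {q : 𝓞 K} {C : ℕ → 𝓞 K} {M : ℕ}
    (L : Type) [Field L] [NumberField L] [Algebra K L] (γ : L ≃ₐ[K] L)
    (hne : (LvA L q C M).Nonempty) (hγ : ∀ x ∈ LvA L q C M, γ x ≠ x) :
    ∃ (γ' : L ≃ₐ[K] L) (a : ℕ), orderOf γ' = 2 ^ (a + 1) ∧ ∀ x ∈ LvA L q C M, γ' x ≠ x := by
  have : FiniteDimensional K L := Module.Finite.of_restrictScalars_finite ℚ K L
  have hfin : 0 < orderOf γ := orderOf_pos γ
  obtain ⟨b, m, hm, hbm⟩ := Nat.exists_eq_two_pow_mul_odd hfin.ne'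
  have hcop : Nat.Coprime (2 ^ M) m := (Nat.coprime_two_left.2 hm).pow_left M
  obtain ⟨k, hk1, hk2⟩ := Nat.chineseRemainder hcop 1 0
  have hk2' : m ∣ k := (Nat.modEq_zero_iff_dvd).1 hk2
  -- the action on the level
  have hstep : ∀ x ∈ LvA L q C M, ∀ t : ℕ, ((γ ^ (2 ^ M)) ^ t) x = x := by
    intro x hx t
    induction t with
    | zero => rw [pow_zero]; rfl
    | succ t ih => rw [pow_succ, AlgEquiv.mul_apply, pow_fix L γ M x hx, ih]
  have hact : ∀ x ∈ LvA L q C M, (γ ^ k) x = γ x := by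
    intro x hx
    have h1 : k + 2 ^ M ≡ 1 [MOD 2 ^ M] := by
      have : k + 2 ^ M ≡ k [MOD 2 ^ M] := by
        unfold Nat.ModEq
        rw [Nat.add_mod_right]
      exact this.trans hk1
    have h2 : 1 ≤ k + 2 ^ M := le_add_left Nat.one_le_two_pow
    obtain ⟨t, ht⟩ := (Nat.modEq_iff_dvd' h2).1 h1.symm
    have h3 : k + 2 ^ M = 1 + 2 ^ M * t := by omega
    have h4 : (γ ^ (k + 2 ^ M)) x = (γ ^ k) x := by
      rw [pow_add, AlgEquiv.mul_apply, pow_fix L γ M x hx]
    rw [← h4, h3, pow_add, pow_one, pow_mul, AlgEquiv.mul_apply, hstep x hx t]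
  have hmove : ∀ x ∈ LvA L q C M, (γ ^ k) x ≠ x := fun x hx => by
    rw [hact x hx]
    exact hγ x hx
  have hdvd : orderOf (γ ^ k) ∣ 2 ^ b := by
    rw [orderOf_dvd_iff_pow_eq_one, ← pow_mul]
    rw [← orderOf_dvd_iff_pow_eq_one, hbm, mul_comm k]
    exact Nat.mul_dvd_mul_left _ hk2'
  obtain ⟨c, hc, hce⟩ := (Nat.dvd_prime_pow Nat.prime_two).1 hdvd
  refine ⟨γ ^ k, c - 1, ?_, hmove⟩
  rcases Nat.eq_zero_or_pos c with h0 | h0
  · exfalso
    rw [h0, pow_zero, orderOf_eq_one_iff] at hce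
    obtain ⟨x, hx⟩ := hne
    have := hmove x hx
    rw [hce] at this
    exact this rfl
  · rw [hce]
    congr 1
    omega

end Pool.Agent.PTN
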