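import Pool.Agent.PTN.Defs
import Pool.Agent.PTN.LEV
import Pool.Agent.PTN.POW
import Pool.Agent.PTN.LFT
import Pool.Agent.PTN.SEP
import Pool.Agent.PTN.FRA
import Pool.Agent.SYL.NSP
import Pool.Agent.SYL.FRB

set_option autoImplicit false

/-!
FRB: adapted from SYL/FRB.lean. Suppose Killed fails: there is X such that no good p > X. By
nonsplit_kill every prime of E whose norm is a prime p > max D X and which is not split is excluded.
So the nonsplit primes of E have either norm not a prime (norm at least p^2) or norm a prime at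
most max D X: the sum of 1/absNorm is finite, contradiction to nonsplit_not_summable.
-/

namespace Pool.Agent.PTN

open NumberField Module

section Primes

variable {E : Type} [Field E] [NumberField E]

private theorem frb_nat (P : Ideal (𝓞 E)) (hP : P.IsPrime) {l n : ℕ} (hl : l.Prime)
    (hlP : ((l : ℕ) : 𝓞 E) ∈ P) (hn : ((n : ℕ) : 𝓞 E) ∈ P) : l ∣ n := by
  by_contra hcon
  have hcop : IsCoprime (l : ℤ) (n : ℤ) :=
    Nat.isCoprime_iff_coprime.2 ((Nat.Prime.coprime_iff_not_dvd hl).2 hcon)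
  obtain ⟨a, b, hab⟩ := hcop
  apply hP.ne_top
  rw [Ideal.eq_top_iff_one]
  have h1 : ((a * (l : ℤ) + b * (n : ℤ) : ℤ) : 𝓞 E) = 1 := by rw [hab, Int.cast_one]
  rw [← h1]
  push_cast
  exact P.add_mem (P.mul_mem_left _ hlP) (P.mul_mem_left _ hn)

private theorem frb_norm (Q : Ideal (𝓞 E)) (hQ : Q.IsPrime) (h0 : Q ≠ ⊥) :
    ∃ p f : ℕ, p.Prime ∧ 0 < f ∧ Ideal.absNorm Q = p ^ f ∧ ((p : ℕ) : 𝓞 E) ∈ Q := by
  have hfin : Finite (𝓞 E ⧸ Q) := Ideal.finiteQuotientOfFreeOfNeBot Q h0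
  have hmax : Q.IsMaximal := hQ.isMaximal h0
  let _ : Field (𝓞 E ⧸ Q) := Ideal.Quotient.field Q
  let _ : Fintype (𝓞 E ⧸ Q) := Fintype.ofFinite _
  have h1 : IsPrimePow (Fintype.card (𝓞 E ⧸ Q)) := Fintype.isPrimePow_card_of_field
  obtain ⟨p, f, hp, hf, hpf⟩ := (isPrimePow_nat_iff _).1 h1
  have h2 : Ideal.absNorm Q = p ^ f := by
    rw [hpf, Ideal.absNorm_apply, Submodule.cardQuot_apply, Nat.card_eq_fintype_card]
  refine ⟨p, f, hp, hf, h2, ?_⟩
  have h3 := Ideal.absNorm_mem Q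
  rw [h2] at h3
  push_cast at h3
  exact hQ.mem_of_pow_mem f h3

/-- At most `[E : ℚ]` primes above `p`. -/
private theorem frb_count (p : ℕ) (hp : p.Prime) (s : Finset (Ideal (𝓞 E)))
    (hs : ∀ Q ∈ s, Q.IsPrime ∧ Q ≠ ⊥ ∧ ((p : ℕ) : 𝓞 E) ∈ Q) : s.card ≤ finrank ℤ (𝓞 E) := by
  have h1 : ∏ Q ∈ s, Q ∣ Ideal.span {((p : ℕ) : 𝓞 E)} := by
    apply Finset.prod_primes_dvd
    · intro Q hQ
      exact Ideal.prime_of_isPrime (hs Q hQ).2.1 (hs Q hQ).1
    · intro Q hQ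
      rw [Ideal.dvd_span_singleton]
      exact (hs Q hQ).2.2
  have h2 := map_dvd Ideal.absNorm h1
  rw [Ideal.absNorm_span_natCast, map_prod] at h2
  have h3 : p ^ s.card ≤ ∏ Q ∈ s, Ideal.absNorm Q := by
    rw [← Finset.prod_const]
    apply Finset.prod_le_prod' (f := fun _ => p)
    intro Q hQ
    obtain ⟨hQp, hQ0, hQm⟩ := hs Q hQ
    obtain ⟨p', f, hp', hf, hpf, hm⟩ := frb_norm Q hQp hQ0
    have h4 : p = p' := (Nat.prime_dvd_prime_iff_eq hp hp').1 (frb_nat Q hQp hp hQm hm)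
    rw [hpf, ← h4]
    exact Nat.le_self_pow hf.ne' p
  have h4 : p ^ s.card ≤ p ^ finrank ℤ (𝓞 E) :=
    h3.trans (Nat.le_of_dvd (pow_pos hp.pos _) h2)
  exact (Nat.pow_le_pow_iff_right hp.one_lt).1 h4

/-- Summability over primes of `E` from summability over the rational primes. -/
private theorem frb_summable (S : Set (Ideal (𝓞 E))) (K : Set ℕ) (D : ℕ)
    (hK : Summable (Set.indicator K (fun p : ℕ => (1 : ℝ) / p)))
    (hS : ∀ Q ∈ S, Q.IsPrime → ∀ p : ℕ, p.Prime → D < p → Ideal.absNorm Q = p → p ∈ K) :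
    Summable (fun Q : {Q : Ideal (𝓞 E) // Q.IsPrime ∧ Q ≠ ⊥ ∧ Q ∈ S} =>
      (1 : ℝ) / (Ideal.absNorm Q.1 : ℕ)) := by
  classical
  choose ℓ f hℓ using fun Q : {Q : Ideal (𝓞 E) // Q.IsPrime ∧ Q ≠ ⊥ ∧ Q ∈ S} =>
    frb_norm Q.1 Q.2.1 Q.2.2.1
  set F : ℕ → ℝ := fun p => Set.indicator K (fun p : ℕ => (1 : ℝ) / p) p +
    Set.indicator (Set.Iic D) (fun _ => (1 : ℝ)) p + 1 / (p : ℝ) ^ 2 with hF
  have hFs : Summable F := by
    refine (hK.add ?_).add ?_
    · apply summable_of_hasFiniteSupport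
      exact (Set.finite_Iic D).subset Set.support_indicator_subset
    · exact Real.summable_one_div_nat_pow.2 (by norm_num)
  have hK0 : ∀ p, 0 ≤ Set.indicator K (fun p : ℕ => (1 : ℝ) / p) p := fun p =>
    Set.indicator_nonneg (fun _ _ => by positivity) p
  have hD0 : ∀ p, 0 ≤ Set.indicator (Set.Iic D) (fun _ => (1 : ℝ)) p := fun p =>
    Set.indicator_nonneg (fun _ _ => by positivity) p
  have hF0 : ∀ p, 0 ≤ F p := fun p => by
    have h1 := hK0 p
    have h2 := hD0 p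
    have h3 : (0 : ℝ) ≤ 1 / (p : ℝ) ^ 2 := by positivity
    simp only [hF]
    linarith
  have hle : ∀ Q : {Q : Ideal (𝓞 E) // Q.IsPrime ∧ Q ≠ ⊥ ∧ Q ∈ S},
      (1 : ℝ) / (Ideal.absNorm Q.1 : ℕ) ≤ F (ℓ Q) := by
    intro Q
    obtain ⟨hp, hf, hpf, hm⟩ := hℓ Q
    have h1 := hK0 (ℓ Q)
    have h2 := hD0 (ℓ Q)
    have h3 : (0 : ℝ) ≤ 1 / (ℓ Q : ℝ) ^ 2 := by positivity
    have hpos : (0 : ℝ) < (ℓ Q : ℝ) := by exact_mod_cast hp.pos
    rcases Nat.lt_or_ge (f Q) 2 with h4 | h4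
    · have h5 : f Q = 1 := by omega
      rw [h5, pow_one] at hpf
      rw [hpf]
      rcases Nat.lt_or_ge D (ℓ Q) with h6 | h6
      · have h7 := hS Q.1 Q.2.2.2 Q.2.1 (ℓ Q) hp h6 hpf
        simp only [hF]
        rw [Set.indicator_of_mem h7]
        linarith
      · simp only [hF]
        rw [Set.indicator_of_mem (s := Set.Iic D) h6]
        have h8 : (1 : ℝ) / (ℓ Q : ℝ) ≤ 1 := by
          rw [div_le_one hpos]
          exact_mod_cast hp.one_lt.le
        linarith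
    · have h5 : (ℓ Q : ℝ) ^ 2 ≤ (Ideal.absNorm Q.1 : ℕ) := by
        rw [hpf]
        exact_mod_cast Nat.pow_le_pow_right hp.pos h4
      have h6 : (1 : ℝ) / (Ideal.absNorm Q.1 : ℕ) ≤ 1 / (ℓ Q : ℝ) ^ 2 :=
        one_div_le_one_div_of_le (by positivity) h5
      simp only [hF]
      linarith
  have hbound : ∀ s : Finset {Q : Ideal (𝓞 E) // Q.IsPrime ∧ Q ≠ ⊥ ∧ Q ∈ S},
      ∑ Q ∈ s, (1 : ℝ) / (Ideal.absNorm Q.1 : ℕ) ≤ (finrank ℤ (𝓞 E)) * ∑' p, F p := by
    intro s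
    calc ∑ Q ∈ s, (1 : ℝ) / (Ideal.absNorm Q.1 : ℕ) ≤ ∑ Q ∈ s, F (ℓ Q) :=
          Finset.sum_le_sum fun Q _ => hle Q
      _ = ∑ p ∈ s.image ℓ, (s.filter fun Q => ℓ Q = p).card • F p := Finset.sum_comp F ℓ
      _ ≤ ∑ p ∈ s.image ℓ, (finrank ℤ (𝓞 E)) * F p := by
          apply Finset.sum_le_sum
          intro p hp
          rw [nsmul_eq_mul]
          apply mul_le_mul_of_nonneg_right _ (hF0 p)
          obtain ⟨Q0, hQ0, rfl⟩ := Finset.mem_image.1 hp
          have h1 : ((s.filter fun Q => ℓ Q = ℓ Q0).image Subtype.val).card ≤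
              finrank ℤ (𝓞 E) := by
            apply frb_count (ℓ Q0) (hℓ Q0).1
            intro Q hQ
            obtain ⟨Q', hQ', rfl⟩ := Finset.mem_image.1 hQ
            have h2 := (Finset.mem_filter.1 hQ').2
            refine ⟨Q'.2.1, Q'.2.2.1, ?_⟩
            rw [← h2]
            exact (hℓ Q').2.2.2
          rw [Finset.card_image_of_injective _ Subtype.val_injective] at h1
          exact_mod_cast h1
      _ = (finrank ℤ (𝓞 E)) * ∑ p ∈ s.image ℓ, F p := by rw [Finset.mul_sum]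
      _ ≤ (finrank ℤ (𝓞 E)) * ∑' p, F p :=
          mul_le_mul_of_nonneg_left (hFs.sum_le_tsum _ fun p _ => hF0 p) (Nat.cast_nonneg _)
  exact summable_of_sum_le (fun Q => by positivity) hbound

/-- The quotient by an ideal whose norm is a prime number consists of integers. -/
private theorem frb_int (Q : Ideal (𝓞 E)) {p : ℕ} (hp : p.Prime) (h : Ideal.absNorm Q = p)
    (b : 𝓞 E) : ∃ k : ℤ, b - (k : 𝓞 E) ∈ Q := by
  have hcard : Nat.card (𝓞 E ⧸ Q) = p := by
    rw [← h, Ideal.absNorm_apply, Submodule.cardQuot_apply]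
  have hfin : Finite (𝓞 E ⧸ Q) := Nat.finite_of_card_ne_zero (by rw [hcard]; exact hp.ne_zero)
  let _ : Fintype (𝓞 E ⧸ Q) := Fintype.ofFinite _
  rw [Nat.card_eq_fintype_card] at hcard
  let f : ZMod p ≃+* (𝓞 E ⧸ Q) := ZMod.ringEquivOfPrime _ hp hcard
  obtain ⟨z, hz⟩ := f.surjective (Ideal.Quotient.mk Q b)
  obtain ⟨k, rfl⟩ := ZMod.intCast_surjective z
  refine ⟨k, ?_⟩
  rw [map_intCast] at hz
  rw [← Ideal.Quotient.eq, ← hz, map_intCast]

end Primes

/-- A derangement of level `M` over `K` gives arbitrarily large degree one primes without integer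
chains of length `M`. -/
theorem killed_of_derangement {K : Type} [Field K] [NumberField K] {q : 𝓞 K} {C : ℕ → 𝓞 K}
    {M : ℕ} (L : Type) [Field L] [NumberField L] [Algebra K L] [IsGalois K L]
    (hfull : FullA L q C M) (hne : (LvA L q C M).Nonempty) (γ : L ≃ₐ[K] L)
    (hγ : ∀ x ∈ LvA L q C M, γ x ≠ x) :
    Killed q C M := by
  intro X
  by_contra hcon
  have : FiniteDimensional K L := Module.Finite.of_restrictScalars_finite ℚ K L
  obtain ⟨γ', a, hord, hmov⟩ := exists_two_power L γ hne hγ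
  set H : Subgroup (L ≃ₐ[K] L) := Subgroup.zpowers γ' with hH
  let E : IntermediateField K L := IntermediateField.fixedField H
  let e : H ≃* (L ≃ₐ[E] L) := IntermediateField.subgroupEquivAlgEquiv H
  let g : L ≃ₐ[E] L := e ⟨γ', Subgroup.mem_zpowers γ'⟩
  have hg : orderOf g = 2 ^ (a + 1) := by
    show orderOf (e ⟨γ', Subgroup.mem_zpowers γ'⟩) = _
    rw [MulEquiv.orderOf_eq e, Subgroup.orderOf_mk, hord]
  have hgen : ∀ σ : L ≃ₐ[E] L, σ ∈ Subgroup.zpowers g := by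
    intro σ
    obtain ⟨⟨τ, hτ⟩, rfl⟩ := e.surjective σ
    obtain ⟨k, hk⟩ := Subgroup.mem_zpowers_iff.1 hτ
    rw [Subgroup.mem_zpowers_iff]
    refine ⟨k, ?_⟩
    show (e ⟨γ', Subgroup.mem_zpowers γ'⟩) ^ k = _
    rw [← map_zpow]
    congr 1
    apply Subtype.ext
    exact hk
  have hfix : ∀ x ∈ LvA L q C M, g x ≠ x := by
    intro x hx hcon
    exact hmov x hx hcon
  obtain ⟨D, hD⟩ := nonsplit_kill K E L g a hg hgen q C M hfull hfix
  have hcardG : Nat.card (L ≃ₐ[E] L) = 2 ^ (a + 1) := by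
    rw [← orderOf_eq_card_of_forall_mem_zpowers hgen, hg]
  have hfr1 : finrank E L = 2 ^ (a + 1) := by
    rw [← IsGalois.card_aut_eq_finrank, hcardG]
  have hfr2 : finrank (IntermediateField.fixedField (Subgroup.zpowers (g ^ 2))) L = 2 ^ a := by
    rw [IntermediateField.finrank_fixedField_eq_card, Nat.card_zpowers, orderOf_pow, hg]
    have : Nat.gcd (2 ^ (a + 1)) 2 = 2 := Nat.gcd_eq_right (dvd_pow_self 2 (Nat.succ_ne_zero a))
    rw [this, pow_succ, Nat.mul_div_cancel _ (by norm_num)]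
  have hfr : finrank E (IntermediateField.fixedField (Subgroup.zpowers (g ^ 2))) = 2 := by
    have h1 := Module.finrank_mul_finrank E
      (IntermediateField.fixedField (Subgroup.zpowers (g ^ 2))) L
    rw [hfr1, hfr2] at h1
    have h2 : (2 : ℕ) ^ (a + 1) = 2 * 2 ^ a := by ring
    rw [h2] at h1
    exact Nat.eq_of_mul_eq_mul_right (pow_pos (by norm_num) a) h1
  refine Pool.Agent.SYL.nonsplit_not_summable E
    (IntermediateField.fixedField (Subgroup.zpowers (g ^ 2))) hfr ?_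
  refine frb_summable _ (∅ : Set ℕ) (max D X) ?_ ?_
  · simp [Set.indicator_empty, summable_zero]
  intro Q hQ hQp p hp hDp hnorm
  exfalso
  apply hcon
  have h1 : D < p := lt_of_le_of_lt (le_max_left _ _) hDp
  have h2 : X < p := lt_of_le_of_lt (le_max_right _ _) hDp
  refine ⟨p, hp, h2, Q.comap (algebraMap (𝓞 K) (𝓞 E)), Ideal.comap_isPrime _ _, ?_, ?_,
    hD p hp h1 Q hQp hnorm hQ⟩
  · rw [Ideal.mem_comap, map_natCast, ← hnorm]
    exact Ideal.absNorm_mem Q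
  · intro b
    obtain ⟨k, hk⟩ := frb_int Q hp hnorm (algebraMap (𝓞 K) (𝓞 E) b)
    refine ⟨k, ?_⟩
    rw [Ideal.mem_comap, map_sub, map_intCast]
    exact hk

end Pool.Agent.PTN
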