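import Pool.Agent.PTN.Defs
import Pool.Agent.PTN.LEV
import Pool.Agent.PTN.FLD
import Pool.Agent.PTN.ORB
import Pool.Agent.PTN.FRB

set_option autoImplicit false

/-!
KLM: level one. If `C 1 * q` is not a square in `K`, arbitrarily large degree one primes have no integer chain of length one.
-/

namespace Pool.Agent.PTN

open NumberField

theorem killed_one {K : Type} [Field K] [NumberField K] (q : 𝓞 K) (C : ℕ → 𝓞 K) (hC0 : C 0 = 0)
    (hns : ¬ ∃ y : K, y ^ 2 = (C 1 : K) * (q : K)) : Killed q C 1 := by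
  obtain ⟨τ⟩ : Nonempty (K →+* ℂ) := inferInstance
  obtain ⟨L, _, _, _, _, φ, -, hfull⟩ := exists_field K τ q C 1
  have hq0 : algebraMap (𝓞 K) L q ∈ LvA L q C 0 := by
    rw [LvA, lv_zero]
    exact Set.mem_singleton _
  obtain ⟨y, hy⟩ := hfull 0 Nat.zero_lt_one _ hq0
  have hlev : y ∈ LvA L q C 1 := lv_child hq0 hy
  have hyK : ¬ ∀ g : L ≃ₐ[K] L, g y = y := by
    intro hall
    obtain ⟨x, hx⟩ := (IsGalois.mem_range_algebraMap_iff_fixed (F := K) y).2 hall
    apply hns
    refine ⟨x, ?_⟩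
    apply (algebraMap K L).injective
    rw [hC0, map_zero, add_zero, zero_add] at hy
    rw [map_pow, hx, map_mul, pow_two, hy]
    rw [IsScalarTower.algebraMap_apply (𝓞 K) K L, IsScalarTower.algebraMap_apply (𝓞 K) K L]
  push Not at hyK
  obtain ⟨g, hg⟩ := hyK
  refine killed_of_derangement L hfull ⟨y, hlev⟩ g ?_
  intro x hx
  obtain ⟨x0, hx0, hxx⟩ := lv_parent hx
  rw [lv_zero, Set.mem_singleton_iff] at hx0
  subst hx0
  rcases orb_roots hy hxx with h | h
  · rw [h]; exact hg
  · intro hcon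
    have h0 : algebraMap (𝓞 K) L (C 0) = 0 := by rw [hC0, map_zero]
    rw [h] at hcon
    simp only [h0] at hcon
    rw [neg_zero, zero_sub, map_neg] at hcon
    exact hg (neg_injective hcon)

end Pool.Agent.PTN
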