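import Pool.Agent.PTN.Defs
import Pool.Agent.PTN.POS

set_option autoImplicit false

/-!
IRA: v r = posr q c r with c r = P (r), P a real polynomial of degree D >= 1. Claim: |Δ^m v r| <= A_m r^(D-1-m) for r >= 1.
Symbol classes: u in S k m (k in ℤ, m in ℕ) if for every i <= m there is A with |Δ^i u r| <= A r^(k-i) for all r >= 1
(Δ = fwdDiff 1; zpow). Elementary closure properties, all by induction on m using the inductive description
u in S k (m+1) iff |u r| <= A r^k and Δ u in S (k-1) m: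
 - sums, monotone in k (r >= 1) and in m; shift u(.+1) (compare (r+1)^k with r^k, constant 2^|k|);
 - products: u in S k m, w in S l m => u w in S (k+l) m, by Δ(u w) r = Δu r * w (r+1) + u r * Δw r;
 - c in S D m for all m (monomials and sums), and Δ c in S (D-1) m;
 - 1/c in S (-D) m: c r >= a r^D for r >= 1 with a > 0 (c r > 0 for r >= 1 and c r / r^D -> leading coefficient > 0), and
   Δ(1/c) = - Δc * (1/c) * (1/c)(.+1), induction on m.
MAIN STEP: the recursion v (r+1) (v (r+1) + c r) = c (r+1) v r is equivalent to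
   Δ v r = (Δ c r * v r - v (r+1)^2) / c r     (r >= 1, c r > 0).
So if v in S (D-1) m then the right side is in S ((D-1) + (D-1) - D) m = S (D-2) m, hence v in S (D-1) (m+1).
BASE: v r <= K c r / r by induction on r (K t0 >= 2 where c (r+1) >= t0 c r), so v r <= A r^(D-1).
-/

namespace Pool.Agent.PTN

open Polynomial

private def IRA_B (k : ℤ) (u : ℕ → ℝ) : Prop :=
  ∃ A : ℝ, 0 ≤ A ∧ ∀ r : ℕ, 1 ≤ r → |u r| ≤ A * (r : ℝ) ^ k

private def IRA_S : ℕ → ℤ → (ℕ → ℝ) → Prop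
  | 0, k, u => IRA_B k u
  | (m + 1), k, u => IRA_B k u ∧ IRA_S m (k - 1) (fwdDiff 1 u)

private theorem IRA_base {m : ℕ} {k : ℤ} {u : ℕ → ℝ} (h : IRA_S m k u) : IRA_B k u := by
  cases m with
  | zero => exact h
  | succ m => exact h.1

private theorem IRA_rpos {r : ℕ} (hr : 1 ≤ r) (k : ℤ) : 0 < (r : ℝ) ^ k :=
  zpow_pos (by exact_mod_cast hr) k

private theorem IRA_B_mono {k l : ℤ} {u : ℕ → ℝ} (hkl : k ≤ l) (h : IRA_B k u) : IRA_B l u := by
  obtain ⟨A, hA, h⟩ := h
  refine ⟨A, hA, fun r hr => (h r hr).trans ?_⟩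
  exact mul_le_mul_of_nonneg_left
    (zpow_le_zpow_right₀ (by exact_mod_cast hr) hkl) hA

private theorem IRA_S_mono {m : ℕ} : ∀ {k l : ℤ} {u : ℕ → ℝ}, k ≤ l → IRA_S m k u → IRA_S m l u := by
  induction m with
  | zero =>
    intro k l u hkl h
    exact IRA_B_mono hkl h
  | succ m ih =>
    intro k l u hkl h
    exact ⟨IRA_B_mono hkl h.1, ih (by omega) h.2⟩

private theorem IRA_S_down {m : ℕ} : ∀ {k : ℤ} {u : ℕ → ℝ}, IRA_S (m + 1) k u → IRA_S m k u := by
  induction m with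
  | zero =>
    intro k u h
    exact h.1
  | succ m ih =>
    intro k u h
    exact ⟨h.1, ih h.2⟩

private theorem IRA_B_congr {k : ℤ} {u w : ℕ → ℝ} (huw : ∀ r, 1 ≤ r → u r = w r)
    (h : IRA_B k u) : IRA_B k w := by
  obtain ⟨A, hA, h⟩ := h
  exact ⟨A, hA, fun r hr => by rw [← huw r hr]; exact h r hr⟩

private theorem IRA_S_congr {m : ℕ} : ∀ {k : ℤ} {u w : ℕ → ℝ}, (∀ r, 1 ≤ r → u r = w r) →
    IRA_S m k u → IRA_S m k w := by
  induction m with
  | zero =>
    intro k u w huw h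
    exact IRA_B_congr huw h
  | succ m ih =>
    intro k u w huw h
    refine ⟨IRA_B_congr huw h.1, ih ?_ h.2⟩
    intro r hr
    change u (r + 1) - u r = w (r + 1) - w r
    rw [huw r hr, huw (r + 1) (by omega)]

private theorem IRA_pow_shift (k : ℤ) :
    ∃ B : ℝ, 0 ≤ B ∧ ∀ r : ℕ, 1 ≤ r → (((r + 1 : ℕ)) : ℝ) ^ k ≤ B * (r : ℝ) ^ k := by
  obtain ⟨n, rfl | rfl⟩ := k.eq_nat_or_neg
  · refine ⟨2 ^ n, by positivity, fun r hr => ?_⟩
    rw [zpow_natCast, zpow_natCast, ← mul_pow]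
    apply pow_le_pow_left₀ (by positivity)
    have : (1 : ℝ) ≤ (r : ℝ) := by exact_mod_cast hr
    push_cast
    linarith
  · refine ⟨1, by norm_num, fun r hr => ?_⟩
    have h1 : (1 : ℝ) ≤ (r : ℝ) := by exact_mod_cast hr
    rw [one_mul, zpow_neg, zpow_neg, zpow_natCast, zpow_natCast]
    apply inv_anti₀ (by positivity)
    apply pow_le_pow_left₀ (by positivity)
    push_cast
    linarith

private theorem IRA_B_shift {k : ℤ} {u : ℕ → ℝ} (h : IRA_B k u) :
    IRA_B k (fun r => u (r + 1)) := by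
  obtain ⟨A, hA, h⟩ := h
  obtain ⟨B, hB, hs⟩ := IRA_pow_shift k
  refine ⟨A * B, mul_nonneg hA hB, fun r hr => ?_⟩
  refine (h (r + 1) (by omega)).trans ?_
  rw [mul_assoc]
  exact mul_le_mul_of_nonneg_left (hs r hr) hA

private theorem IRA_S_shift {m : ℕ} : ∀ {k : ℤ} {u : ℕ → ℝ}, IRA_S m k u →
    IRA_S m k (fun r => u (r + 1)) := by
  induction m with
  | zero =>
    intro k u h
    exact IRA_B_shift h
  | succ m ih =>
    intro k u h
    exact ⟨IRA_B_shift h.1, ih h.2⟩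

private theorem IRA_B_add {k : ℤ} {u w : ℕ → ℝ} (hu : IRA_B k u) (hw : IRA_B k w) :
    IRA_B k (fun r => u r + w r) := by
  obtain ⟨A, hA, hu⟩ := hu
  obtain ⟨B, hB, hw⟩ := hw
  refine ⟨A + B, add_nonneg hA hB, fun r hr => ?_⟩
  rw [add_mul]
  exact (abs_add_le _ _).trans (add_le_add (hu r hr) (hw r hr))

private theorem IRA_S_add {m : ℕ} : ∀ {k : ℤ} {u w : ℕ → ℝ}, IRA_S m k u → IRA_S m k w →
    IRA_S m k (fun r => u r + w r) := by
  induction m with
  | zero =>
    intro k u w hu hw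
    exact IRA_B_add hu hw
  | succ m ih =>
    intro k u w hu hw
    refine ⟨IRA_B_add hu.1 hw.1, ?_⟩
    have h := ih hu.2 hw.2
    refine IRA_S_congr ?_ h
    intro r _
    change (u (r + 1) - u r) + (w (r + 1) - w r) = (u (r + 1) + w (r + 1)) - (u r + w r)
    ring

private theorem IRA_B_mul {k l : ℤ} {u w : ℕ → ℝ} (hu : IRA_B k u) (hw : IRA_B l w) :
    IRA_B (k + l) (fun r => u r * w r) := by
  obtain ⟨A, hA, hu⟩ := hu
  obtain ⟨B, hB, hw⟩ := hw
  refine ⟨A * B, mul_nonneg hA hB, fun r hr => ?_⟩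
  have hr0 : (r : ℝ) ≠ 0 := by
    have : (1 : ℝ) ≤ (r : ℝ) := by exact_mod_cast hr
    positivity
  rw [abs_mul, zpow_add₀ hr0]
  calc |u r| * |w r| ≤ (A * (r : ℝ) ^ k) * (B * (r : ℝ) ^ l) :=
        mul_le_mul (hu r hr) (hw r hr) (abs_nonneg _) (mul_nonneg hA (IRA_rpos hr k).le)
    _ = A * B * ((r : ℝ) ^ k * (r : ℝ) ^ l) := by ring

private theorem IRA_S_mul {m : ℕ} : ∀ {k l : ℤ} {u w : ℕ → ℝ}, IRA_S m k u → IRA_S m l w →
    IRA_S m (k + l) (fun r => u r * w r) := by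
  induction m with
  | zero =>
    intro k l u w hu hw
    exact IRA_B_mul hu hw
  | succ m ih =>
    intro k l u w hu hw
    refine ⟨IRA_B_mul hu.1 hw.1, ?_⟩
    have h1 := ih hu.2 (IRA_S_shift (IRA_S_down hw))
    have h2 := ih (IRA_S_down hu) hw.2
    have h1' := IRA_S_mono (show k - 1 + l ≤ k + l - 1 by omega) h1
    have h2' := IRA_S_mono (show k + (l - 1) ≤ k + l - 1 by omega) h2
    refine IRA_S_congr ?_ (IRA_S_add h1' h2')
    intro r _
    change (u (r + 1) - u r) * w (r + 1) + u r * (w (r + 1) - w r) =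
      u (r + 1) * w (r + 1) - u r * w r
    ring

private theorem IRA_S_const {m : ℕ} : ∀ (a : ℝ), IRA_S m 0 (fun _ => a) := by
  have hzero : ∀ (m : ℕ) (k : ℤ), IRA_S m k (fun _ => (0 : ℝ)) := by
    intro m
    induction m with
    | zero =>
      intro k
      exact ⟨0, le_rfl, fun r _ => by simp⟩
    | succ m ih =>
      intro k
      refine ⟨⟨0, le_rfl, fun r _ => by simp⟩, IRA_S_congr ?_ (ih (k - 1))⟩
      intro r _
      change (0 : ℝ) = 0 - 0
      ring
  intro a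
  cases m with
  | zero => exact ⟨|a|, abs_nonneg _, fun r _ => by simp⟩
  | succ m =>
    refine ⟨⟨|a|, abs_nonneg _, fun r _ => by simp⟩, IRA_S_congr ?_ (hzero m (0 - 1))⟩
    intro r _
    change (0 : ℝ) = a - a
    ring

private theorem IRA_S_id {m : ℕ} : IRA_S m 1 (fun r => (r : ℝ)) := by
  cases m with
  | zero => exact ⟨1, by norm_num, fun r _ => by simp⟩
  | succ m =>
    refine ⟨⟨1, by norm_num, fun r _ => by simp⟩, IRA_S_congr ?_ (IRA_S_const (1 : ℝ))⟩
    intro r _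
    change (1 : ℝ) = ((r + 1 : ℕ) : ℝ) - (r : ℝ)
    push_cast
    ring

private theorem IRA_S_pow {m : ℕ} (n : ℕ) : IRA_S m (n : ℤ) (fun r => (r : ℝ) ^ n) := by
  induction n with
  | zero =>
    refine IRA_S_congr ?_ (IRA_S_const (1 : ℝ))
    intro r _
    simp
  | succ n ih =>
    have h := IRA_S_mul ih (IRA_S_id (m := m))
    rw [Nat.cast_succ]
    exact IRA_S_congr (fun r _ => (pow_succ _ _).symm) h

private theorem IRA_S_sum {m : ℕ} {k : ℤ} (n : ℕ) (f : ℕ → ℕ → ℝ)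
    (h : ∀ i, i < n + 1 → IRA_S m k (f i)) :
    IRA_S m k (fun r => ∑ i ∈ Finset.range (n + 1), f i r) := by
  induction n with
  | zero =>
    refine IRA_S_congr ?_ (h 0 (by omega))
    intro r _
    simp
  | succ n ih =>
    have h1 := ih (fun i hi => h i (by omega))
    refine IRA_S_congr ?_ (IRA_S_add h1 (h (n + 1) (by omega)))
    intro r _
    exact (Finset.sum_range_succ _ _).symm

private theorem IRA_S_poly {m : ℕ} (P : ℝ[X]) :
    IRA_S m (P.natDegree : ℤ) (fun r => P.eval (r : ℝ)) := by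
  have h : IRA_S m (P.natDegree : ℤ)
      (fun r => ∑ i ∈ Finset.range (P.natDegree + 1), P.coeff i * (r : ℝ) ^ i) := by
    apply IRA_S_sum P.natDegree (fun i r => P.coeff i * (r : ℝ) ^ i)
    intro i hi
    have h1 := IRA_S_mul (IRA_S_const (m := m) (P.coeff i)) (IRA_S_pow (m := m) i)
    exact IRA_S_mono (by omega) h1
  refine IRA_S_congr ?_ h
  intro r _
  exact (Polynomial.eval_eq_sum_range (r : ℝ)).symm

private theorem IRA_lower (P : ℝ[X]) (hpos : ∀ j : ℕ, 0 < P.eval ((j + 1 : ℕ) : ℝ)) :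
    ∃ a : ℝ, 0 < a ∧ ∀ r : ℕ, 1 ≤ r → a * (r : ℝ) ^ P.natDegree ≤ P.eval (r : ℝ) := by
  have hP : P ≠ 0 := by
    rintro rfl
    have := hpos 0
    simp at this
  have hdeg : (X ^ P.natDegree : ℝ[X]).degree = P.degree := by
    rw [Polynomial.degree_X_pow, Polynomial.degree_eq_natDegree hP]
  have h1 := Polynomial.div_tendsto_atTop_leadingCoeff_div_of_degree_eq (X ^ P.natDegree : ℝ[X]) P hdeg
  have h2 := h1.comp ((tendsto_natCast_atTop_atTop (R := ℝ)).comp (Filter.tendsto_add_atTop_nat 1))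
  obtain ⟨B, hB⟩ := h2.bddAbove_range
  have hB' : ∀ j : ℕ, ((j + 1 : ℕ) : ℝ) ^ P.natDegree / P.eval ((j + 1 : ℕ) : ℝ) ≤ B := by
    intro j
    have := hB ⟨j, rfl⟩
    simpa using this
  have hB0 : 0 < B := by
    refine lt_of_lt_of_le ?_ (hB' 0)
    have := hpos 0
    positivity
  refine ⟨B⁻¹, inv_pos.2 hB0, fun r hr => ?_⟩
  obtain ⟨j, rfl⟩ : ∃ j, r = j + 1 := ⟨r - 1, by omega⟩
  have h3 := hB' j
  rw [div_le_iff₀ (hpos j)] at h3
  rw [inv_mul_le_iff₀ hB0]
  exact h3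

private theorem IRA_S_inv {m : ℕ} (D : ℕ) (c : ℕ → ℝ) (hc : ∀ m, IRA_S m (D : ℤ) c)
    (hpos : ∀ j, 0 < c (j + 1))
    (hlow : ∃ a : ℝ, 0 < a ∧ ∀ r : ℕ, 1 ≤ r → a * (r : ℝ) ^ D ≤ c r) :
    IRA_S m (-(D : ℤ)) (fun r => (c r)⁻¹) := by
  obtain ⟨a, ha, hlow⟩ := hlow
  have hb : IRA_B (-(D : ℤ)) (fun r => (c r)⁻¹) := by
    refine ⟨a⁻¹, (inv_pos.2 ha).le, fun r hr => ?_⟩
    have h1 := hlow r hr
    have hr0 : (0 : ℝ) < r := by
      have : (1 : ℝ) ≤ (r : ℝ) := by exact_mod_cast hr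
      linarith
    have h2 : 0 < a * (r : ℝ) ^ D := by positivity
    rw [abs_of_pos (inv_pos.2 (lt_of_lt_of_le h2 h1)), zpow_neg, zpow_natCast, ← mul_inv]
    exact inv_anti₀ h2 h1
  induction m with
  | zero => exact hb
  | succ m ih =>
    refine ⟨hb, ?_⟩
    have h1 : IRA_S m ((D : ℤ) - 1) (fwdDiff 1 c) := (hc (m + 1)).2
    have h2 := IRA_S_mul (IRA_S_mul h1 (IRA_S_shift ih)) ih
    have h3 := IRA_S_mul (IRA_S_const (m := m) (-1 : ℝ)) h2
    have h4 := IRA_S_mono
      (show (0 : ℤ) + ((D : ℤ) - 1 + -(D : ℤ) + -(D : ℤ)) ≤ -(D : ℤ) - 1 by omega) h3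
    refine IRA_S_congr ?_ h4
    intro r hr
    obtain ⟨j, rfl⟩ : ∃ j, r = j + 1 := ⟨r - 1, by omega⟩
    have p1 := (hpos j).ne'
    have p2 := (hpos (j + 1)).ne'
    change -1 * ((c (j + 1 + 1) - c (j + 1)) * (c (j + 1 + 1))⁻¹ * (c (j + 1))⁻¹) =
      (c (j + 1 + 1))⁻¹ - (c (j + 1))⁻¹
    field_simp
    ring

/-- Differences of the positive chain decrease. -/
theorem posr_diff_bound (P : ℝ[X]) (hD : 1 ≤ P.natDegree) (q : ℝ) (hq : 0 < q) (c : ℕ → ℝ)
    (hc : ∀ j, c j = P.eval (j : ℝ)) (h0 : c 0 = 0) (hpos : ∀ j, 0 < c (j + 1)) (m : ℕ) :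
    ∃ A : ℝ, ∀ r : ℕ, 1 ≤ r →
      |(fwdDiff 1)^[m] (posr q c) r| ≤ A * (r : ℝ) ^ ((P.natDegree : ℤ) - 1 - m) := by
  have hcS : ∀ m, IRA_S m (P.natDegree : ℤ) c := by
    intro m
    exact IRA_S_congr (fun r _ => (hc r).symm) (IRA_S_poly (m := m) P)
  have hlow : ∃ a : ℝ, 0 < a ∧ ∀ r : ℕ, 1 ≤ r → a * (r : ℝ) ^ P.natDegree ≤ c r := by
    obtain ⟨a, ha, h⟩ := IRA_lower P (fun j => by rw [← hc]; exact hpos j)
    exact ⟨a, ha, fun r hr => by rw [hc]; exact h r hr⟩
  have hinv : ∀ m, IRA_S m (-(P.natDegree : ℤ)) (fun r => (c r)⁻¹) :=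
    fun m => IRA_S_inv P.natDegree c hcS hpos hlow
  have hv := posr_pos hq h0 hpos
  have hrec := posr_rec hq h0 hpos
  -- the base bound
  have hbase : IRA_B ((P.natDegree : ℤ) - 1) (posr q c) := by
    obtain ⟨A, hA, hup⟩ := IRA_base (hcS 0)
    obtain ⟨a, ha, hlow'⟩ := hlow
    have hup' : ∀ r : ℕ, 1 ≤ r → c r ≤ A * (r : ℝ) ^ P.natDegree := by
      intro r hr
      have h := (le_abs_self _).trans (hup r hr)
      rw [zpow_natCast] at h
      exact h
    have hA0 : 0 < A := by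
      have h1 := hup' 1 le_rfl
      have h2 := hpos 0
      simp at h1
      have h3 : 0 < c 1 := h2
      linarith
    have hcpos : ∀ r : ℕ, 1 ≤ r → 0 < c r := by
      intro r hr
      obtain ⟨j, rfl⟩ : ∃ j, r = j + 1 := ⟨r - 1, by omega⟩
      exact hpos j
    obtain ⟨t0, ht0⟩ : ∃ t0, t0 = a / A := ⟨_, rfl⟩
    have ht0pos : 0 < t0 := by
      rw [ht0]
      positivity
    have ht : ∀ r : ℕ, 1 ≤ r → t0 * c r ≤ c (r + 1) := by
      intro r hr
      have h1 := hup' r hr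
      have h2 := hlow' (r + 1) (by omega)
      have h3 : (r : ℝ) ^ P.natDegree ≤ ((r + 1 : ℕ) : ℝ) ^ P.natDegree := by
        apply pow_le_pow_left₀ (by positivity)
        push_cast
        linarith
      calc t0 * c r ≤ t0 * (A * (r : ℝ) ^ P.natDegree) :=
            mul_le_mul_of_nonneg_left h1 ht0pos.le
        _ = a * (r : ℝ) ^ P.natDegree := by
            rw [ht0]
            field_simp
        _ ≤ a * ((r + 1 : ℕ) : ℝ) ^ P.natDegree := mul_le_mul_of_nonneg_left h3 ha.le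
        _ ≤ c (r + 1) := h2
    obtain ⟨K, hK1, hK2⟩ : ∃ K : ℝ, 2 / t0 ≤ K ∧ posr q c 1 / c 1 ≤ K :=
      ⟨max (2 / t0) (posr q c 1 / c 1), le_max_left _ _, le_max_right _ _⟩
    have hK0 : 0 < K := lt_of_lt_of_le (by positivity) hK1
    have hind : ∀ n : ℕ, posr q c (n + 1) ≤ K * c (n + 1) / ((n + 1 : ℕ) : ℝ) := by
      intro n
      induction n with
      | zero =>
        rw [div_le_iff₀ (hpos 0)] at hK2
        simpa using hK2
      | succ n ih =>
        by_contra hcon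
        have hcon' := not_le.1 hcon
        obtain ⟨y, hy⟩ : ∃ y, y = posr q c (n + 1 + 1) := ⟨_, rfl⟩
        obtain ⟨B, hB⟩ : ∃ B, B = K * c (n + 1 + 1) / ((n + 1 + 1 : ℕ) : ℝ) := ⟨_, rfl⟩
        rw [← hy, ← hB] at hcon'
        have hr := hrec (n + 1)
        rw [← hy] at hr
        have c1 := hpos n
        have c2 := hpos (n + 1)
        have hn1 : (0 : ℝ) < ((n + 1 : ℕ) : ℝ) := by positivity
        have hn2 : (0 : ℝ) < ((n + 1 + 1 : ℕ) : ℝ) := by positivity
        have hB0 : 0 < B := by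
          rw [hB]
          positivity
        have h1 : B * (B + c (n + 1)) < y * (y + c (n + 1)) := by
          apply mul_lt_mul'' hcon' (by linarith) hB0.le (by linarith)
        have h2 : c (n + 1 + 1) * posr q c (n + 1) ≤
            c (n + 1 + 1) * (K * c (n + 1) / ((n + 1 : ℕ) : ℝ)) :=
          mul_le_mul_of_nonneg_left ih c2.le
        have h3 : c (n + 1 + 1) * (K * c (n + 1) / ((n + 1 : ℕ) : ℝ)) ≤ B * (B + c (n + 1)) := by
          have hKt : 2 * c (n + 1) ≤ K * c (n + 1 + 1) := by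
            have h4 := ht (n + 1) (by omega)
            rw [div_le_iff₀ ht0pos] at hK1
            calc 2 * c (n + 1) ≤ (K * t0) * c (n + 1) :=
                  mul_le_mul_of_nonneg_right hK1 c1.le
              _ = K * (t0 * c (n + 1)) := by ring
              _ ≤ K * c (n + 1 + 1) := mul_le_mul_of_nonneg_left h4 hK0.le
          obtain ⟨N, hN⟩ : ∃ N : ℝ, N = ((n + 1 : ℕ) : ℝ) := ⟨_, rfl⟩
          have hN2 : ((n + 1 + 1 : ℕ) : ℝ) = N + 1 := by
            rw [hN]
            push_cast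
            ring
          have hN1 : 1 ≤ N := by
            rw [hN]
            push_cast
            have : (0 : ℝ) ≤ (n : ℝ) := Nat.cast_nonneg n
            linarith
          rw [← hN]
          rw [hN2] at hB
          have hBN : B * (N + 1) = K * c (n + 1 + 1) := by
            rw [hB]
            field_simp
          rw [← mul_div_assoc, div_le_iff₀ (by linarith)]
          have e1 : c (n + 1 + 1) * (K * c (n + 1)) = B * (N + 1) * c (n + 1) := by
            rw [hBN]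
            ring
          rw [e1]
          have h5 : c (n + 1) ≤ B * N := by
            have h6 : 2 * c (n + 1) ≤ B * (N + 1) := by
              rw [hBN]
              exact hKt
            have h7 : B * (N + 1) ≤ B * (2 * N) := mul_le_mul_of_nonneg_left (by linarith) hB0.le
            linarith
          have h8 : B * c (n + 1) ≤ B * (B * N) := mul_le_mul_of_nonneg_left h5 hB0.le
          nlinarith
        linarith
    refine ⟨K * A, by positivity, fun r hr => ?_⟩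
    obtain ⟨j, rfl⟩ : ∃ j, r = j + 1 := ⟨r - 1, by omega⟩
    have hr0 : (((j + 1 : ℕ)) : ℝ) ≠ 0 := by positivity
    have hr1 : (0 : ℝ) < ((j + 1 : ℕ) : ℝ) := by positivity
    rw [abs_of_pos (hv (j + 1)), zpow_sub_one₀ hr0, zpow_natCast]
    calc posr q c (j + 1) ≤ K * c (j + 1) / ((j + 1 : ℕ) : ℝ) := hind j
      _ ≤ K * (A * ((j + 1 : ℕ) : ℝ) ^ P.natDegree) / ((j + 1 : ℕ) : ℝ) := by
          apply div_le_div_of_nonneg_right _ hr1.le
          exact mul_le_mul_of_nonneg_left (hup' (j + 1) (by omega)) hK0.le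
      _ = K * A * (((j + 1 : ℕ) : ℝ) ^ P.natDegree * (((j + 1 : ℕ)) : ℝ)⁻¹) := by
          rw [div_eq_mul_inv]
          ring
  -- the main step
  have hmain : ∀ m, IRA_S m ((P.natDegree : ℤ) - 1) (posr q c) := by
    intro m
    induction m with
    | zero => exact hbase
    | succ m ih =>
      refine ⟨hbase, ?_⟩
      have h1 : IRA_S m ((P.natDegree : ℤ) - 1) (fwdDiff 1 c) := (hcS (m + 1)).2
      have h2 := IRA_S_mul h1 ih
      have h3 := IRA_S_mul (IRA_S_shift ih) (IRA_S_shift ih)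
      have h4 := IRA_S_mul (IRA_S_const (m := m) (-1 : ℝ)) h3
      have h4' := IRA_S_mono
        (show (0 : ℤ) + ((P.natDegree : ℤ) - 1 + ((P.natDegree : ℤ) - 1)) ≤
          (P.natDegree : ℤ) - 1 + ((P.natDegree : ℤ) - 1) by omega) h4
      have h5 := IRA_S_mul (IRA_S_add h2 h4') (hinv m)
      have h6 := IRA_S_mono
        (show (P.natDegree : ℤ) - 1 + ((P.natDegree : ℤ) - 1) + -(P.natDegree : ℤ) ≤
          (P.natDegree : ℤ) - 1 - 1 by omega) h5
      refine IRA_S_congr ?_ h6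
      intro r hr
      obtain ⟨j, rfl⟩ : ∃ j, r = j + 1 := ⟨r - 1, by omega⟩
      have hr := hrec (j + 1)
      have c1 := (hpos j).ne'
      change ((c (j + 1 + 1) - c (j + 1)) * posr q c (j + 1) +
          -1 * (posr q c (j + 1 + 1) * posr q c (j + 1 + 1))) * (c (j + 1))⁻¹ =
        posr q c (j + 1 + 1) - posr q c (j + 1)
      rw [← div_eq_mul_inv, div_eq_iff c1]
      linear_combination -hr
  have hfin : ∀ (m : ℕ) (k : ℤ) (u : ℕ → ℝ), IRA_S m k u →
      ∃ A : ℝ, ∀ r : ℕ, 1 ≤ r → |(fwdDiff 1)^[m] u r| ≤ A * (r : ℝ) ^ (k - m) := by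
    intro m
    induction m with
    | zero =>
      intro k u h
      obtain ⟨A, _, h⟩ := h
      refine ⟨A, fun r hr => ?_⟩
      have := h r hr
      simpa using this
    | succ m ih =>
      intro k u h
      obtain ⟨A, hA⟩ := ih (k - 1) (fwdDiff 1 u) h.2
      refine ⟨A, fun r hr => ?_⟩
      rw [Function.iterate_succ_apply]
      have h1 := hA r hr
      have e : k - 1 - (m : ℤ) = k - ((m + 1 : ℕ) : ℤ) := by
        push_cast
        ring
      rw [e] at h1
      exact h1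
  exact hfin m _ _ (hmain m)

end Pool.Agent.PTN
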