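import Pool.Agent.PTN.Defs

set_option autoImplicit false

/-!
IRB: y_m r = (Δ^m x) r in 𝓞 K. Its image under ψ has absolute value at most A_m r^(D-1-m), its
image under every complex embedding σ has absolute value at most B' r^D (r ≥ 1). The norm is the
product over all n embeddings, so its absolute value is at most A_m B'^(n-1) / r for m = D n. The
norm of an algebraic integer is an integer, so it is 0 for r large.
-/

namespace Pool.Agent.PTN

open NumberField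

theorem map_fwdDiff_iter' {G H : Type*} [Ring G] [Ring H] (f : G →+* H) (m : ℕ) :
    ∀ (x : ℕ → G) (r : ℕ), f ((fwdDiff 1)^[m] x r) = (fwdDiff 1)^[m] (fun n => f (x n)) r := by
  induction m with
  | zero => intro x r; rfl
  | succ m ih =>
    intro x r
    have e : (fun n => f (fwdDiff 1 x n)) = fwdDiff 1 (fun n => f (x n)) := by
      funext n
      show f (x (n + 1) - x n) = f (x (n + 1)) - f (x n)
      rw [map_sub]
    rw [Function.iterate_succ_apply, Function.iterate_succ_apply, ih, e]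

theorem norm_fwdDiff_le (w : ℕ → ℂ) (D : ℕ) (B : ℝ) (hB : 0 ≤ B)
    (hw : ∀ r : ℕ, ‖w r‖ ≤ B * ((r : ℝ) + 1) ^ D) (m : ℕ) :
    ∀ r : ℕ, ‖(fwdDiff 1)^[m] w r‖ ≤ 2 ^ m * B * ((r : ℝ) + m + 1) ^ D := by
  induction m with
  | zero =>
    intro r
    have := hw r
    simpa using this
  | succ m ih =>
    intro r
    rw [Function.iterate_succ_apply']
    have e : fwdDiff 1 ((fwdDiff 1)^[m] w) r = (fwdDiff 1)^[m] w (r + 1) - (fwdDiff 1)^[m] w r :=
      rfl
    rw [e]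
    have h1 := ih (r + 1)
    have h2 := ih r
    have h3 : ((r : ℝ) + m + 1) ^ D ≤ ((r : ℝ) + ((m + 1 : ℕ) : ℝ) + 1) ^ D := by
      apply pow_le_pow_left₀ (by positivity)
      push_cast
      linarith
    have h4 : (((r + 1 : ℕ) : ℝ) + m + 1) ^ D = ((r : ℝ) + ((m + 1 : ℕ) : ℝ) + 1) ^ D := by
      congr 1
      push_cast
      ring
    rw [h4] at h1
    have h5 : 2 ^ m * B * ((r : ℝ) + m + 1) ^ D ≤
        2 ^ m * B * ((r : ℝ) + ((m + 1 : ℕ) : ℝ) + 1) ^ D :=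
      mul_le_mul_of_nonneg_left h3 (by positivity)
    calc ‖(fwdDiff 1)^[m] w (r + 1) - (fwdDiff 1)^[m] w r‖
        ≤ ‖(fwdDiff 1)^[m] w (r + 1)‖ + ‖(fwdDiff 1)^[m] w r‖ := norm_sub_le _ _
      _ ≤ 2 ^ m * B * ((r : ℝ) + ((m + 1 : ℕ) : ℝ) + 1) ^ D +
          2 ^ m * B * ((r : ℝ) + ((m + 1 : ℕ) : ℝ) + 1) ^ D := by
          apply add_le_add h1 (h2.trans h5)
      _ = 2 ^ (m + 1) * B * ((r : ℝ) + ((m + 1 : ℕ) : ℝ) + 1) ^ D := by ring

/-- Bounded conjugates and small differences at one real place: some difference vanishes. -/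
theorem diff_eventually_zero (K : Type) [Field K] [NumberField K] (ψ : K →+* ℝ) (x : ℕ → 𝓞 K)
    (D : ℕ) (B : ℝ) (hemb : ∀ (σ : K →+* ℂ) (r : ℕ), ‖σ (x r : K)‖ ≤ B * ((r : ℝ) + 1) ^ D)
    (hdiff : ∀ m : ℕ, ∃ A : ℝ, ∀ r : ℕ, 1 ≤ r →
      |(fwdDiff 1)^[m] (fun r => ψ (x r : K)) r| ≤ A * (r : ℝ) ^ ((D : ℤ) - 1 - m)) :
    ∃ m r0 : ℕ, ∀ r, r0 ≤ r → (fwdDiff 1)^[m] (fun r => ψ (x r : K)) r = 0 := by
  classical
  set ι : K →ₐ[ℚ] ℂ := (Complex.ofRealHom.comp ψ).toRatAlgHom with hι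
  have hιx : ∀ z : K, ι z = ((ψ z : ℝ) : ℂ) := fun z => rfl
  set n := Module.finrank ℚ K with hn
  have hnpos : 1 ≤ n := Module.finrank_pos
  have hB : 0 ≤ B := by
    have h := hemb (Complex.ofRealHom.comp ψ) 0
    have h2 := (norm_nonneg _).trans h
    simpa using h2
  set m := D * n with hm
  obtain ⟨A, hA⟩ := hdiff m
  have hA0 : 0 ≤ A := by
    have h := hA 1 le_rfl
    have h2 := (abs_nonneg _).trans h
    simpa using h2
  set B' := 2 ^ m * B * ((m : ℝ) + 2) ^ D with hB'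
  have hB'0 : 0 ≤ B' := by positivity
  -- the differences in the ring of integers
  have hy : ∀ (r : ℕ) (σ : K →+* ℂ), 1 ≤ r →
      ‖σ (((fwdDiff 1)^[m] x r : 𝓞 K) : K)‖ ≤ B' * (r : ℝ) ^ D := by
    intro r σ hr
    have h1 := map_fwdDiff_iter' (σ.comp (algebraMap (𝓞 K) K)) m x r
    have h2 : σ (((fwdDiff 1)^[m] x r : 𝓞 K) : K) =
        (fwdDiff 1)^[m] (fun n => σ (x n : K)) r := h1
    rw [h2]
    have h3 := norm_fwdDiff_le (fun n => σ (x n : K)) D B hB (fun r => hemb σ r) m r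
    refine h3.trans ?_
    have hr' : (1 : ℝ) ≤ r := by exact_mod_cast hr
    have h4 : ((r : ℝ) + m + 1) ^ D ≤ (((m : ℝ) + 2) * r) ^ D := by
      apply pow_le_pow_left₀ (by positivity)
      have hm0 : (0 : ℝ) ≤ m := Nat.cast_nonneg m
      nlinarith
    calc 2 ^ m * B * ((r : ℝ) + m + 1) ^ D ≤ 2 ^ m * B * (((m : ℝ) + 2) * r) ^ D :=
          mul_le_mul_of_nonneg_left h4 (by positivity)
      _ = B' * (r : ℝ) ^ D := by rw [hB', mul_pow]; ring
  have hψ : ∀ r : ℕ, ψ (((fwdDiff 1)^[m] x r : 𝓞 K) : K) =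
      (fwdDiff 1)^[m] (fun r => ψ (x r : K)) r := by
    intro r
    exact map_fwdDiff_iter' (ψ.comp (algebraMap (𝓞 K) K)) m x r
  -- bound for the norm
  have hnorm : ∀ r : ℕ, 1 ≤ r →
      |((Algebra.norm ℚ (((fwdDiff 1)^[m] x r : 𝓞 K) : K) : ℚ) : ℝ)| ≤
        A * B' ^ (n - 1) * (r : ℝ) ^ (-1 : ℤ) := by
    intro r hr
    set y : K := (((fwdDiff 1)^[m] x r : 𝓞 K) : K) with hydef
    have hr0 : (0 : ℝ) < r := by exact_mod_cast hr
    have h1 := Algebra.norm_eq_prod_embeddings ℚ ℂ y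
    have h2 : |((Algebra.norm ℚ y : ℚ) : ℝ)| = ∏ σ : K →ₐ[ℚ] ℂ, ‖σ y‖ := by
      rw [← norm_prod, ← h1]
      have h3 : (algebraMap ℚ ℂ) (Algebra.norm ℚ y) = (((Algebra.norm ℚ y : ℚ) : ℝ) : ℂ) := by
        simp
      rw [h3, Complex.norm_real, Real.norm_eq_abs]
    rw [h2, ← Finset.mul_prod_erase Finset.univ _ (Finset.mem_univ ι)]
    have h4 : ‖ι y‖ ≤ A * (r : ℝ) ^ ((D : ℤ) - 1 - m) := by
      rw [hιx, Complex.norm_real, Real.norm_eq_abs, hydef, hψ r]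
      exact hA r hr
    have h5 : ∏ σ ∈ Finset.univ.erase ι, ‖σ y‖ ≤ (B' * (r : ℝ) ^ D) ^ (n - 1) := by
      have h6 : ∏ σ ∈ Finset.univ.erase ι, ‖σ y‖ ≤
          ∏ _σ ∈ (Finset.univ : Finset (K →ₐ[ℚ] ℂ)).erase ι, (B' * (r : ℝ) ^ D) := by
        apply Finset.prod_le_prod
        · intro σ _
          exact norm_nonneg _
        · intro σ _
          exact hy r (σ : K →+* ℂ) hr
      rw [Finset.prod_const, Finset.card_erase_of_mem (Finset.mem_univ ι), Finset.card_univ,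
        AlgHom.card] at h6
      exact h6
    have h7 : ‖ι y‖ * ∏ σ ∈ Finset.univ.erase ι, ‖σ y‖ ≤
        (A * (r : ℝ) ^ ((D : ℤ) - 1 - m)) * (B' * (r : ℝ) ^ D) ^ (n - 1) := by
      apply mul_le_mul h4 h5
      · exact Finset.prod_nonneg (fun σ _ => norm_nonneg _)
      · positivity
    refine h7.trans (le_of_eq ?_)
    rw [mul_pow, ← pow_mul]
    have h8 : (r : ℝ) ^ ((D : ℤ) - 1 - m) * (r : ℝ) ^ (D * (n - 1)) = (r : ℝ) ^ (-1 : ℤ) := by
      rw [← zpow_natCast, ← zpow_add₀ hr0.ne']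
      congr 1
      rw [hm]
      push_cast [Nat.cast_sub hnpos]
      ring
    calc A * (r : ℝ) ^ ((D : ℤ) - 1 - m) * (B' ^ (n - 1) * (r : ℝ) ^ (D * (n - 1)))
        = A * B' ^ (n - 1) * ((r : ℝ) ^ ((D : ℤ) - 1 - m) * (r : ℝ) ^ (D * (n - 1))) := by ring
      _ = _ := by rw [h8]
  obtain ⟨N, hN⟩ := exists_nat_gt (A * B' ^ (n - 1))
  refine ⟨m, N + 1, fun r hr => ?_⟩
  have hr1 : 1 ≤ r := by omega
  have hr0 : (0 : ℝ) < r := by exact_mod_cast hr1
  have h1 := hnorm r hr1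
  have h2 : A * B' ^ (n - 1) * (r : ℝ) ^ (-1 : ℤ) < 1 := by
    rw [zpow_neg_one, ← div_eq_mul_inv, div_lt_one hr0]
    refine hN.trans_le ?_
    exact_mod_cast (by omega : N ≤ r)
  have h3 := h1.trans_lt h2
  -- the norm is an integer
  have h4 : ((Algebra.norm ℤ ((fwdDiff 1)^[m] x r : 𝓞 K) : ℤ) : ℚ) =
      Algebra.norm ℚ (((fwdDiff 1)^[m] x r : 𝓞 K) : K) := by
    exact Algebra.coe_norm_int _
  rw [← h4] at h3
  have h5 : |Algebra.norm ℤ ((fwdDiff 1)^[m] x r : 𝓞 K)| < 1 := by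
    have h6 : (((Algebra.norm ℤ ((fwdDiff 1)^[m] x r : 𝓞 K) : ℤ) : ℚ) : ℝ) =
        ((Algebra.norm ℤ ((fwdDiff 1)^[m] x r : 𝓞 K) : ℤ) : ℝ) := by push_cast; rfl
    rw [h6] at h3
    exact_mod_cast h3
  have h6 := Int.abs_lt_one_iff.1 h5
  have h7 : ((fwdDiff 1)^[m] x r : 𝓞 K) = 0 := Algebra.norm_eq_zero_iff.1 h6
  rw [← hψ r, h7]
  simp

/-- Bound for all conjugates of a chain in `K` with polynomially bounded coefficients:
`|z|^2 <= |C r| |z| + |C (r+1)| |x r|`, so with `S r = A (r+1)^D` one gets `|x r| <= (4 + ‖q‖) S r` or similar, by induction. -/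
theorem chain_emb_bound (q : ℂ) (C : ℕ → ℂ) (D : ℕ) (A : ℝ)
    (hC : ∀ r, ‖C r‖ ≤ A * ((r : ℝ) + 1) ^ D) (x : ℕ → ℂ) (h0 : x 0 = q)
    (hx : ∀ r, x (r + 1) * (x (r + 1) + C r) = C (r + 1) * x r) :
    ∀ r : ℕ, ‖x r‖ ≤ (4 * |A| + ‖q‖) * ((r : ℝ) + 1) ^ D := by
  have hA0 : 0 ≤ A := by
    have h := (norm_nonneg _).trans (hC 0)
    simpa using h
  intro r
  induction r with
  | zero =>
    rw [h0]
    simp
  | succ r ih =>
    set S := ((r : ℝ) + 1) ^ D with hS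
    set S' := (((r + 1 : ℕ) : ℝ) + 1) ^ D with hS'
    have hS0 : 0 ≤ S := by positivity
    have hS'0 : 0 ≤ S' := by positivity
    have hSS : S ≤ S' := by
      apply pow_le_pow_left₀ (by positivity)
      push_cast
      linarith
    set M := 4 * |A| + ‖q‖ with hM
    have hM0 : 0 ≤ M := by positivity
    have hMA : 2 * A ≤ M := by
      have h1 : A ≤ |A| := le_abs_self A
      have h2 : 0 ≤ ‖q‖ := norm_nonneg q
      have h3 : 0 ≤ |A| := abs_nonneg A
      rw [hM]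
      linarith
    by_contra hcon
    push Not at hcon
    set z := ‖x (r + 1)‖ with hz
    have hz0 : 0 < z := lt_of_le_of_lt (mul_nonneg hM0 hS'0) hcon
    have e1 : x (r + 1) ^ 2 = C (r + 1) * x r - C r * x (r + 1) := by
      linear_combination hx r
    have h1 : z ^ 2 ≤ A * S' * (M * S) + A * S * z := by
      have h2 : z ^ 2 = ‖C (r + 1) * x r - C r * x (r + 1)‖ := by
        rw [← e1, norm_pow]
      rw [h2]
      refine (norm_sub_le _ _).trans ?_
      rw [norm_mul, norm_mul]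
      apply add_le_add
      · apply mul_le_mul (hC (r + 1)) ih (norm_nonneg _)
        positivity
      · exact mul_le_mul_of_nonneg_right (hC r) (norm_nonneg _)
    have h2 : M * S ≤ z := (mul_le_mul_of_nonneg_left hSS hM0).trans hcon.le
    have h3 : A * S' * (M * S) ≤ A * S' * z := mul_le_mul_of_nonneg_left h2 (by positivity)
    have h4 : A * S * z ≤ A * S' * z := by
      apply mul_le_mul_of_nonneg_right _ hz0.le
      exact mul_le_mul_of_nonneg_left hSS hA0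
    have h5 : z * z ≤ (2 * A * S') * z := by nlinarith
    have h6 : z ≤ 2 * A * S' := le_of_mul_le_mul_right h5 hz0
    have h7 : 2 * A * S' ≤ M * S' := mul_le_mul_of_nonneg_right hMA hS'0
    linarith

end Pool.Agent.PTN
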