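import Pool.Agent.PTN.Defs

set_option autoImplicit false

/-!
IRC: write A⁺ = A(X+1). Divide: c = Q h + R, deg R < deg h =: e. Then
h⁺ (h⁺ - (Q⁺ - Q) h) = R⁺ h - R h⁺ has degree less than 2 e - 1, and
h⁺ - (Q⁺ - Q) h has degree at least e - 1 (if e ≥ 1). If e = 0 then Q⁺ - Q = 1, so Q has degree
at most one.
-/

namespace Pool.Agent.PTN

open Polynomial

/-- Degree of the difference: exactly one less. -/
theorem diff_coeff (A : ℝ[X]) (e : ℕ) (hA : A.natDegree = e + 1) :
    (A.comp (X + 1) - A).coeff e = (e + 1 : ℝ) * A.leadingCoeff := by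
  have h1 : A.comp (X + 1) = taylor 1 A := by
    rw [taylor_apply, C_1]
  rw [h1, coeff_sub, taylor_coeff]
  have h2 : (hasseDeriv e A).natDegree < 2 := by
    have := natDegree_hasseDeriv_le A e
    omega
  rw [eval_eq_sum_range' h2, Finset.sum_range_succ, Finset.sum_range_one, hasseDeriv_coeff,
    hasseDeriv_coeff]
  rw [Nat.zero_add, Nat.choose_self, add_comm 1 e, Nat.choose_succ_self_right]
  rw [Polynomial.leadingCoeff, hA]
  push_cast
  ring

theorem comp_natDegree (A : ℝ[X]) : (A.comp (X + 1)).natDegree = A.natDegree := by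
  have h1 : A.comp (X + 1) = taylor 1 A := by
    rw [taylor_apply, C_1]
  rw [h1, natDegree_taylor]

theorem comp_degree (A : ℝ[X]) : (A.comp (X + 1)).degree = A.degree := by
  by_cases hA : A = 0
  · rw [hA, zero_comp]
  · have h1 : A.comp (X + 1) ≠ 0 := by
      have h2 : A.comp (X + 1) = taylor 1 A := by
        rw [taylor_apply, C_1]
      rw [h2]
      intro h3
      exact hA ((taylor_injective 1) (by rw [h3, map_zero]))
    rw [degree_eq_natDegree hA, degree_eq_natDegree h1, comp_natDegree]

theorem comp_leadingCoeff (A : ℝ[X]) : (A.comp (X + 1)).leadingCoeff = A.leadingCoeff := by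
  have h : (X + 1 : ℝ[X]) = X + C 1 := by rw [C_1]
  rw [leadingCoeff_comp]
  · rw [h, leadingCoeff_X_add_C, one_pow, mul_one]
  · rw [h, natDegree_X_add_C]
    exact one_ne_zero

theorem diff_degree_lt (A : ℝ[X]) (hA : A ≠ 0) : (A.comp (X + 1) - A).degree < A.degree := by
  have h := degree_sub_lt_left (comp_degree A) (by
    intro h0
    apply hA
    rw [← degree_eq_bot, ← comp_degree, h0, degree_zero]) (comp_leadingCoeff A)
  rwa [comp_degree] at h

theorem diff_natDegree_le (A : ℝ[X]) : (A.comp (X + 1) - A).natDegree ≤ A.natDegree - 1 := by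
  by_cases hA : A = 0
  · rw [hA, zero_comp, sub_zero, natDegree_zero]
  by_cases h0 : A.comp (X + 1) - A = 0
  · rw [h0, natDegree_zero]
    omega
  · have h1 := natDegree_lt_natDegree h0 (diff_degree_lt A hA)
    omega

/-- The identity satisfied by a polynomial positive chain is impossible in degree `≥ 2`. -/
theorem no_poly_chain (c h : ℝ[X]) (hc : 2 ≤ c.natDegree) (hh : h ≠ 0)
    (hid : c.comp (X + 1) * h - c * h.comp (X + 1) = (h.comp (X + 1)) ^ 2) : False := by
  obtain ⟨e, he⟩ : ∃ e, h.natDegree = e := ⟨_, rfl⟩
  set Q := c / h with hQ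
  set R := c % h with hR
  have hdiv : c = h * Q + R := (EuclideanDomain.div_add_mod c h).symm
  have hRdeg : R.degree < h.degree := EuclideanDomain.mod_lt c hh
  set hp := h.comp (X + 1) with hhp
  set u := Q.comp (X + 1) - Q with hu
  have hcomp : c.comp (X + 1) = hp * (u + Q) + R.comp (X + 1) := by
    conv_lhs => rw [hdiv]
    rw [add_comp, mul_comp, hu, sub_add_cancel]
  have hkey : hp * (hp - u * h) = R.comp (X + 1) * h - R * hp := by
    rw [hcomp] at hid
    have h2 : c * hp = (h * Q + R) * hp := by rw [← hdiv]
    linear_combination (-1 : ℝ[X]) * hid - h2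
  have hhp0 : hp ≠ 0 := by
    intro h0
    apply hh
    rw [← degree_eq_bot, ← comp_degree, ← hhp, h0, degree_zero]
  rcases Nat.eq_zero_or_pos e with he0 | hepos
  · -- constant `h`
    rw [he0] at he
    have hdeg0 : h.degree = 0 := by
      rw [degree_eq_natDegree hh, he]
      rfl
    have hR0 : R = 0 := by
      rw [hdeg0] at hRdeg
      exact degree_eq_bot.1 (Nat.WithBot.lt_zero_iff.1 hRdeg)
    have hpeq : hp = h := by
      rw [hhp, eq_C_of_natDegree_eq_zero he, C_comp]
    rw [hR0, zero_comp, zero_mul, zero_mul, sub_zero] at hkey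
    have h1 : hp - u * h = 0 := by
      rcases mul_eq_zero.1 hkey with h2 | h2
      · exact absurd h2 hhp0
      · exact h2
    have hu1 : u = 1 := by
      have h2 : (1 - u) * h = 0 := by
        rw [hpeq] at h1
        linear_combination h1
      rcases mul_eq_zero.1 h2 with h3 | h3
      · linear_combination -h3
      · exact absurd h3 hh
    have hcd : c.natDegree = Q.natDegree := by
      conv_lhs => rw [hdiv, hR0, add_zero]
      have hQ0 : Q ≠ 0 := by
        intro h0
        rw [hR0, h0, mul_zero, add_zero] at hdiv
        rw [hdiv, natDegree_zero] at hc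
        omega
      rw [natDegree_mul hh hQ0, he, zero_add]
    have hQ2 : 2 ≤ Q.natDegree := hcd ▸ hc
    obtain ⟨d, hd⟩ : ∃ d, Q.natDegree = d + 1 := ⟨Q.natDegree - 1, by omega⟩
    have h3 := diff_coeff Q d hd
    rw [← hu, hu1] at h3
    have hd1 : d ≠ 0 := by omega
    rw [coeff_one, if_neg hd1] at h3
    have hQ0 : Q ≠ 0 := by
      intro h0
      rw [h0, natDegree_zero] at hQ2
      omega
    have h4 : (d + 1 : ℝ) * Q.leadingCoeff ≠ 0 := by
      apply mul_ne_zero
      · positivity
      · exact leadingCoeff_ne_zero.2 hQ0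
    exact h4 h3.symm
  · -- positive degree
    obtain ⟨d, rfl⟩ : ∃ d, e = d + 1 := ⟨e - 1, by omega⟩
    have hlc : h.leadingCoeff ≠ 0 := leadingCoeff_ne_zero.2 hh
    -- coefficient of the right factor at `d` or higher degree
    have hfac0 : hp - u * h ≠ 0 ∧ d ≤ (hp - u * h).natDegree := by
      by_cases hu1 : u = 1
      · have h1 := diff_coeff h d he
        have h2 : (hp - u * h).coeff d ≠ 0 := by
          rw [hu1, one_mul, hhp, h1]
          apply mul_ne_zero
          · positivity
          · exact hlc
        refine ⟨fun h0 => h2 (by rw [h0, coeff_zero]), le_natDegree_of_ne_zero h2⟩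
      · have h1 : hp - u * h = (hp - h) + (1 - u) * h := by ring
        have hne : (1 - u) ≠ 0 := sub_ne_zero.2 (Ne.symm hu1)
        have h2 : ((1 - u) * h).degree = (1 - u).degree + h.degree := degree_mul
        have h3 : (hp - h).degree < ((1 - u) * h).degree := by
          rw [h2]
          refine lt_of_lt_of_le (diff_degree_lt h hh) ?_
          have h4 : (0 : WithBot ℕ) ≤ (1 - u).degree := zero_le_degree_iff.2 hne
          calc h.degree = 0 + h.degree := (zero_add _).symm
            _ ≤ (1 - u).degree + h.degree := by gcongr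
        have h4 : (hp - u * h).degree = ((1 - u) * h).degree := by
          rw [h1]
          exact degree_add_eq_right_of_degree_lt h3
        have h5 : hp - u * h ≠ 0 := by
          intro h0
          rw [h0, degree_zero] at h4
          exact (mul_ne_zero hne hh) (degree_eq_bot.1 h4.symm)
        refine ⟨h5, ?_⟩
        have h6 : (hp - u * h).natDegree = ((1 - u) * h).natDegree :=
          natDegree_eq_of_degree_eq h4
        rw [h6, natDegree_mul hne hh, he]
        omega
    obtain ⟨hf0, hfd⟩ := hfac0
    have hL : (hp * (hp - u * h)).natDegree = hp.natDegree + (hp - u * h).natDegree :=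
      natDegree_mul hhp0 hf0
    have hpd : hp.natDegree = d + 1 := by rw [hhp, comp_natDegree, he]
    have hRn : R.natDegree ≤ d := by
      by_cases hR0 : R = 0
      · rw [hR0, natDegree_zero]
        exact Nat.zero_le _
      · have := natDegree_lt_natDegree hR0 hRdeg
        omega
    have hRHS : R.comp (X + 1) * h - R * hp = (R.comp (X + 1) - R) * h - R * (hp - h) := by ring
    have hneR : R.comp (X + 1) * h - R * hp ≠ 0 := by
      rw [← hkey]
      exact mul_ne_zero hhp0 hf0
    have hle : (R.comp (X + 1) * h - R * hp).natDegree ≤ 2 * d := by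
      rw [hRHS]
      refine (natDegree_sub_le _ _).trans (max_le ?_ ?_)
      · by_cases hRR : R.comp (X + 1) - R = 0
        · rw [hRR, zero_mul, natDegree_zero]
          exact Nat.zero_le _
        · have hRne : R ≠ 0 := by
            intro h0
            apply hRR
            rw [h0, zero_comp, sub_zero]
          have h1 := natDegree_lt_natDegree hRR (diff_degree_lt R hRne)
          refine natDegree_mul_le.trans ?_
          rw [he]
          omega
      · refine natDegree_mul_le.trans ?_
        have h1 := diff_natDegree_le h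
        rw [he, ← hhp] at h1
        omega
    rw [← hkey, hL, hpd] at hle
    omega

end Pool.Agent.PTN
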