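import Pool.Agent.PTN.Defs

set_option autoImplicit false

/-!
PLY: if the m-th differences vanish from r0 on then the sequence is given by a polynomial from r0 on
(Newton's formula). Integers close to a real sequence whose m-th differences tend to zero have
eventually vanishing m-th differences.
-/

namespace Pool.Agent.PTN

open Polynomial

theorem fwdDiff_vanish {F : Type*} [AddCommGroup F] (j : ℕ) :
    ∀ (u : ℕ → F) (r0 : ℕ), (∀ r, r0 ≤ r → u r = 0) →
      ∀ r, r0 ≤ r → (fwdDiff 1)^[j] u r = 0 := by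
  induction j with
  | zero =>
    intro u r0 h r hr
    exact h r hr
  | succ j ih =>
    intro u r0 h r hr
    rw [Function.iterate_succ_apply]
    apply ih (fwdDiff 1 u) r0 _ r hr
    intro s hs
    show u (s + 1) - u s = 0
    rw [h s hs, h (s + 1) (by omega), sub_zero]

/-- Eventually vanishing `m`-th differences: eventually polynomial. -/
theorem eventually_poly {F : Type*} [Field F] [CharZero F] (u : ℕ → F) (m r0 : ℕ)
    (hu : ∀ r, r0 ≤ r → (fwdDiff 1)^[m] u r = 0) :
    ∃ h : F[X], ∀ r, r0 ≤ r → u r = h.eval (r : F) := by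
  have hk : ∀ k, m ≤ k → (fwdDiff 1)^[k] u r0 = 0 := by
    intro k hk
    obtain ⟨j, rfl⟩ := Nat.exists_eq_add_of_le hk
    rw [add_comm, Function.iterate_add_apply]
    exact fwdDiff_vanish j _ r0 hu r0 le_rfl
  refine ⟨∑ k ∈ Finset.range m, C ((fwdDiff 1)^[k] u r0 / (k.factorial : F)) *
    (descPochhammer F k).comp (X - C (r0 : F)), ?_⟩
  intro r hr
  obtain ⟨n, rfl⟩ := Nat.exists_eq_add_of_le hr
  have h1 := shift_eq_sum_fwdDiff_iter (1 : ℕ) u n r0
  rw [smul_eq_mul, mul_one] at h1
  rw [h1, eval_finsetSum]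
  have h2 : ∀ k, eval (((r0 + n : ℕ) : F)) (C ((fwdDiff 1)^[k] u r0 / (k.factorial : F)) *
      (descPochhammer F k).comp (X - C (r0 : F))) = n.choose k • (fwdDiff 1)^[k] u r0 := by
    intro k
    have hf : (k.factorial : F) ≠ 0 := by exact_mod_cast k.factorial_ne_zero
    rw [eval_mul, eval_C, eval_comp, eval_sub, eval_X, eval_C]
    have e1 : (((r0 + n : ℕ) : F)) - (r0 : F) = (n : F) := by push_cast; ring
    rw [e1, descPochhammer_eval_eq_descFactorial, Nat.descFactorial_eq_factorial_mul_choose]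
    rw [nsmul_eq_mul]
    push_cast
    field_simp
  rw [Finset.sum_congr rfl (fun k _ => h2 k)]
  have h3 : ∀ N, m ≤ N → ∑ k ∈ Finset.range N, n.choose k • (fwdDiff 1)^[k] u r0 =
      ∑ k ∈ Finset.range m, n.choose k • (fwdDiff 1)^[k] u r0 := by
    intro N hN
    symm
    apply Finset.sum_subset (Finset.range_mono hN)
    intro k _ hk2
    rw [hk k (by simpa using hk2), smul_zero]
  have h4 : ∀ N, n + 1 ≤ N → ∑ k ∈ Finset.range N, n.choose k • (fwdDiff 1)^[k] u r0 =
      ∑ k ∈ Finset.range (n + 1), n.choose k • (fwdDiff 1)^[k] u r0 := by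
    intro N hN
    symm
    apply Finset.sum_subset (Finset.range_mono hN)
    intro k _ hk2
    have hk3 : n < k := by
      have := Finset.mem_range.not.1 hk2
      omega
    rw [Nat.choose_eq_zero_of_lt hk3, zero_smul]
  rw [← h4 (max m (n + 1)) (le_max_right _ _), h3 (max m (n + 1)) (le_max_left _ _)]

theorem cast_fwdDiff_iter (u : ℕ → ℤ) (m : ℕ) :
    ∀ r, (((fwdDiff 1)^[m] u r : ℤ) : ℝ) = (fwdDiff 1)^[m] (fun n => (u n : ℝ)) r := by
  induction m generalizing u with
  | zero => intro r; rfl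
  | succ m ih =>
    intro r
    have e : (fun n => ((fwdDiff 1 u n : ℤ) : ℝ)) = fwdDiff 1 (fun n => (u n : ℝ)) := by
      funext n
      show ((u (n + 1) - u n : ℤ) : ℝ) = (u (n + 1) : ℝ) - (u n : ℝ)
      push_cast
      rfl
    rw [Function.iterate_succ_apply, Function.iterate_succ_apply, ih, e]

theorem sub_fwdDiff_iter (u w : ℕ → ℝ) (m : ℕ) :
    ∀ r, (fwdDiff 1)^[m] (fun n => u n - w n) r = (fwdDiff 1)^[m] u r - (fwdDiff 1)^[m] w r := by
  induction m generalizing u w with
  | zero => intro r; rfl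
  | succ m ih =>
    intro r
    have e : fwdDiff 1 (fun n => u n - w n) = fun n => fwdDiff 1 u n - fwdDiff 1 w n := by
      funext n
      show (u (n + 1) - w (n + 1)) - (u n - w n) = (u (n + 1) - u n) - (w (n + 1) - w n)
      ring
    rw [Function.iterate_succ_apply, Function.iterate_succ_apply, Function.iterate_succ_apply,
      e, ih]

theorem tendsto_fwdDiff_iter (m : ℕ) : ∀ v : ℕ → ℝ, Filter.Tendsto v Filter.atTop (nhds 0) →
    Filter.Tendsto (fun n => (fwdDiff 1)^[m] v n) Filter.atTop (nhds 0) := by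
  induction m with
  | zero => intro v hv; exact hv
  | succ m ih =>
    intro v hv
    have h := ih (fwdDiff 1 v) (by
      have h1 := (Filter.tendsto_add_atTop_iff_nat 1).2 hv
      have h2 := h1.sub hv
      rw [sub_zero] at h2
      exact h2)
    exact h

/-- Integers which are close to a real sequence with `m`-th differences tending to zero. -/
theorem int_diff_zero (u : ℕ → ℤ) (w : ℕ → ℝ) (m : ℕ)
    (hclose : Filter.Tendsto (fun n : ℕ => (u n : ℝ) - w n) Filter.atTop (nhds 0))
    (hw : Filter.Tendsto (fun n : ℕ => (fwdDiff 1)^[m] w n) Filter.atTop (nhds 0)) :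
    ∃ r0 : ℕ, ∀ r, r0 ≤ r → (fwdDiff 1)^[m] u r = 0 := by
  have h1 := tendsto_fwdDiff_iter m _ hclose
  have h2 : Filter.Tendsto (fun n => (((fwdDiff 1)^[m] u n : ℤ) : ℝ)) Filter.atTop (nhds 0) := by
    have h3 := h1.add hw
    rw [add_zero] at h3
    refine h3.congr ?_
    intro n
    rw [cast_fwdDiff_iter, sub_fwdDiff_iter (fun n => (u n : ℝ)) w m n]
    ring
  rw [Metric.tendsto_atTop] at h2
  obtain ⟨r0, hr0⟩ := h2 1 one_pos
  refine ⟨r0, fun r hr => ?_⟩
  have h4 := hr0 r hr
  rw [dist_zero_right, Real.norm_eq_abs] at h4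
  have h5 : |(fwdDiff 1)^[m] u r| < 1 := by exact_mod_cast h4
  exact Int.abs_lt_one_iff.1 h5

end Pool.Agent.PTN
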