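import Pool.Agent.PTN.Defs
import Pool.Agent.PTN.LEV
import Pool.Agent.PTN.POS
import Pool.Agent.PTN.IRA
import Pool.Agent.PTN.IRB
import Pool.Agent.PTN.IRC
import Pool.Agent.PTN.PLY

set_option autoImplicit false

/-!
IRR: the positive real chain of a polynomial pattern of degree at least two leaves the field `K`.
-/

namespace Pool.Agent.PTN

open NumberField Polynomial

theorem irr_eval_bound {K : Type} [Field K] (σ : K →+* ℂ) (P : K[X]) (r : ℕ) :
    ‖σ (P.eval (r : K))‖ ≤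
      (∑ i ∈ Finset.range (P.natDegree + 1), ‖σ (P.coeff i)‖) * ((r : ℝ) + 1) ^ P.natDegree := by
  rw [Polynomial.eval_eq_sum_range, map_sum, Finset.sum_mul]
  refine (norm_sum_le _ _).trans (Finset.sum_le_sum fun i hi => ?_)
  have hi' : i ≤ P.natDegree := by
    have := Finset.mem_range.1 hi
    omega
  rw [map_mul, map_pow, map_natCast, norm_mul, norm_pow, Complex.norm_natCast]
  refine mul_le_mul_of_nonneg_left ?_ (norm_nonneg _)
  calc (r : ℝ) ^ i ≤ ((r : ℝ) + 1) ^ i :=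
        pow_le_pow_left₀ (Nat.cast_nonneg _) (by linarith) i
    _ ≤ ((r : ℝ) + 1) ^ P.natDegree :=
        pow_le_pow_right₀ (by have : (0 : ℝ) ≤ r := Nat.cast_nonneg _; linarith) hi'

/-- The positive chain of a polynomial pattern of degree at least two is not in `K` from some
level on. -/
theorem exists_irr {K : Type} [Field K] [NumberField K] (ψ : K →+* ℝ) (P : K[X])
    (hP : 2 ≤ P.natDegree) (q : 𝓞 K) (C : ℕ → 𝓞 K) (hC : ∀ j : ℕ, (C j : K) = P.eval (j : K))
    (hq : 0 < ψ (q : K)) (hC0 : C 0 = 0) (hpos : ∀ j, 0 < ψ (C (j + 1) : K)) :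
    ∃ r0 : ℕ, ∀ r, r0 ≤ r → ∀ x : K, ψ x ≠ posr (ψ (q : K)) (fun j => ψ (C j : K)) r := by
  by_contra hcon
  push Not at hcon
  set c : ℕ → ℝ := fun j => ψ (C j : K) with hc
  set v : ℕ → ℝ := posr (ψ (q : K)) c with hv
  have hc0 : c 0 = 0 := by
    show ψ (C 0 : K) = 0
    rw [hC0]
    simp
  have hvpos := posr_pos (q := ψ (q : K)) (c := c) hq hc0 hpos
  have hvrec := posr_rec (q := ψ (q : K)) (c := c) hq hc0 hpos
  -- all the terms are in `K`
  have hdesc : ∀ k r, (∃ x : K, ψ x = v (r + k)) → ∃ x : K, ψ x = v r := by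
    intro k
    induction k with
    | zero => intro r h; exact h
    | succ k ih =>
      intro r h
      apply ih
      obtain ⟨x, hx⟩ := h
      rw [show r + (k + 1) = r + k + 1 by ring] at hx
      refine ⟨x * (x + (C (r + k) : K)) / (C (r + k + 1) : K), ?_⟩
      rw [map_div₀, map_mul, map_add, hx]
      have h1 := hvrec (r + k)
      have h2 : ψ (C (r + k + 1) : K) ≠ 0 := (hpos (r + k)).ne'
      rw [div_eq_iff h2, mul_comm (v (r + k))]
      exact h1
  have hall : ∀ r, ∃ x : K, ψ x = v r := by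
    intro r
    obtain ⟨r', hr', x, hx⟩ := hcon r
    obtain ⟨k, rfl⟩ : ∃ k, r' = r + k := ⟨r' - r, by omega⟩
    exact hdesc k r ⟨x, hx⟩
  choose x hx using hall
  have hx0 : x 0 = (q : K) := ψ.injective (by rw [hx 0]; rfl)
  have hxrec : ∀ r, x (r + 1) * (x (r + 1) + (C r : K)) = (C (r + 1) : K) * x r := by
    intro r
    apply ψ.injective
    rw [map_mul, map_add, map_mul, hx, hx]
    exact hvrec r
  have hxint : ∀ r, IsIntegral ℤ (x r) := by
    intro r
    refine lv_isIntegral (q := (q : K)) (C := fun j => (C j : K)) (M := r)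
      (RingOfIntegers.isIntegral_coe q) (fun j => RingOfIntegers.isIntegral_coe (C j)) ?_
    exact ⟨x, ⟨hx0, fun j _ => hxrec j⟩, rfl⟩
  let X : ℕ → 𝓞 K := fun r => ⟨x r, hxint r⟩
  have hX : ∀ r, ((X r : 𝓞 K) : K) = x r := fun r => rfl
  -- bound for the conjugates
  set D := P.natDegree with hD
  let A : (K →+* ℂ) → ℝ := fun σ => ∑ i ∈ Finset.range (P.natDegree + 1), ‖σ (P.coeff i)‖
  have hA0 : ∀ σ, 0 ≤ 4 * |A σ| + ‖σ (q : K)‖ := fun σ => by positivity
  have hb : ∀ (σ : K →+* ℂ) (r : ℕ), ‖σ (X r : K)‖ ≤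
      (∑ σ : K →+* ℂ, (4 * |A σ| + ‖σ (q : K)‖)) * ((r : ℝ) + 1) ^ D := by
    intro σ r
    have h1 := chain_emb_bound (σ (q : K)) (fun j => σ (C j : K)) D (A σ)
      (fun r => by
        show ‖σ (C r : K)‖ ≤ _
        rw [hC r]
        exact irr_eval_bound σ P r)
      (fun r => σ (x r)) (by show σ (x 0) = _; rw [hx0])
      (fun r => by
        show σ (x (r + 1)) * (σ (x (r + 1)) + σ (C r : K)) = σ (C (r + 1) : K) * σ (x r)
        rw [← map_add, ← map_mul, ← map_mul, hxrec])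
      r
    refine h1.trans ?_
    refine mul_le_mul_of_nonneg_right ?_ (by positivity)
    exact Finset.single_le_sum (f := fun σ : K →+* ℂ => 4 * |A σ| + ‖σ (q : K)‖)
      (fun σ _ => hA0 σ) (Finset.mem_univ σ)
  -- differences
  have hPψ : (P.map ψ).natDegree = D := by
    rw [Polynomial.natDegree_map]
  have hcψ : ∀ j : ℕ, c j = (P.map ψ).eval (j : ℝ) := by
    intro j
    show ψ (C j : K) = _
    rw [hC j, Polynomial.eval_map, ← map_natCast ψ j, Polynomial.eval₂_at_apply]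
  have hdiff : ∀ m : ℕ, ∃ A : ℝ, ∀ r : ℕ, 1 ≤ r →
      |(fwdDiff 1)^[m] (fun r => ψ (X r : K)) r| ≤ A * (r : ℝ) ^ ((D : ℤ) - 1 - m) := by
    intro m
    obtain ⟨A, hA⟩ := posr_diff_bound (P.map ψ) (by rw [hPψ]; omega) (ψ (q : K)) hq c hcψ hc0
      hpos m
    refine ⟨A, fun r hr => ?_⟩
    have h1 := hA r hr
    rw [hPψ] at h1
    have h2 : (fun r => ψ (X r : K)) = posr (ψ (q : K)) c := by
      funext r
      rw [hX, hx]
    rw [h2]
    exact h1
  obtain ⟨m, r0, hm⟩ := diff_eventually_zero K ψ X D _ hb hdiff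
  have hfv : (fun r => ψ (X r : K)) = v := by
    funext r
    rw [hX, hx]
  rw [hfv] at hm
  obtain ⟨h, hh⟩ := eventually_poly v m r0 hm
  have hh0 : h ≠ 0 := by
    rintro rfl
    have h1 := hh r0 le_rfl
    rw [Polynomial.eval_zero] at h1
    exact (hvpos r0).ne' h1
  refine no_poly_chain (P.map ψ) h (by rw [hPψ]; exact hP) hh0 ?_
  apply Polynomial.eq_of_infinite_eval_eq
  have hinf : (Set.range fun k : ℕ => ((r0 + k : ℕ) : ℝ)).Infinite := by
    apply Set.infinite_range_of_injective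
    intro a b hab
    have h0 : ((r0 + a : ℕ) : ℝ) = ((r0 + b : ℕ) : ℝ) := hab
    have h1 : r0 + a = r0 + b := by exact_mod_cast h0
    omega
  refine hinf.mono ?_
  rintro _ ⟨k, rfl⟩
  show Polynomial.eval ((r0 + k : ℕ) : ℝ) _ = Polynomial.eval ((r0 + k : ℕ) : ℝ) _
  have e1 := hh (r0 + k) (by omega)
  have e2 := hh (r0 + k + 1) (by omega)
  have e3 : v (r0 + k + 1) * (v (r0 + k + 1) + c (r0 + k)) = c (r0 + k + 1) * v (r0 + k) :=
    hvrec (r0 + k)
  rw [e1, e2, hcψ, hcψ] at e3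
  simp only [Polynomial.eval_sub, Polynomial.eval_mul, Polynomial.eval_pow, Polynomial.eval_comp,
    Polynomial.eval_add, Polynomial.eval_X, Polynomial.eval_one]
  push_cast at e3 ⊢
  linear_combination -e3

end Pool.Agent.PTN
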