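import Pool.Agent.PTN.Defs

set_option autoImplicit false

/-!
PAT: the pattern `q, C` attached to an integral root `T` of a monic integer polynomial `G`, step `e`, sign `s`.
-/

namespace Pool.Agent.PTN

open NumberField Polynomial

/-- First term of the pattern. -/
noncomputable def gq {K : Type} [Field K] (G : ℤ[X]) (e : ℕ) (s : ℤ) (T : 𝓞 K) : 𝓞 K :=
  (s : 𝓞 K) * aeval (T + (e : 𝓞 K)) G

/-- Coefficients of the pattern. -/
noncomputable def gC {K : Type} [Field K] (G : ℤ[X]) (e : ℕ) (s : ℤ) (T : 𝓞 K) (j : ℕ) : 𝓞 K :=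
  -((s : 𝓞 K) * aeval (T - (e : 𝓞 K) * (j : 𝓞 K)) G)

/-- `aeval` and embeddings. -/
theorem map_aeval_int {K R : Type} [Field K] [CommRing R] (f : K →+* R) (x : 𝓞 K) (G : ℤ[X]) :
    f ((aeval x G : 𝓞 K) : K) = aeval (f (x : K)) G := by
  have h1 : ((aeval x G : 𝓞 K) : K) = aeval (x : K) G :=
    (Polynomial.aeval_algHom_apply (algebraMap (𝓞 K) K).toIntAlgHom x G).symm
  rw [h1]
  exact (Polynomial.aeval_algHom_apply f.toIntAlgHom (x : K) G).symm

theorem gC_zero {K : Type} [Field K] (G : ℤ[X]) (e : ℕ) (s : ℤ) (T : 𝓞 K)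
    (hT : aeval T G = 0) : gC G e s T 0 = 0 := by
  simp [gC, hT]

theorem map_gq {K R : Type} [Field K] [CommRing R] (f : K →+* R) (G : ℤ[X]) (e : ℕ) (s : ℤ)
    (T : 𝓞 K) : f (gq G e s T : K) = (s : R) * aeval (f (T : K) + (e : R)) G := by
  unfold gq
  have h1 : (((s : 𝓞 K) * aeval (T + (e : 𝓞 K)) G : 𝓞 K) : K) =
      (s : K) * ((aeval (T + (e : 𝓞 K)) G : 𝓞 K) : K) := by
    push_cast
    rfl
  have h2 : ((T + (e : 𝓞 K) : 𝓞 K) : K) = (T : K) + (e : K) := by
    push_cast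
    rfl
  rw [h1, map_mul, map_intCast, map_aeval_int, h2, map_add, map_natCast]

theorem map_gC {K R : Type} [Field K] [CommRing R] (f : K →+* R) (G : ℤ[X]) (e : ℕ) (s : ℤ)
    (T : 𝓞 K) (j : ℕ) :
    f (gC G e s T j : K) = -((s : R) * aeval (f (T : K) - (e : R) * (j : R)) G) := by
  unfold gC
  have h1 : ((-((s : 𝓞 K) * aeval (T - (e : 𝓞 K) * (j : 𝓞 K)) G) : 𝓞 K) : K) =
      -((s : K) * ((aeval (T - (e : 𝓞 K) * (j : 𝓞 K)) G : 𝓞 K) : K)) := by
    push_cast
    rfl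
  have h2 : ((T - (e : 𝓞 K) * (j : 𝓞 K) : 𝓞 K) : K) = (T : K) - (e : K) * (j : K) := by
    push_cast
    rfl
  rw [h1, map_neg, map_mul, map_intCast, map_aeval_int, h2, map_sub, map_mul, map_natCast,
    map_natCast]

/-- The coefficients are the values of a polynomial over `K`. -/
noncomputable def gP {K : Type} [Field K] (G : ℤ[X]) (e : ℕ) (s : ℤ) (T : 𝓞 K) : K[X] :=
  -(C (s : K) * (G.map (Int.castRingHom K)).comp (C (T : K) - C (e : K) * X))

theorem gP_eval {K : Type} [Field K] (G : ℤ[X]) (e : ℕ) (s : ℤ) (T : 𝓞 K) (j : ℕ) :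
    (gC G e s T j : K) = (gP G e s T).eval (j : K) := by
  have h1 := map_gC (RingHom.id K) G e s T j
  rw [RingHom.id_apply] at h1
  rw [h1, gP]
  simp only [eval_neg, eval_mul, eval_C, eval_comp, eval_sub, eval_X, RingHom.id_apply]
  congr 2
  rw [Polynomial.eval_map, Polynomial.aeval_def]
  rfl

theorem gP_natDegree {K : Type} [Field K] [CharZero K] (G : ℤ[X]) (e : ℕ)
    (he : 0 < e) (s : ℤ) (hs : s = 1 ∨ s = -1) (T : 𝓞 K) :
    (gP G e s T).natDegree = G.natDegree := by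
  have hs0 : (s : K) ≠ 0 := by
    rcases hs with rfl | rfl <;> simp
  have he0 : (e : K) ≠ 0 := Nat.cast_ne_zero.2 he.ne'
  have hlin : (C (T : K) - C (e : K) * X : K[X]).natDegree = 1 := by
    have h1 : (C (T : K) - C (e : K) * X : K[X]) = C (-(e : K)) * X + C (T : K) := by
      rw [map_neg]; ring
    rw [h1]
    exact natDegree_linear (neg_ne_zero.2 he0)
  rw [gP, natDegree_neg, natDegree_C_mul hs0, natDegree_comp, hlin, mul_one]
  exact natDegree_map_eq_of_injective (Int.cast_injective) G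

end Pool.Agent.PTN
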