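import Pool.Agent.PTN.Defs
import Pool.Agent.PTN.LEV
import Pool.Agent.PTN.POS

set_option autoImplicit false

/-!
RNA: real elements of high levels. v r = posr q c r > 0.
(1) Children of a NEGATIVE real element: write a negative real term of a chain as x_j = - c j * y_j (j >= 1, y_j > 0). The
recursion is y_(j+1) * (1 - t_j * y_(j+1)) = y_j with t_j = c (j+1) / c j > 0. Since y_j > 0 both roots have y_(j+1) > 0, and
1 - t_j y_(j+1) > 0, so y_(j+1) >= y_j + t_j y_(j+1)^2 >= y_j + t_j y_j^2, and y_(j+1) < 1 / t_j. Let t0 > 0 be a lower bound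
of all t_j (j >= 1; exists as t_j -> 1 and all are positive). So y increases by at least t0 * y_b^2 at every step and stays
< 1 / t0: the number of steps after the first negative term x_b is at most 1 / (t0 y_b)^2.
(2) The first negative term of a real chain is x_b = -c (b-1) - v b (b >= 1, by pos_child), so y_b = (c (b-1) + v b) / c b, which
is bounded below by a constant k0 > 0 for all b >= 1 (for b = 1 it is v 1 / c 1 > 0, for b >= 2 it is at least c (b-1) / c b >= 1/T).
(3) For large b (c (b-1) c (b+1) / c b ^ 2 -> 1 > 1/4) the element -c (b-1) - v b has no real child (discriminant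
c b ^ 2 + 4 c (b+1) (-c (b-1) - v b) < 0).
(4) Induction on the level: a real element of level M is v M, or -c (M-1) - v M, or it is deep: it has a first negative
ancestor of level b < B0 and -z / c M >= k0 + (M - b) t0 k0^2. For M large the last case is impossible.
-/

namespace Pool.Agent.PTN

open Filter

private theorem RNA_step {t0 k0 k a b w z : ℝ} (ht0 : 0 < t0) (hk0 : 0 < k0) (hk : k0 ≤ k)
    (ha : 0 < a) (hb : 0 < b) (ht : t0 ≤ b / a) (hw : w < 0) (hky : k ≤ -w / a)
    (hz : z * (z + a) = b * w) :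
    z < 0 ∧ k + t0 * k0 ^ 2 ≤ -z / b ∧ -z / b < 1 / t0 := by
  have h1 : z * (z + a) < 0 := by
    rw [hz]
    exact mul_neg_of_pos_of_neg hb hw
  have h2 : z < 0 := by
    by_contra hcon
    have hcon' : 0 ≤ z := not_lt.1 hcon
    have : 0 ≤ z * (z + a) := mul_nonneg hcon' (by linarith)
    linarith
  have h3 : 0 < z + a := by
    by_contra hcon
    have hcon' : z + a ≤ 0 := not_lt.1 hcon
    have : 0 ≤ z * (z + a) := mul_nonneg_of_nonpos_of_nonpos h2.le hcon'
    linarith
  obtain ⟨y', hy'⟩ : ∃ y', y' = -z / b := ⟨_, rfl⟩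
  obtain ⟨y, hy⟩ : ∃ y, y = -w / a := ⟨_, rfl⟩
  obtain ⟨t, htt⟩ : ∃ t, t = b / a := ⟨_, rfl⟩
  rw [← hy']
  rw [← hy] at hky
  rw [← htt] at ht
  have hzy : z = -(b * y') := by
    rw [hy']
    field_simp
  have hwy : w = -(a * y) := by
    rw [hy]
    field_simp
  have hbt : b = t * a := by
    rw [htt]
    field_simp
  have hy'0 : 0 < y' := by
    rw [hy']
    exact div_pos (by linarith) hb
  have hy0 : 0 < y := by linarith
  have ht' : 0 < t := by linarith
  have e1 : y' * (a - b * y') = a * y := by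
    have h5 : b * (y' * (a - b * y')) = b * (a * y) := by
      have h6 := hz
      rw [hzy, hwy] at h6
      linear_combination -h6
    exact mul_left_cancel₀ hb.ne' h5
  have e2 : y' = y + t * y' ^ 2 := by
    have h5 : a * y' = a * (y + t * y' ^ 2) := by
      rw [hbt] at e1
      linear_combination e1
    exact mul_left_cancel₀ ha.ne' h5
  have h4 : y ≤ y' := by
    have : 0 ≤ t * y' ^ 2 := by positivity
    linarith
  have h7 : t0 * k0 ^ 2 ≤ t * y' ^ 2 := by
    have h8 : k0 ^ 2 ≤ y' ^ 2 := by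
      apply pow_le_pow_left₀ hk0.le
      linarith
    exact mul_le_mul ht h8 (by positivity) ht'.le
  refine ⟨h2, ?_, ?_⟩
  · linarith
  · rw [lt_div_iff₀ ht0]
    have h9 : 0 < a * (1 - t * y') := by
      have : z + a = a * (1 - t * y') := by
        rw [hzy, hbt]
        ring
      rw [← this]
      exact h3
    have h10 : 0 < 1 - t * y' := by
      by_contra hcon
      have hcon' : 1 - t * y' ≤ 0 := not_lt.1 hcon
      have : a * (1 - t * y') ≤ 0 := mul_nonpos_of_nonneg_of_nonpos ha.le hcon'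
      linarith
    have h11 : t0 * y' ≤ t * y' := mul_le_mul_of_nonneg_right ht hy'0.le
    linarith

private theorem RNA_nochild {a b d v : ℝ} (hb : 0 < b) (hv : 0 < v) (h : a ^ 2 < 4 * (b * d))
    (z : ℂ) (hz : z * (z + (a : ℂ)) = (b : ℂ) * (-(d : ℂ) - (v : ℂ))) : z.im ≠ 0 := by
  intro h0
  have hz' : z = ((z.re : ℝ) : ℂ) := by
    apply Complex.ext
    · simp
    · simp [h0]
  rw [hz'] at hz
  have h1 : z.re * (z.re + a) = b * (-d - v) := by exact_mod_cast hz
  nlinarith [sq_nonneg (z.re + a / 2), mul_pos hb hv]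

/-- Real elements of all high levels: the positive one and its sibling; the children of the sibling
are not real. -/
theorem real_nodes (q : ℝ) (c : ℕ → ℝ) (hq : 0 < q) (h0 : c 0 = 0) (hpos : ∀ j, 0 < c (j + 1))
    (hlim : Tendsto (fun j : ℕ => c (j + 2) / c (j + 1)) atTop (nhds 1)) :
    ∃ I1 : ℕ, 1 ≤ I1 ∧ ∀ r, I1 ≤ r →
      (∀ z ∈ LvC q c r, z.im = 0 → z = ((posr q c r : ℝ) : ℂ) ∨
        z = -((c (r - 1) : ℝ) : ℂ) - ((posr q c r : ℝ) : ℂ)) ∧
      (∀ z : ℂ, z * (z + ((c r : ℝ) : ℂ)) =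
        ((c (r + 1) : ℝ) : ℂ) * (-((c (r - 1) : ℝ) : ℂ) - ((posr q c r : ℝ) : ℂ)) → z.im ≠ 0) := by
  have hv := posr_pos hq h0 hpos
  have hg : ∀ j, 0 < c (j + 2) / c (j + 1) := fun j => div_pos (hpos (j + 1)) (hpos j)
  obtain ⟨T, hT⟩ := hlim.bddAbove_range
  have hT' : ∀ j, c (j + 2) / c (j + 1) ≤ T := fun j => hT ⟨j, rfl⟩
  have hT0 : 0 < T := lt_of_lt_of_le (hg 0) (hT' 0)
  obtain ⟨S, hS⟩ := (hlim.inv₀ one_ne_zero).bddAbove_range
  have hS' : ∀ j, (c (j + 2) / c (j + 1))⁻¹ ≤ S := fun j => hS ⟨j, rfl⟩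
  have hS0 : 0 < S := lt_of_lt_of_le (inv_pos.2 (hg 0)) (hS' 0)
  obtain ⟨t0, ht0def⟩ : ∃ t0, t0 = S⁻¹ := ⟨_, rfl⟩
  have ht0 : 0 < t0 := by
    rw [ht0def]
    exact inv_pos.2 hS0
  have ht : ∀ j, t0 ≤ c (j + 2) / c (j + 1) := by
    intro j
    rw [ht0def]
    exact inv_le_of_inv_le₀ (hg j) (hS' j)
  obtain ⟨k0, hk0def⟩ : ∃ k0, k0 = min (T⁻¹) (posr q c 1 / c 1) := ⟨_, rfl⟩
  have hk0 : 0 < k0 := by
    rw [hk0def]
    exact lt_min (inv_pos.2 hT0) (div_pos (hv 1) (hpos 0))
  -- lower bound for the first negative term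
  have hk : ∀ b, k0 ≤ -(-c b - posr q c (b + 1)) / c (b + 1) := by
    intro b
    have e : -(-c b - posr q c (b + 1)) = c b + posr q c (b + 1) := by ring
    rw [e]
    cases b with
    | zero =>
      rw [h0, zero_add, hk0def]
      exact min_le_right _ _
    | succ b =>
      have h1 : k0 ≤ T⁻¹ := by
        rw [hk0def]
        exact min_le_left _ _
      have h2 : T⁻¹ ≤ c (b + 1) / c (b + 2) := by
        have h3 : (c (b + 1) / c (b + 2)) = (c (b + 2) / c (b + 1))⁻¹ := by
          rw [inv_div]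
        rw [h3]
        exact inv_anti₀ (hg b) (hT' b)
      have h4 : c (b + 1) / c (b + 2) ≤ (c (b + 1) + posr q c (b + 1 + 1)) / c (b + 1 + 1) := by
        apply div_le_div_of_nonneg_right _ (hpos (b + 1)).le
        have := hv (b + 1 + 1)
        linarith
      linarith
  -- large levels: no real child of the sibling
  have hev : ∀ᶠ j : ℕ in atTop, (1 / 4 : ℝ) < (c (j + 3) / c (j + 2)) / (c (j + 2) / c (j + 1)) := by
    have h1 : Tendsto (fun j : ℕ => c (j + 3) / c (j + 2)) atTop (nhds 1) :=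
      hlim.comp (tendsto_add_atTop_nat 1)
    have h2 := h1.div hlim one_ne_zero
    rw [div_one] at h2
    exact h2.eventually_const_lt (by norm_num)
  obtain ⟨J0, hJ0⟩ := eventually_atTop.1 hev
  have hsib : ∀ r, J0 + 2 ≤ r → ∀ z : ℂ, z * (z + ((c r : ℝ) : ℂ)) =
      ((c (r + 1) : ℝ) : ℂ) * (-((c (r - 1) : ℝ) : ℂ) - ((posr q c r : ℝ) : ℂ)) → z.im ≠ 0 := by
    intro r hr z hz
    obtain ⟨j, rfl⟩ : ∃ j, r = j + 2 := ⟨r - 2, by omega⟩
    have hj := hJ0 j (by omega)
    refine RNA_nochild (hpos (j + 2)) (hv (j + 2)) ?_ z hz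
    have e1 : j + 2 - 1 = j + 1 := by omega
    rw [e1]
    have p1 := hpos j
    have p2 : 0 < c (j + 2) := hpos (j + 1)
    have p3 : 0 < c (j + 3) := hpos (j + 2)
    have e2 : (c (j + 3) / c (j + 2)) / (c (j + 2) / c (j + 1)) =
        c (j + 3) * c (j + 1) / c (j + 2) ^ 2 := by
      field_simp
    rw [e2, lt_div_iff₀ (by positivity)] at hj
    have e3 : c (j + 2 + 1) = c (j + 3) := rfl
    rw [e3]
    linarith
  -- induction on the level
  have key : ∀ M : ℕ, ∀ z ∈ LvC q c M, z.im = 0 → z = ((posr q c M : ℝ) : ℂ) ∨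
      (1 ≤ M ∧ z = -((c (M - 1) : ℝ) : ℂ) - ((posr q c M : ℝ) : ℂ)) ∨
      (∃ b : ℕ, b < J0 + 2 ∧ b < M ∧ z.re < 0 ∧ k0 + ((M - b : ℕ) : ℝ) * (t0 * k0 ^ 2) ≤ -z.re / c M ∧
        -z.re / c M < 1 / t0) := by
    intro M
    induction M with
    | zero =>
      intro z hz _
      left
      rw [LvC, lv_zero, Set.mem_singleton_iff] at hz
      rw [hz, posr_zero]
    | succ M ih =>
      intro z hz hzim
      obtain ⟨w, hw, hzw⟩ := lv_parent hz
      have hzr : z = ((z.re : ℝ) : ℂ) := by
        apply Complex.ext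
        · simp
        · simp [hzim]
      have hwr : (c (M + 1) : ℝ) * w.im = 0 := by
        have h1 := congrArg Complex.im hzw
        simp [hzim] at h1
        rcases h1 with h1 | h1
        · rw [h1, zero_mul]
        · rw [h1, mul_zero]
      have hwim : w.im = 0 := by
        rcases mul_eq_zero.1 hwr with h | h
        · exact absurd h (hpos M).ne'
        · exact h
      have hwr' : w = ((w.re : ℝ) : ℂ) := by
        apply Complex.ext
        · simp
        · simp [hwim]
      have hre : z.re * (z.re + c M) = c (M + 1) * w.re := by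
        have h1 := hzw
        rw [hzr, hwr'] at h1
        exact_mod_cast h1
      rcases ih w hw hwim with h | ⟨hM, h⟩ | ⟨b, hb, hbM, hw0, hwk, hwt⟩
      · rw [h] at hzw
        rcases posr_child hq h0 hpos hzw with h1 | h1
        · exact Or.inl h1
        · exact Or.inr (Or.inl ⟨by omega, by rw [Nat.add_sub_cancel]; exact h1⟩)
      · obtain ⟨N, rfl⟩ : ∃ N, M = N + 1 := ⟨M - 1, by omega⟩
        by_cases hlt : N + 1 < J0 + 2
        · right
          right
          have hwre : w.re = -c N - posr q c (N + 1) := by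
            rw [h]
            simp
          have hwneg : w.re < 0 := by
            rw [hwre]
            have := hv (N + 1)
            have : 0 ≤ c N := by
              cases N with
              | zero => exact h0.ge
              | succ N => exact (hpos N).le
            linarith
          have hs := RNA_step ht0 hk0 le_rfl (hpos N) (hpos (N + 1)) (ht N) hwneg
            (by rw [hwre]; exact hk N) hre
          refine ⟨N + 1, hlt, by omega, hs.1, ?_, hs.2.2⟩
          have e : (N + 1 + 1 - (N + 1) : ℕ) = 1 := by omega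
          rw [e, Nat.cast_one, one_mul]
          exact hs.2.1
        · exfalso
          rw [h] at hzw
          exact hsib (N + 1) (by omega) z hzw hzim
      · right
        right
        obtain ⟨N, rfl⟩ : ∃ N, M = N + 1 := ⟨M - 1, by omega⟩
        have hkk : k0 ≤ k0 + ((N + 1 - b : ℕ) : ℝ) * (t0 * k0 ^ 2) := by
          have : 0 ≤ ((N + 1 - b : ℕ) : ℝ) * (t0 * k0 ^ 2) := by positivity
          linarith
        have hs := RNA_step ht0 hk0 hkk (hpos N) (hpos (N + 1)) (ht N) hw0 hwk hre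
        refine ⟨b, hb, by omega, hs.1, ?_, hs.2.2⟩
        have e : (N + 1 + 1 - b : ℕ) = (N + 1 - b) + 1 := by omega
        rw [e]
        push_cast
        have := hs.2.1
        linarith
  -- the deep case does not occur at high levels
  obtain ⟨N, hN⟩ := exists_nat_gt (1 / t0 / (t0 * k0 ^ 2))
  refine ⟨J0 + 2 + N, by omega, ?_⟩
  intro r hr
  refine ⟨?_, hsib r (by omega)⟩
  intro z hz hzim
  rcases key r z hz hzim with h | ⟨_, h⟩ | ⟨b, hb, hbM, hw0, hwk, hwt⟩
  · exact Or.inl h
  · exact Or.inr h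
  · exfalso
    have h1 : (N : ℝ) ≤ ((r - b : ℕ) : ℝ) := by
      exact_mod_cast (by omega : N ≤ r - b)
    have h2 : 0 < t0 * k0 ^ 2 := by positivity
    rw [div_lt_iff₀ h2] at hN
    have h3 : (N : ℝ) * (t0 * k0 ^ 2) ≤ ((r - b : ℕ) : ℝ) * (t0 * k0 ^ 2) :=
      mul_le_mul_of_nonneg_right h1 h2.le
    linarith

end Pool.Agent.PTN
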