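import Pool.Agent.PTN.Defs

set_option autoImplicit false

/-!
SCH: (1) Schur: a nonconstant h in ℤ[X] has arbitrarily large prime divisors of values. If h(0) = 0: x = p any prime > X. Otherwise
c = h(0) <> 0, m = (X!) ; for y in ℤ: h(c m y) = c (1 + m t) for an integer t (c m y divides h(c m y) - h(0) and more precisely
h(z) - h(0) is divisible by z = c m y). Choose y with |h(c m y)| > |c| (h nonconstant), so |1 + m t| > 1 and it has a prime factor p; p does not
divide m = X!, so p > X.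
(2) common roots: G monic integral, z, z + e complex roots of G (e in ℕ, e > 0). z is integral; h = minpoly ℤ z divides G and G.comp (X + C e)
(minpoly.isIntegrallyClosed_dvd). Take p > max X e from (1) for h (natDegree >= 1), p | h(x); p does not divide e so there is n with e n = x mod p;
then p | h (e n), so p | G (e n) and p | G (e n + e).
-/

namespace Pool.Agent.PTN

open Polynomial

/-- Schur: values of a nonconstant integer polynomial have arbitrarily large prime factors. -/
theorem schur (h : ℤ[X]) (hdeg : 1 ≤ h.natDegree) (X0 : ℕ) :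
    ∃ p : ℕ, p.Prime ∧ X0 < p ∧ ∃ x : ℤ, (p : ℤ) ∣ h.eval x := by
  by_cases h0 : h.eval 0 = 0
  · obtain ⟨p, hp, hpp⟩ := Nat.exists_infinite_primes (X0 + 1)
    exact ⟨p, hpp, hp, 0, by rw [h0]; exact dvd_zero _⟩
  · have hm0 : ((X0.factorial : ℕ) : ℤ) ≠ 0 := by exact_mod_cast X0.factorial_ne_zero
    have hcm : h.eval 0 * ((X0.factorial : ℕ) : ℤ) ≠ 0 := mul_ne_zero h0 hm0
    have hA : h - C (h.eval 0) ≠ 0 := by
      intro hh
      have h1 : h = C (h.eval 0) := sub_eq_zero.1 hh
      have h2 : h.natDegree = 0 := by rw [h1]; exact natDegree_C _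
      omega
    have hB : h + C (h.eval 0) ≠ 0 := by
      intro hh
      have h1 : h = C (-(h.eval 0)) := by
        rw [C_neg]
        exact eq_neg_of_add_eq_zero_left hh
      have h2 : h.natDegree = 0 := by rw [h1]; exact natDegree_C _
      omega
    have hy : ∃ y : ℤ, (((h - C (h.eval 0)) * (h + C (h.eval 0)))).eval
        (h.eval 0 * ((X0.factorial : ℕ) : ℤ) * y) ≠ 0 := by
      by_contra hcon
      push Not at hcon
      refine mul_ne_zero hA hB (eq_zero_of_infinite_isRoot _ ?_)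
      refine Set.infinite_of_injective_forall_mem
        (f := fun y : ℤ => h.eval 0 * ((X0.factorial : ℕ) : ℤ) * y) ?_ hcon
      intro a b hab
      exact mul_left_cancel₀ hcm hab
    obtain ⟨y, hy⟩ := hy
    rw [eval_mul, eval_sub, eval_add, eval_C] at hy
    obtain ⟨s, hs⟩ := sub_dvd_eval_sub (h.eval 0 * ((X0.factorial : ℕ) : ℤ) * y) 0 h
    rw [sub_zero] at hs
    have hval : h.eval (h.eval 0 * ((X0.factorial : ℕ) : ℤ) * y) =
        h.eval 0 * (1 + ((X0.factorial : ℕ) : ℤ) * (y * s)) := by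
      linear_combination hs
    have hne : (1 + ((X0.factorial : ℕ) : ℤ) * (y * s)).natAbs ≠ 1 := by
      intro h1
      rcases Int.natAbs_eq_iff.1 h1 with h2 | h2
      · apply hy
        rw [hval, h2]
        push_cast
        ring
      · apply hy
        rw [hval, h2]
        push_cast
        ring
    obtain ⟨p, hpp, hpd⟩ := Nat.exists_prime_and_dvd hne
    have hpd' : (p : ℤ) ∣ 1 + ((X0.factorial : ℕ) : ℤ) * (y * s) :=
      Int.natCast_dvd.2 hpd
    refine ⟨p, hpp, ?_, h.eval 0 * ((X0.factorial : ℕ) : ℤ) * y, ?_⟩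
    · by_contra hle
      have h1 : p ∣ X0.factorial := (hpp.dvd_factorial).2 (not_lt.1 hle)
      have h2 : (p : ℤ) ∣ ((X0.factorial : ℕ) : ℤ) * (y * s) :=
        dvd_mul_of_dvd_left (Int.natCast_dvd_natCast.2 h1) _
      have h3 : (p : ℤ) ∣ 1 := (dvd_add_left h2).1 hpd'
      exact hpp.one_lt.ne' (by exact_mod_cast Int.eq_one_of_dvd_one (by positivity) h3)
    · rw [hval]
      exact dvd_mul_of_dvd_right hpd' _

/-- Two roots of `G` differing by `e` give a large prime dividing two consecutive values. -/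
theorem common_root_prime (G : ℤ[X]) (hG : G.Monic) (e : ℕ) (he : 0 < e) (z : ℂ)
    (hz : aeval z G = 0) (hz' : aeval (z + (e : ℂ)) G = 0) (X0 : ℕ) :
    ∃ p : ℕ, p.Prime ∧ X0 < p ∧ ∃ n : ℤ, (p : ℤ) ∣ G.eval ((e : ℤ) * n) ∧
      (p : ℤ) ∣ G.eval ((e : ℤ) * n + e) := by
  have hint : IsIntegral ℤ z := ⟨G, hG, hz⟩
  have h1 : minpoly ℤ z ∣ G := minpoly.isIntegrallyClosed_dvd hint hz
  have h2 : minpoly ℤ z ∣ G.comp (X + C (e : ℤ)) := by
    refine minpoly.isIntegrallyClosed_dvd hint ?_
    rw [aeval_comp]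
    simpa using hz'
  obtain ⟨p, hpp, hlt, x, hx⟩ := schur (minpoly ℤ z) (minpoly.natDegree_pos hint) (max X0 e)
  have hX0 : X0 < p := lt_of_le_of_lt (le_max_left _ _) hlt
  have hep : e < p := lt_of_le_of_lt (le_max_right _ _) hlt
  have hcop : Nat.Coprime e p := by
    rw [Nat.coprime_comm, hpp.coprime_iff_not_dvd]
    intro hdvd
    exact absurd (Nat.le_of_dvd he hdvd) (not_le.2 hep)
  obtain ⟨a, b, hab⟩ := Nat.isCoprime_iff_coprime.2 hcop
  refine ⟨p, hpp, hX0, a * x, ?_⟩
  have hdv : (p : ℤ) ∣ (e : ℤ) * (a * x) - x := ⟨-(b * x), by linear_combination x * hab⟩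
  have h3 : (p : ℤ) ∣ (minpoly ℤ z).eval ((e : ℤ) * (a * x)) := by
    have h4 : (p : ℤ) ∣ (minpoly ℤ z).eval ((e : ℤ) * (a * x)) - (minpoly ℤ z).eval x :=
      dvd_trans hdv (sub_dvd_eval_sub _ _ _)
    have h5 := dvd_add h4 hx
    rwa [sub_add_cancel] at h5
  constructor
  · exact dvd_trans h3 (eval_dvd h1)
  · have h6 := dvd_trans h3 (eval_dvd (x := (e : ℤ) * (a * x)) h2)
    rw [eval_comp] at h6
    simpa using h6

/-- If `G` and `G(X+e)` have no common complex root, a nonzero integer is an integral combination. -/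
theorem coprime_shift (G : ℤ[X]) (hG : G.Monic) (e : ℕ)
    (hno : ∀ z : ℂ, aeval z G = 0 → aeval (z + (e : ℂ)) G ≠ 0) :
    ∃ (U V : ℤ[X]) (d : ℤ), d ≠ 0 ∧ U * G + V * G.comp (X + C (e : ℤ)) = C d := by
  have hcop : IsCoprime (G.map (algebraMap ℤ ℚ)) ((G.comp (X + C (e : ℤ))).map (algebraMap ℤ ℚ)) := by
    rw [Polynomial.isCoprime_iff_aeval_ne_zero_of_isAlgClosed ℚ ℂ]
    intro z
    by_cases hz : aeval z G = 0
    · right
      have h1 := hno z hz
      rw [aeval_map_algebraMap, aeval_comp]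
      simpa using h1
    · left
      rwa [aeval_map_algebraMap]
  obtain ⟨A, B, hAB⟩ := hcop
  obtain ⟨b1, hm1, hb1⟩ := IsLocalization.integerNormalization_spec (nonZeroDivisors ℤ) A
  obtain ⟨b2, hm2, hb2⟩ := IsLocalization.integerNormalization_spec (nonZeroDivisors ℤ) B
  refine ⟨C b2 * IsLocalization.integerNormalization (nonZeroDivisors ℤ) A,
    C b1 * IsLocalization.integerNormalization (nonZeroDivisors ℤ) B,
    b1 * b2, ?_, ?_⟩
  · exact mul_ne_zero (nonZeroDivisors.ne_zero hm1) (nonZeroDivisors.ne_zero hm2)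
  · apply Polynomial.map_injective (algebraMap ℤ ℚ) (IsFractionRing.injective ℤ ℚ)
    rw [Polynomial.map_add, Polynomial.map_mul, Polynomial.map_mul, Polynomial.map_mul,
      Polynomial.map_mul, hb1, hb2, map_C, map_C, map_C, map_mul, C_mul]
    have e1 : b1 • A = C (algebraMap ℤ ℚ b1) * A := by
      rw [← smul_eq_C_mul, algebraMap_smul]
    have e2 : b2 • B = C (algebraMap ℤ ℚ b2) * B := by
      rw [← smul_eq_C_mul, algebraMap_smul]
    rw [e1, e2]
    linear_combination (C (algebraMap ℤ ℚ b1) * C (algebraMap ℤ ℚ b2)) * hAB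

end Pool.Agent.PTN
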