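import Pool.Agent.PTN.Defs

set_option autoImplicit false

/-!
UNR: (1) only finitely many primes ramify: for a prime 𝔩 over l with l ∈ 𝔩^2 the prime 𝔩 divides differentIdeal ℤ (𝓞 K), a nonzero
ideal (pow_sub_one_dvd_differentIdeal).
(2) a nonzero ideal J is not contained in a prime 𝔩 above a prime number l > absNorm J: the nonzero
integer D0 = absNorm J lies in J, so in 𝔩 with l: if l > D0 >= 1 then gcd (l, D0) = 1 and 1 ∈ 𝔩.
-/

namespace Pool.Agent.PTN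

open NumberField

/-- A nonzero ideal is not contained in primes above large rational primes. -/
theorem exists_not_le {K : Type} [Field K] [NumberField K] (J : Ideal (𝓞 K)) (hJ : J ≠ ⊥) :
    ∃ D0 : ℕ, ∀ l : ℕ, l.Prime → D0 < l → ∀ 𝔩 : Ideal (𝓞 K), 𝔩.IsPrime →
      ((l : ℕ) : 𝓞 K) ∈ 𝔩 → ¬ J ≤ 𝔩 := by
  refine ⟨Ideal.absNorm J, fun l hl hlt 𝔩 hP hmem hle => ?_⟩
  have h0 : Ideal.absNorm J ≠ 0 := by
    rw [Ne, Ideal.absNorm_eq_zero_iff]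
    exact hJ
  have h1 : ((Ideal.absNorm J : ℕ) : 𝓞 K) ∈ 𝔩 := hle (Ideal.absNorm_mem J)
  have hcop : Nat.Coprime l (Ideal.absNorm J) := by
    rw [hl.coprime_iff_not_dvd]
    intro hdvd
    exact absurd (Nat.le_of_dvd (Nat.pos_of_ne_zero h0) hdvd) (not_le.2 hlt)
  obtain ⟨a, b, hab⟩ := Nat.isCoprime_iff_coprime.2 hcop
  have h2 : ((a * (l : ℤ) + b * ((Ideal.absNorm J : ℕ) : ℤ) : ℤ) : 𝓞 K) ∈ 𝔩 := by
    push_cast
    exact 𝔩.add_mem (𝔩.mul_mem_left _ hmem) (𝔩.mul_mem_left _ h1)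
  rw [hab, Int.cast_one] at h2
  exact hP.ne_top ((Ideal.eq_top_iff_one 𝔩).2 h2)

/-- Large rational primes are unramified in `K`. -/
theorem exists_unram (K : Type) [Field K] [NumberField K] :
    ∃ D0 : ℕ, ∀ l : ℕ, l.Prime → D0 < l → ∀ 𝔩 : Ideal (𝓞 K), 𝔩.IsPrime →
      ((l : ℕ) : 𝓞 K) ∈ 𝔩 → ((l : ℕ) : 𝓞 K) ∉ 𝔩 ^ 2 := by
  have hne : differentIdeal ℤ (𝓞 K) ≠ ⊥ := differentIdeal_ne_bot
  obtain ⟨D0, hD0⟩ := exists_not_le (differentIdeal ℤ (𝓞 K)) hne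
  refine ⟨D0, fun l hl hlt 𝔩 hP hmem hsq => hD0 l hl hlt 𝔩 hP hmem ?_⟩
  have hl0 : (l : ℤ) ≠ 0 := by exact_mod_cast hl.ne_zero
  have hprime : Prime (l : ℤ) := Nat.prime_iff_prime_int.1 hl
  have hmax : (Ideal.span {(l : ℤ)}).IsMaximal := by
    haveI : (Ideal.span {(l : ℤ)}).IsPrime := (Ideal.span_singleton_prime hl0).2 hprime
    refine Ideal.IsPrime.isMaximal inferInstance ?_
    rw [Ne, Ideal.span_singleton_eq_bot]
    exact hl0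
  have hdiv : 𝔩 ^ 2 ∣ (Ideal.span {(l : ℤ)}).map (algebraMap ℤ (𝓞 K)) := by
    rw [Ideal.dvd_iff_le, Ideal.map_span, Set.image_singleton, Ideal.span_singleton_le_iff_mem]
    simpa using hsq
  have h1 := pow_sub_one_dvd_differentIdeal (A := ℤ) (B := 𝓞 K) (p := Ideal.span {(l : ℤ)}) 𝔩 2
    (by rw [Ne, Ideal.span_singleton_eq_bot]; exact hl0) hdiv
  simpa [Ideal.dvd_iff_le] using h1

/-- A nonzero element lies outside all primes above large rational primes. -/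
theorem exists_notMem {K : Type} [Field K] [NumberField K] (a : 𝓞 K) (ha : a ≠ 0) :
    ∃ D0 : ℕ, ∀ l : ℕ, l.Prime → D0 < l → ∀ 𝔩 : Ideal (𝓞 K), 𝔩.IsPrime →
      ((l : ℕ) : 𝓞 K) ∈ 𝔩 → a ∉ 𝔩 := by
  obtain ⟨D0, hD0⟩ := exists_not_le (Ideal.span {a}) (by
    rw [Ne, Ideal.span_singleton_eq_bot]; exact ha)
  refine ⟨D0, fun l hl hlt 𝔩 hP hmem hin => hD0 l hl hlt 𝔩 hP hmem ?_⟩
  rw [Ideal.span_singleton_le_iff_mem]
  exact hin

end Pool.Agent.PTN
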