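import Pool.Agent.PTN.Defs
import Pool.Agent.PTN.LEV
import Pool.Agent.PTN.POS
import Pool.Agent.PTN.RNA
import Pool.Agent.PTN.IRR
import Pool.Agent.PTN.SCH
import Pool.Agent.PTN.UNR
import Pool.Agent.PTN.FLD
import Pool.Agent.PTN.CCJ
import Pool.Agent.PTN.VCH
import Pool.Agent.PTN.SEP
import Pool.Agent.PTN.DRG
import Pool.Agent.PTN.FRB
import Pool.Agent.PTN.PAT

set_option autoImplicit false

/-!
KLR: real root of odd multiplicity: Killed at some level.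
-/

namespace Pool.Agent.PTN

open NumberField Polynomial Filter

theorem poly_ratio (P : ℝ[X]) (hP : P ≠ 0) :
    Tendsto (fun j : ℕ => P.eval ((j + 2 : ℕ) : ℝ) / P.eval ((j + 1 : ℕ) : ℝ)) atTop (nhds 1) := by
  have hX : (X + C 1 : ℝ[X]).natDegree = 1 := natDegree_X_add_C 1
  have h1 : (P.comp (X + C 1)).natDegree = P.natDegree := by
    rw [natDegree_comp, hX, mul_one]
  have h2 : (P.comp (X + C 1)).leadingCoeff = P.leadingCoeff := by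
    rw [leadingCoeff_comp (by rw [hX]; exact one_ne_zero), leadingCoeff_X_add_C, one_pow, mul_one]
  have h0 : P.comp (X + C 1) ≠ 0 := by
    rw [← leadingCoeff_ne_zero, h2]
    exact leadingCoeff_ne_zero.2 hP
  have h3 : (P.comp (X + C 1)).degree = P.degree := by
    rw [degree_eq_natDegree h0, degree_eq_natDegree hP, h1]
  have h4 := Polynomial.div_tendsto_atTop_leadingCoeff_div_of_degree_eq (P.comp (X + C 1)) P h3
  rw [h2, div_self (leadingCoeff_ne_zero.2 hP)] at h4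
  have h5 : Tendsto (fun j : ℕ => ((j + 1 : ℕ) : ℝ)) atTop atTop :=
    tendsto_natCast_atTop_atTop.comp (tendsto_add_atTop_nat 1)
  refine (h4.comp h5).congr fun j => ?_
  simp only [Function.comp, eval_comp, eval_add, eval_X, eval_C]
  congr 2
  push_cast
  ring

theorem pow_notMem {R : Type*} [CommRing R] [IsDedekindDomain R] (𝔩 : Ideal R)
    (hp : 𝔩.IsPrime) (h0 : 𝔩 ≠ ⊥) (a : R) (ha : a ∈ 𝔩) (ha2 : a ∉ 𝔩 ^ 2) (m : ℕ) :
    a ^ m ∉ 𝔩 ^ (m + 1) := by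
  intro hmem
  have hP : Prime 𝔩 := Ideal.prime_of_isPrime h0 hp
  obtain ⟨J, hJ⟩ : 𝔩 ∣ Ideal.span {a} := Ideal.dvd_span_singleton.2 ha
  have hnd : ¬ 𝔩 ∣ J := by
    rintro ⟨J', hJ'⟩
    apply ha2
    rw [← Ideal.dvd_span_singleton, hJ, hJ', pow_two, ← mul_assoc]
    exact Dvd.intro _ rfl
  have h1 : 𝔩 ^ (m + 1) ∣ 𝔩 ^ m * J ^ m := by
    rw [← mul_pow, ← hJ, Ideal.span_singleton_pow, Ideal.dvd_span_singleton]
    exact hmem
  rw [pow_succ] at h1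
  have h2 : 𝔩 ∣ J ^ m := (mul_dvd_mul_iff_left (pow_ne_zero m h0)).1 h1
  exact hnd (hP.dvd_of_dvd_pow h2)

/-- The main kill: real root of odd multiplicity with constant signs to the left. -/
theorem killed_real {K : Type} [Field K] [NumberField K] (ψ : K →+* ℝ) (G : ℤ[X]) (hG : G.Monic)
    (hdeg : 2 ≤ G.natDegree) (e : ℕ) (he : 0 < e) (s : ℤ) (hs : s = 1 ∨ s = -1) (T : 𝓞 K)
    (hT : aeval T G = 0)
    (hnc : ∀ z : ℂ, aeval z G = 0 → aeval (z + (e : ℂ)) G ≠ 0)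
    (hq : 0 < ψ (gq G e s T : K)) (hpos : ∀ j, 0 < ψ (gC G e s T (j + 1) : K))
    (hodd : Odd ((G.map (Int.castRingHom ℝ)).rootMultiplicity (ψ (T : K)))) :
    ∃ M : ℕ, Killed (gq G e s T) (gC G e s T) M := by
  set q := gq G e s T with hqdef
  set C' := gC G e s T with hCdef
  have hC0 : C' 0 = 0 := gC_zero G e s T hT
  set c : ℕ → ℝ := fun j => ψ (C' j : K) with hc
  have hc0 : c 0 = 0 := by
    show ψ (C' 0 : K) = 0
    rw [hC0]
    simp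
  -- irrationality
  obtain ⟨r0, hr0⟩ := exists_irr ψ (gP G e s T) (by rw [gP_natDegree G e he s hs T]; exact hdeg) q
    C' (fun j => gP_eval G e s T j) hq hC0 hpos
  -- real nodes
  have hP0 : (gP G e s T).map ψ ≠ 0 := by
    rw [Ne, Polynomial.map_eq_zero]
    intro h
    have h1 := gP_natDegree G e he s hs T
    rw [h, natDegree_zero] at h1
    omega
  have hcψ : ∀ j : ℕ, c j = ((gP G e s T).map ψ).eval (j : ℝ) := by
    intro j
    show ψ (gC G e s T j : K) = _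
    rw [gP_eval, Polynomial.eval_map, ← map_natCast ψ j, Polynomial.eval₂_at_apply]
  have hlim : Tendsto (fun j : ℕ => c (j + 2) / c (j + 1)) atTop (nhds 1) := by
    refine (poly_ratio _ hP0).congr fun j => ?_
    rw [hcψ, hcψ]
  obtain ⟨I0, hI0, hreal⟩ := real_nodes (ψ (q : K)) c hq hc0 hpos hlim
  obtain ⟨I1, hI1⟩ : ∃ I1, I1 = max r0 I0 := ⟨_, rfl⟩
  have hI1a : r0 ≤ I1 := by rw [hI1]; exact le_max_left _ _
  have hI1b : I0 ≤ I1 := by rw [hI1]; exact le_max_right _ _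
  -- separation
  obtain ⟨D, hD, hsep⟩ := exists_sep K q C' I1
  -- the coprimality constant
  obtain ⟨U, V, d, hd0, hUV⟩ := coprime_shift G hG e hnc
  -- the cofactor at `T`
  set GK : (𝓞 K)[X] := G.map (Int.castRingHom (𝓞 K)) with hGK
  have hGK0 : GK ≠ 0 := (hG.map _).ne_zero
  obtain ⟨G1, hG1, hG1n⟩ := exists_eq_pow_rootMultiplicity_mul_and_not_dvd GK hGK0 T
  set μ := GK.rootMultiplicity T with hμ
  have hμodd : Odd μ := by
    have h1 : GK.rootMultiplicity T =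
        (GK.map (ψ.comp (algebraMap (𝓞 K) K))).rootMultiplicity
          ((ψ.comp (algebraMap (𝓞 K) K)) T) := by
      apply Polynomial.eq_rootMultiplicity_map
      exact ψ.injective.comp RingOfIntegers.coe_injective
    have h2 : GK.map (ψ.comp (algebraMap (𝓞 K) K)) = G.map (Int.castRingHom ℝ) := by
      rw [hGK, Polynomial.map_map]
      congr 1
      exact RingHom.ext_int _ _
    rw [hμ, h1, h2]
    exact hodd
  have hG1T : G1.eval T ≠ 0 := fun h => hG1n (dvd_iff_isRoot.2 h)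
  -- bad primes
  have hqne : q ≠ 0 := by
    intro h
    rw [h] at hq
    simp at hq
  have hCne : ∀ j, C' (j + 1) ≠ 0 := by
    intro j h
    have h1 := hpos j
    rw [h] at h1
    simp at h1
  obtain ⟨B1, hB1⟩ := exists_unram K
  obtain ⟨B2, hB2⟩ := exists_notMem (K := K) 2 two_ne_zero
  obtain ⟨B3, hB3⟩ := exists_notMem q hqne
  obtain ⟨B4, hB4⟩ := exists_notMem (K := K) ((D : ℕ) : 𝓞 K) (Nat.cast_ne_zero.2 hD.ne')
  obtain ⟨B5, hB5⟩ := exists_notMem (K := K) ((d : ℤ) : 𝓞 K) (Int.cast_ne_zero.2 hd0)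
  obtain ⟨B6, hB6⟩ := exists_notMem (G1.eval T) hG1T
  obtain ⟨B7, hB7⟩ := exists_notMem (K := K) ((e : ℕ) : 𝓞 K) (Nat.cast_ne_zero.2 he.ne')
  have hBj : ∀ j, ∃ B8 : ℕ, ∀ l : ℕ, l.Prime → B8 < l → ∀ 𝔩 : Ideal (𝓞 K), 𝔩.IsPrime →
      ((l : ℕ) : 𝓞 K) ∈ 𝔩 → C' (j + 1) ∉ 𝔩 := fun j => exists_notMem _ (hCne j)
  choose B8 hB8 using hBj
  set B9 := ∑ j ∈ Finset.range (I1 + 1), B8 j with hB9
  obtain ⟨l, hlge, hl⟩ := Nat.exists_infinite_primes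
    (B1 + B2 + B3 + B4 + B5 + B6 + B7 + B9 + I1 + 2)
  -- the prime above `l`
  have hmax : (Ideal.span {(l : ℤ)}).IsMaximal :=
    PrincipalIdealRing.isMaximal_of_irreducible (Nat.prime_iff_prime_int.1 hl).irreducible
  obtain ⟨𝔩, h𝔩m, hlo⟩ := Ideal.exists_maximal_ideal_liesOver_of_isIntegral (S := 𝓞 K)
    (Ideal.span {(l : ℤ)})
  have hlmem : ((l : ℕ) : 𝓞 K) ∈ 𝔩 := by
    have h1 : (l : ℤ) ∈ Ideal.span {(l : ℤ)} := Ideal.mem_span_singleton_self _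
    rw [hlo.over] at h1
    have h2 : algebraMap ℤ (𝓞 K) (l : ℤ) ∈ 𝔩 := h1
    rwa [map_natCast] at h2
  have h𝔩p : 𝔩.IsPrime := h𝔩m.isPrime
  have h𝔩0 : 𝔩 ≠ ⊥ := by
    rintro rfl
    rw [Ideal.mem_bot] at hlmem
    exact hl.ne_zero (by exact_mod_cast hlmem)
  have hl2 := hB1 l hl (by omega) 𝔩 h𝔩p hlmem
  have n2 := hB2 l hl (by omega) 𝔩 h𝔩p hlmem
  have n3 := hB3 l hl (by omega) 𝔩 h𝔩p hlmem
  have n4 := hB4 l hl (by omega) 𝔩 h𝔩p hlmem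
  have n5 := hB5 l hl (by omega) 𝔩 h𝔩p hlmem
  have n6 := hB6 l hl (by omega) 𝔩 h𝔩p hlmem
  have n7 := hB7 l hl (by omega) 𝔩 h𝔩p hlmem
  have n8 : ∀ j, j ≤ I1 → C' (j + 1) ∉ 𝔩 := by
    intro j hj
    have h1 : B8 j ≤ B9 := Finset.single_le_sum (f := B8) (fun _ _ => Nat.zero_le _)
      (Finset.mem_range.2 (by omega))
    exact hB8 j l hl (by omega) 𝔩 h𝔩p hlmem
  have hsu : IsUnit ((s : ℤ) : 𝓞 K) := by
    rcases hs with h | h
    · rw [h]; simp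
    · rw [h]; simp
  have hs𝔩 : ((s : ℤ) : 𝓞 K) ∉ 𝔩 := fun h => h𝔩p.ne_top (Ideal.eq_top_of_isUnit_mem _ h hsu)
  -- no consecutive hits
  have hCmem : ∀ j : ℕ, C' j ∈ 𝔩 ↔ aeval (T - (e : 𝓞 K) * (j : 𝓞 K)) G ∈ 𝔩 := by
    intro j
    show -((s : 𝓞 K) * aeval (T - (e : 𝓞 K) * (j : 𝓞 K)) G) ∈ 𝔩 ↔ _
    rw [𝔩.neg_mem_iff]
    constructor
    · intro h
      exact (h𝔩p.mem_or_mem h).resolve_left hs𝔩
    · intro h
      exact 𝔩.mul_mem_left _ h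
  have hnocons : ∀ j, C' j ∈ 𝔩 → C' (j + 1) ∉ 𝔩 := by
    intro j h1 h2
    rw [hCmem] at h1 h2
    apply n5
    have h3 := congrArg (fun F : ℤ[X] => aeval (T - (e : 𝓞 K) * ((j + 1 : ℕ) : 𝓞 K)) F) hUV
    simp only [map_add, map_mul, aeval_comp, aeval_X, aeval_C] at h3
    simp only [eq_intCast, Int.cast_natCast] at h3
    rw [← h3]
    refine 𝔩.add_mem (𝔩.mul_mem_left _ h2) (𝔩.mul_mem_left _ ?_)
    have h4 : T - (e : 𝓞 K) * ((j + 1 : ℕ) : 𝓞 K) + (e : 𝓞 K) = T - (e : 𝓞 K) * (j : 𝓞 K) := by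
      push_cast
      ring
    rw [h4]
    exact h1
  -- the hit
  have hCl : C' l = (-(s : 𝓞 K) * (-(e : 𝓞 K)) ^ μ * G1.eval (T - (e : 𝓞 K) * (l : 𝓞 K))) *
      (l : 𝓞 K) ^ μ := by
    show -((s : 𝓞 K) * aeval (T - (e : 𝓞 K) * (l : 𝓞 K)) G) = _
    have h1 : aeval (T - (e : 𝓞 K) * (l : 𝓞 K)) G = GK.eval (T - (e : 𝓞 K) * (l : 𝓞 K)) := by
      rw [hGK, Polynomial.eval_map, Polynomial.aeval_def]
      rfl
    rw [h1, hG1, eval_mul, eval_pow, eval_sub, eval_X, eval_C]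
    have h2 : T - (e : 𝓞 K) * (l : 𝓞 K) - T = -(e : 𝓞 K) * (l : 𝓞 K) := by ring
    rw [h2, mul_pow]
    ring
  have hunit : (-(s : 𝓞 K) * (-(e : 𝓞 K)) ^ μ * G1.eval (T - (e : 𝓞 K) * (l : 𝓞 K))) ∉ 𝔩 := by
    intro h
    rcases h𝔩p.mem_or_mem h with h1 | h1
    · rcases h𝔩p.mem_or_mem h1 with h2 | h2
      · exact hs𝔩 (𝔩.neg_mem_iff.1 h2)
      · exact n7 (𝔩.neg_mem_iff.1 (h𝔩p.mem_of_pow_mem _ h2))
    · apply n6
      have h2 : G1.eval (T - (e : 𝓞 K) * (l : 𝓞 K)) - G1.eval T ∈ 𝔩 := by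
        refine 𝔩.mem_of_dvd (Polynomial.sub_dvd_eval_sub _ _ G1) ?_
        have h3 : T - (e : 𝓞 K) * (l : 𝓞 K) - T = -(e : 𝓞 K) * (l : 𝓞 K) := by ring
        rw [h3]
        exact 𝔩.mul_mem_left _ hlmem
      have h3 := 𝔩.sub_mem h1 h2
      rwa [sub_sub_cancel] at h3
  have hhit : ∃ m : ℕ, Odd m ∧ C' l ∈ 𝔩 ^ m ∧ C' l ∉ 𝔩 ^ (m + 1) := by
    refine ⟨μ, hμodd, ?_, ?_⟩
    · rw [hCl]
      exact (𝔩 ^ μ).mul_mem_left _ (Ideal.pow_mem_pow hlmem μ)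
    · intro h
      rw [hCl] at h
      have h1 : (l : 𝓞 K) ^ μ ∈ 𝔩 ^ (μ + 1) := by
        exact (Ideal.IsPrime.mul_mem_pow 𝔩 h).resolve_left hunit
      exact pow_notMem 𝔩 h𝔩p h𝔩0 _ hlmem hl2 μ h1
  have hPat : PatK ψ q C' I1 l 𝔩 := by
    refine ⟨hq, hC0, hpos, by omega, ?_, ?_, ?_, h𝔩p, h𝔩0, n2, n3, ?_, ?_, hhit, by omega⟩
    · intro r hr z hz him
      exact (hreal r (by omega)).1 z hz him
    · intro r hr z hz
      exact (hreal r (by omega)).2 z hz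
    · intro r hr x
      exact hr0 r (by omega) x
    · intro j h1 h2
      obtain ⟨k, rfl⟩ : ∃ k, j = k + 1 := ⟨j - 1, by omega⟩
      exact n8 k (by omega)
    · intro j _ h
      exact hnocons j h
  obtain ⟨L, _, _, _, _, φ, hφ, hfull⟩ := exists_field K (Complex.ofRealHom.comp ψ) q C' (l + 1)
  have hφ' : ∀ x : K, φ (algebraMap K L x) = ((ψ x : ℝ) : ℂ) := fun x => hφ x
  obtain ⟨cc, hcc⟩ := exists_conj ψ L φ hφ'
  obtain ⟨v, hv1, hv2⟩ := exists_chain ψ q C' l hq hC0 hpos L φ hφ' hfull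
  have hGal : GalK ψ q C' l L φ cc v := ⟨hfull, hφ', hcc, hv1, hv2⟩
  obtain ⟨γ, hγ⟩ := exists_derangement hPat n4 hsep hGal
  exact ⟨l + 1, killed_of_derangement L hfull ⟨v (l + 1), hv1 (l + 1) le_rfl⟩ γ hγ⟩

end Pool.Agent.PTN
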