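import Pool.Agent.PTN.Defs
import Pool.Agent.PTN.PAT

set_option autoImplicit false

/-!
RED: from the integer sequences to chains modulo degree one primes: a polynomial tail numerator excludes `Killed`.
-/

namespace Pool.Agent.PTN

open NumberField Polynomial

/-- The data: `a n c n = c (n+1) + Q n`, `Q (n+1) = a n Q n`, `B c n = G (e n)` for `n ≥ n0`. -/
structure Tail (c Q a : ℕ → ℤ) (G : ℤ[X]) (e B n0 : ℕ) : Prop where
  reca : ∀ n, a n * c n = c (n + 1) + Q n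
  recQ : ∀ n, Q (n + 1) = a n * Q n
  hG : ∀ n, n0 ≤ n → (B : ℤ) * c n = G.eval ((e : ℤ) * n)

/-- The chain identity. -/
theorem tail_chain {c Q a : ℕ → ℤ} {G : ℤ[X]} {e B n0 : ℕ} (h : Tail c Q a G e B n0) (n : ℕ) :
    Q (n + 1) * c n = Q n * (c (n + 1) + Q n) := by
  rw [h.recQ, ← h.reca]
  ring

/-- A tail numerator which is the polynomial `G (e n) / B` excludes killing primes. -/
theorem not_killed {c Q a : ℕ → ℤ} {G : ℤ[X]} {e B n0 : ℕ} (h : Tail c Q a G e B n0)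
    (he : 0 < e) {K : Type} [Field K] [NumberField K] (T : 𝓞 K) (hT : aeval T G = 0) (s : ℤ)
    (M : ℕ) : ¬ Killed (gq G e s T) (gC G e s T) M := by
  intro hk
  obtain ⟨p, hp, hpe, 𝔭, h𝔭, hp𝔭, hint, hno⟩ := hk e
  apply hno
  obtain ⟨k, hk⟩ := hint T
  have hcop : IsCoprime (e : ℤ) (p : ℤ) := by
    rw [Nat.isCoprime_iff_coprime]
    exact ((Nat.Prime.coprime_iff_not_dvd hp).2
      (fun hd => absurd (Nat.le_of_dvd he hd) (not_le.2 hpe))).symm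
  obtain ⟨u, w, huw⟩ := hcop
  -- `n1 = u k`, `e n1 = k - w p k`
  obtain ⟨n, hn, hnk⟩ : ∃ n : ℕ, n0 + M + 1 ≤ n ∧ (p : ℤ) ∣ (e : ℤ) * n - k := by
    have hpz : (0 : ℤ) < p := by exact_mod_cast hp.pos
    refine ⟨(u * k + p * (|u * k| + (n0 + M + 1 : ℕ))).toNat, ?_, ?_⟩
    · have h1 : ((n0 + M + 1 : ℕ) : ℤ) ≤ u * k + p * (|u * k| + (n0 + M + 1 : ℕ)) := by
        have h2 := neg_abs_le (u * k)
        have h3 : (0 : ℤ) ≤ |u * k| := abs_nonneg _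
        have h4 : (0 : ℤ) ≤ ((n0 + M + 1 : ℕ) : ℤ) := Int.natCast_nonneg _
        nlinarith
      omega
    · have h1 : (0 : ℤ) ≤ u * k + p * (|u * k| + (n0 + M + 1 : ℕ)) := by
        have h2 := neg_abs_le (u * k)
        have h3 : (0 : ℤ) ≤ |u * k| := abs_nonneg _
        have h4 : (0 : ℤ) ≤ ((n0 + M + 1 : ℕ) : ℤ) := Int.natCast_nonneg _
        nlinarith
      rw [Int.toNat_of_nonneg h1]
      refine ⟨-w * k + e * (|u * k| + (n0 + M + 1 : ℕ)), ?_⟩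
      linear_combination k * huw
  have hTn : T - (e : 𝓞 K) * (n : 𝓞 K) ∈ 𝔭 := by
    obtain ⟨t, ht⟩ := hnk
    have h1 : T - (e : 𝓞 K) * (n : 𝓞 K) = (T - (k : 𝓞 K)) - (p : 𝓞 K) * (t : 𝓞 K) := by
      have h2 := congrArg (Int.cast : ℤ → 𝓞 K) ht
      push_cast at h2
      linear_combination -h2
    rw [h1]
    exact 𝔭.sub_mem hk (𝔭.mul_mem_right _ hp𝔭)
  -- values of `G` modulo `𝔭`
  have hval : ∀ (y : ℤ), aeval (T + (y : 𝓞 K)) G -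
      ((G.eval ((e : ℤ) * n + y) : ℤ) : 𝓞 K) ∈ 𝔭 := by
    intro y
    have h1 : ((G.eval ((e : ℤ) * n + y) : ℤ) : 𝓞 K) =
        (G.map (algebraMap ℤ (𝓞 K))).eval ((((e : ℤ) * n + y : ℤ)) : 𝓞 K) := by
      rw [Polynomial.eval_intCast_map]
      simp
    rw [h1, ← Polynomial.eval_map_algebraMap]
    refine 𝔭.mem_of_dvd (Polynomial.sub_dvd_eval_sub _ _ _) ?_
    have h2 : T + (y : 𝓞 K) - (((e : ℤ) * n + y : ℤ) : 𝓞 K) = T - (e : 𝓞 K) * (n : 𝓞 K) := by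
      push_cast
      ring
    rw [h2]
    exact hTn
  -- `q` and `C j` modulo `𝔭`
  have hqv : gq G e s T - (((s * (B * c (n + 1)) : ℤ)) : 𝓞 K) ∈ 𝔭 := by
    have h1 := hval e
    have h2 : (e : ℤ) * n + e = (e : ℤ) * ((n + 1 : ℕ) : ℤ) := by
      push_cast
      ring
    rw [h2, ← h.hG (n + 1) (by omega)] at h1
    have h3 : gq G e s T - (((s * (B * c (n + 1)) : ℤ)) : 𝓞 K) =
        (s : 𝓞 K) * (aeval (T + ((e : ℤ) : 𝓞 K)) G - (((B : ℤ) * c (n + 1) : ℤ) : 𝓞 K)) := by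
      unfold gq
      push_cast
      ring
    rw [h3]
    exact 𝔭.mul_mem_left _ h1
  have hCv : ∀ j, j ≤ n → n0 ≤ n - j →
      gC G e s T j + (((s * (B * c (n - j)) : ℤ)) : 𝓞 K) ∈ 𝔭 := by
    intro j hj hj0
    have h1 := hval (-((e : ℤ) * j))
    have h2 : (e : ℤ) * n + -((e : ℤ) * j) = (e : ℤ) * ((n - j : ℕ) : ℤ) := by
      rw [Nat.cast_sub hj]
      ring
    rw [h2, ← h.hG (n - j) hj0] at h1
    have h3 : gC G e s T j + (((s * (B * c (n - j)) : ℤ)) : 𝓞 K) =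
        -(s : 𝓞 K) * (aeval (T + ((-((e : ℤ) * j) : ℤ) : 𝓞 K)) G -
          (((B : ℤ) * c (n - j) : ℤ) : 𝓞 K)) := by
      unfold gC
      have h4 : T - (e : 𝓞 K) * (j : 𝓞 K) = T + ((-((e : ℤ) * j) : ℤ) : 𝓞 K) := by
        push_cast
        ring
      rw [h4]
      push_cast
      ring
    rw [h3]
    exact 𝔭.mul_mem_left _ h1
  have hB0 : (((B : ℤ) * c n : ℤ) : 𝓞 K) ∈ 𝔭 := by
    have h1 := hval 0
    rw [add_zero, ← h.hG n (by omega), Int.cast_zero, add_zero, hT, zero_sub] at h1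
    exact 𝔭.neg_mem_iff.1 h1
  refine ⟨fun j => -(s * (B * Q (n - j))), ?_, ?_⟩
  · show (((-(s * (B * Q (n - 0))) : ℤ)) : 𝓞 K) - gq G e s T ∈ 𝔭
    rw [Nat.sub_zero]
    have h1 : (((-(s * (B * Q n)) : ℤ)) : 𝓞 K) - gq G e s T =
        -(gq G e s T - (((s * (B * c (n + 1)) : ℤ)) : 𝓞 K)) -
        (s : 𝓞 K) * ((a n : ℤ) : 𝓞 K) * (((B : ℤ) * c n : ℤ) : 𝓞 K) := by
      have h2 := congrArg (Int.cast : ℤ → 𝓞 K) (h.reca n)
      push_cast at h2 ⊢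
      linear_combination (s : 𝓞 K) * (B : 𝓞 K) * h2
    rw [h1]
    exact 𝔭.sub_mem (𝔭.neg_mem hqv) (𝔭.mul_mem_left _ hB0)
  · intro j hj
    show (((-(s * (B * Q (n - (j + 1)))) : ℤ)) : 𝓞 K) *
      ((((-(s * (B * Q (n - (j + 1)))) : ℤ)) : 𝓞 K) + gC G e s T j) -
      gC G e s T (j + 1) * (((-(s * (B * Q (n - j))) : ℤ)) : 𝓞 K) ∈ 𝔭
    have h1 := hCv j (by omega) (by omega)
    have h2 := hCv (j + 1) (by omega) (by omega)
    obtain ⟨r, hr⟩ : ∃ r, r = n - (j + 1) := ⟨_, rfl⟩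
    have hr1 : n - j = r + 1 := by omega
    rw [hr1] at h1 ⊢
    rw [← hr] at h2 ⊢
    have h3 := congrArg (Int.cast : ℤ → 𝓞 K) (tail_chain h r)
    have h4 : (((-(s * (B * Q r)) : ℤ)) : 𝓞 K) *
      ((((-(s * (B * Q r)) : ℤ)) : 𝓞 K) + gC G e s T j) -
      gC G e s T (j + 1) * (((-(s * (B * Q (r + 1))) : ℤ)) : 𝓞 K) =
      (((-(s * (B * Q r)) : ℤ)) : 𝓞 K) * (gC G e s T j + (((s * (B * c (r + 1)) : ℤ)) : 𝓞 K)) +
      (((s * (B * Q (r + 1)) : ℤ)) : 𝓞 K) *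
        (gC G e s T (j + 1) + (((s * (B * c r) : ℤ)) : 𝓞 K)) := by
      push_cast at h3 ⊢
      linear_combination -(s : 𝓞 K) ^ 2 * (B : 𝓞 K) ^ 2 * h3
    rw [h4]
    exact 𝔭.add_mem (𝔭.mul_mem_left _ h1) (𝔭.mul_mem_left _ h2)

end Pool.Agent.PTN
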