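import Pool.Agent.PTN.Defs
import Pool.Agent.PTN.RED
import Pool.Agent.PTN.SCH

set_option autoImplicit false

/-!
NCM: a polynomial tail numerator has no two complex roots at distance `e` (consecutive roots).
-/

namespace Pool.Agent.PTN

open NumberField Polynomial

theorem no_consecutive {c Q a : ℕ → ℤ} {G : ℤ[X]} {e B n0 : ℕ} (h : Tail c Q a G e B n0)
    (hG : G.Monic) (hdeg : 1 ≤ G.natDegree) (he : 0 < e) (hB : 0 < B) (z : ℂ)
    (hz : aeval z G = 0) : aeval (z + (e : ℂ)) G ≠ 0 := by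
  intro hz'
  obtain ⟨p, hp, hpX, n1, h1, h2⟩ := common_root_prime G hG e he z hz hz' (B + e + G.natDegree)
  have : Fact p.Prime := ⟨hp⟩
  have hpz : (0 : ℤ) < p := by exact_mod_cast hp.pos
  have hpe : ¬ (p : ℤ) ∣ (e : ℤ) := by
    rw [Int.natCast_dvd_natCast]
    exact fun hd => absurd (Nat.le_of_dvd he hd) (by omega)
  have hpB : ¬ (p : ℤ) ∣ (B : ℤ) := by
    rw [Int.natCast_dvd_natCast]
    exact fun hd => absurd (Nat.le_of_dvd hB hd) (by omega)
  have hpp : Prime (p : ℤ) := Nat.prime_iff_prime_int.1 hp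
  -- a large representative
  obtain ⟨n, hn, t, hnt⟩ : ∃ n : ℕ, n0 ≤ n ∧ ∃ t : ℤ, (n : ℤ) = n1 + p * t := by
    have h3 : (n0 : ℤ) ≤ n1 + p * (|n1| + n0) := by
      have h4 := neg_abs_le n1
      have h5 : (0 : ℤ) ≤ |n1| := abs_nonneg _
      have h6 : (0 : ℤ) ≤ (n0 : ℤ) := Int.natCast_nonneg _
      nlinarith
    refine ⟨(n1 + p * (|n1| + n0)).toNat, by omega, |n1| + n0, ?_⟩
    rw [Int.toNat_of_nonneg (le_trans (Int.natCast_nonneg _) h3)]
  have hdv : ∀ x y : ℤ, (p : ℤ) ∣ x - y → (p : ℤ) ∣ G.eval x → (p : ℤ) ∣ G.eval y := by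
    intro x y hxy hx
    have h3 : (p : ℤ) ∣ G.eval x - G.eval y := hxy.trans (Polynomial.sub_dvd_eval_sub x y G)
    exact (dvd_sub_right hx).1 h3
  have hc1 : (p : ℤ) ∣ c n := by
    have h3 : (p : ℤ) ∣ G.eval ((e : ℤ) * n) := by
      refine hdv _ _ ?_ h1
      rw [hnt]
      exact ⟨-(e * t), by ring⟩
    rw [← h.hG n hn] at h3
    exact (hpp.dvd_or_dvd h3).resolve_left hpB
  have hc2 : (p : ℤ) ∣ c (n + 1) := by
    have h3 : (p : ℤ) ∣ G.eval ((e : ℤ) * ((n + 1 : ℕ) : ℤ)) := by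
      refine hdv _ _ ?_ h2
      push_cast
      rw [hnt]
      exact ⟨-(e * t), by ring⟩
    rw [← h.hG (n + 1) (by omega)] at h3
    exact (hpp.dvd_or_dvd h3).resolve_left hpB
  have hQ : (p : ℤ) ∣ Q n := by
    have h3 := h.reca n
    have h4 : Q n = a n * c n - c (n + 1) := by linarith
    rw [h4]
    exact dvd_sub (Dvd.dvd.mul_left hc1 _) hc2
  have hall : ∀ k, (p : ℤ) ∣ c (n + k) ∧ (p : ℤ) ∣ Q (n + k) := by
    intro k
    induction k with
    | zero => exact ⟨hc1, hQ⟩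
    | succ k ih =>
      obtain ⟨i1, i2⟩ := ih
      have h3 := h.reca (n + k)
      have h4 : c (n + k + 1) = a (n + k) * c (n + k) - Q (n + k) := by linarith
      refine ⟨?_, ?_⟩
      · show (p : ℤ) ∣ c (n + k + 1)
        rw [h4]
        exact dvd_sub (Dvd.dvd.mul_left i1 _) i2
      · show (p : ℤ) ∣ Q (n + k + 1)
        rw [h.recQ]
        exact Dvd.dvd.mul_left i2 _
  -- `G (e X)` vanishes identically modulo `p`
  set g : (ZMod p)[X] := (G.map (Int.castRingHom (ZMod p))).comp (C (e : ZMod p) * X) with hg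
  have he0 : (e : ZMod p) ≠ 0 := by
    intro h3
    rw [ZMod.natCast_eq_zero_iff] at h3
    exact hpe (Int.natCast_dvd_natCast.2 h3)
  have hgdeg : g.natDegree = G.natDegree := by
    rw [hg, natDegree_comp, natDegree_C_mul he0, natDegree_X, mul_one]
    exact (hG.natDegree_map _)
  have hg0 : g = 0 := by
    apply Polynomial.eq_zero_of_natDegree_lt_card_of_eval_eq_zero' g Finset.univ
    · intro x _
      -- `x` is the class of a large integer
      obtain ⟨m, hm, hmx⟩ : ∃ m : ℕ, n ≤ m ∧ (m : ZMod p) = x := by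
        refine ⟨x.val + p * n, ?_, ?_⟩
        · have h3 : n ≤ p * n := Nat.le_mul_of_pos_left n hp.pos
          omega
        · push_cast
          rw [ZMod.natCast_zmod_val, CharP.cast_eq_zero, zero_mul, add_zero]
      obtain ⟨k, rfl⟩ : ∃ k, m = n + k := ⟨m - n, by omega⟩
      have h3 : (p : ℤ) ∣ G.eval ((e : ℤ) * ((n + k : ℕ) : ℤ)) := by
        rw [← h.hG (n + k) (by omega)]
        exact Dvd.dvd.mul_left (hall k).1 _
      rw [hg, eval_comp, eval_mul, eval_C, eval_X, ← hmx]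
      have h4 : (e : ZMod p) * ((n + k : ℕ) : ZMod p) =
          (((e : ℤ) * ((n + k : ℕ) : ℤ) : ℤ) : ZMod p) := by
        push_cast
        ring
      rw [h4, Polynomial.eval_intCast_map]
      simpa using (ZMod.intCast_zmod_eq_zero_iff_dvd _ p).2 h3
    · rw [Finset.card_univ, ZMod.card, hgdeg]
      omega
  rw [hg0, natDegree_zero] at hgdeg
  omega

end Pool.Agent.PTN
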