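import Pool.Agent.PTN.Defs

set_option autoImplicit false

/-!
NRM: F = B0 f in ℤ[X] (clear denominators, B0 > 0), e = leading coefficient of F > 0, D = degree. e^(D-1) F(x) = G(e x) with
G = X^D + sum_(i<D) F_i e^(D-1-i) X^i in ℤ[X] monic (Mathlib: Polynomial.integralNormalization of F and its lemmas, or define G by hand).
B = B0 e^(D-1).
-/

namespace Pool.Agent.PTN

open Polynomial

theorem nrm_exists_int (f : ℚ[X]) :
    ∃ (F : ℤ[X]) (B : ℕ), 0 < B ∧ F.map (Int.castRingHom ℚ) = C (B : ℚ) * f := by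
  obtain ⟨b, hbm, hb⟩ := IsLocalization.integerNormalization_spec (nonZeroDivisors ℤ) f
  have hb0 : (b : ℤ) ≠ 0 := nonZeroDivisors.ne_zero hbm
  have hb1 : (IsLocalization.integerNormalization (nonZeroDivisors ℤ) f).map
      (Int.castRingHom ℚ) = C ((b : ℤ) : ℚ) * f := by
    have h1 : (algebraMap ℤ ℚ) = Int.castRingHom ℚ := rfl
    rw [← h1, hb]
    ext n
    simp
  rcases lt_or_gt_of_ne hb0 with h | h
  · refine ⟨-(IsLocalization.integerNormalization (nonZeroDivisors ℤ) f), (-(b : ℤ)).toNat,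
      by omega, ?_⟩
    rw [Polynomial.map_neg, hb1]
    have h2 : (((-(b : ℤ)).toNat : ℕ) : ℚ) = -((b : ℤ) : ℚ) := by
      have h3 : (((-(b : ℤ)).toNat : ℕ) : ℤ) = -(b : ℤ) := Int.toNat_of_nonneg (by omega)
      exact_mod_cast congrArg (Int.cast : ℤ → ℚ) h3
    rw [h2, C_neg, neg_mul]
  · refine ⟨IsLocalization.integerNormalization (nonZeroDivisors ℤ) f, (b : ℤ).toNat,
      by omega, ?_⟩
    rw [hb1]
    have h2 : (((b : ℤ).toNat : ℕ) : ℚ) = ((b : ℤ) : ℚ) := by
      have h3 : (((b : ℤ).toNat : ℕ) : ℤ) = (b : ℤ) := Int.toNat_of_nonneg (by omega)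
      exact_mod_cast congrArg (Int.cast : ℤ → ℚ) h3
    rw [h2]

/-- Normalisation of a rational polynomial: `B f(x) = G(e x)` with `G` integral and monic. -/
theorem exists_normal (f : ℚ[X]) (hf : 1 ≤ f.natDegree) (hlc : 0 < f.leadingCoeff) :
    ∃ (G : ℤ[X]) (e B : ℕ), G.Monic ∧ G.natDegree = f.natDegree ∧ 0 < e ∧ 0 < B ∧
      C (B : ℚ) * f = (G.map (Int.castRingHom ℚ)).comp (C (e : ℚ) * X) := by
  obtain ⟨F, B, hB, hF⟩ := nrm_exists_int f
  have hinj : Function.Injective (Int.castRingHom ℚ) := Int.cast_injective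
  have hB0 : (B : ℚ) ≠ 0 := by
    have : B ≠ 0 := by omega
    exact_mod_cast this
  have hdeg : F.natDegree = f.natDegree := by
    rw [← natDegree_map_eq_of_injective hinj F, hF, natDegree_C_mul hB0]
  have hlc' : ((F.leadingCoeff : ℤ) : ℚ) = (B : ℚ) * f.leadingCoeff := by
    have h1 : (F.map (Int.castRingHom ℚ)).coeff F.natDegree =
        (C (B : ℚ) * f).coeff F.natDegree := by rw [hF]
    rw [coeff_map, coeff_C_mul, hdeg] at h1
    rw [leadingCoeff, hdeg]
    exact h1
  have hpos : 0 < F.leadingCoeff := by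
    have h1 : (0 : ℚ) < ((F.leadingCoeff : ℤ) : ℚ) := by
      rw [hlc']
      have : (0 : ℚ) < (B : ℚ) := by exact_mod_cast hB
      positivity
    exact_mod_cast h1
  have hF0 : F ≠ 0 := by
    intro h
    rw [h] at hpos
    simp at hpos
  have he : ((F.leadingCoeff.toNat : ℕ) : ℤ) = F.leadingCoeff := Int.toNat_of_nonneg hpos.le
  have heq : ((F.leadingCoeff.toNat : ℕ) : ℚ) = ((F.leadingCoeff : ℤ) : ℚ) := by
    exact_mod_cast congrArg (Int.cast : ℤ → ℚ) he
  refine ⟨integralNormalization F, F.leadingCoeff.toNat,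
    B * F.leadingCoeff.toNat ^ (F.natDegree - 1), monic_integralNormalization hF0, ?_,
    by omega, ?_, ?_⟩
  · rw [natDegree_integralNormalization, hdeg]
  · have : 0 < F.leadingCoeff.toNat := by omega
    positivity
  · ext n
    rw [coeff_C_mul, comp_C_mul_X_coeff, coeff_map]
    have h1 : (B : ℚ) * f.coeff n = ((F.coeff n : ℤ) : ℚ) := by
      have h2 : (F.map (Int.castRingHom ℚ)).coeff n = (C (B : ℚ) * f).coeff n := by rw [hF]
      rw [coeff_map, coeff_C_mul] at h2
      exact h2.symm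
    have h3 : ((B * F.leadingCoeff.toNat ^ (F.natDegree - 1) : ℕ) : ℚ) * f.coeff n =
        ((F.coeff n : ℤ) : ℚ) * ((F.leadingCoeff : ℤ) : ℚ) ^ (F.natDegree - 1) := by
      push_cast
      rw [heq, ← h1]
      ring
    rw [h3, heq]
    by_cases hn : n = F.natDegree
    · rw [hn, integralNormalization_coeff_natDegree hF0]
      have h4 : F.natDegree = (F.natDegree - 1) + 1 := by omega
      have h5 : F.coeff F.natDegree = F.leadingCoeff := rfl
      rw [h5]
      simp only [eq_intCast, Int.cast_one, one_mul]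
      conv_rhs => rw [h4, pow_succ]
      ring
    · rw [integralNormalization_coeff_ne_natDegree hn]
      rcases lt_or_gt_of_ne hn with h | h
      · have h4 : F.natDegree - 1 = (F.natDegree - 1 - n) + n := by omega
        simp only [eq_intCast, Int.cast_mul, Int.cast_pow]
        conv_lhs => rw [h4, pow_add]
        ring
      · rw [coeff_eq_zero_of_natDegree_lt h]
        simp

end Pool.Agent.PTN
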