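import Pool.Agent.PTN.Defs
import Pool.Agent.PTN.PLY
import Pool.Agent.PTN.NRM
import Pool.Agent.PTN.CHS
import Pool.Agent.PTN.SCH
import Pool.Agent.PTN.KLM
import Pool.Agent.PTN.KLR
import Pool.Agent.PTN.RED
import Pool.Agent.PTN.NCM
import Pool.Agent.SYL.REB

set_option autoImplicit false

/-!
FIN: main theorem.
-/

namespace Pool.Agent.PTN

open NumberField Polynomial Filter

/-- Square condition at every complex root. -/
theorem tail_square {c Q a : ℕ → ℤ} {G : ℤ[X]} {e B n0 : ℕ} (h : Tail c Q a G e B n0)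
    (hG : G.Monic) (he : 0 < e) (t : ℂ) (ht : aeval ((e : ℂ) * t) G = 0) :
    ∃ y ∈ IntermediateField.adjoin ℚ {t},
      y ^ 2 = -(aeval ((e : ℂ) * t - e) G * aeval ((e : ℂ) * t + e) G) := by
  have hTint : IsIntegral ℤ ((e : ℂ) * t) := ⟨G, hG, by rw [← aeval_def]; exact ht⟩
  have he0 : (e : ℂ) ≠ 0 := Nat.cast_ne_zero.2 he.ne'
  have htint : IsIntegral ℚ t := by
    have h1 : IsIntegral ℚ ((e : ℂ) * t) := hTint.tower_top
    have h2 : IsIntegral ℚ ((e : ℂ)⁻¹) := by
      have h3 : ((e : ℂ)⁻¹) = algebraMap ℚ ℂ ((e : ℚ)⁻¹) := by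
        rw [map_inv₀, map_natCast]
      rw [h3]
      exact isIntegral_algebraMap
    have h3 : t = (e : ℂ)⁻¹ * ((e : ℂ) * t) := by
      field_simp
    rw [h3]
    exact h2.mul h1
  have hfd : FiniteDimensional ℚ (IntermediateField.adjoin ℚ {t}) :=
    IntermediateField.adjoin.finiteDimensional htint
  have hnf : NumberField (IntermediateField.adjoin ℚ {t}) := NumberField.mk
  let K := IntermediateField.adjoin ℚ {t}
  let φ : K →+* ℂ := algebraMap K ℂ
  have htK : t ∈ K := IntermediateField.mem_adjoin_simple_self ℚ t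
  have hTK : (e : ℂ) * t ∈ K := K.mul_mem (natCast_mem K e) htK
  have hTint' : IsIntegral ℤ (⟨(e : ℂ) * t, hTK⟩ : K) := by
    obtain ⟨g, hg, hg0⟩ := hTint
    refine ⟨g, hg, ?_⟩
    apply φ.injective
    rw [map_zero, Polynomial.hom_eval₂]
    have h1 : φ.comp (algebraMap ℤ K) = algebraMap ℤ ℂ := RingHom.ext_int _ _
    rw [h1]
    exact hg0
  let T : 𝓞 K := ⟨⟨(e : ℂ) * t, hTK⟩, hTint'⟩
  have hφT : φ (T : K) = (e : ℂ) * t := rfl
  have hTG : aeval T G = 0 := by
    apply RingOfIntegers.coe_injective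
    apply φ.injective
    have h1 := map_aeval_int φ T G
    rw [hφT, ht] at h1
    rw [← RingOfIntegers.coe_eq_algebraMap]
    rw [h1]
    simp
  by_contra hcon
  have hk : Killed (gq G e 1 T) (gC G e 1 T) 1 := by
    apply killed_one _ _ (gC_zero G e 1 T hTG)
    rintro ⟨y, hy⟩
    apply hcon
    refine ⟨(y : ℂ), y.2, ?_⟩
    have h1 := congrArg φ hy
    rw [map_pow, map_mul, map_gC, map_gq, hφT] at h1
    have h2 : φ y = (y : ℂ) := rfl
    rw [h2] at h1
    rw [h1]
    push_cast
    ring_nf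
  exact not_killed h he T hTG 1 1 hk

/-- No real root. -/
theorem tail_no_real {c Q a : ℕ → ℤ} {G : ℤ[X]} {e B n0 : ℕ} (h : Tail c Q a G e B n0)
    (hG : G.Monic) (hdeg : 2 ≤ G.natDegree) (he : 0 < e) (hB : 0 < B) (x : ℝ) :
    aeval x G ≠ 0 := by
  intro hx
  have hnc : ∀ z : ℂ, aeval z G = 0 → aeval (z + (e : ℂ)) G ≠ 0 := fun z hz =>
    no_consecutive h hG (by omega) he hB z hz
  set GR : ℝ[X] := G.map (Int.castRingHom ℝ) with hGR
  have hev : ∀ y : ℝ, GR.eval y = aeval y G := by
    intro y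
    rw [hGR, eval_map, aeval_def]
    rfl
  have hGR0 : GR ≠ 0 := (hG.map _).ne_zero
  have hofR : ∀ y : ℝ, aeval (y : ℂ) G = ((aeval y G : ℝ) : ℂ) := by
    intro y
    exact Polynomial.aeval_algHom_apply (Complex.ofRealHom.toIntAlgHom) y G
  have hncR : ∀ y : ℝ, GR.eval y = 0 → GR.eval (y + e) ≠ 0 := by
    intro y hy hy'
    rw [hev] at hy hy'
    have h1 := hnc (y : ℂ) (by rw [hofR, hy, Complex.ofReal_zero])
    apply h1
    have h2 : (y : ℂ) + (e : ℂ) = ((y + e : ℝ) : ℂ) := by push_cast; rfl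
    rw [h2, hofR, hy', Complex.ofReal_zero]
  obtain ⟨T0, s, hs, hT0, hsgn, hcase⟩ := exists_root_choice GR hGR0 (e : ℝ)
    (by exact_mod_cast he) ⟨x, by rw [hev]; exact hx⟩ hncR
  -- the base field
  have hT0int : IsIntegral ℤ T0 := ⟨G, hG, by rw [← aeval_def, ← hev]; exact hT0⟩
  have hfd : FiniteDimensional ℚ (IntermediateField.adjoin ℚ {T0}) :=
    IntermediateField.adjoin.finiteDimensional hT0int.tower_top
  have hnf : NumberField (IntermediateField.adjoin ℚ {T0}) := NumberField.mk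
  let K := IntermediateField.adjoin ℚ {T0}
  let ψ : K →+* ℝ := algebraMap K ℝ
  have hTK : T0 ∈ K := IntermediateField.mem_adjoin_simple_self ℚ T0
  have hTint' : IsIntegral ℤ (⟨T0, hTK⟩ : K) := by
    obtain ⟨g, hg, hg0⟩ := hT0int
    refine ⟨g, hg, ?_⟩
    apply ψ.injective
    rw [map_zero, Polynomial.hom_eval₂]
    have h1 : ψ.comp (algebraMap ℤ K) = algebraMap ℤ ℝ := RingHom.ext_int _ _
    rw [h1]
    exact hg0
  let T : 𝓞 K := ⟨⟨T0, hTK⟩, hTint'⟩
  have hψT : ψ (T : K) = T0 := rfl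
  have hTG : aeval T G = 0 := by
    apply RingOfIntegers.coe_injective
    apply ψ.injective
    have h1 := map_aeval_int ψ T G
    rw [hψT, ← hev, hT0] at h1
    rw [← RingOfIntegers.coe_eq_algebraMap]
    rw [h1]
    simp
  have hsR : ((s : ℤ) : ℝ) = 1 ∨ ((s : ℤ) : ℝ) = -1 := by
    rcases hs with h1 | h1 <;> rw [h1] <;> simp
  rcases hcase with hcase | hcase
  · -- level one
    have hk : Killed (gq G e 1 T) (gC G e 1 T) 1 := by
      apply killed_one _ _ (gC_zero G e 1 T hTG)
      rintro ⟨y, hy⟩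
      have h1 := congrArg ψ hy
      rw [map_pow, map_mul, map_gC, map_gq, hψT, ← hev, ← hev] at h1
      have h2 : (ψ y) ^ 2 = -(GR.eval (T0 - e) * GR.eval (T0 + e)) := by
        rw [h1]
        push_cast
        ring_nf
      have h3 : 0 ≤ (ψ y) ^ 2 := sq_nonneg _
      linarith
    exact not_killed h he T hTG 1 1 hk
  · -- odd multiplicity
    by_cases hA : 0 < GR.eval (T0 - e) * GR.eval (T0 + e)
    · have hk : Killed (gq G e 1 T) (gC G e 1 T) 1 := by
        apply killed_one _ _ (gC_zero G e 1 T hTG)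
        rintro ⟨y, hy⟩
        have h1 := congrArg ψ hy
        rw [map_pow, map_mul, map_gC, map_gq, hψT, ← hev, ← hev] at h1
        have h2 : (ψ y) ^ 2 = -(GR.eval (T0 - e) * GR.eval (T0 + e)) := by
          rw [h1]
          push_cast
          ring_nf
        have h3 : 0 ≤ (ψ y) ^ 2 := sq_nonneg _
        linarith
      exact not_killed h he T hTG 1 1 hk
    · have hs0 := hsgn 0
      rw [Nat.cast_zero, zero_add, mul_one] at hs0
      have hne := hncR T0 hT0
      have hq : 0 < ψ (gq G e s T : K) := by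
        rw [map_gq, hψT, ← hev]
        have hA' : GR.eval (T0 - e) * GR.eval (T0 + e) ≤ 0 := not_lt.1 hA
        rcases hsR with h1 | h1
        · rw [h1] at hs0 ⊢
          rw [one_mul]
          have h2 : GR.eval (T0 - e) < 0 := by linarith
          rcases lt_or_gt_of_ne hne with h3 | h3
          · have := mul_pos_of_neg_of_neg h2 h3
            linarith
          · exact h3
        · rw [h1] at hs0 ⊢
          have h2 : 0 < GR.eval (T0 - e) := by linarith
          rcases lt_or_gt_of_ne hne with h3 | h3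
          · linarith
          · have := mul_pos h2 h3
            linarith
      have hpos : ∀ j, 0 < ψ (gC G e s T (j + 1) : K) := by
        intro j
        rw [map_gC, hψT, ← hev]
        have h1 := hsgn j
        push_cast
        linarith
      obtain ⟨M, hM⟩ := killed_real ψ G hG hdeg e he s hs T hTG hnc hq hpos (by
        rw [hψT]
        exact hcase)
      exact not_killed h he T hTG s M hM

end Pool.Agent.PTN
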