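import Pool.Agent.PTN.Defs
import Pool.Agent.PTN.FIN

set_option autoImplicit false

/-!
FIM: main theorem, from the sequence to the polynomial.
-/

namespace Pool.Agent.PTN

open NumberField Polynomial Filter Pool.Agent.SYL

/-- `c n / a n → 0`. -/
theorem c_over_a (a c : ℕ → ℕ) (ha : StrictMono a) (h0 : 0 < a 0)
    (hpos : ∀ n, 0 < c n)
    (hlim : Tendsto (fun n : ℕ => (a (n + 1) : ℝ) / (a n : ℝ) ^ 2) atTop (nhds 1))
    (hratio : Tendsto (fun n : ℕ => (c (n + 1) : ℝ) / c n) atTop (nhds 1)) :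
    Tendsto (fun n : ℕ => (c n : ℝ) / a n) atTop (nhds 0) := by
  have hapos : ∀ n, 0 < a n := fun n => lt_of_lt_of_le h0 (ha.monotone (Nat.zero_le n))
  obtain ⟨n1, hn1⟩ := eventually_atTop.1 (c_small_aux a c ha h0 hpos hlim hratio)
  have hstep : ∀ k, (c (n1 + k) : ℝ) / a (n1 + k) ≤ ((c n1 : ℝ) / a n1) * (1 / 2) ^ k := by
    intro k
    induction k with
    | zero => simp
    | succ k ih =>
      have h1 := (hn1 (n1 + k) (by omega)).1
      have h2 : (0 : ℝ) < a (n1 + k) := by exact_mod_cast hapos _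
      have h3 : (0 : ℝ) < a (n1 + k + 1) := by exact_mod_cast hapos _
      have h4 : (2 : ℝ) * c (n1 + k + 1) * a (n1 + k) ≤ c (n1 + k) * a (n1 + k + 1) := by
        exact_mod_cast h1
      have h5 : (c (n1 + k + 1) : ℝ) / a (n1 + k + 1) ≤ (1 / 2) * (c (n1 + k) / a (n1 + k)) := by
        rw [div_le_iff₀ h3]
        have h6 : (1 / 2 : ℝ) * (c (n1 + k) / a (n1 + k)) * a (n1 + k + 1) =
            (c (n1 + k) * a (n1 + k + 1)) / (2 * a (n1 + k)) := by
          field_simp
        rw [h6, le_div_iff₀ (by positivity)]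
        linarith
      calc (c (n1 + (k + 1)) : ℝ) / a (n1 + (k + 1)) ≤ (1 / 2) * (c (n1 + k) / a (n1 + k)) := h5
        _ ≤ (1 / 2) * (((c n1 : ℝ) / a n1) * (1 / 2) ^ k) := by linarith
        _ = ((c n1 : ℝ) / a n1) * (1 / 2) ^ (k + 1) := by ring
  have hg : Tendsto (fun k : ℕ => ((c n1 : ℝ) / a n1) * (1 / 2) ^ k) atTop (nhds 0) := by
    have h1 := (tendsto_pow_atTop_nhds_zero_of_lt_one (r := (1 / 2 : ℝ)) (by norm_num)
      (by norm_num)).const_mul ((c n1 : ℝ) / a n1)
    rwa [mul_zero] at h1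
  have hg2 : Tendsto (fun k : ℕ => (c (n1 + k) : ℝ) / a (n1 + k)) atTop (nhds 0) :=
    squeeze_zero (fun k => by positivity) hstep hg
  have h2 : (fun k : ℕ => (c (n1 + k) : ℝ) / a (n1 + k)) =
      fun k : ℕ => (fun n : ℕ => (c n : ℝ) / a n) (k + n1) := by
    funext k
    simp only [add_comm]
  rw [h2] at hg2
  exact (tendsto_add_atTop_iff_nat n1).1 hg2

/-- The tail numerators are close to `d R n`. -/
theorem c_sub_R (a c : ℕ → ℕ) (d : ℕ) (ha : StrictMono a) (h0 : 0 < a 0)
    (hpos : ∀ n, 0 < c n)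
    (hrec : ∀ n, a n * c n = c (n + 1) + d * ∏ j ∈ Finset.range n, a j)
    (hlim : Tendsto (fun n : ℕ => (a (n + 1) : ℝ) / (a n : ℝ) ^ 2) atTop (nhds 1))
    (hratio : Tendsto (fun n : ℕ => (c (n + 1) : ℝ) / c n) atTop (nhds 1)) :
    Tendsto (fun n : ℕ => (c n : ℝ) - d * Rat0 a n) atTop (nhds 0) := by
  have hapos : ∀ n, (0 : ℝ) < a n := fun n => by
    exact_mod_cast lt_of_lt_of_le h0 (ha.monotone (Nat.zero_le n))
  have h1 := hratio.mul (c_over_a a c ha h0 hpos hlim hratio)
  rw [mul_zero] at h1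
  refine h1.congr fun n => ?_
  have r1 : (a n : ℝ) * c n = c (n + 1) + d * ∏ j ∈ Finset.range n, (a j : ℝ) := by
    exact_mod_cast hrec n
  have hc : (0 : ℝ) < c n := by exact_mod_cast hpos n
  have ha' := hapos n
  unfold Rat0
  field_simp
  linarith

/-- `m`-th differences commute with a cast to a field. -/
theorem fwdDiff_cast {F : Type*} [Field F] (u : ℕ → ℤ) (m : ℕ) (r : ℕ) :
    (fwdDiff 1)^[m] (fun n => (u n : F)) r = (((fwdDiff 1)^[m] u r : ℤ) : F) := by
  induction m generalizing u r with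
  | zero => rfl
  | succ m ih =>
    have h1 : fwdDiff 1 (fun n => (u n : F)) = fun n => ((fwdDiff 1 u n : ℤ) : F) := by
      funext n
      simp [fwdDiff]
    rw [Function.iterate_succ_apply, Function.iterate_succ_apply, ← ih, h1]

/-- MAIN THEOREM: polynomial tails. -/
theorem final_poly (a : ℕ → ℕ) (ha : StrictMono a) (h0 : 0 < a 0)
    (hlim : Tendsto (fun n : ℕ => (a (n + 1) : ℝ) / (a n : ℝ) ^ 2) atTop (nhds 1))
    (r : ℚ) (hsum : HasSum (fun n : ℕ => (1 : ℝ) / a n) (r : ℝ)) (k : ℕ)
    (hk : Tendsto (fun n : ℕ => (fwdDiff 1)^[k] (Rat0 a) n) atTop (nhds 0)) :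
    (∀ᶠ n in atTop, a (n + 1) = a n ^ 2 - a n + 1) ∨
    ∃ f : ℚ[X], 2 ≤ f.natDegree ∧
      Tendsto (fun n : ℕ => Rat0 a n - aeval (n : ℝ) f) atTop (nhds 0) ∧
      (∀ x : ℝ, aeval x f ≠ 0) ∧
      ∀ t : ℂ, aeval t f = 0 → ∃ y ∈ IntermediateField.adjoin ℚ {t},
        y ^ 2 = -(aeval (t - 1) f * aeval (t + 1) f) := by
  obtain ⟨c, d, hd, hpos, hrec, hct, hratio, hca⟩ := exists_system a ha h0 hlim r hsum
  have hdR : (0 : ℝ) < d := by exact_mod_cast hd
  have hclose := c_sub_R a c d ha h0 hpos hrec hlim hratio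
  -- differences of `c` vanish
  have hkd : Tendsto (fun n : ℕ => (fwdDiff 1)^[k] (fun n => (d : ℝ) * Rat0 a n) n) atTop
      (nhds 0) := by
    have h1 := hk.const_mul (d : ℝ)
    rw [mul_zero] at h1
    refine h1.congr fun n => ?_
    have h2 := fwdDiff_iter_const_smul (M := ℕ) (1 : ℕ) (d : ℝ) (Rat0 a) k
    have h3 := congrFun h2 n
    exact h3.symm
  obtain ⟨r0, hr0⟩ := int_diff_zero (fun n => (c n : ℤ)) (fun n => (d : ℝ) * Rat0 a n) k
    (by simpa using hclose) hkd
  obtain ⟨h, hh⟩ := eventually_poly (F := ℚ) (fun n => ((c n : ℤ) : ℚ)) k r0 (fun r hr => by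
    rw [fwdDiff_cast, hr0 r hr, Int.cast_zero])
  have hhR : ∀ r, r0 ≤ r → (c r : ℝ) = aeval (r : ℝ) h := by
    intro r hr
    have h1 := hh r hr
    have h2 : ((c r : ℚ) : ℝ) = ((h.eval (r : ℚ) : ℚ) : ℝ) := by
      rw [← h1]
      push_cast
      rfl
    have h3 : ((h.eval (r : ℚ) : ℚ) : ℝ) = aeval ((r : ℚ) : ℝ) h := by
      rw [← eq_ratCast (algebraMap ℚ ℝ), ← eq_ratCast (algebraMap ℚ ℝ),
        Polynomial.aeval_algebraMap_apply]
      rfl
    rw [h3] at h2
    push_cast at h2
    exact h2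
  rcases Nat.lt_or_ge h.natDegree 2 with hlt | hge
  · left
    rcases Nat.eq_zero_or_pos h.natDegree with hz | hp1
    · -- constant
      obtain ⟨b, rfl⟩ := Polynomial.natDegree_eq_zero.1 hz
      obtain ⟨n0, hn0⟩ := eventually_atTop.1 (c_small a c ha h0 hpos hlim hratio)
      have heq : c (max n0 r0 + 1) = c (max n0 r0) := by
        have h1 := hh (max n0 r0) (le_max_right _ _)
        have h2 := hh (max n0 r0 + 1) (by have := le_max_right n0 r0; omega)
        rw [eval_C] at h1 h2
        have h3 : ((c (max n0 r0 + 1) : ℤ) : ℚ) = ((c (max n0 r0) : ℤ) : ℚ) := by rw [h1, h2]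
        exact_mod_cast h3
      rw [eventually_atTop]
      exact ⟨max n0 r0, sylvester_of_const2 a c d ha h0 hpos hrec n0
        (fun n hn => (hn0 n hn).2) (max n0 r0) (le_max_left _ _) heq⟩
    · -- linear
      have hdeg1 : h.natDegree = 1 := by omega
      obtain ⟨u, hu, b, hub⟩ := Polynomial.natDegree_eq_one.1 hdeg1
      have hlin : ∀ r, r0 ≤ r → (c r : ℝ) = (u : ℝ) * r + b := by
        intro r hr
        rw [hhR r hr, ← hub]
        simp [aeval_C]
      have hsgn := c_sign a c d ha h0 hpos hrec hlim hratio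
      obtain ⟨n1, hn1⟩ := eventually_atTop.1 (hsgn.and (c_small a c ha h0 hpos hlim hratio))
      have hapos : ∀ n, 0 < a n := fun n => lt_of_lt_of_le h0 (ha.monotone (Nat.zero_le n))
      refine final_block a ha h0 hlim r hsum ((|(u : ℝ)| + 2) / d) ?_
      intro W
      apply Eventually.frequently
      filter_upwards [eventually_ge_atTop (max r0 n1)] with n hn
      have hn1' : r0 ≤ n := (le_max_left _ _).trans hn
      have hn2' : n1 ≤ n := (le_max_right _ _).trans hn
      have hcl : ∀ m, n ≤ m → d * Rat0 a m ≤ c m ∧ (c m : ℝ) ≤ d * Rat0 a m + 1 := by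
        intro m hm
        obtain ⟨-, g1, g2⟩ := hn1 m (by omega)
        exact c_close a c d ha h0 hrec m (by omega)
      refine ⟨?_, ?_⟩
      · rcases Nat.eq_zero_or_pos W with hW | hW
        · subst hW
          simp
        · have hWr : (1 : ℝ) ≤ W := by exact_mod_cast hW
          obtain ⟨g1, g2⟩ := hcl n le_rfl
          obtain ⟨g3, g4⟩ := hcl (n + W) (by omega)
          have e1 := hlin n hn1'
          have e2 := hlin (n + W) (by omega)
          push_cast at e2
          have e3 : |(u : ℝ) * W| ≤ |(u : ℝ)| * W := by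
            rw [abs_mul, abs_of_nonneg (by positivity : (0 : ℝ) ≤ W)]
          have e4 := abs_le.1 e3
          have key : |(d : ℝ) * (Rat0 a (n + W) - Rat0 a n)| ≤ (|(u : ℝ)| + 2) * W := by
            rw [abs_le]
            constructor <;> nlinarith [e4.1, e4.2]
          rw [abs_mul, abs_of_pos hdR] at key
          rw [div_mul_eq_mul_div, le_div_iff₀ hdR]
          linarith
      · rcases lt_or_gt_of_ne hu with hneg | hposu
        · right
          intro j hj1 hj2
          by_contra hcon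
          have h1 := ((hn1 j (by omega)).1).1 (by omega)
          have e1 := hlin j (by omega)
          have e2 := hlin (j + 1) (by omega)
          have h2 : (c j : ℝ) ≤ c (j + 1) := by exact_mod_cast h1
          have h3 : (u : ℝ) < 0 := by exact_mod_cast hneg
          push_cast at e2
          linarith
        · left
          intro j hj1 hj2
          by_contra hcon
          have h1 := ((hn1 j (by omega)).1).2 (by omega)
          have e1 := hlin j (by omega)
          have e2 := hlin (j + 1) (by omega)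
          have h2 : (c (j + 1) : ℝ) ≤ c j := by exact_mod_cast h1
          have h3 : (0 : ℝ) < u := by exact_mod_cast hposu
          push_cast at e2
          linarith
  · right
    -- positive leading coefficient
    have hlc : 0 < h.leadingCoeff := by
      by_contra hneg
      push Not at hneg
      have hinj : Function.Injective (algebraMap ℚ ℝ) := (algebraMap ℚ ℝ).injective
      have hdegR : 0 < (h.map (algebraMap ℚ ℝ)).degree := by
        rw [degree_map]
        exact natDegree_pos_iff_degree_pos.1 (by omega)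
      have h1 : (h.map (algebraMap ℚ ℝ)).leadingCoeff ≤ 0 := by
        rw [leadingCoeff_map]
        have : ((h.leadingCoeff : ℚ) : ℝ) ≤ 0 := by exact_mod_cast hneg
        exact this
      have h2 := (h.map (algebraMap ℚ ℝ)).tendsto_atBot_of_leadingCoeff_nonpos hdegR h1
      have h3 := (h2.comp tendsto_natCast_atTop_atTop).eventually_lt_atBot 0
      obtain ⟨n, hn1, hn2⟩ := (h3.and (eventually_ge_atTop r0)).exists
      have h4 := hhR n hn2
      have h5 : (0 : ℝ) < c n := by exact_mod_cast hpos n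
      simp only [Function.comp] at hn1
      rw [eval_map_algebraMap] at hn1
      rw [h4] at h5
      exact absurd hn1 (not_lt.2 h5.le)
    obtain ⟨G, e, B, hG, hGdeg, he, hB, hid⟩ := exists_normal h (by omega) hlc
    have hTail : Tail (fun n => (c n : ℤ)) (fun n => (d : ℤ) * ∏ j ∈ Finset.range n, (a j : ℤ))
        (fun n => (a n : ℤ)) G e B r0 := by
      refine ⟨fun n => ?_, fun n => ?_, fun n hn => ?_⟩
      · exact_mod_cast hrec n
      · show (d : ℤ) * ∏ j ∈ Finset.range (n + 1), (a j : ℤ) = _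
        rw [Finset.prod_range_succ]
        ring
      · have h1 := congrArg (Polynomial.eval (n : ℚ)) hid
        rw [eval_mul, eval_C, ← hh n hn, eval_comp, eval_mul, eval_C, eval_X] at h1
        have h2 : ((e : ℚ) * (n : ℚ)) = (((e : ℤ) * (n : ℤ) : ℤ) : ℚ) := by push_cast; rfl
        rw [h2, Polynomial.eval_intCast_map] at h1
        have h3 : (((B : ℤ) * (c n : ℤ) : ℤ) : ℚ) = ((G.eval ((e : ℤ) * (n : ℤ)) : ℤ) : ℚ) := by
          push_cast
          simpa using h1
        exact_mod_cast h3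
    -- evaluation of `h` in `ℝ` and `ℂ`
    have hevA : ∀ (A : Type) [Field A] [Algebra ℚ A] (x : A),
        (B : A) * aeval x h = aeval ((e : A) * x) G := by
      intro A _ _ x
      have h1 := congrArg (fun F : ℚ[X] => aeval x F) hid
      simp only [map_mul, aeval_comp, aeval_X, map_natCast] at h1
      rw [h1, aeval_def, eval₂_map, aeval_def]
      congr 1
      exact RingHom.ext_int _ _
    have hBd : (0 : ℚ) < (d : ℚ) := by exact_mod_cast hd
    have hd0 : (d : ℚ) ≠ 0 := hBd.ne'
    have hdeg2 : 2 ≤ G.natDegree := by omega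
    have hfA : ∀ (A : Type) [Field A] [Algebra ℚ A] (x : A),
        ((B : A) * (d : A)) * aeval x (C ((d : ℚ)⁻¹) * h) = aeval ((e : A) * x) G := by
      intro A _ _ x
      have : CharZero A := algebraRat.charZero A
      have h1 : (d : A) ≠ 0 := Nat.cast_ne_zero.2 hd.ne'
      rw [← hevA A x, map_mul, aeval_C, map_inv₀, map_natCast]
      field_simp
    refine ⟨C ((d : ℚ)⁻¹) * h, ?_, ?_, ?_, ?_⟩
    · rw [natDegree_C_mul (inv_ne_zero hd0)]
      exact hge
    · have h1 : Tendsto (fun n : ℕ => -((d : ℝ)⁻¹ * ((c n : ℝ) - d * Rat0 a n))) atTop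
          (nhds (-((d : ℝ)⁻¹ * 0))) := (hclose.const_mul _).neg
      rw [mul_zero, neg_zero] at h1
      refine h1.congr' ?_
      filter_upwards [eventually_ge_atTop r0] with n hn
      rw [hhR n hn, map_mul, aeval_C, map_inv₀, map_natCast]
      field_simp
      ring
    · intro x hx
      apply tail_no_real hTail hG hdeg2 he hB ((e : ℝ) * x)
      rw [← hfA ℝ x, hx, mul_zero]
    · intro t ht
      obtain ⟨y, hy, hy2⟩ := tail_square hTail hG he t (by rw [← hfA ℂ t, ht, mul_zero])
      have hBC : (B : ℂ) ≠ 0 := Nat.cast_ne_zero.2 hB.ne'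
      have hdC : (d : ℂ) ≠ 0 := Nat.cast_ne_zero.2 hd.ne'
      refine ⟨y / ((B : ℂ) * (d : ℂ)), ?_, ?_⟩
      · exact (IntermediateField.adjoin ℚ {t}).div_mem hy
          ((IntermediateField.adjoin ℚ {t}).mul_mem (natCast_mem _ B) (natCast_mem _ d))
      · have e1 : (e : ℂ) * t - e = (e : ℂ) * (t - 1) := by ring
        have e2 : (e : ℂ) * t + e = (e : ℂ) * (t + 1) := by ring
        rw [div_pow, hy2, e1, e2, ← hfA ℂ (t - 1), ← hfA ℂ (t + 1)]
        field_simp

end Pool.Agent.PTN
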