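import Pool.Agent.PTN.Defs
import Pool.Agent.PTN.LEV
import Pool.Agent.PTN.FLD
import Pool.Agent.PTN.FRB

set_option autoImplicit false

/-!
FXA: if a pattern is not killed at level `M`, every automorphism of `ℂ` over `K` fixes an element of level `M`.
-/

namespace Pool.Agent.PTN

open NumberField

theorem exists_fixed {K : Type} [Field K] [NumberField K] (τ : K →+* ℂ) (q : 𝓞 K) (C : ℕ → 𝓞 K)
    (M : ℕ) (hk : ¬ Killed q C M) (σ : ℂ ≃+* ℂ) (hσ : ∀ x : K, σ (τ x) = τ x) :
    ∃ z ∈ Lv (τ (q : K)) (fun j => τ (C j : K)) M, σ z = z := by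
  obtain ⟨L, _, _, _, _, φ, hφ, hfull⟩ := exists_field K τ q C M
  let _ : Algebra K ℂ := τ.toAlgebra
  let _ : Algebra L ℂ := φ.toAlgebra
  have _ : IsScalarTower K L ℂ := IsScalarTower.of_algebraMap_eq fun x => (hφ x).symm
  let s : ℂ ≃ₐ[K] ℂ := AlgEquiv.ofRingEquiv (f := σ) hσ
  let g : L ≃ₐ[K] L := s.restrictNormal L
  have hg : ∀ x : L, φ (g x) = σ (φ x) := fun x => s.restrictNormal_commutes L x
  have hne : (LvA L q C M).Nonempty := by
    have h1 : ∀ j, j ≤ M → (LvA L q C j).Nonempty := by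
      intro j
      induction j with
      | zero =>
        intro _
        refine ⟨algebraMap (𝓞 K) L q, ?_⟩
        rw [LvA, lv_zero]
        exact Set.mem_singleton _
      | succ j ih =>
        intro hj
        obtain ⟨x, hx⟩ := ih (by omega)
        obtain ⟨y, hy⟩ := hfull j (by omega) x hx
        exact ⟨y, lv_child hx hy⟩
    exact h1 M le_rfl
  by_contra hcon
  push Not at hcon
  apply hk
  refine killed_of_derangement L hfull hne g ?_
  intro x hx hgx
  have h2 := lv_map φ hx
  have h3 : ∀ a : 𝓞 K, φ (algebraMap (𝓞 K) L a) = τ (a : K) := by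
    intro a
    rw [IsScalarTower.algebraMap_apply (𝓞 K) K L]
    exact hφ _
  simp only [h3] at h2
  apply hcon (φ x) h2
  rw [← hg, hgx]

end Pool.Agent.PTN
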