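import Pool.Agent.PTN.Defs
import Pool.Agent.PTN.RED
import Pool.Agent.PTN.FXA

set_option autoImplicit false

/-!
FXB: automorphism form of the chain condition at a complex zero of a polynomial tail numerator.
-/

namespace Pool.Agent.PTN

open NumberField Polynomial

theorem fixes_adjoin (σ : ℂ ≃+* ℂ) (t : ℂ) (hσ : σ t = t) (x : ℂ)
    (hx : x ∈ IntermediateField.adjoin ℚ {t}) : σ x = x := by
  induction hx using IntermediateField.adjoin_induction with
  | mem y hy =>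
    rw [Set.mem_singleton_iff] at hy
    rw [hy, hσ]
  | algebraMap r => simp
  | add y z _ _ h1 h2 => rw [map_add, h1, h2]
  | inv y _ h1 => rw [map_inv₀, h1]
  | mul y z _ _ h1 h2 => rw [map_mul, h1, h2]

theorem tail_fixed {c Q a : ℕ → ℤ} {G : ℤ[X]} {e B n0 : ℕ} (h : Tail c Q a G e B n0)
    (hG : G.Monic) (he : 0 < e) (t : ℂ) (ht : aeval ((e : ℂ) * t) G = 0) (σ : ℂ ≃+* ℂ)
    (hσ : σ t = t) (M : ℕ) :
    ∃ w : ℕ → ℂ, w 0 = aeval ((e : ℂ) * t + e) G ∧
      (∀ j, j < M → w (j + 1) * (w (j + 1) - aeval ((e : ℂ) * t - e * j) G) =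
        -(aeval ((e : ℂ) * t - e * (j + 1)) G) * w j) ∧ σ (w M) = w M := by
  have hTint : IsIntegral ℤ ((e : ℂ) * t) := ⟨G, hG, by rw [← aeval_def]; exact ht⟩
  have he0 : (e : ℂ) ≠ 0 := Nat.cast_ne_zero.2 he.ne'
  have htint : IsIntegral ℚ t := by
    have h1 : IsIntegral ℚ ((e : ℂ) * t) := hTint.tower_top
    have h2 : IsIntegral ℚ ((e : ℂ)⁻¹) := by
      have h3 : ((e : ℂ)⁻¹) = algebraMap ℚ ℂ ((e : ℚ)⁻¹) := by
        rw [map_inv₀, map_natCast]
      rw [h3]
      exact isIntegral_algebraMap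
    have h3 : t = (e : ℂ)⁻¹ * ((e : ℂ) * t) := by
      field_simp
    rw [h3]
    exact h2.mul h1
  have hfd : FiniteDimensional ℚ (IntermediateField.adjoin ℚ {t}) :=
    IntermediateField.adjoin.finiteDimensional htint
  have hnf : NumberField (IntermediateField.adjoin ℚ {t}) := NumberField.mk
  let K := IntermediateField.adjoin ℚ {t}
  let φ : K →+* ℂ := algebraMap K ℂ
  have htK : t ∈ K := IntermediateField.mem_adjoin_simple_self ℚ t
  have hTK : (e : ℂ) * t ∈ K := K.mul_mem (natCast_mem K e) htK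
  have hTint' : IsIntegral ℤ (⟨(e : ℂ) * t, hTK⟩ : K) := by
    obtain ⟨g, hg, hg0⟩ := hTint
    refine ⟨g, hg, ?_⟩
    apply φ.injective
    rw [map_zero, Polynomial.hom_eval₂]
    have h1 : φ.comp (algebraMap ℤ K) = algebraMap ℤ ℂ := RingHom.ext_int _ _
    rw [h1]
    exact hg0
  let T : 𝓞 K := ⟨⟨(e : ℂ) * t, hTK⟩, hTint'⟩
  have hφT : φ (T : K) = (e : ℂ) * t := rfl
  have hTG : aeval T G = 0 := by
    apply RingOfIntegers.coe_injective
    apply φ.injective
    have h1 := map_aeval_int φ T G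
    rw [hφT, ht] at h1
    rw [← RingOfIntegers.coe_eq_algebraMap]
    rw [h1]
    simp
  obtain ⟨z, ⟨x, ⟨hx0, hx⟩, hxz⟩, hz⟩ := exists_fixed φ (gq G e 1 T) (gC G e 1 T) M
    (not_killed h he T hTG 1 M) σ (fun y => fixes_adjoin σ t hσ (φ y) y.2)
  refine ⟨x, ?_, ?_, ?_⟩
  · rw [hx0, map_gq, hφT]
    push_cast
    ring
  · intro j hj
    have h1 := hx j hj
    simp only [map_gC, hφT] at h1
    push_cast at h1
    have h2 : (1 : ℂ) * aeval ((e : ℂ) * t - e * j) G = aeval ((e : ℂ) * t - e * j) G := one_mul _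
    have h3 : (1 : ℂ) * aeval ((e : ℂ) * t - e * (j + 1)) G =
        aeval ((e : ℂ) * t - e * (j + 1)) G := one_mul _
    rw [h2, h3] at h1
    linear_combination h1
  · rw [hxz]
    exact hz

end Pool.Agent.PTN
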