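import Pool.Agent.PTN.Defs
import Pool.Agent.PTN.FIM
import Pool.Agent.PTN.FXB

set_option autoImplicit false

/-!
FXC: main theorem with the automorphism condition (all levels).
-/

namespace Pool.Agent.PTN

open NumberField Polynomial Filter Pool.Agent.SYL

/-- Main theorem with the automorphism condition. -/
theorem final_poly_gal (a : ℕ → ℕ) (ha : StrictMono a) (h0 : 0 < a 0)
    (hlim : Tendsto (fun n : ℕ => (a (n + 1) : ℝ) / (a n : ℝ) ^ 2) atTop (nhds 1))
    (r : ℚ) (hsum : HasSum (fun n : ℕ => (1 : ℝ) / a n) (r : ℝ)) (k : ℕ)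
    (hk : Tendsto (fun n : ℕ => (fwdDiff 1)^[k] (Rat0 a) n) atTop (nhds 0)) :
    (∀ᶠ n in atTop, a (n + 1) = a n ^ 2 - a n + 1) ∨
    ∃ f : ℚ[X], 2 ≤ f.natDegree ∧
      Tendsto (fun n : ℕ => Rat0 a n - aeval (n : ℝ) f) atTop (nhds 0) ∧
      (∀ x : ℝ, aeval x f ≠ 0) ∧
      ∀ t : ℂ, aeval t f = 0 →
        (∃ y ∈ IntermediateField.adjoin ℚ {t}, y ^ 2 = -(aeval (t - 1) f * aeval (t + 1) f)) ∧
        ∀ σ : ℂ ≃+* ℂ, σ t = t → ∀ M : ℕ, ∃ w : ℕ → ℂ, w 0 = aeval (t + 1) f ∧
          (∀ j, j < M → w (j + 1) * (w (j + 1) - aeval (t - j) f) =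
            -(aeval (t - (j + 1)) f) * w j) ∧ σ (w M) = w M := by
  obtain ⟨c, d, hd, hpos, hrec, hct, hratio, hca⟩ := exists_system a ha h0 hlim r hsum
  have hdR : (0 : ℝ) < d := by exact_mod_cast hd
  have hclose := c_sub_R a c d ha h0 hpos hrec hlim hratio
  -- differences of `c` vanish
  have hkd : Tendsto (fun n : ℕ => (fwdDiff 1)^[k] (fun n => (d : ℝ) * Rat0 a n) n) atTop
      (nhds 0) := by
    have h1 := hk.const_mul (d : ℝ)
    rw [mul_zero] at h1
    refine h1.congr fun n => ?_
    have h2 := fwdDiff_iter_const_smul (M := ℕ) (1 : ℕ) (d : ℝ) (Rat0 a) k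
    have h3 := congrFun h2 n
    exact h3.symm
  obtain ⟨r0, hr0⟩ := int_diff_zero (fun n => (c n : ℤ)) (fun n => (d : ℝ) * Rat0 a n) k
    (by simpa using hclose) hkd
  obtain ⟨h, hh⟩ := eventually_poly (F := ℚ) (fun n => ((c n : ℤ) : ℚ)) k r0 (fun r hr => by
    rw [fwdDiff_cast, hr0 r hr, Int.cast_zero])
  have hhR : ∀ r, r0 ≤ r → (c r : ℝ) = aeval (r : ℝ) h := by
    intro r hr
    have h1 := hh r hr
    have h2 : ((c r : ℚ) : ℝ) = ((h.eval (r : ℚ) : ℚ) : ℝ) := by
      rw [← h1]
      push_cast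
      rfl
    have h3 : ((h.eval (r : ℚ) : ℚ) : ℝ) = aeval ((r : ℚ) : ℝ) h := by
      rw [← eq_ratCast (algebraMap ℚ ℝ), ← eq_ratCast (algebraMap ℚ ℝ),
        Polynomial.aeval_algebraMap_apply]
      rfl
    rw [h3] at h2
    push_cast at h2
    exact h2
  rcases Nat.lt_or_ge h.natDegree 2 with hlt | hge
  · left
    rcases Nat.eq_zero_or_pos h.natDegree with hz | hp1
    · -- constant
      obtain ⟨b, rfl⟩ := Polynomial.natDegree_eq_zero.1 hz
      obtain ⟨n0, hn0⟩ := eventually_atTop.1 (c_small a c ha h0 hpos hlim hratio)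
      have heq : c (max n0 r0 + 1) = c (max n0 r0) := by
        have h1 := hh (max n0 r0) (le_max_right _ _)
        have h2 := hh (max n0 r0 + 1) (by have := le_max_right n0 r0; omega)
        rw [eval_C] at h1 h2
        have h3 : ((c (max n0 r0 + 1) : ℤ) : ℚ) = ((c (max n0 r0) : ℤ) : ℚ) := by rw [h1, h2]
        exact_mod_cast h3
      rw [eventually_atTop]
      exact ⟨max n0 r0, sylvester_of_const2 a c d ha h0 hpos hrec n0
        (fun n hn => (hn0 n hn).2) (max n0 r0) (le_max_left _ _) heq⟩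
    · -- linear
      have hdeg1 : h.natDegree = 1 := by omega
      obtain ⟨u, hu, b, hub⟩ := Polynomial.natDegree_eq_one.1 hdeg1
      have hlin : ∀ r, r0 ≤ r → (c r : ℝ) = (u : ℝ) * r + b := by
        intro r hr
        rw [hhR r hr, ← hub]
        simp [aeval_C]
      have hsgn := c_sign a c d ha h0 hpos hrec hlim hratio
      obtain ⟨n1, hn1⟩ := eventually_atTop.1 (hsgn.and (c_small a c ha h0 hpos hlim hratio))
      have hapos : ∀ n, 0 < a n := fun n => lt_of_lt_of_le h0 (ha.monotone (Nat.zero_le n))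
      refine final_block a ha h0 hlim r hsum ((|(u : ℝ)| + 2) / d) ?_
      intro W
      apply Eventually.frequently
      filter_upwards [eventually_ge_atTop (max r0 n1)] with n hn
      have hn1' : r0 ≤ n := (le_max_left _ _).trans hn
      have hn2' : n1 ≤ n := (le_max_right _ _).trans hn
      have hcl : ∀ m, n ≤ m → d * Rat0 a m ≤ c m ∧ (c m : ℝ) ≤ d * Rat0 a m + 1 := by
        intro m hm
        obtain ⟨-, g1, g2⟩ := hn1 m (by omega)
        exact c_close a c d ha h0 hrec m (by omega)
      refine ⟨?_, ?_⟩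
      · rcases Nat.eq_zero_or_pos W with hW | hW
        · subst hW
          simp
        · have hWr : (1 : ℝ) ≤ W := by exact_mod_cast hW
          obtain ⟨g1, g2⟩ := hcl n le_rfl
          obtain ⟨g3, g4⟩ := hcl (n + W) (by omega)
          have e1 := hlin n hn1'
          have e2 := hlin (n + W) (by omega)
          push_cast at e2
          have e3 : |(u : ℝ) * W| ≤ |(u : ℝ)| * W := by
            rw [abs_mul, abs_of_nonneg (by positivity : (0 : ℝ) ≤ W)]
          have e4 := abs_le.1 e3
          have key : |(d : ℝ) * (Rat0 a (n + W) - Rat0 a n)| ≤ (|(u : ℝ)| + 2) * W := by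
            rw [abs_le]
            constructor <;> nlinarith [e4.1, e4.2]
          rw [abs_mul, abs_of_pos hdR] at key
          rw [div_mul_eq_mul_div, le_div_iff₀ hdR]
          linarith
      · rcases lt_or_gt_of_ne hu with hneg | hposu
        · right
          intro j hj1 hj2
          by_contra hcon
          have h1 := ((hn1 j (by omega)).1).1 (by omega)
          have e1 := hlin j (by omega)
          have e2 := hlin (j + 1) (by omega)
          have h2 : (c j : ℝ) ≤ c (j + 1) := by exact_mod_cast h1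
          have h3 : (u : ℝ) < 0 := by exact_mod_cast hneg
          push_cast at e2
          linarith
        · left
          intro j hj1 hj2
          by_contra hcon
          have h1 := ((hn1 j (by omega)).1).2 (by omega)
          have e1 := hlin j (by omega)
          have e2 := hlin (j + 1) (by omega)
          have h2 : (c (j + 1) : ℝ) ≤ c j := by exact_mod_cast h1
          have h3 : (0 : ℝ) < u := by exact_mod_cast hposu
          push_cast at e2
          linarith
  · right
    -- positive leading coefficient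
    have hlc : 0 < h.leadingCoeff := by
      by_contra hneg
      push Not at hneg
      have hinj : Function.Injective (algebraMap ℚ ℝ) := (algebraMap ℚ ℝ).injective
      have hdegR : 0 < (h.map (algebraMap ℚ ℝ)).degree := by
        rw [degree_map]
        exact natDegree_pos_iff_degree_pos.1 (by omega)
      have h1 : (h.map (algebraMap ℚ ℝ)).leadingCoeff ≤ 0 := by
        rw [leadingCoeff_map]
        have : ((h.leadingCoeff : ℚ) : ℝ) ≤ 0 := by exact_mod_cast hneg
        exact this
      have h2 := (h.map (algebraMap ℚ ℝ)).tendsto_atBot_of_leadingCoeff_nonpos hdegR h1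
      have h3 := (h2.comp tendsto_natCast_atTop_atTop).eventually_lt_atBot 0
      obtain ⟨n, hn1, hn2⟩ := (h3.and (eventually_ge_atTop r0)).exists
      have h4 := hhR n hn2
      have h5 : (0 : ℝ) < c n := by exact_mod_cast hpos n
      simp only [Function.comp] at hn1
      rw [eval_map_algebraMap] at hn1
      rw [h4] at h5
      exact absurd hn1 (not_lt.2 h5.le)
    obtain ⟨G, e, B, hG, hGdeg, he, hB, hid⟩ := exists_normal h (by omega) hlc
    have hTail : Tail (fun n => (c n : ℤ)) (fun n => (d : ℤ) * ∏ j ∈ Finset.range n, (a j : ℤ))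
        (fun n => (a n : ℤ)) G e B r0 := by
      refine ⟨fun n => ?_, fun n => ?_, fun n hn => ?_⟩
      · exact_mod_cast hrec n
      · show (d : ℤ) * ∏ j ∈ Finset.range (n + 1), (a j : ℤ) = _
        rw [Finset.prod_range_succ]
        ring
      · have h1 := congrArg (Polynomial.eval (n : ℚ)) hid
        rw [eval_mul, eval_C, ← hh n hn, eval_comp, eval_mul, eval_C, eval_X] at h1
        have h2 : ((e : ℚ) * (n : ℚ)) = (((e : ℤ) * (n : ℤ) : ℤ) : ℚ) := by push_cast; rfl
        rw [h2, Polynomial.eval_intCast_map] at h1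
        have h3 : (((B : ℤ) * (c n : ℤ) : ℤ) : ℚ) = ((G.eval ((e : ℤ) * (n : ℤ)) : ℤ) : ℚ) := by
          push_cast
          simpa using h1
        exact_mod_cast h3
    -- evaluation of `h` in `ℝ` and `ℂ`
    have hevA : ∀ (A : Type) [Field A] [Algebra ℚ A] (x : A),
        (B : A) * aeval x h = aeval ((e : A) * x) G := by
      intro A _ _ x
      have h1 := congrArg (fun F : ℚ[X] => aeval x F) hid
      simp only [map_mul, aeval_comp, aeval_X, map_natCast] at h1
      rw [h1, aeval_def, eval₂_map, aeval_def]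
      congr 1
      exact RingHom.ext_int _ _
    have hBd : (0 : ℚ) < (d : ℚ) := by exact_mod_cast hd
    have hd0 : (d : ℚ) ≠ 0 := hBd.ne'
    have hdeg2 : 2 ≤ G.natDegree := by omega
    have hfA : ∀ (A : Type) [Field A] [Algebra ℚ A] (x : A),
        ((B : A) * (d : A)) * aeval x (C ((d : ℚ)⁻¹) * h) = aeval ((e : A) * x) G := by
      intro A _ _ x
      have : CharZero A := algebraRat.charZero A
      have h1 : (d : A) ≠ 0 := Nat.cast_ne_zero.2 hd.ne'
      rw [← hevA A x, map_mul, aeval_C, map_inv₀, map_natCast]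
      field_simp
    refine ⟨C ((d : ℚ)⁻¹) * h, ?_, ?_, ?_, ?_⟩
    · rw [natDegree_C_mul (inv_ne_zero hd0)]
      exact hge
    · have h1 : Tendsto (fun n : ℕ => -((d : ℝ)⁻¹ * ((c n : ℝ) - d * Rat0 a n))) atTop
          (nhds (-((d : ℝ)⁻¹ * 0))) := (hclose.const_mul _).neg
      rw [mul_zero, neg_zero] at h1
      refine h1.congr' ?_
      filter_upwards [eventually_ge_atTop r0] with n hn
      rw [hhR n hn, map_mul, aeval_C, map_inv₀, map_natCast]
      field_simp
      ring
    · intro x hx
      apply tail_no_real hTail hG hdeg2 he hB ((e : ℝ) * x)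
      rw [← hfA ℝ x, hx, mul_zero]
    · intro t ht
      have hBC : (B : ℂ) ≠ 0 := Nat.cast_ne_zero.2 hB.ne'
      have hdC : (d : ℂ) ≠ 0 := Nat.cast_ne_zero.2 hd.ne'
      have htG : aeval ((e : ℂ) * t) G = 0 := by rw [← hfA ℂ t, ht, mul_zero]
      refine ⟨?_, ?_⟩
      · obtain ⟨y, hy, hy2⟩ := tail_square hTail hG he t htG
        refine ⟨y / ((B : ℂ) * (d : ℂ)), ?_, ?_⟩
        · exact (IntermediateField.adjoin ℚ {t}).div_mem hy
            ((IntermediateField.adjoin ℚ {t}).mul_mem (natCast_mem _ B) (natCast_mem _ d))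
        · have e1 : (e : ℂ) * t - e = (e : ℂ) * (t - 1) := by ring
          have e2 : (e : ℂ) * t + e = (e : ℂ) * (t + 1) := by ring
          rw [div_pow, hy2, e1, e2, ← hfA ℂ (t - 1), ← hfA ℂ (t + 1)]
          field_simp
      · intro σ hσ M
        obtain ⟨w, hw0, hw, hwM⟩ := tail_fixed hTail hG he t htG σ hσ M
        refine ⟨fun j => w j / ((B : ℂ) * (d : ℂ)), ?_, ?_, ?_⟩
        · show w 0 / ((B : ℂ) * (d : ℂ)) = _
          have e2 : (e : ℂ) * t + e = (e : ℂ) * (t + 1) := by ring
          rw [hw0, e2, ← hfA ℂ (t + 1)]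
          field_simp
        · intro j hj
          show w (j + 1) / ((B : ℂ) * (d : ℂ)) * (w (j + 1) / ((B : ℂ) * (d : ℂ)) -
            aeval (t - j) (C ((d : ℚ)⁻¹) * h)) =
            -(aeval (t - (j + 1)) (C ((d : ℚ)⁻¹) * h)) * (w j / ((B : ℂ) * (d : ℂ)))
          have h1 := hw j hj
          have e1 : (e : ℂ) * t - e * j = (e : ℂ) * (t - j) := by ring
          have e2 : (e : ℂ) * t - e * (j + 1) = (e : ℂ) * (t - (j + 1)) := by ring
          rw [e1, e2, ← hfA ℂ (t - j), ← hfA ℂ (t - (j + 1))] at h1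
          obtain ⟨u, hu⟩ : ∃ u, u = aeval (t - (j : ℂ)) (C ((d : ℚ)⁻¹) * h) := ⟨_, rfl⟩
          obtain ⟨v, hv⟩ : ∃ v, v = aeval (t - ((j : ℂ) + 1)) (C ((d : ℚ)⁻¹) * h) := ⟨_, rfl⟩
          rw [← hu, ← hv] at h1 ⊢
          field_simp
          linear_combination h1
        · show σ (w M / ((B : ℂ) * (d : ℂ))) = _
          rw [map_div₀, map_mul, map_natCast, map_natCast, hwM]

end Pool.Agent.PTN
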