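import Pool.Agent.PTN.Defs

set_option autoImplicit false

/-!
RTA: a positive sequence R with R (n+1) / R n = 1 + d/n + o(n^-d), d > 1 real. Then for k > d the k-th differences tend to 0.
(1) R n <= A n^d: for n >= n0 the ratio is <= 1 + d/n + n^-d <= (1 + 1/n)^d (1 + n^-d) (Bernoulli: one_add_mul_self_le_rpow_one_add or
similar, d >= 1), so b n = R n / n^d satisfies b (n+1) <= b n (1 + n^-d), and prod (1 + n^-d) <= exp (sum n^-d) < infinity
(Real.summable_nat_rpow_inv, 1 + x <= exp x).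
(2) eta n = R (n+1) - R n - (d/n) R n = (R n / n^d) * (n^d * (R (n+1)/R n - 1 - d/n)) -> 0.
(3) g_k n = prod_(i<k) (d - i)/(n + i). Claim Δ^k R n - g_k n * R n -> 0, induction on k: with E_k = Δ^k R - g_k R -> 0, Δ E_k -> 0 and
Δ (g_k R) n = g_k (n+1) (R (n+1) - R n) + (g_k (n+1) - g_k n) R n = g_k (n+1) eta n + (g_k (n+1) (1 + d/n) - g_k n) R n; and
g_k (n+1) = g_k n * n/(n+k) so the last bracket is g_k n ((n+d)/(n+k) - 1) = g_k n (d-k)/(n+k) = g_(k+1) n. g_k is bounded.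
(4) k > d: |g_k n R n| <= A_k n^(-k) * A n^d -> 0.
-/

namespace Pool.Agent.PTN

open Filter

/-- the coefficients `g_k n` -/
private noncomputable def rtaG (d : ℝ) : ℕ → ℕ → ℝ
  | 0, _ => 1
  | (k + 1), n => rtaG d k n * ((d - k) / (n + k))

private theorem rtaG_shift (d : ℝ) (k n : ℕ) (hn : 1 ≤ n) :
    rtaG d k (n + 1) * ((n : ℝ) + k) = rtaG d k n * n := by
  have hn' : (1 : ℝ) ≤ n := by exact_mod_cast hn
  induction k with
  | zero => simp [rtaG]
  | succ k ih =>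
    have hk : (0 : ℝ) ≤ k := Nat.cast_nonneg k
    have h1 : (n : ℝ) + k ≠ 0 := by positivity
    have h2 : (n : ℝ) + 1 + k ≠ 0 := by positivity
    simp only [rtaG]
    push_cast
    have h3 : (n : ℝ) + (k + 1) = n + 1 + k := by ring
    rw [h3]
    have e1 : rtaG d k (n + 1) * ((d - k) / ((n : ℝ) + 1 + k)) * ((n : ℝ) + 1 + k) =
        rtaG d k (n + 1) * (d - k) := by
      field_simp
    have e2 : rtaG d k n * ((d - k) / ((n : ℝ) + k)) * n =
        (rtaG d k n * n) * (d - k) / ((n : ℝ) + k) := by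
      ring
    rw [e1, e2, ← ih]
    field_simp

private theorem rta_inv (k : ℕ) (c : ℝ) :
    Tendsto (fun n : ℕ => c / ((n : ℝ) + k)) atTop (nhds 0) := by
  apply Tendsto.const_div_atTop
  exact tendsto_atTop_add_const_right _ _ tendsto_natCast_atTop_atTop

private theorem rtaG_lim (d : ℝ) (k : ℕ) :
    ∃ L : ℝ, Tendsto (fun n : ℕ => rtaG d k n) atTop (nhds L) := by
  induction k with
  | zero => exact ⟨1, by simp only [rtaG]; exact tendsto_const_nhds⟩
  | succ k ih =>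
    obtain ⟨L, hL⟩ := ih
    refine ⟨L * 0, ?_⟩
    simp only [rtaG]
    exact hL.mul (rta_inv k (d - k))

private theorem rtaG_pow_lim (d : ℝ) (k : ℕ) :
    ∃ L : ℝ, Tendsto (fun n : ℕ => rtaG d k n * (n : ℝ) ^ k) atTop (nhds L) := by
  induction k with
  | zero => exact ⟨1, by simp only [rtaG, pow_zero, mul_one]; exact tendsto_const_nhds⟩
  | succ k ih =>
    obtain ⟨L, hL⟩ := ih
    have h1 : Tendsto (fun n : ℕ => (n : ℝ) / ((n : ℝ) + k)) atTop (nhds 1) := by
      have h2 : Tendsto (fun n : ℕ => 1 - (k : ℝ) / ((n : ℝ) + k)) atTop (nhds (1 - 0)) :=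
        tendsto_const_nhds.sub (rta_inv k k)
      rw [sub_zero] at h2
      refine h2.congr' ?_
      filter_upwards [eventually_ge_atTop 1] with n hn
      have hn' : (1 : ℝ) ≤ n := by exact_mod_cast hn
      have hk : (0 : ℝ) ≤ k := Nat.cast_nonneg k
      have h3 : (n : ℝ) + k ≠ 0 := by positivity
      field_simp
      ring
    refine ⟨L * ((d - k) * 1), ?_⟩
    refine (hL.mul (h1.const_mul (d - k))).congr ?_
    intro n
    simp only [rtaG]
    ring

private theorem rta_bound (R : ℕ → ℝ) (hR : ∀ n, 0 < R n) (d : ℝ) (hd : 1 < d)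
    (hrate : Tendsto (fun n : ℕ => (R (n + 1) / R n - 1 - d / n) * (n : ℝ) ^ d) atTop (nhds 0)) :
    ∃ A : ℝ, ∀ᶠ n : ℕ in atTop, |R n / (n : ℝ) ^ d| ≤ A := by
  have h1 : ∀ᶠ n : ℕ in atTop, (R (n + 1) / R n - 1 - d / n) * (n : ℝ) ^ d ≤ 1 :=
    hrate.eventually_le_const (by norm_num)
  obtain ⟨n1, hn1⟩ := eventually_atTop.1 h1
  set n0 := max n1 1 with hn0
  have hstep : ∀ n, n0 ≤ n → R (n + 1) / ((n + 1 : ℕ) : ℝ) ^ d ≤
      R n / (n : ℝ) ^ d * (1 + (n : ℝ) ^ (-d)) := by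
    intro n hn
    have hn' : 1 ≤ n := le_trans (le_max_right _ _) hn
    have hnr : (0 : ℝ) < n := by exact_mod_cast hn'
    have hx : (0 : ℝ) < (n : ℝ) ^ d := Real.rpow_pos_of_pos hnr d
    have hy : (0 : ℝ) < ((n : ℝ) + 1) ^ d := Real.rpow_pos_of_pos (by linarith) d
    have h2 := hn1 n (le_trans (le_max_left _ _) hn)
    have hb : 1 + d * (1 / (n : ℝ)) ≤ (1 + 1 / (n : ℝ)) ^ d :=
      one_add_mul_self_le_rpow_one_add (by have := one_div_pos.2 hnr; linarith) hd.le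
    have hq : (1 + 1 / (n : ℝ)) ^ d = ((n : ℝ) + 1) ^ d / (n : ℝ) ^ d := by
      rw [← Real.div_rpow (by linarith) hnr.le]
      congr 1
      field_simp
    rw [hq] at hb
    set x := (n : ℝ) ^ d with hxd
    set y := ((n : ℝ) + 1) ^ d with hyd
    have hyx : 1 ≤ y / x := by
      have : 0 ≤ d * (1 / (n : ℝ)) := by positivity
      linarith
    have h3 : R (n + 1) / R n ≤ y / x * (1 + x⁻¹) := by
      have h4 : R (n + 1) / R n - 1 - d / n ≤ x⁻¹ := by
        rw [← one_div, le_div_iff₀ hx]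
        exact h2
      have h5 : d / (n : ℝ) = d * (1 / (n : ℝ)) := by ring
      have h6 : x⁻¹ ≤ y / x * x⁻¹ := le_mul_of_one_le_left (inv_nonneg.2 hx.le) hyx
      rw [h5] at h4
      calc R (n + 1) / R n ≤ (1 + d * (1 / (n : ℝ))) + x⁻¹ := by linarith
        _ ≤ y / x + y / x * x⁻¹ := add_le_add hb h6
        _ = y / x * (1 + x⁻¹) := by ring
    rw [div_le_iff₀ (hR n)] at h3
    rw [Real.rpow_neg hnr.le]
    push_cast
    rw [div_le_iff₀ hy]
    calc R (n + 1) ≤ y / x * (1 + x⁻¹) * R n := h3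
      _ = R n / x * (1 + x⁻¹) * y := by ring
  have hb0 : ∀ n, 0 ≤ R n / (n : ℝ) ^ d := fun n =>
    div_nonneg (hR n).le (Real.rpow_nonneg (Nat.cast_nonneg n) d)
  have hind : ∀ m : ℕ, R (n0 + m) / ((n0 + m : ℕ) : ℝ) ^ d ≤
      R n0 / (n0 : ℝ) ^ d * Real.exp (∑ j ∈ Finset.range m, ((n0 + j : ℕ) : ℝ) ^ (-d)) := by
    intro m
    induction m with
    | zero => simp
    | succ m ih =>
      have h2 := hstep (n0 + m) (Nat.le_add_right _ _)
      have h3 : 0 ≤ ((n0 + m : ℕ) : ℝ) ^ (-d) := Real.rpow_nonneg (Nat.cast_nonneg _) _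
      have h4 : 1 + ((n0 + m : ℕ) : ℝ) ^ (-d) ≤ Real.exp (((n0 + m : ℕ) : ℝ) ^ (-d)) := by
        rw [add_comm]
        exact Real.add_one_le_exp _
      rw [Finset.sum_range_succ, Real.exp_add]
      calc R (n0 + (m + 1)) / ((n0 + (m + 1) : ℕ) : ℝ) ^ d
          ≤ R (n0 + m) / ((n0 + m : ℕ) : ℝ) ^ d * (1 + ((n0 + m : ℕ) : ℝ) ^ (-d)) := h2
        _ ≤ (R n0 / (n0 : ℝ) ^ d * Real.exp (∑ j ∈ Finset.range m, ((n0 + j : ℕ) : ℝ) ^ (-d))) *
            Real.exp (((n0 + m : ℕ) : ℝ) ^ (-d)) :=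
          mul_le_mul ih h4 (by linarith) (mul_nonneg (hb0 n0) (Real.exp_nonneg _))
        _ = _ := by ring
  have hsum : Summable (fun j : ℕ => ((n0 + j : ℕ) : ℝ) ^ (-d)) := by
    have h2 : Summable (fun n : ℕ => (n : ℝ) ^ (-d)) := Real.summable_nat_rpow.2 (by linarith)
    have h3 := (summable_nat_add_iff n0).2 h2
    refine h3.congr ?_
    intro j
    rw [add_comm]
  refine ⟨R n0 / (n0 : ℝ) ^ d * Real.exp (∑' j : ℕ, ((n0 + j : ℕ) : ℝ) ^ (-d)), ?_⟩
  filter_upwards [eventually_ge_atTop n0] with n hn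
  obtain ⟨m, rfl⟩ := Nat.exists_eq_add_of_le hn
  rw [abs_of_nonneg (hb0 _)]
  refine (hind m).trans ?_
  apply mul_le_mul_of_nonneg_left _ (hb0 n0)
  apply Real.exp_le_exp.2
  exact hsum.sum_le_tsum _ (fun j _ => Real.rpow_nonneg (Nat.cast_nonneg _) _)

private theorem rta_mul_bdd {u v : ℕ → ℝ} {A : ℝ} (hu : ∀ᶠ n : ℕ in atTop, |u n| ≤ A)
    (hv : Tendsto v atTop (nhds 0)) : Tendsto (fun n => u n * v n) atTop (nhds 0) := by
  have h1 : Tendsto (fun n => A * |v n|) atTop (nhds 0) := by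
    have := (hv.abs.const_mul A)
    simpa using this
  refine squeeze_zero_norm' ?_ h1
  filter_upwards [hu] with n hn
  rw [Real.norm_eq_abs, abs_mul]
  exact mul_le_mul_of_nonneg_right hn (abs_nonneg _)

/-- Rates `1 + d/n + o(n^-d)` give differences tending to zero. -/
theorem rate_diff (R : ℕ → ℝ) (hR : ∀ n, 0 < R n) (d : ℝ) (hd : 1 < d)
    (hrate : Tendsto (fun n : ℕ => (R (n + 1) / R n - 1 - d / n) * (n : ℝ) ^ d) atTop (nhds 0)) :
    ∃ k : ℕ, Tendsto (fun n : ℕ => (fwdDiff 1)^[k] R n) atTop (nhds 0) := by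
  obtain ⟨A, hA⟩ := rta_bound R hR d hd hrate
  -- the error of the recursion
  have heta : Tendsto (fun n : ℕ => R (n + 1) - R n - d / n * R n) atTop (nhds 0) := by
    refine (rta_mul_bdd hA hrate).congr' ?_
    filter_upwards [eventually_ge_atTop 1] with n hn
    have hnr : (0 : ℝ) < n := by exact_mod_cast hn
    have hx : (n : ℝ) ^ d ≠ 0 := (Real.rpow_pos_of_pos hnr d).ne'
    have h1 := (hR n).ne'
    field_simp
  have hE : ∀ k : ℕ, Tendsto (fun n : ℕ => (fwdDiff 1)^[k] R n - rtaG d k n * R n) atTop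
      (nhds 0) := by
    intro k
    induction k with
    | zero => simp [rtaG]
    | succ k ih =>
      obtain ⟨L, hL⟩ := rtaG_lim d k
      have h1 : Tendsto (fun n : ℕ => rtaG d k (n + 1) * (R (n + 1) - R n - d / n * R n)) atTop
          (nhds (L * 0)) := ((tendsto_add_atTop_iff_nat 1).2 hL).mul heta
      have h2 := ((tendsto_add_atTop_iff_nat 1).2 ih).sub ih
      have h3 := h2.add h1
      rw [sub_zero, mul_zero, add_zero] at h3
      refine h3.congr' ?_
      filter_upwards [eventually_ge_atTop 1] with n hn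
      have hnr : (1 : ℝ) ≤ n := by exact_mod_cast hn
      have hk : (0 : ℝ) ≤ k := Nat.cast_nonneg k
      have hnk : (n : ℝ) + k ≠ 0 := by positivity
      have hn0 : (n : ℝ) ≠ 0 := by positivity
      have hs := rtaG_shift d k n hn
      have hs' : rtaG d k (n + 1) = rtaG d k n * n / ((n : ℝ) + k) := by
        rw [eq_div_iff hnk]; exact hs
      rw [Function.iterate_succ_apply', fwdDiff]
      simp only [rtaG]
      rw [hs']
      field_simp
      ring
  -- a large `k`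
  obtain ⟨k, hk⟩ := exists_nat_gt d
  refine ⟨k, ?_⟩
  obtain ⟨L, hL⟩ := rtaG_pow_lim d k
  have h1 : Tendsto (fun n : ℕ => (n : ℝ) ^ (-((k : ℝ) - d))) atTop (nhds 0) :=
    (tendsto_rpow_neg_atTop (by linarith)).comp tendsto_natCast_atTop_atTop
  have h1' : Tendsto (fun n : ℕ => rtaG d k n * (n : ℝ) ^ k * (n : ℝ) ^ (-((k : ℝ) - d))) atTop
      (nhds 0) := by
    have := hL.mul h1
    rwa [mul_zero] at this
  have h2 := rta_mul_bdd hA h1'
  have h3 := (hE k).add h2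
  rw [add_zero] at h3
  refine h3.congr' ?_
  filter_upwards [eventually_ge_atTop 1] with n hn
  have hnr : (0 : ℝ) < n := by exact_mod_cast hn
  have e1 : (n : ℝ) ^ (-((k : ℝ) - d)) = (n : ℝ) ^ d / (n : ℝ) ^ k := by
    rw [neg_sub, Real.rpow_sub hnr, Real.rpow_natCast]
  rw [e1]
  have hx : (n : ℝ) ^ d ≠ 0 := (Real.rpow_pos_of_pos hnr d).ne'
  have hy : (n : ℝ) ^ k ≠ 0 := (pow_pos hnr k).ne'
  field_simp
  ring

end Pool.Agent.PTN
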