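import Pool.Agent.PTN.Defs

set_option autoImplicit false

/-!
RTB: (1) an odd degree polynomial over ℚ has a real root (intermediate value theorem; Mathlib may have Polynomial / IsRealClosed results).
(2) if R n - f(n) -> 0, natDegree f >= 1, R n > 0 and n (R (n+1)/R n - 1) -> d then d = natDegree f: n (f(n+1)/f(n) - 1) -> natDegree f
(the polynomial X (f(X+1) - f(X)) has degree D and leading coefficient D * lc f; Polynomial.div_tendsto_atTop_leadingCoeff_div_of_degree_eq), and
n (R (n+1)/R n - f(n+1)/f(n)) = n ((R (n+1) - f(n+1)) - (R n - f n) R(n+1)/R(n)) / f n -> 0 because n / f n is bounded (f(n)/n has a nonzero or infinite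
limit) and the R ratio is bounded.
-/

namespace Pool.Agent.PTN

open Filter Polynomial

theorem odd_root_real (P : ℝ[X]) (hP : Odd P.natDegree) : ∃ x : ℝ, P.eval x = 0 := by
  have hpos : 0 < P.natDegree := hP.pos
  have hdeg : 0 < P.degree := natDegree_pos_iff_degree_pos.mp hpos
  set Q : ℝ[X] := P.comp (-X) with hQ
  have hnX : (-X : ℝ[X]).natDegree = 1 := by rw [natDegree_neg, natDegree_X]
  have hQn : Q.natDegree = P.natDegree := by rw [hQ, natDegree_comp, hnX, mul_one]
  have hQdeg : 0 < Q.degree := natDegree_pos_iff_degree_pos.mp (by rw [hQn]; exact hpos)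
  have hQlc : Q.leadingCoeff = - P.leadingCoeff := by
    rw [hQ, leadingCoeff_comp (by rw [hnX]; exact one_ne_zero), leadingCoeff_neg,
      leadingCoeff_X, hP.neg_one_pow]
    ring
  have hQe : ∀ y, Q.eval y = P.eval (-y) := by
    intro y
    rw [hQ, eval_comp, eval_neg, eval_X]
  have hcont : Continuous (fun x => P.eval x) := P.continuous
  rcases le_total 0 P.leadingCoeff with h | h
  · have h1 := tendsto_atTop_of_leadingCoeff_nonneg P hdeg h
    obtain ⟨b, hb⟩ := (h1.eventually_ge_atTop 0).exists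
    have h2 := tendsto_atBot_of_leadingCoeff_nonpos Q hQdeg (by rw [hQlc]; linarith)
    obtain ⟨y, hy⟩ := (h2.eventually_le_atBot 0).exists
    rw [hQe] at hy
    obtain ⟨x, hx⟩ := mem_range_of_exists_le_of_exists_ge hcont ⟨-y, hy⟩ ⟨b, hb⟩
    exact ⟨x, hx⟩
  · have h1 := tendsto_atBot_of_leadingCoeff_nonpos P hdeg h
    obtain ⟨b, hb⟩ := (h1.eventually_le_atBot 0).exists
    have h2 := tendsto_atTop_of_leadingCoeff_nonneg Q hQdeg (by rw [hQlc]; linarith)
    obtain ⟨y, hy⟩ := (h2.eventually_ge_atTop 0).exists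
    rw [hQe] at hy
    obtain ⟨x, hx⟩ := mem_range_of_exists_le_of_exists_ge hcont ⟨b, hb⟩ ⟨-y, hy⟩
    exact ⟨x, hx⟩

/-- A rational polynomial of odd degree has a real root. -/
theorem odd_root (f : ℚ[X]) (hf : Odd f.natDegree) : ∃ x : ℝ, aeval x f = 0 := by
  have h1 : (f.map (algebraMap ℚ ℝ)).natDegree = f.natDegree :=
    natDegree_map_eq_of_injective (algebraMap ℚ ℝ).injective f
  obtain ⟨x, hx⟩ := odd_root_real (f.map (algebraMap ℚ ℝ)) (by rw [h1]; exact hf)
  refine ⟨x, ?_⟩
  rw [aeval_def, eval₂_eq_eval_map]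
  exact hx

/-- a polynomial of degree at most `m` divided by `x ^ m` -/
theorem tendsto_div_pow (G : ℝ[X]) (m : ℕ) (hG : G.natDegree ≤ m) :
    Tendsto (fun x : ℝ => G.eval x / x ^ m) atTop (nhds (G.coeff m)) := by
  have hXm : ((X : ℝ[X]) ^ m).degree = m := degree_X_pow m
  have hXe : ∀ x : ℝ, ((X : ℝ[X]) ^ m).eval x = x ^ m := fun x => by rw [eval_pow, eval_X]
  rcases lt_or_ge G.degree (m : WithBot ℕ) with h | h
  · have h1 := div_tendsto_atTop_zero_of_degree_lt G (X ^ m) (by rw [hXm]; exact h)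
    rw [coeff_eq_zero_of_degree_lt h]
    simpa only [hXe] using h1
  · have hm : G.natDegree = m := le_antisymm hG (le_natDegree_of_coe_le_degree h)
    have hne : G ≠ 0 := by
      intro h0
      rw [h0, degree_zero] at h
      exact absurd h (by simp)
    have hd : G.degree = m := by rw [degree_eq_natDegree hne, hm]
    have h1 := div_tendsto_atTop_leadingCoeff_div_of_degree_eq G (X ^ m) (by rw [hXm, hd])
    rw [leadingCoeff_X_pow, div_one] at h1
    have h2 : G.leadingCoeff = G.coeff m := by rw [leadingCoeff, hm]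
    rw [h2] at h1
    simpa only [hXe] using h1

/-- The rate of a sequence asymptotic to a polynomial. -/
theorem rate_degree (R : ℕ → ℝ) (hR : ∀ n, 0 < R n) (f : ℚ[X]) (hf : 1 ≤ f.natDegree)
    (hclose : Tendsto (fun n : ℕ => R n - aeval (n : ℝ) f) atTop (nhds 0)) (d : ℝ)
    (hrate : Tendsto (fun n : ℕ => (R (n + 1) / R n - 1) * (n : ℝ)) atTop (nhds d)) :
    d = f.natDegree := by
  set P : ℝ[X] := f.map (algebraMap ℚ ℝ) with hP
  have hPn : P.natDegree = f.natDegree :=
    natDegree_map_eq_of_injective (algebraMap ℚ ℝ).injective f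
  have hev : ∀ n : ℕ, aeval (n : ℝ) f = P.eval (n : ℝ) := by
    intro n
    rw [aeval_def, eval₂_eq_eval_map]
  obtain ⟨D, hD⟩ : ∃ D, f.natDegree = D + 1 := ⟨f.natDegree - 1, by omega⟩
  rw [hD] at hPn ⊢
  set c : ℝ := P.coeff (D + 1) with hc
  have hc0 : c ≠ 0 := by
    rw [hc, ← hPn, coeff_natDegree, leadingCoeff_ne_zero]
    intro h0
    rw [h0, natDegree_zero] at hPn
    omega
  have hε : Tendsto (fun n : ℕ => R n - P.eval (n : ℝ)) atTop (nhds 0) := by
    simpa only [hev] using hclose
  have hnat : Tendsto (fun n : ℕ => (n : ℝ)) atTop atTop := tendsto_natCast_atTop_atTop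
  -- R n / n ^ (D+1) → c
  have hpowpos : ∀ m : ℕ, ∀ᶠ n : ℕ in atTop, (1 : ℝ) ≤ (n : ℝ) ^ m := by
    intro m
    filter_upwards [eventually_ge_atTop 1] with n hn
    exact one_le_pow₀ (by exact_mod_cast hn)
  have hsmall : ∀ (u : ℕ → ℝ) (m : ℕ), Tendsto u atTop (nhds 0) →
      Tendsto (fun n : ℕ => u n / (n : ℝ) ^ m) atTop (nhds 0) := by
    intro u m hu
    have hu' : Tendsto (fun n => ‖u n‖) atTop (nhds 0) := by
      have h := hu.norm
      rwa [norm_zero] at h
    refine squeeze_zero_norm' ?_ hu'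
    filter_upwards [hpowpos m] with n hn
    rw [norm_div, Real.norm_eq_abs ((n : ℝ) ^ m), abs_of_pos (by linarith)]
    exact div_le_self (norm_nonneg _) hn
  have hRc : Tendsto (fun n : ℕ => R n / (n : ℝ) ^ (D + 1)) atTop (nhds c) := by
    have h1 := (tendsto_div_pow P (D + 1) hPn.le).comp hnat
    have h2 := h1.add (hsmall _ (D + 1) hε)
    rw [add_zero] at h2
    refine h2.congr fun n => ?_
    simp only [Function.comp]
    rw [← add_div]
    congr 1
    ring
  -- the difference quotient
  have hmvt : ∀ n : ℕ, ∃ ξ ∈ Set.Ioo (n : ℝ) ((n : ℝ) + 1),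
      P.derivative.eval ξ = P.eval ((n : ℝ) + 1) - P.eval (n : ℝ) := by
    intro n
    obtain ⟨ξ, hξ, h⟩ := exists_deriv_eq_slope (fun x => P.eval x)
      (show (n : ℝ) < (n : ℝ) + 1 by linarith) P.continuous.continuousOn
      P.differentiable.differentiableOn
    refine ⟨ξ, hξ, ?_⟩
    rw [Polynomial.deriv] at h
    rw [h]
    simp
  choose ξ hξ1 hξ2 using hmvt
  have hξtop : Tendsto ξ atTop atTop :=
    tendsto_atTop_mono (fun n => (hξ1 n).1.le) hnat
  have hder : Tendsto (fun n : ℕ => P.derivative.eval (ξ n) / (ξ n) ^ D) atTop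
      (nhds (P.derivative.coeff D)) := by
    refine (tendsto_div_pow P.derivative D ?_).comp hξtop
    have h1 := natDegree_derivative_le P
    omega
  have hratio : Tendsto (fun n : ℕ => ξ n / (n : ℝ)) atTop (nhds 1) := by
    have h1 : Tendsto (fun n : ℕ => ((n : ℝ) + 1) / (n : ℝ)) atTop (nhds 1) := by
      have h2 : Tendsto (fun n : ℕ => 1 + 1 / (n : ℝ)) atTop (nhds (1 + 0)) :=
        tendsto_const_nhds.add tendsto_one_div_atTop_nhds_zero_nat
      rw [add_zero] at h2
      refine h2.congr' ?_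
      filter_upwards [eventually_gt_atTop 0] with n hn
      have : (n : ℝ) ≠ 0 := by exact_mod_cast hn.ne'
      field_simp
    refine tendsto_of_tendsto_of_tendsto_of_le_of_le' tendsto_const_nhds h1 ?_ ?_
    · filter_upwards [eventually_gt_atTop 0] with n hn
      have hn' : (0 : ℝ) < n := by exact_mod_cast hn
      rw [le_div_iff₀ hn', one_mul]
      exact (hξ1 n).1.le
    · filter_upwards [eventually_gt_atTop 0] with n hn
      have hn' : (0 : ℝ) < n := by exact_mod_cast hn
      exact div_le_div_of_nonneg_right (hξ1 n).2.le hn'.le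
  have hdiff : Tendsto (fun n : ℕ => (R (n + 1) - R n) / (n : ℝ) ^ D) atTop
      (nhds (P.derivative.coeff D)) := by
    have h1 := hder.mul (hratio.pow D)
    rw [one_pow, mul_one] at h1
    have h2 : Tendsto (fun n : ℕ => (R (n + 1) - P.eval ((n + 1 : ℕ) : ℝ)) -
        (R n - P.eval (n : ℝ))) atTop (nhds 0) := by
      have h3 := (hε.comp (tendsto_add_atTop_nat 1)).sub hε
      rw [sub_zero] at h3
      exact h3
    have h4 := h1.add (hsmall _ D h2)
    rw [add_zero] at h4
    refine h4.congr' ?_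
    filter_upwards [eventually_gt_atTop 0] with n hn
    have hn' : (0 : ℝ) < n := by exact_mod_cast hn
    have hξ' : 0 < ξ n := lt_trans hn' (hξ1 n).1
    have e1 : P.derivative.eval (ξ n) / ξ n ^ D * (ξ n / (n : ℝ)) ^ D =
        P.derivative.eval (ξ n) / (n : ℝ) ^ D := by
      rw [div_pow]
      field_simp
    rw [e1, hξ2 n, ← add_div]
    congr 1
    push_cast
    ring
  have hcoeff : P.derivative.coeff D = c * ((D : ℝ) + 1) := by
    rw [coeff_derivative]
  rw [hcoeff] at hdiff
  have hfin : Tendsto (fun n : ℕ => (R (n + 1) / R n - 1) * (n : ℝ)) atTop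
      (nhds (c * ((D : ℝ) + 1) / c)) := by
    refine (hdiff.div hRc hc0).congr' ?_
    filter_upwards [eventually_gt_atTop 0] with n hn
    have hn' : (0 : ℝ) < n := by exact_mod_cast hn
    have hR := hR n
    simp only [Pi.div_apply]
    rw [pow_succ]
    field_simp
  have heq := tendsto_nhds_unique hrate hfin
  rw [heq]
  push_cast
  field_simp

end Pool.Agent.PTN
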