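import Mathlib

set_option autoImplicit false

/-!
RVB: (1) pos_of_no_zero: E x = 1 + u/d! * asc_d x is continuous, E 0 = 1 (d >= 1: ascPochhammer_eval_zero), no zero, so positive (intermediate value
theorem on preconnected ℝ). (2) w d := -(asc_d (-1/2))/d! = choose (2d) d / ((2d-1) 4^d) by induction on d (ascPochhammer_succ_eval,
Nat.succ_mul_centralBinom_succ). (3) 0 < E (-1/2) gives the inequality.
-/

namespace Pool.Agent.PTN

theorem pos_of_no_zero (d u : ℕ) (hd : 1 ≤ d)
    (hno : ∀ x : ℝ, 1 + (u : ℝ) / d.factorial * (ascPochhammer ℝ d).eval x ≠ 0) (x : ℝ) :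
    0 < 1 + (u : ℝ) / d.factorial * (ascPochhammer ℝ d).eval x := by
  by_contra hneg
  have hneg' : 1 + (u : ℝ) / d.factorial * (ascPochhammer ℝ d).eval x ≤ 0 := not_lt.mp hneg
  have hcont : Continuous fun y : ℝ => 1 + (u : ℝ) / d.factorial * (ascPochhammer ℝ d).eval y := by
    have h1 : Continuous fun y : ℝ => (ascPochhammer ℝ d).eval y := Polynomial.continuous _
    exact continuous_const.add (continuous_const.mul h1)
  have h0 : (ascPochhammer ℝ d).eval 0 = 0 := ascPochhammer_ne_zero_eval_zero ℝ (by omega)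
  have h1 : (0 : ℝ) ≤ 1 + (u : ℝ) / d.factorial * (ascPochhammer ℝ d).eval 0 := by
    rw [h0]; norm_num
  obtain ⟨y, hy⟩ := mem_range_of_exists_le_of_exists_ge hcont ⟨x, hneg'⟩ ⟨0, h1⟩
  exact hno y hy

theorem asc_half (d : ℕ) :
    (ascPochhammer ℝ d).eval (-1 / 2) * ((2 * d - 1) * 4 ^ d) =
      -((d.factorial : ℝ) * ((2 * d).choose d : ℕ)) := by
  induction d with
  | zero => simp
  | succ d ih =>
    have h2 : ((d : ℝ) + 1) * ((2 * (d + 1)).choose (d + 1) : ℕ) =
        2 * (2 * d + 1) * ((2 * d).choose d : ℕ) := by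
      have h := Nat.succ_mul_centralBinom_succ d
      unfold Nat.centralBinom at h
      exact_mod_cast h
    rw [ascPochhammer_succ_eval, Nat.factorial_succ]
    push_cast
    rw [pow_succ]
    linear_combination (2 * (2 * (d : ℝ) + 1)) * ih + (d.factorial : ℝ) * h2

theorem half_bound (d u : ℕ) (hd : 1 ≤ d)
    (h : 0 < 1 + (u : ℝ) / d.factorial * (ascPochhammer ℝ d).eval (-1 / 2)) :
    u * (2 * d).choose d < (2 * d - 1) * 4 ^ d := by
  have hf : (0 : ℝ) < d.factorial := by exact_mod_cast Nat.factorial_pos d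
  have hd1 : (1 : ℝ) ≤ d := by exact_mod_cast hd
  have h4 : (0 : ℝ) < (2 * d - 1) * 4 ^ d := by
    have : (0 : ℝ) < 2 * d - 1 := by linarith
    positivity
  have h5 := mul_pos h h4
  have h6 : (1 + (u : ℝ) / d.factorial * (ascPochhammer ℝ d).eval (-1 / 2)) *
      ((2 * d - 1) * 4 ^ d) = (2 * d - 1) * 4 ^ d - u * ((2 * d).choose d : ℕ) := by
    have h7 := asc_half d
    have h8 : (u : ℝ) / d.factorial * ((ascPochhammer ℝ d).eval (-1 / 2) *
        ((2 * d - 1) * 4 ^ d)) = -(u * ((2 * d).choose d : ℕ)) := by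
      rw [h7]; field_simp
    linear_combination h8
  rw [h6] at h5
  have h9 : ((2 * d - 1 : ℕ) : ℝ) = 2 * d - 1 := by
    rw [Nat.cast_sub (by omega)]; push_cast; ring
  have h10 : ((u * (2 * d).choose d : ℕ) : ℝ) < (((2 * d - 1) * 4 ^ d : ℕ) : ℝ) := by
    push_cast
    rw [h9]
    linarith
  exact_mod_cast h10

end Pool.Agent.PTN
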