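import Mathlib

set_option autoImplicit false

/-!
RVC: f with f(n) = β (u choose (n+d-1) d + 1) for all large n is the polynomial β (1 + u/d! asc_d) (infinitely many values; ascPochhammer_nat_eq_ascFactorial,
Nat.ascFactorial_eq_factorial_mul_choose'), and at a zero t of it: t f(t+1) = -β d, (t+d-1) f(t-1) = β d (x asc_d (x+1) = (x+d) asc_d x), so
-f(t-1) f(t+1) t (t+d-1) = (β d)^2, and a square root y of -f(t-1) f(t+1) in ℚ(t) gives the square root β d / y of t (t+d-1).
-/

namespace Pool.Agent.PTN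

open Polynomial

theorem asc_shift (A : Type) [Field A] (d : ℕ) (x : A) :
    x * (ascPochhammer A d).eval (x + 1) = (x + d) * (ascPochhammer A d).eval x := by
  have h1 : (ascPochhammer A (d + 1)).eval x = x * (ascPochhammer A d).eval (x + 1) := by
    rw [ascPochhammer_succ_left]
    simp [eval_comp]
  have h2 : (ascPochhammer A (d + 1)).eval x = (ascPochhammer A d).eval x * (x + d) := by
    rw [ascPochhammer_succ_right]
    simp
  rw [← h1, h2, mul_comm]

theorem shape_eval (f : ℚ[X]) (d u n0 : ℕ) (hd : 1 ≤ d) (β : ℚ)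
    (hf : ∀ n : ℕ, n0 ≤ n → f.eval (n : ℚ) = β * (u * ((n + d - 1).choose d : ℕ) + 1))
    (A : Type) [Field A] [Algebra ℚ A] (x : A) :
    aeval x f = (algebraMap ℚ A β) * (1 + (u : A) / d.factorial * (ascPochhammer A d).eval x) := by
  have hfac : (d.factorial : ℚ) ≠ 0 := by exact_mod_cast d.factorial_ne_zero
  have hpoly : f = C β * (1 + C ((u : ℚ) / d.factorial) * ascPochhammer ℚ d) := by
    apply Polynomial.eq_of_infinite_eval_eq
    apply Set.Infinite.mono (s := (fun n : ℕ => ((n + n0 : ℕ) : ℚ)) '' Set.univ)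
    · rintro _ ⟨n, -, rfl⟩
      show f.eval (((n + n0 : ℕ)) : ℚ) = _
      rw [hf (n + n0) (by omega)]
      have h1 : ((ascPochhammer ℚ d).eval ((n + n0 : ℕ) : ℚ))
          = (d.factorial : ℚ) * ((n + n0 + d - 1).choose d : ℕ) := by
        rw [← ascPochhammer_eval_cast, ascPochhammer_nat_eq_ascFactorial,
          Nat.ascFactorial_eq_factorial_mul_choose']
        push_cast
        ring
      simp only [eval_mul, eval_C, eval_add, eval_one]
      rw [h1]
      field_simp
      ring
    · apply Set.Infinite.image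
      · intro a _ b _ hab
        have h2 : ((a + n0 : ℕ) : ℚ) = ((b + n0 : ℕ) : ℚ) := hab
        have h3 : a + n0 = b + n0 := by exact_mod_cast h2
        omega
      · exact Set.infinite_univ
  have hasc : aeval x (ascPochhammer ℚ d) = (ascPochhammer A d).eval x := by
    rw [← ascPochhammer_map (algebraMap ℚ A) d, Polynomial.eval_map_algebraMap]
  rw [hpoly, map_mul, aeval_C, map_add, map_one, map_mul, aeval_C, hasc, map_div₀, map_natCast,
    map_natCast]

theorem square_transfer (f : ℚ[X]) (d u n0 : ℕ) (hd : 2 ≤ d) (β : ℚ) (hβ : β ≠ 0)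
    (hf : ∀ n : ℕ, n0 ≤ n → f.eval (n : ℚ) = β * (u * ((n + d - 1).choose d : ℕ) + 1))
    (t : ℂ) (ht : 1 + (u : ℂ) / d.factorial * (ascPochhammer ℂ d).eval t = 0)
    (hsq : ∃ y ∈ IntermediateField.adjoin ℚ {t}, y ^ 2 = -(aeval (t - 1) f * aeval (t + 1) f)) :
    ∃ y ∈ IntermediateField.adjoin ℚ {t}, y ^ 2 = t * (t + d - 1) := by
  obtain ⟨y, hy, hy2⟩ := hsq
  have hβC : (algebraMap ℚ ℂ β) ≠ 0 := by
    intro h
    exact hβ ((map_eq_zero _).1 h)
  have hdC : (d : ℂ) ≠ 0 := by
    have : d ≠ 0 := by omega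
    exact_mod_cast this
  set P : ℂ := (u : ℂ) / d.factorial with hP
  set b : ℂ := algebraMap ℚ ℂ β with hb
  have e1 := shape_eval f d u n0 (by omega) β hf ℂ (t + 1)
  have e2 := shape_eval f d u n0 (by omega) β hf ℂ (t - 1)
  have s1 := asc_shift ℂ d t
  have s2 := asc_shift ℂ d (t - 1)
  rw [sub_add_cancel] at s2
  have f1 : t * aeval (t + 1) f = -(b * d) := by
    rw [e1]
    calc t * (b * (1 + P * (ascPochhammer ℂ d).eval (t + 1)))
        = b * (t + P * (t * (ascPochhammer ℂ d).eval (t + 1))) := by ring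
      _ = b * (t + P * ((t + d) * (ascPochhammer ℂ d).eval t)) := by rw [s1]
      _ = b * (t * (1 + P * (ascPochhammer ℂ d).eval t)
          + d * (1 + P * (ascPochhammer ℂ d).eval t) - d) := by ring
      _ = -(b * d) := by rw [ht]; ring
  have f2 : (t + d - 1) * aeval (t - 1) f = b * d := by
    rw [e2]
    calc (t + d - 1) * (b * (1 + P * (ascPochhammer ℂ d).eval (t - 1)))
        = b * ((t + d - 1) + P * ((t - 1 + d) * (ascPochhammer ℂ d).eval (t - 1))) := by ring
      _ = b * ((t + d - 1) + P * ((t - 1) * (ascPochhammer ℂ d).eval t)) := by rw [← s2]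
      _ = b * ((t - 1) * (1 + P * (ascPochhammer ℂ d).eval t) + d) := by ring
      _ = b * d := by rw [ht]; ring
  have hprod : y ^ 2 * (t * (t + d - 1)) = (b * d) ^ 2 := by
    rw [hy2]
    calc -(aeval (t - 1) f * aeval (t + 1) f) * (t * (t + d - 1))
        = -((t * aeval (t + 1) f) * ((t + d - 1) * aeval (t - 1) f)) := by ring
      _ = (b * d) ^ 2 := by rw [f1, f2]; ring
  have hbd : b * d ≠ 0 := mul_ne_zero hβC hdC
  have hy0 : y ≠ 0 := by
    intro h0
    rw [h0] at hprod
    apply hbd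
    have : (b * (d : ℂ)) ^ 2 = 0 := by rw [← hprod]; ring
    exact pow_eq_zero_iff (two_ne_zero) |>.1 this
  refine ⟨b * d / y, ?_, ?_⟩
  · apply div_mem _ hy
    apply mul_mem
    · rw [hb]
      exact (IntermediateField.adjoin ℚ {t}).algebraMap_mem β
    · exact natCast_mem _ d
  · rw [div_pow, ← hprod]
    field_simp

end Pool.Agent.PTN
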