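import Mathlib

set_option autoImplicit false

/-!
RVH: F in ℤ[X], p ∣ F(n), p does not divide the leading coefficient. ℤ[X] is a UFD: F is a product of irreducibles up to a unit,
and p prime in ℤ divides g(n) for one of them. g is not a constant. So g has positive degree, is primitive, irreducible over ℚ, has a complex
root t, and h(t) = 0 gives g ∣ h.
-/

namespace Pool.Agent.PTN

open Polynomial

private theorem rvh_pos_degree (g : ℤ[X]) (F : ℤ[X]) (p : ℕ)
    (n : ℤ) (hgF : g ∣ F) (hgn : (p : ℤ) ∣ g.eval n) (hlc : ¬ (p : ℤ) ∣ F.leadingCoeff) :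
    g.natDegree ≠ 0 := by
  intro h0
  obtain ⟨c, hc⟩ := natDegree_eq_zero.mp h0
  rw [← hc, eval_C] at hgn
  apply hlc
  obtain ⟨q, hq⟩ := hgF
  rw [hq, leadingCoeff_mul, ← hc, leadingCoeff_C]
  exact hgn.mul_right _

private theorem rvh_root (g : ℤ[X]) (hg : Irreducible g) (h0 : g.natDegree ≠ 0) :
    ∃ t : ℂ, aeval t g = 0 ∧ ∀ h : ℤ[X], aeval t h = 0 → g ∣ h := by
  have hprim : g.IsPrimitive := hg.isPrimitive h0
  have hirr : Irreducible (g.map (Int.castRingHom ℚ)) :=
    (IsPrimitive.Int.irreducible_iff_irreducible_map_cast hprim).mp hg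
  have hdeg : (g.map (algebraMap ℤ ℂ)).degree ≠ 0 := by
    rw [degree_map_eq_of_injective (RingHom.injective_int _)]
    intro h
    exact h0 (natDegree_eq_of_degree_eq_some h)
  obtain ⟨t, ht⟩ := IsAlgClosed.exists_root _ hdeg
  have ht' : aeval t g = 0 := by
    rw [aeval_def, ← eval_map]
    exact ht
  refine ⟨t, ht', ?_⟩
  intro h hh
  by_cases hz : h = 0
  · rw [hz]
    exact dvd_zero _
  have hcast : ∀ f : ℤ[X], aeval t (f.map (Int.castRingHom ℚ)) = aeval t f := by
    intro f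
    rw [aeval_def, eval₂_map, aeval_def]
    congr 1
  have hgq : aeval t (g.map (Int.castRingHom ℚ)) = 0 := by
    rw [hcast, ht']
  have hprimpart : aeval t h.primPart = 0 := by
    have h1 := h.eq_C_content_mul_primPart
    rw [h1, map_mul, aeval_C] at hh
    rcases mul_eq_zero.mp hh with h2 | h2
    · exfalso
      have h3 : h.content ≠ 0 := by
        rw [Ne, content_eq_zero_iff]
        exact hz
      apply h3
      have : Function.Injective (algebraMap ℤ ℂ) := RingHom.injective_int _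
      apply this
      rw [h2, map_zero]
    · exact h2
  have hdvd : g.map (Int.castRingHom ℚ) ∣ h.primPart.map (Int.castRingHom ℚ) := by
    have h1 : minpoly ℚ t ∣ h.primPart.map (Int.castRingHom ℚ) := by
      apply minpoly.dvd
      rw [hcast, hprimpart]
    have h2 : minpoly ℚ t ∣ g.map (Int.castRingHom ℚ) := by
      apply minpoly.dvd
      exact hgq
    have hint : IsIntegral ℚ t := by
      refine (isAlgebraic_iff_isIntegral).mp ⟨_, hirr.ne_zero, hgq⟩
    have h3 : Associated (minpoly ℚ t) (g.map (Int.castRingHom ℚ)) :=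
      (minpoly.irreducible hint).associated_of_dvd hirr h2
    exact (h3.dvd_iff_dvd_left).mp h1
  have h2 : g ∣ h.primPart :=
    (IsPrimitive.Int.dvd_iff_map_cast_dvd_map_cast g h.primPart hprim).mpr hdvd
  exact h2.trans (h.primPart_dvd)

theorem exists_root_factor (F : ℤ[X]) (p : ℕ) (hp : p.Prime) (n : ℤ)
    (hF : (p : ℤ) ∣ F.eval n) (hlc : ¬ (p : ℤ) ∣ F.leadingCoeff) :
    ∃ g : ℤ[X], Irreducible g ∧ g ∣ F ∧ (p : ℤ) ∣ g.eval n ∧ ∃ t : ℂ, aeval t g = 0 ∧
      ∀ h : ℤ[X], aeval t h = 0 → g ∣ h := by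
  have hF0 : F ≠ 0 := by
    intro h
    apply hlc
    rw [h, leadingCoeff_zero]
    exact dvd_zero _
  have hpp : Prime (p : ℤ) := Nat.prime_iff_prime_int.mp hp
  have key : ∃ g : ℤ[X], Irreducible g ∧ g ∣ F ∧ (p : ℤ) ∣ g.eval n := by
    clear hlc
    refine WfDvdMonoid.induction_on_irreducible
      (motive := fun F => (p : ℤ) ∣ F.eval n → F ≠ 0 →
        ∃ g : ℤ[X], Irreducible g ∧ g ∣ F ∧ (p : ℤ) ∣ g.eval n) F ?_ ?_ ?_ hF hF0
    · intro _ h
      exact absurd rfl h
    · intro u hu h1 _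
      exfalso
      have h2 : IsUnit (u.eval n) := hu.map (evalRingHom n)
      exact hpp.not_isUnit (isUnit_of_dvd_unit h1 h2)
    · intro a i ha hi ih h1 _
      rw [eval_mul] at h1
      rcases hpp.dvd_or_dvd h1 with h2 | h2
      · exact ⟨i, hi, dvd_mul_right _ _, h2⟩
      · obtain ⟨g, hg1, hg2, hg3⟩ := ih h2 ha
        exact ⟨g, hg1, hg2.trans (dvd_mul_left _ _), hg3⟩
  obtain ⟨g, hg1, hg2, hg3⟩ := key
  exact ⟨g, hg1, hg2, hg3, rvh_root g hg1 (rvh_pos_degree g F p n hg2 hg3 hlc)⟩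

private theorem rvh_clear (f : ℚ[X]) :
    ∃ (c : ℤ) (a : ℤ[X]), c ≠ 0 ∧ C (c : ℚ) * f = a.map (Int.castRingHom ℚ) := by
  obtain ⟨b, hb0, hb⟩ := IsLocalization.integerNormalization_spec (nonZeroDivisors ℤ) f
  refine ⟨b, IsLocalization.integerNormalization (nonZeroDivisors ℤ) f,
    nonZeroDivisors.ne_zero hb0, ?_⟩
  have h1 : (algebraMap ℤ ℚ) = Int.castRingHom ℚ := rfl
  rw [h1] at hb
  rw [hb]
  ext i
  simp

/-- Elements of `ℚ(t)` are quotients of integer polynomials in `t`. -/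
theorem exists_num_den (t y : ℂ) (hy : y ∈ IntermediateField.adjoin ℚ {t}) :
    ∃ a b : ℤ[X], aeval t b ≠ 0 ∧ y * aeval t b = aeval t a := by
  rw [IntermediateField.mem_adjoin_simple_iff] at hy
  obtain ⟨r, s, hrs⟩ := hy
  have hcast : ∀ f : ℤ[X], aeval t (f.map (Int.castRingHom ℚ)) = aeval t f := by
    intro f
    rw [aeval_def, eval₂_map, aeval_def]
    congr 1
  by_cases hs : aeval t s = 0
  · refine ⟨0, 1, ?_, ?_⟩
    · simp
    · rw [hrs, hs]
      simp
  obtain ⟨c, a, hc, ha⟩ := rvh_clear r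
  obtain ⟨e, b, he, hb⟩ := rvh_clear s
  have ha' : (c : ℂ) * aeval t r = aeval t a := by
    rw [← hcast a, ← ha, map_mul, aeval_C]
    simp
  have hb' : (e : ℂ) * aeval t s = aeval t b := by
    rw [← hcast b, ← hb, map_mul, aeval_C]
    simp
  have hc' : (c : ℂ) ≠ 0 := by exact_mod_cast hc
  have he' : (e : ℂ) ≠ 0 := by exact_mod_cast he
  refine ⟨C e * a, C c * b, ?_, ?_⟩
  · rw [map_mul, ← hb', aeval_C]
    simp only [algebraMap_int_eq, eq_intCast]
    exact mul_ne_zero hc' (mul_ne_zero he' hs)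
  · rw [map_mul, map_mul, ← hb', ← ha', aeval_C, aeval_C, hrs]
    simp only [algebraMap_int_eq, eq_intCast]
    field_simp

end Pool.Agent.PTN
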