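import Mathlib

set_option autoImplicit false

/-!
RVL: R noetherian domain, 𝔪 prime such that 𝔪 R_𝔪 is generated by t. Then R_𝔪 (Localization.AtPrime 𝔪) is a noetherian local domain with principal
maximal ideal, not a field, so a discrete valuation ring, so integrally closed (tfae_of_isNoetherianRing_of_isLocalRing_of_isDomain). The element a/b of the
fraction field has square w, so it is integral, so it lies in R_𝔪: a/b = a'/b' with b' ∉ 𝔪.
-/

namespace Pool.Agent.PTN

theorem ic_square {S : Type} [CommRing S] [IsDomain S] [IsIntegrallyClosed S] (A B W : S)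
    (hB : B ≠ 0) (h : A ^ 2 = W * B ^ 2) : ∃ z : S, z ^ 2 = W ∧ z * B = A := by
  have hbK : algebraMap S (FractionRing S) B ≠ 0 := by
    intro h0
    exact hB (IsFractionRing.injective S (FractionRing S) (by rw [h0, map_zero]))
  have habK := congrArg (algebraMap S (FractionRing S)) h
  rw [map_pow, map_mul, map_pow] at habK
  have hx : (algebraMap S (FractionRing S) A / algebraMap S (FractionRing S) B) ^ 2
      = algebraMap S (FractionRing S) W := by
    rw [div_pow, habK]
    field_simp
  obtain ⟨z, hz⟩ := IsIntegrallyClosed.exists_algebraMap_eq_of_isIntegral_pow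
    (R := S) (K := FractionRing S) (n := 2) (by norm_num) (by rw [hx]; exact isIntegral_algebraMap)
  refine ⟨z, ?_, ?_⟩
  · apply IsFractionRing.injective S (FractionRing S)
    rw [map_pow, hz, hx]
  · apply IsFractionRing.injective S (FractionRing S)
    rw [map_mul, hz]
    field_simp

theorem loc_square {R : Type} [CommRing R] [IsDomain R] [IsNoetherianRing R] (𝔪 : Ideal R)
    (h𝔪 : 𝔪.IsPrime) (t s : R) (hs : s ∉ 𝔪) (ht : t ∈ 𝔪)
    (hgen : ∀ x ∈ 𝔪, ∃ y, s * x = t * y) (a b w : R) (hb : b ≠ 0) (hab : a ^ 2 = w * b ^ 2) :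
    ∃ a' b' : R, b' ∉ 𝔪 ∧ a' ^ 2 = w * b' ^ 2 := by
  have hle : 𝔪.primeCompl ≤ nonZeroDivisors R := 𝔪.primeCompl_le_nonZeroDivisors
  have : IsDomain (Localization.AtPrime 𝔪) := IsLocalization.isDomain_localization hle
  have : IsNoetherianRing (Localization.AtPrime 𝔪) :=
    IsLocalization.isNoetherianRing 𝔪.primeCompl (Localization.AtPrime 𝔪) inferInstance
  have hinj : Function.Injective (algebraMap R (Localization.AtPrime 𝔪)) :=
    IsLocalization.injective (Localization.AtPrime 𝔪) hle
  have hmax : IsLocalRing.maximalIdeal (Localization.AtPrime 𝔪)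
      = Ideal.span {algebraMap R (Localization.AtPrime 𝔪) t} := by
    rw [← Localization.AtPrime.map_eq_maximalIdeal]
    apply le_antisymm
    · rw [Ideal.map_le_iff_le_comap]
      intro x hx
      obtain ⟨y, hy⟩ := hgen x hx
      rw [Ideal.mem_comap, Ideal.mem_span_singleton]
      obtain ⟨v, hv⟩ := (IsLocalization.map_units (Localization.AtPrime 𝔪)
        (⟨s, hs⟩ : 𝔪.primeCompl)).exists_right_inv
      refine ⟨algebraMap R (Localization.AtPrime 𝔪) y * v, ?_⟩
      have h1 := congrArg (algebraMap R (Localization.AtPrime 𝔪)) hy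
      rw [map_mul, map_mul] at h1
      have h2 : algebraMap R (Localization.AtPrime 𝔪) s * v = 1 := hv
      calc algebraMap R (Localization.AtPrime 𝔪) x
          = algebraMap R (Localization.AtPrime 𝔪) x
            * (algebraMap R (Localization.AtPrime 𝔪) s * v) := by rw [h2, mul_one]
        _ = (algebraMap R (Localization.AtPrime 𝔪) s * algebraMap R (Localization.AtPrime 𝔪) x)
            * v := by ring
        _ = _ := by rw [h1]; ring
    · rw [Ideal.span_le, Set.singleton_subset_iff]
      exact Ideal.mem_map_of_mem _ ht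
  have hprin : (IsLocalRing.maximalIdeal (Localization.AtPrime 𝔪)).IsPrincipal :=
    ⟨⟨algebraMap R (Localization.AtPrime 𝔪) t, by rw [hmax]⟩⟩
  have htfae := tfae_of_isNoetherianRing_of_isLocalRing_of_isDomain (Localization.AtPrime 𝔪)
  have hic : IsIntegrallyClosed (Localization.AtPrime 𝔪) ∧
      ∀ P : Ideal (Localization.AtPrime 𝔪), P ≠ ⊥ → P.IsPrime →
        P = IsLocalRing.maximalIdeal (Localization.AtPrime 𝔪) :=
    (htfae.out 4 3).1 hprin
  have := hic.1
  have hb' : algebraMap R (Localization.AtPrime 𝔪) b ≠ 0 := by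
    intro h
    exact hb (hinj (by rw [h, map_zero]))
  have habS : algebraMap R (Localization.AtPrime 𝔪) a ^ 2
      = algebraMap R (Localization.AtPrime 𝔪) w * algebraMap R (Localization.AtPrime 𝔪) b ^ 2 := by
    rw [← map_pow, ← map_pow, ← map_mul, hab]
  obtain ⟨z, hz2, hzb⟩ := ic_square _ _ _ hb' habS
  obtain ⟨a', b', hab'⟩ := IsLocalization.exists_mk'_eq 𝔪.primeCompl z
  refine ⟨a', b'.1, b'.2, ?_⟩
  have h3 : z * algebraMap R (Localization.AtPrime 𝔪) b'.1
      = algebraMap R (Localization.AtPrime 𝔪) a' := by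
    rw [← hab']
    exact IsLocalization.mk'_spec _ _ _
  apply hinj
  rw [map_pow, map_mul, map_pow, ← h3, ← hz2]
  ring

end Pool.Agent.PTN
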