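import Mathlib
import Pool.Agent.PTN.RVL
import Pool.Agent.PTN.RVH

set_option autoImplicit false

/-!
RVE: F = C u * ascPochhammer ℤ d + C d!, n = 0: p ∣ F(0) = d!, leading coefficient u. Take g, t from exists_root_factor, R = AdjoinRoot g (domain as g is
prime, noetherian as a quotient of ℤ[X]), 𝔪 = kernel of R -> ZMod p, X -> 0 (AdjoinRoot.lift), τ = root. ascPochhammer d = X (X + p) H (p < d: product of
X + i over i < d), d! = p m with p ∤ m (d < 2p). In R: u τ (τ + p) H(τ) + p m = 0, so with s = m + u τ H(τ) ∉ 𝔪: s p = -u τ^2 H(τ). An element of 𝔪 is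
mk h with p ∣ h(0), h = C (h 0) + X h1, so s * mk h = τ * (...). Suppose y in ℚ(t), y^2 = t (t + d - 1): exists_num_den, a(t)^2 = w(t) b(t)^2, hence
(mk a)^2 = mk w (mk b)^2 in R, mk b ≠ 0. loc_square: a'^2 = w b'^2, b' ∉ 𝔪. w ∈ 𝔪 so a' ∈ 𝔪, s a' = τ a1, s^2 τ (τ + d - 1) b'^2 = τ^2 a1^2, cancel τ
(τ ≠ 0 as F(0) ≠ 0): s^2 (τ + d - 1) b'^2 = τ a1^2 ∈ 𝔪, so τ + d - 1 ∈ 𝔪, p ∣ d - 1, impossible as p < d - 1 < 2p.
-/

namespace Pool.Agent.PTN

open Polynomial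

private theorem rve_fac (d p : ℕ) (hp : p.Prime) (h2 : p + 1 < d) :
    ∃ H : ℤ[X], ascPochhammer ℤ d = X * (X + C (p : ℤ)) * H := by
  obtain ⟨k, rfl⟩ : ∃ k, d = (p + 1) + k := ⟨d - (p + 1), by omega⟩
  obtain ⟨q, rfl⟩ : ∃ q, p = q + 1 := ⟨p - 1, by have := hp.pos; omega⟩
  rw [← ascPochhammer_mul, ascPochhammer_succ_right, ascPochhammer_succ_left]
  refine ⟨(ascPochhammer ℤ q).comp (X + 1) * (ascPochhammer ℤ k).comp (X + ((q + 1 + 1 : ℕ) : ℤ[X])), ?_⟩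
  rw [show (C ((q + 1 : ℕ) : ℤ) : ℤ[X]) = ((q + 1 : ℕ) : ℤ[X]) by simp]
  ring

private theorem rve_factorial (d p : ℕ) (hp : p.Prime) (h1 : d < 2 * p) (h2 : p + 1 < d) :
    ∃ m : ℕ, d.factorial = p * m ∧ ¬ p ∣ m := by
  obtain ⟨m, hm⟩ := (hp.dvd_factorial).2 (show p ≤ d by omega)
  refine ⟨m, hm, ?_⟩
  rintro ⟨k, rfl⟩
  have h3 : p ^ 2 ∣ d.factorial := ⟨k, by rw [hm]; ring⟩
  have h4 : ∀ j, p + j < 2 * p → ¬ p ^ 2 ∣ (p + j).factorial := by
    intro j
    induction j with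
    | zero =>
      intro _ h
      rw [Nat.add_zero] at h
      have h5 : p.factorial = p * (p - 1).factorial := (Nat.mul_factorial_pred hp.ne_zero).symm
      rw [h5, pow_two] at h
      have h6 := Nat.dvd_of_mul_dvd_mul_left hp.pos h
      have h7 := (hp.dvd_factorial).1 h6
      have := hp.pos
      omega
    | succ j ih =>
      intro hlt h
      rw [← Nat.add_assoc, Nat.factorial_succ] at h
      have h5 : Nat.Coprime (p ^ 2) (p + j + 1) := by
        apply Nat.Coprime.pow_left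
        rw [Nat.Prime.coprime_iff_not_dvd hp]
        rintro ⟨c, hc⟩
        have h7 : 1 < c := by
          by_contra hcc
          have h8 : c ≤ 1 := by omega
          have h9 : p * c ≤ p * 1 := Nat.mul_le_mul_left _ h8
          omega
        have h8 : p * 2 ≤ p * c := Nat.mul_le_mul_left _ (by omega)
        omega
      exact ih (by omega) (Nat.Coprime.dvd_of_dvd_mul_left h5 h)
  obtain ⟨j, rfl⟩ : ∃ j, d = p + j := ⟨d - p, by omega⟩
  exact h4 j h1 h3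

theorem eisenstein_kill (d u p : ℕ) (hp : p.Prime) (h1 : d < 2 * p) (h2 : p + 1 < d)
    (hu : 1 ≤ u) (hpu : ¬ p ∣ u) :
    ∃ t : ℂ, 1 + (u : ℂ) / d.factorial * (ascPochhammer ℂ d).eval t = 0 ∧
      ¬ ∃ y ∈ IntermediateField.adjoin ℚ {t}, y ^ 2 = t * (t + d - 1) := by
  obtain ⟨H, hH⟩ := rve_fac d p hp h2
  obtain ⟨m, hm, hpm⟩ := rve_factorial d p hp h1 h2
  have hd0 : d ≠ 0 := by omega
  set F : ℤ[X] := C (u : ℤ) * ascPochhammer ℤ d + C (d.factorial : ℤ) with hFdef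
  have hFe0 : F.eval 0 = (d.factorial : ℤ) := by
    rw [hFdef, eval_add, eval_mul, eval_C, eval_C, ascPochhammer_ne_zero_eval_zero ℤ hd0,
      mul_zero, zero_add]
  have hu0 : (u : ℤ) ≠ 0 := by
    have : u ≠ 0 := by omega
    exact_mod_cast this
  have hlc : F.leadingCoeff = (u : ℤ) := by
    have hdeg : (C (d.factorial : ℤ) : ℤ[X]).degree < (C (u : ℤ) * ascPochhammer ℤ d).degree := by
      refine lt_of_le_of_lt degree_C_le ?_
      rw [degree_C_mul hu0]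
      rw [← natDegree_pos_iff_degree_pos, ascPochhammer_natDegree]
      omega
    rw [hFdef, leadingCoeff_add_of_degree_lt' hdeg, leadingCoeff_mul, leadingCoeff_C,
      (monic_ascPochhammer ℤ d).leadingCoeff, mul_one]
  obtain ⟨g, hgirr, hgF, hg0, t, htg, htdvd⟩ := exists_root_factor F p hp 0
    (by
      rw [hFe0, hm]
      push_cast
      exact dvd_mul_right _ _)
    (by
      rw [hlc]
      exact_mod_cast hpu)
  have htF : aeval t F = 0 := by
    obtain ⟨k, hk⟩ := hgF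
    rw [hk, map_mul, htg, zero_mul]
  have htF' : (u : ℂ) * (ascPochhammer ℂ d).eval t + (d.factorial : ℂ) = 0 := by
    have h3 : aeval t F = (u : ℂ) * (ascPochhammer ℂ d).eval t + (d.factorial : ℂ) := by
      have e1 : (algebraMap ℤ ℂ) (u : ℤ) = (u : ℂ) := by simp
      have e2 : aeval t (ascPochhammer ℤ d) = (ascPochhammer ℂ d).eval t := by
        rw [← ascPochhammer_map (algebraMap ℤ ℂ), eval_map_algebraMap]
      have e3 : (algebraMap ℤ ℂ) (d.factorial : ℤ) = (d.factorial : ℂ) := by simp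
      rw [hFdef, map_add, map_mul, aeval_C, aeval_C, e1, e2, e3]
    rw [← h3, htF]
  have hfac0 : (d.factorial : ℂ) ≠ 0 := by
    exact_mod_cast d.factorial_ne_zero
  refine ⟨t, ?_, ?_⟩
  · field_simp
    linear_combination htF'
  rintro ⟨y, hy, hy2⟩
  obtain ⟨a, b, hb, hab⟩ := exists_num_den t y hy
  have hgprime : Prime g := hgirr.prime
  have : IsDomain (AdjoinRoot g) := AdjoinRoot.isDomain_of_prime hgprime
  have : IsNoetherianRing (AdjoinRoot g) :=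
    inferInstanceAs (IsNoetherianRing (ℤ[X] ⧸ Ideal.span {g}))
  have : Fact p.Prime := ⟨hp⟩
  have hgz : g.eval₂ (Int.castRingHom (ZMod p)) 0 = 0 := by
    rw [eval₂_at_zero]
    rw [← coeff_zero_eq_eval_zero] at hg0
    exact (ZMod.intCast_zmod_eq_zero_iff_dvd _ _).2 hg0
  set ψ : AdjoinRoot g →+* ZMod p := AdjoinRoot.lift (Int.castRingHom (ZMod p)) 0 hgz with hψ
  have hψmk : ∀ h : ℤ[X], ψ (AdjoinRoot.mk g h) = ((h.coeff 0 : ℤ) : ZMod p) := by
    intro h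
    rw [hψ, AdjoinRoot.lift_mk, eval₂_at_zero]
    rfl
  have h𝔪 : (RingHom.ker ψ).IsPrime := RingHom.ker_isPrime ψ
  set τ : AdjoinRoot g := AdjoinRoot.mk g X with hτ
  set s : AdjoinRoot g := AdjoinRoot.mk g (C (m : ℤ) + C (u : ℤ) * X * H) with hs
  set w : ℤ[X] := X * (X + C ((d : ℤ) - 1)) with hw
  have hsp : s * AdjoinRoot.mk g (C (p : ℤ)) = τ * AdjoinRoot.mk g (-(C (u : ℤ) * X * H)) := by
    rw [hs, hτ, ← map_mul, ← map_mul, ← sub_eq_zero, ← map_sub, AdjoinRoot.mk_eq_zero]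
    have e : (C (m : ℤ) + C (u : ℤ) * X * H) * C (p : ℤ) - X * -(C (u : ℤ) * X * H) = F := by
      rw [hFdef, hH, hm]
      push_cast
      rw [C_mul]
      ring
    rw [e]
    exact hgF
  have hs𝔪 : s ∉ RingHom.ker ψ := by
    rw [RingHom.mem_ker, hs, hψmk]
    have e : (C (m : ℤ) + C (u : ℤ) * X * H).coeff 0 = (m : ℤ) := by
      rw [coeff_add, coeff_C_zero, mul_assoc, coeff_C_mul, mul_coeff_zero, coeff_X_zero, zero_mul,
        mul_zero, add_zero]
    rw [e, ZMod.intCast_zmod_eq_zero_iff_dvd]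
    exact_mod_cast hpm
  have hτ𝔪 : τ ∈ RingHom.ker ψ := by
    rw [RingHom.mem_ker, hτ, hψmk, coeff_X_zero, Int.cast_zero]
  have hgen : ∀ x ∈ RingHom.ker ψ, ∃ y, s * x = τ * y := by
    intro x hx
    obtain ⟨h, rfl⟩ := AdjoinRoot.mk_surjective x
    rw [RingHom.mem_ker, hψmk, ZMod.intCast_zmod_eq_zero_iff_dvd] at hx
    obtain ⟨k, hk⟩ := hx
    refine ⟨AdjoinRoot.mk g (-(C (u : ℤ) * X * H) * C k) + s * AdjoinRoot.mk g h.divX, ?_⟩
    have e : AdjoinRoot.mk g h = AdjoinRoot.mk g (C (p : ℤ)) * AdjoinRoot.mk g (C k) +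
        τ * AdjoinRoot.mk g h.divX := by
      conv_lhs => rw [← X_mul_divX_add h, hk]
      rw [hτ, map_add, map_mul, C_mul, map_mul]
      ring
    rw [e, map_mul (AdjoinRoot.mk g) (-(C (u : ℤ) * X * H)) (C k)]
    linear_combination AdjoinRoot.mk g (C k) * hsp
  have hbne : AdjoinRoot.mk g b ≠ 0 := by
    rw [Ne, AdjoinRoot.mk_eq_zero]
    rintro ⟨k, hk⟩
    apply hb
    rw [hk, map_mul, htg, zero_mul]
  have habw : AdjoinRoot.mk g a ^ 2 = AdjoinRoot.mk g w * AdjoinRoot.mk g b ^ 2 := by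
    rw [← map_pow, ← map_pow, ← map_mul, ← sub_eq_zero, ← map_sub, AdjoinRoot.mk_eq_zero]
    apply htdvd
    rw [map_sub, map_mul, map_pow, map_pow, hw, map_mul, map_add, aeval_X, aeval_C, ← hab]
    have e : (algebraMap ℤ ℂ) ((d : ℤ) - 1) = (d : ℂ) - 1 := by simp
    rw [e]
    linear_combination (aeval t b) ^ 2 * hy2
  obtain ⟨a', b', hb', hab'⟩ := loc_square (RingHom.ker ψ) h𝔪 τ s hs𝔪 hτ𝔪 hgen
    (AdjoinRoot.mk g a) (AdjoinRoot.mk g b) (AdjoinRoot.mk g w) hbne habw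
  have hwτ : AdjoinRoot.mk g w = τ * AdjoinRoot.mk g (X + C ((d : ℤ) - 1)) := by
    rw [hw, hτ, map_mul]
  have ha' : a' ∈ RingHom.ker ψ := by
    apply h𝔪.mem_of_pow_mem 2
    rw [hab', hwτ, mul_assoc]
    exact Ideal.mul_mem_right _ _ hτ𝔪
  obtain ⟨a1, ha1⟩ := hgen a' ha'
  have hτ0 : τ ≠ 0 := by
    rw [hτ, Ne, AdjoinRoot.mk_eq_zero]
    rintro ⟨k, hk⟩
    have ht0 : t = 0 := by
      have h3 : aeval t (X : ℤ[X]) = 0 := by rw [hk, map_mul, htg, zero_mul]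
      rwa [aeval_X] at h3
    rw [ht0, ascPochhammer_ne_zero_eval_zero ℂ hd0, mul_zero, zero_add] at htF'
    exact hfac0 htF'
  have hcancel : s ^ 2 * AdjoinRoot.mk g (X + C ((d : ℤ) - 1)) * b' ^ 2 = τ * a1 ^ 2 := by
    apply mul_left_cancel₀ hτ0
    have h3 : s ^ 2 * a' ^ 2 = τ ^ 2 * a1 ^ 2 := by
      rw [← mul_pow, ha1, mul_pow]
    rw [hab', hwτ] at h3
    linear_combination h3
  have hmem : s ^ 2 * AdjoinRoot.mk g (X + C ((d : ℤ) - 1)) * b' ^ 2 ∈ RingHom.ker ψ := by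
    rw [hcancel]
    exact Ideal.mul_mem_right _ _ hτ𝔪
  rcases h𝔪.mem_or_mem hmem with h3 | h3
  · rcases h𝔪.mem_or_mem h3 with h4 | h4
    · exact hs𝔪 (h𝔪.mem_of_pow_mem 2 h4)
    · rw [RingHom.mem_ker, hψmk, coeff_add, coeff_X_zero, coeff_C_zero, zero_add,
        ZMod.intCast_zmod_eq_zero_iff_dvd] at h4
      obtain ⟨c, hc⟩ := h4
      have hpos := hp.pos
      have hc1 : 1 < c := by
        by_contra hcc
        have h6 : c ≤ 1 := by omega
        have h5 : (p : ℤ) * c ≤ p * 1 := mul_le_mul_of_nonneg_left h6 (by positivity)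
        omega
      have h5 : (p : ℤ) * 2 ≤ p * c := mul_le_mul_of_nonneg_left (by omega) (by positivity)
      omega
  · exact hb' (h𝔪.mem_of_pow_mem 2 h3)

end Pool.Agent.PTN
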