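import Mathlib

set_option autoImplicit false

/-!
RVF: 20 <= d <= 5000 even, 1 <= u < 4 d^2. Triples of primes p < q < r with r + 2 <= d <= 2p - 2 and 4 d^2 <= p q r: if all three divide u then
p q r <= u (coprime), contradiction.
-/

namespace Pool.Agent.PTN

theorem triple_kill (p q r d u : ℕ) (hp : p.Prime) (hq : q.Prime) (hr : r.Prime)
    (hpq : p < q) (hqr : q < r) (h1 : r + 2 ≤ d) (h2 : d + 2 ≤ 2 * p)
    (h3 : 4 * (2 * p - 2) ^ 2 ≤ p * q * r) (hu : 1 ≤ u) (hu2 : u < 4 * d ^ 2) :
    ∃ p : ℕ, p.Prime ∧ d < 2 * p ∧ p + 1 < d ∧ ¬ p ∣ u := by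
  by_contra hcon
  push Not at hcon
  have hpu : p ∣ u := hcon p hp (by omega) (by omega)
  have hqu : q ∣ u := hcon q hq (by omega) (by omega)
  have hru : r ∣ u := hcon r hr (by omega) (by omega)
  have c1 : Nat.Coprime p q := (Nat.coprime_primes hp hq).2 (by omega)
  have c2 : Nat.Coprime p r := (Nat.coprime_primes hp hr).2 (by omega)
  have c3 : Nat.Coprime q r := (Nat.coprime_primes hq hr).2 (by omega)
  have h4 : p * q ∣ u := c1.mul_dvd_of_dvd_of_dvd hpu hqu
  have h5 : p * q * r ∣ u := (Nat.Coprime.mul_left c2 c3).mul_dvd_of_dvd_of_dvd h4 hru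
  have h6 : p * q * r ≤ u := Nat.le_of_dvd (by omega) h5
  have h7 : d ≤ 2 * p - 2 := by omega
  have h8 : d ^ 2 ≤ (2 * p - 2) ^ 2 := Nat.pow_le_pow_left h7 2
  omega

theorem prime_not_dvd_small (d u : ℕ) (hd : Even d) (h20 : 20 ≤ d) (h5 : d ≤ 5000) (hu : 1 ≤ u)
    (hu2 : u < 4 * d ^ 2) : ∃ p : ℕ, p.Prime ∧ d < 2 * p ∧ p + 1 < d ∧ ¬ p ∣ u := by
  obtain ⟨e, he⟩ := hd
  by_cases a1 : d ≤ 20
  · exact triple_kill 11 13 17 d u (by norm_num) (by norm_num) (by norm_num) (by norm_num)
      (by norm_num) (by omega) (by omega) (by norm_num) hu hu2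
  by_cases a2 : d ≤ 24
  · exact triple_kill 13 17 19 d u (by norm_num) (by norm_num) (by norm_num) (by norm_num)
      (by norm_num) (by omega) (by omega) (by norm_num) hu hu2
  by_cases a3 : d ≤ 32
  · exact triple_kill 17 19 23 d u (by norm_num) (by norm_num) (by norm_num) (by norm_num)
      (by norm_num) (by omega) (by omega) (by norm_num) hu hu2
  by_cases a4 : d ≤ 36
  · exact triple_kill 19 23 29 d u (by norm_num) (by norm_num) (by norm_num) (by norm_num)
      (by norm_num) (by omega) (by omega) (by norm_num) hu hu2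
  by_cases a5 : d ≤ 44
  · exact triple_kill 23 29 31 d u (by norm_num) (by norm_num) (by norm_num) (by norm_num)
      (by norm_num) (by omega) (by omega) (by norm_num) hu hu2
  by_cases a6 : d ≤ 60
  · exact triple_kill 31 37 41 d u (by norm_num) (by norm_num) (by norm_num) (by norm_num)
      (by norm_num) (by omega) (by omega) (by norm_num) hu hu2
  by_cases a7 : d ≤ 80
  · exact triple_kill 41 43 47 d u (by norm_num) (by norm_num) (by norm_num) (by norm_num)
      (by norm_num) (by omega) (by omega) (by norm_num) hu hu2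
  by_cases a8 : d ≤ 140
  · exact triple_kill 71 73 79 d u (by norm_num) (by norm_num) (by norm_num) (by norm_num)
      (by norm_num) (by omega) (by omega) (by norm_num) hu hu2
  by_cases a9 : d ≤ 224
  · exact triple_kill 113 127 131 d u (by norm_num) (by norm_num) (by norm_num) (by norm_num)
      (by norm_num) (by omega) (by omega) (by norm_num) hu hu2
  by_cases a10 : d ≤ 396
  · exact triple_kill 199 211 223 d u (by norm_num) (by norm_num) (by norm_num) (by norm_num)
      (by norm_num) (by omega) (by omega) (by norm_num) hu hu2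
  by_cases a11 : d ≤ 716
  · exact triple_kill 359 367 373 d u (by norm_num) (by norm_num) (by norm_num) (by norm_num)
      (by norm_num) (by omega) (by omega) (by norm_num) hu hu2
  by_cases a12 : d ≤ 1364
  · exact triple_kill 683 691 701 d u (by norm_num) (by norm_num) (by norm_num) (by norm_num)
      (by norm_num) (by omega) (by omega) (by norm_num) hu hu2
  by_cases a13 : d ≤ 2604
  · exact triple_kill 1303 1307 1319 d u (by norm_num) (by norm_num) (by norm_num) (by norm_num)
      (by norm_num) (by omega) (by omega) (by norm_num) hu hu2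
  · exact triple_kill 2551 2557 2579 d u (by norm_num) (by norm_num) (by norm_num) (by norm_num)
      (by norm_num) (by omega) (by omega) (by norm_num) hu hu2

end Pool.Agent.PTN
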