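import Mathlib

set_option autoImplicit false

/-!
RVI: (1) int_eq_poly: E f in ℤ[X] for some E >= 1 (common denominator); E c n - (E f)(n) is an integer tending to 0.
(2) rate_shape: R > 0, R n - f n -> 0, deg f = d, ((R (n+1)/R n) - 1 - d/n) n^d -> 0. R n / n^d is bounded, so n R (n+1) - (n+d) R n = o(n), and
n f(n+1) - (n+d) f(n) = o(n); the polynomial X f(X+1) - (X+d) f is o(n), so it is a constant, equal to its value -d f(0) at 0. Then
(n+1) ... induction on n >= 1: n (f(n+1) - f 0) = (n+d) (f n - f 0), f n - f 0 = (f 1 - f 0) choose (n+d-1) d.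
-/

namespace Pool.Agent.PTN

open Polynomial Filter

theorem aeval_cast (f : ℚ[X]) (n : ℕ) : aeval (n : ℝ) f = ((f.eval (n : ℚ) : ℚ) : ℝ) := by
  have h := Polynomial.aeval_algebraMap_apply (A := ℚ) ℝ (n : ℚ) f
  rw [map_natCast] at h
  rw [h, Polynomial.coe_aeval_eq_eval]
  rfl

theorem int_eq_poly (c : ℕ → ℤ) (f : ℚ[X])
    (h : Tendsto (fun n : ℕ => (c n : ℝ) - aeval (n : ℝ) f) atTop (nhds 0)) :
    ∃ n0 : ℕ, ∀ n, n0 ≤ n → (c n : ℚ) = f.eval (n : ℚ) := by
  obtain ⟨b', hbm, hb'⟩ := IsLocalization.integerNormalization_spec (nonZeroDivisors ℤ) f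
  obtain ⟨b, hb⟩ : ∃ b : nonZeroDivisors ℤ, Polynomial.map (algebraMap ℤ ℚ)
      (IsLocalization.integerNormalization (nonZeroDivisors ℤ) f) = (b : ℤ) • f := ⟨⟨b', hbm⟩, hb'⟩
  set g : ℤ[X] := IsLocalization.integerNormalization (nonZeroDivisors ℤ) f with hg
  have hb0 : (b : ℤ) ≠ 0 := nonZeroDivisors.ne_zero b.2
  have hval : ∀ n : ℕ, ((g.eval (n : ℤ) : ℤ) : ℚ) = (b : ℤ) * f.eval (n : ℚ) := by
    intro n
    have h1 : (g.map (algebraMap ℤ ℚ)).eval (n : ℚ) = ((b : ℤ) • f).eval (n : ℚ) :=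
      congrArg (fun p : ℚ[X] => p.eval (n : ℚ)) hb
    have h2 : (g.map (algebraMap ℤ ℚ)).eval (n : ℚ) = ((g.eval (n : ℤ) : ℤ) : ℚ) := by
      have h3 := Polynomial.eval_map_algebraMap (R := ℤ) (B := ℚ) g ((n : ℤ) : ℚ)
      have h4 := Polynomial.eval_intCast_map (algebraMap ℤ ℚ) g (n : ℤ)
      simpa using h4
    rw [h2] at h1
    rw [h1]
    simp [Polynomial.eval_smul]
  have hlim : Tendsto (fun n : ℕ => ((b : ℤ) : ℝ) * ((c n : ℝ) - aeval (n : ℝ) f)) atTop
      (nhds 0) := by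
    have := h.const_mul (((b : ℤ) : ℝ))
    rwa [mul_zero] at this
  have hint : ∀ n : ℕ, ((b : ℤ) : ℝ) * ((c n : ℝ) - aeval (n : ℝ) f)
      = (((b : ℤ) * c n - g.eval (n : ℤ) : ℤ) : ℝ) := by
    intro n
    rw [aeval_cast]
    have h1 : ((((g.eval (n : ℤ) : ℤ) : ℚ)) : ℝ) = (((b : ℤ) * f.eval (n : ℚ) : ℚ) : ℝ) :=
      congrArg (fun q : ℚ => (q : ℝ)) (hval n)
    push_cast at h1 ⊢
    rw [h1]
    ring
  have hev : ∀ᶠ n : ℕ in atTop, |((b : ℤ) : ℝ) * ((c n : ℝ) - aeval (n : ℝ) f)| < 1 := by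
    have := (tendsto_zero_iff_abs_tendsto_zero _).1 hlim
    exact this.eventually (gt_mem_nhds one_pos)
  obtain ⟨n0, hn0⟩ := eventually_atTop.1 hev
  refine ⟨n0, fun n hn => ?_⟩
  have h1 := hn0 n hn
  rw [hint n] at h1
  have h2 : |(b : ℤ) * c n - g.eval (n : ℤ)| < 1 := by
    have : ((|(b : ℤ) * c n - g.eval (n : ℤ)| : ℤ) : ℝ) < ((1 : ℤ) : ℝ) := by
      rw [Int.cast_abs, Int.cast_one]
      exact h1
    exact_mod_cast this
  have h3 : (b : ℤ) * c n - g.eval (n : ℤ) = 0 := Int.abs_lt_one_iff.1 h2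
  have h4 : ((b : ℤ) : ℚ) * c n = (b : ℤ) * f.eval (n : ℚ) := by
    rw [← hval n]
    have : (b : ℤ) * c n = g.eval (n : ℤ) := by linarith
    exact_mod_cast this
  have hbQ : ((b : ℤ) : ℚ) ≠ 0 := by exact_mod_cast hb0
  exact mul_left_cancel₀ hbQ h4

/-- a rational polynomial with `g(n) = o(n)` is constant -/
theorem const_of_little (g : ℚ[X])
    (h : Tendsto (fun n : ℕ => aeval (n : ℝ) g / (n : ℝ)) atTop (nhds 0)) : g.natDegree = 0 := by
  by_contra hne
  have hdeg : 1 ≤ g.natDegree := Nat.one_le_iff_ne_zero.2 hne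
  have hinj : Function.Injective (algebraMap ℚ ℝ) := (algebraMap ℚ ℝ).injective
  set G : ℝ[X] := g.map (algebraMap ℚ ℝ) with hG
  have hGdeg : G.natDegree = g.natDegree := Polynomial.natDegree_map_eq_of_injective hinj g
  have hG0 : G ≠ 0 := by
    intro h0
    rw [h0, natDegree_zero] at hGdeg
    omega
  have hXO : (fun x : ℝ => (X : ℝ[X]).eval x) =O[atTop] fun x : ℝ => G.eval x := by
    apply Polynomial.isBigO_atTop_of_degree_le
    rw [degree_X, Polynomial.degree_eq_natDegree hG0, hGdeg]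
    exact_mod_cast hdeg
  obtain ⟨C, hC⟩ := hXO.bound
  have hC' := tendsto_natCast_atTop_atTop.eventually hC
  have hCpos : 0 < |C| + 1 := by positivity
  have hsm : ∀ᶠ n : ℕ in atTop, |aeval (n : ℝ) g / (n : ℝ)| < 1 / (|C| + 1) := by
    have := (tendsto_zero_iff_abs_tendsto_zero _).1 h
    exact this.eventually (gt_mem_nhds (by positivity))
  obtain ⟨n, hn1, hn2, hn3⟩ := (hC'.and (hsm.and (eventually_ge_atTop 1))).exists
  have hnpos : (0 : ℝ) < n := by
    have : (1 : ℝ) ≤ n := by exact_mod_cast hn3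
    linarith
  have hGe : G.eval (n : ℝ) = aeval (n : ℝ) g := by
    rw [hG, Polynomial.eval_map_algebraMap]
  rw [eval_X, hGe, Real.norm_eq_abs, Real.norm_eq_abs, abs_of_pos hnpos] at hn1
  rw [abs_div, abs_of_pos hnpos, div_lt_div_iff₀ hnpos hCpos] at hn2
  have h5 : C * |aeval (n : ℝ) g| ≤ (|C| + 1) * |aeval (n : ℝ) g| :=
    mul_le_mul_of_nonneg_right (by linarith [le_abs_self C]) (abs_nonneg _)
  linarith

theorem rate_shape (R : ℕ → ℝ) (hR : ∀ n, 0 < R n) (f : ℚ[X]) (d : ℕ) (hd : 1 ≤ d)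
    (hdeg : f.natDegree = d)
    (hf : Tendsto (fun n : ℕ => R n - aeval (n : ℝ) f) atTop (nhds 0))
    (hrate : Tendsto (fun n : ℕ => (R (n + 1) / R n - 1 - d / n) * (n : ℝ) ^ d) atTop (nhds 0))
    (n : ℕ) (hn : 1 ≤ n) :
    f.eval (n : ℚ) = f.eval 0 + (f.eval 1 - f.eval 0) * ((n + d - 1).choose d : ℕ) := by
  -- `R n / n ^ d` is bounded
  have hbd : ∃ K : ℝ, ∀ᶠ n : ℕ in atTop, |R n / (n : ℝ) ^ d| ≤ K := by
    have hO : (fun x : ℝ => (f.map (algebraMap ℚ ℝ)).eval x) =O[atTop]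
        fun x : ℝ => ((X : ℝ[X]) ^ d).eval x := by
      apply Polynomial.isBigO_atTop_of_degree_le
      rw [degree_X_pow]
      exact (Polynomial.degree_map_le).trans (hdeg ▸ Polynomial.degree_le_natDegree)
    obtain ⟨C, hC⟩ := hO.bound
    have hC' := tendsto_natCast_atTop_atTop.eventually hC
    have hsm : ∀ᶠ n : ℕ in atTop, |R n - aeval (n : ℝ) f| < 1 := by
      have := (tendsto_zero_iff_abs_tendsto_zero _).1 hf
      exact this.eventually (gt_mem_nhds one_pos)
    refine ⟨C + 1, ?_⟩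
    filter_upwards [hC', hsm, eventually_ge_atTop 1] with n h1 h2 h3
    have hn1 : (1 : ℝ) ≤ n := by exact_mod_cast h3
    have hnpos : (0 : ℝ) < (n : ℝ) ^ d := by positivity
    have hn1d : (1 : ℝ) ≤ (n : ℝ) ^ d := one_le_pow₀ hn1
    rw [Polynomial.eval_map_algebraMap, eval_pow, eval_X, Real.norm_eq_abs, Real.norm_eq_abs,
      abs_of_pos hnpos] at h1
    rw [abs_div, abs_of_pos hnpos, div_le_iff₀ hnpos]
    have h4 : |R n| ≤ |aeval (n : ℝ) f| + |R n - aeval (n : ℝ) f| := by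
      have := abs_add_le (aeval (n : ℝ) f) (R n - aeval (n : ℝ) f)
      simpa using this
    nlinarith
  obtain ⟨K, hK⟩ := hbd
  -- the polynomial
  set g : ℚ[X] := X * f.comp (X + 1) - (X + C (d : ℚ)) * f with hg
  have hgv : ∀ x : ℝ, aeval x g = x * aeval (x + 1) f - (x + d) * aeval x f := by
    intro x
    rw [hg]
    simp [aeval_comp]
  have hlit : Tendsto (fun n : ℕ => aeval (n : ℝ) g / (n : ℝ)) atTop (nhds 0) := by
    have t1 : Tendsto (fun n : ℕ => R (n + 1) - aeval ((n : ℝ) + 1) f) atTop (nhds 0) := by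
      have := hf.comp (tendsto_add_atTop_nat 1)
      refine this.congr (fun n => ?_)
      simp
    have t2 : Tendsto (fun n : ℕ => (1 + (d : ℝ) / n) * (R n - aeval (n : ℝ) f)) atTop
        (nhds 0) := by
      have h1 : Tendsto (fun n : ℕ => 1 + (d : ℝ) / n) atTop (nhds (1 + 0)) :=
        tendsto_const_nhds.add (tendsto_const_div_atTop_nhds_zero_nat (d : ℝ))
      have := h1.mul hf
      rwa [mul_zero] at this
    have t3 : Tendsto (fun n : ℕ => (R n / (n : ℝ) ^ d)
        * ((R (n + 1) / R n - 1 - d / n) * (n : ℝ) ^ d)) atTop (nhds 0) := by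
      have hbdd : IsBoundedUnder (· ≤ ·) atTop (fun n : ℕ => ‖R n / (n : ℝ) ^ d‖) := by
        refine ⟨K, ?_⟩
        rw [eventually_map]
        filter_upwards [hK] with n h1
        rw [Real.norm_eq_abs]
        exact h1
      have := hrate.zero_mul_isBoundedUnder_le hbdd
      refine this.congr (fun n => ?_)
      ring
    have t4 := (t3.sub t1).add t2
    rw [sub_zero, add_zero] at t4
    refine t4.congr' ?_
    filter_upwards [eventually_ge_atTop 1] with n h3
    have hn0 : (n : ℝ) ≠ 0 := by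
      have : n ≠ 0 := by omega
      exact_mod_cast this
    have hRn := (hR n).ne'
    rw [hgv]
    field_simp
    ring
  have hg0 := const_of_little g hlit
  have hgc : ∀ m : ℕ, g.eval (m : ℚ) = -(d * f.eval 0) := by
    intro m
    have h1 : g = C (g.coeff 0) := Polynomial.eq_C_of_natDegree_eq_zero hg0
    have h2 : g.eval 0 = -(d * f.eval 0) := by
      rw [hg]
      simp
    have h3 : ∀ x : ℚ, g.eval x = g.coeff 0 := by
      intro x
      rw [h1]
      simp
    rw [h3, ← h3 0, h2]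
  have hrec : ∀ m : ℕ, (m : ℚ) * (f.eval ((m : ℚ) + 1) - f.eval 0)
      = (m + d) * (f.eval (m : ℚ) - f.eval 0) := by
    intro m
    have h1 := hgc m
    rw [hg] at h1
    simp [eval_comp] at h1
    linarith
  induction n, hn using Nat.le_induction with
  | base =>
    simp
  | succ n hn ih =>
    have h1 := hrec n
    have hnQ : (n : ℚ) ≠ 0 := by
      have : n ≠ 0 := by omega
      exact_mod_cast this
    have h2 : ((n + d - 1).choose d : ℚ) * (n + d) = ((n + d).choose d : ℚ) * n := by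
      have h3 := Nat.choose_mul_succ_eq (n + d - 1) d
      rw [show n + d - 1 + 1 = n + d by omega, show n + d - d = n by omega] at h3
      exact_mod_cast h3
    rw [show n + 1 + d - 1 = n + d by omega]
    push_cast
    have h4 : f.eval (n : ℚ) - f.eval 0 = (f.eval 1 - f.eval 0) * ((n + d - 1).choose d : ℕ) := by
      rw [ih]; ring
    rw [h4] at h1
    have h5 : (n : ℚ) * (f.eval ((n : ℚ) + 1) - f.eval 0)
        = n * ((f.eval 1 - f.eval 0) * ((n + d).choose d : ℕ)) := by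
      rw [h1]
      calc ((n : ℚ) + d) * ((f.eval 1 - f.eval 0) * ((n + d - 1).choose d : ℕ))
          = (f.eval 1 - f.eval 0) * (((n + d - 1).choose d : ℚ) * (n + d)) := by ring
        _ = _ := by rw [h2]; ring
    have h6 := mul_left_cancel₀ hnQ h5
    linarith

end Pool.Agent.PTN
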