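import Mathlib

set_option autoImplicit false

/-!
RVK: d >= 4096 even, n = d/2 >= 2048. Suppose every prime p with n < p < d - 1 divides u. Then the product of these primes divides u,
so it is < 16 n^2, and the product of the primes in (n, 2n] is < 32 n^3. The proof of Bertrand's postulate (Mathlib) gives a contradiction.
-/

namespace Pool.Agent.PTN

open Nat in
private theorem rvk_pow_bound : ∀ k : ℕ, 12 ≤ k → 16 * (k + 1) ^ 2 ≤ 2 ^ k := by
  intro k hk
  induction k, hk using Nat.le_induction with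
  | base => norm_num
  | succ k hk ih =>
    have h1 : (2 : ℕ) ^ (k + 1) = 2 * 2 ^ k := by ring
    have h2 : 16 * (k + 1 + 1) ^ 2 ≤ 2 * (16 * (k + 1) ^ 2) := by nlinarith
    omega

private theorem rvk_ineq (n : ℕ) (hn : 2048 ≤ n) :
    32 * n ^ 4 * (2 * n) ^ Nat.sqrt (2 * n) * 4 ^ (2 * n / 3) ≤ 4 ^ n := by
  set m := Nat.sqrt (2 * n) with hm
  set k := Nat.log 2 (2 * n) with hk
  have hne : 2 * n ≠ 0 := by omega
  have h1 : 2 ^ k ≤ 2 * n := Nat.pow_log_le_self 2 hne
  have h2 : 2 * n < 2 ^ (k + 1) := Nat.lt_pow_succ_log_self (by norm_num) _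
  have hk12 : 12 ≤ k := by
    rw [hk]
    apply Nat.le_log_of_pow_le (by norm_num)
    norm_num
    omega
  have hm1 : m * m ≤ 2 * n := Nat.sqrt_le (2 * n)
  have hm2 : 2 * n < (m + 1) * (m + 1) := Nat.lt_succ_sqrt (2 * n)
  have hkm : 4 * (k + 1) ≤ m := by
    by_contra hcon
    push Not at hcon
    have h3 : m + 1 ≤ 4 * (k + 1) := by omega
    have h4 : (m + 1) * (m + 1) ≤ 16 * (k + 1) ^ 2 := by nlinarith
    have h5 := rvk_pow_bound k hk12
    omega
  have hm64 : 52 ≤ m := by omega
  have key : 3 * (4 * k + 5) + 3 * ((k + 1) * m) ≤ 2 * n := by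
    nlinarith
  have hexp : 4 * k + 5 + (k + 1) * m + 2 * (2 * n / 3) ≤ 2 * n := by
    have : 3 * (2 * n / 3) ≤ 2 * n := Nat.mul_div_le _ _
    omega
  have hn2 : n < 2 ^ k := by
    rw [pow_succ] at h2
    omega
  calc 32 * n ^ 4 * (2 * n) ^ m * 4 ^ (2 * n / 3)
      ≤ 32 * (2 ^ k) ^ 4 * (2 ^ (k + 1)) ^ m * 4 ^ (2 * n / 3) := by
        gcongr
    _ = 2 ^ (4 * k + 5 + (k + 1) * m + 2 * (2 * n / 3)) := by
        have e1 : (32 : ℕ) = 2 ^ 5 := by norm_num
        have e2 : (4 : ℕ) = 2 ^ 2 := by norm_num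
        have e3 : (4 : ℕ) ^ (2 * n / 3) = 2 ^ (2 * (2 * n / 3)) := by
          rw [pow_mul]
          norm_num
        rw [e3, e1, ← pow_mul, ← pow_mul, ← pow_add, ← pow_add, ← pow_add]
        congr 1
        ring
    _ ≤ 2 ^ (2 * n) := Nat.pow_le_pow_right (by norm_num) hexp
    _ = 4 ^ n := by
        rw [pow_mul]
        norm_num

private theorem rvk_central (n : ℕ) (n_large : 2 < n) :
    Nat.centralBinom n ≤ (2 * n) ^ Nat.sqrt (2 * n) * 4 ^ (2 * n / 3) *
      ∏ p ∈ (Finset.Ioc n (2 * n)).filter Nat.Prime, p := by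
  have n_pos : 0 < n := (Nat.zero_le _).trans_lt n_large
  have n2_pos : 1 ≤ 2 * n := by omega
  let f : ℕ → ℕ := fun x => x ^ (Nat.centralBinom n).factorization x
  let S := {p ∈ Finset.range (2 * n / 3 + 1) | Nat.Prime p}
  let A := Finset.range (2 * n / 3 + 1)
  let B := (Finset.Ioc n (2 * n)).filter Nat.Prime
  have hdisj : Disjoint A B := by
    rw [Finset.disjoint_left]
    intro x hx hx'
    simp only [A, B, Finset.mem_range, Finset.mem_filter, Finset.mem_Ioc] at hx hx'
    omega
  have hprod : Nat.centralBinom n = (∏ p ∈ A, f p) * ∏ p ∈ B, f p := by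
    rw [← Finset.prod_union hdisj]
    refine (Eq.trans ?_ n.prod_pow_factorization_centralBinom).symm
    apply Finset.prod_subset
    · intro x hx
      simp only [A, B, Finset.mem_union, Finset.mem_range, Finset.mem_filter,
        Finset.mem_Ioc] at hx ⊢
      omega
    · intro x hx h2x
      rw [Finset.mem_range, Nat.lt_succ_iff] at hx
      simp only [A, B, Finset.mem_union, Finset.mem_range, Finset.mem_filter,
        Finset.mem_Ioc, not_or, not_and] at h2x
      by_cases hp : x.Prime
      · have h3 : x ≤ n := by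
          by_contra hcon
          exact h2x.2 ⟨by omega, hx⟩ hp
        have h4 : 2 * n < 3 * x := by omega
        show x ^ (Nat.centralBinom n).factorization x = 1
        rw [Nat.factorization_centralBinom_of_two_mul_self_lt_three_mul n_large h3 h4,
          Nat.pow_zero]
      · show x ^ (Nat.centralBinom n).factorization x = 1
        rw [Nat.factorization_eq_zero_of_not_prime n.centralBinom hp, Nat.pow_zero]
  have hB : ∏ p ∈ B, f p ≤ ∏ p ∈ B, p := by
    apply Finset.prod_le_prod' 
    intro p hp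
    simp only [B, Finset.mem_filter, Finset.mem_Ioc] at hp
    have h1 : (Nat.centralBinom n).factorization p ≤ 1 := by
      apply Nat.factorization_choose_le_one
      nlinarith [hp.1.1]
    show p ^ (Nat.centralBinom n).factorization p ≤ p
    calc p ^ (Nat.centralBinom n).factorization p ≤ p ^ 1 :=
          pow_right_mono₀ hp.2.one_lt.le h1
      _ = p := pow_one p
  have hA : ∏ p ∈ A, f p ≤ (2 * n) ^ Nat.sqrt (2 * n) * 4 ^ (2 * n / 3) := by
    have : ∏ x ∈ S, f x = ∏ x ∈ A, f x := by
      refine Finset.prod_filter_of_ne fun p _ h => ?_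
      contrapose h; dsimp only [f]
      rw [Nat.factorization_eq_zero_of_not_prime n.centralBinom h, _root_.pow_zero]
    rw [← this, ← Finset.prod_filter_mul_prod_filter_not S (· ≤ Nat.sqrt (2 * n))]
    apply mul_le_mul'
    · refine (Finset.prod_le_prod' fun p _ => (?_ : f p ≤ 2 * n)).trans ?_
      · exact Nat.pow_factorization_choose_le (mul_pos two_pos n_pos)
      have : (Finset.Icc 1 (Nat.sqrt (2 * n))).card = Nat.sqrt (2 * n) := by
        rw [Nat.card_Icc, Nat.add_sub_cancel]
      rw [Finset.prod_const]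
      refine pow_right_mono₀ n2_pos ((Finset.card_le_card fun x hx => ?_).trans this.le)
      obtain ⟨h1, h2⟩ := Finset.mem_filter.1 hx
      exact Finset.mem_Icc.mpr ⟨(Finset.mem_filter.1 h1).2.one_lt.le, h2⟩
    · refine le_trans ?_ (primorial_le_four_pow (2 * n / 3))
      refine (Finset.prod_le_prod' fun p hp => (?_ : f p ≤ p)).trans ?_
      · obtain ⟨h1, h2⟩ := Finset.mem_filter.1 hp
        refine (pow_right_mono₀ (Finset.mem_filter.1 h1).2.one_lt.le ?_).trans (pow_one p).le
        exact Nat.factorization_choose_le_one (Nat.sqrt_lt'.mp <| not_le.1 h2)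
      refine Finset.prod_le_prod_of_subset_of_one_le' (Finset.filter_subset _ _) ?_
      exact fun p hp _ => (Finset.mem_filter.1 hp).2.one_lt.le
  rw [hprod]
  exact Nat.mul_le_mul hA hB

theorem prime_not_dvd_large (d u : ℕ) (hd : Even d) (h4 : 4096 ≤ d) (hu : 1 ≤ u)
    (hu2 : u < 4 * d ^ 2) : ∃ p : ℕ, p.Prime ∧ d < 2 * p ∧ p + 1 < d ∧ ¬ p ∣ u := by
  by_contra hcon
  push Not at hcon
  obtain ⟨n, hn⟩ := hd
  have hn2 : d = 2 * n := by omega
  have hn3 : 2048 ≤ n := by omega
  -- the product over the primes in (n, 2n-2]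
  let S := (Finset.Ioc n (2 * n - 2)).filter Nat.Prime
  have hS : ∏ p ∈ S, p ∣ u := by
    apply Finset.prod_primes_dvd
    · intro p hp
      simp only [S, Finset.mem_filter, Finset.mem_Ioc] at hp
      exact hp.2.prime
    · intro p hp
      simp only [S, Finset.mem_filter, Finset.mem_Ioc] at hp
      exact hcon p hp.2 (by omega) (by omega)
  have hS2 : ∏ p ∈ S, p ≤ u := Nat.le_of_dvd (by omega) hS
  have hP : ∏ p ∈ (Finset.Ioc n (2 * n)).filter Nat.Prime, p ≤ u * (2 * n) := by
    have hsub : (Finset.Ioc n (2 * n)).filter Nat.Prime ⊆ S ∪ {2 * n - 1} := by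
      intro p hp
      simp only [S, Finset.mem_filter, Finset.mem_Ioc, Finset.mem_union,
        Finset.mem_singleton] at hp ⊢
      rcases Nat.lt_or_ge (2 * n - 2) p with h | h
      · right
        have h5 : p ≠ 2 * n := by
          intro h6
          have := (Nat.Prime.eq_one_or_self_of_dvd hp.2 2 ⟨n, h6⟩)
          omega
        omega
      · left
        exact ⟨⟨hp.1.1, h⟩, hp.2⟩
    calc ∏ p ∈ (Finset.Ioc n (2 * n)).filter Nat.Prime, p ≤ ∏ p ∈ S ∪ {2 * n - 1}, p := by
          refine Finset.prod_le_prod_of_subset_of_one_le' hsub ?_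
          intro p hp _
          simp only [S, Finset.mem_filter, Finset.mem_Ioc, Finset.mem_union,
            Finset.mem_singleton] at hp
          omega
      _ ≤ (∏ p ∈ S, p) * ∏ p ∈ ({2 * n - 1} : Finset ℕ), p := by
          have hdis : Disjoint S {2 * n - 1} := by
            rw [Finset.disjoint_singleton_right]
            simp only [S, Finset.mem_filter, Finset.mem_Ioc]
            omega
          rw [Finset.prod_union hdis]
      _ ≤ u * (2 * n) := by
          rw [Finset.prod_singleton]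
          exact Nat.mul_le_mul hS2 (by omega)
  have h1 := rvk_central n (by omega)
  have h2 := Nat.four_pow_lt_mul_centralBinom n (by omega)
  have h3 := rvk_ineq n hn3
  have h4' : u * (2 * n) ≤ 32 * n ^ 3 := by
    have : u ≤ 16 * n ^ 2 := by
      rw [hn2] at hu2
      nlinarith
    calc u * (2 * n) ≤ 16 * n ^ 2 * (2 * n) := Nat.mul_le_mul_right _ this
      _ = 32 * n ^ 3 := by ring
  have h5 : n * Nat.centralBinom n ≤ 32 * n ^ 4 * (2 * n) ^ Nat.sqrt (2 * n) * 4 ^ (2 * n / 3) := by
    calc n * Nat.centralBinom n ≤ n * ((2 * n) ^ Nat.sqrt (2 * n) * 4 ^ (2 * n / 3) *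
          ∏ p ∈ (Finset.Ioc n (2 * n)).filter Nat.Prime, p) := Nat.mul_le_mul_left _ h1
      _ ≤ n * ((2 * n) ^ Nat.sqrt (2 * n) * 4 ^ (2 * n / 3) * (32 * n ^ 3)) := by
          apply Nat.mul_le_mul_left
          apply Nat.mul_le_mul_left
          exact hP.trans h4'
      _ = 32 * n ^ 4 * (2 * n) ^ Nat.sqrt (2 * n) * 4 ^ (2 * n / 3) := by ring
  exact absurd (h2.trans_le (h5.trans h3)) (lt_irrefl _)

end Pool.Agent.PTN
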