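import Mathlib

set_option autoImplicit false

/-!
RVP: `choose n d` modulo `B` has period `B * d!` in `n`. Vandermonde (Nat.add_choose_eq): choose (n + L) d = sum_(i+j=d) choose n i * choose L j;
for 1 <= j <= d and L = k * (B * d!) we have j * choose L j = L * choose (L-1) (j-1) (Nat.succ_mul_choose_eq or Nat.add_one_mul_choose_eq), so
choose L j = k * B * (d!/j) * choose (L-1) (j-1) is divisible by B (Nat.dvd_factorial). Case k = 0 trivial.
-/

namespace Pool.Agent.PTN

private theorem rvp_dvd (B d k j : ℕ) (hj : 1 ≤ j) (hjd : j ≤ d) :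
    B ∣ (k * (B * d.factorial)).choose j := by
  obtain ⟨j', rfl⟩ : ∃ j', j = j' + 1 := ⟨j - 1, by omega⟩
  rcases Nat.eq_zero_or_pos (k * (B * d.factorial)) with h0 | h0
  · rw [h0, Nat.choose_zero_succ]
    exact dvd_zero _
  · obtain ⟨L, hL⟩ : ∃ L, k * (B * d.factorial) = L + 1 := ⟨k * (B * d.factorial) - 1, by omega⟩
    obtain ⟨c, hc⟩ : (j' + 1) ∣ d.factorial := Nat.dvd_factorial (Nat.succ_pos _) hjd
    have h1 : (L + 1) * L.choose j' = (L + 1).choose (j' + 1) * (j' + 1) :=
      Nat.add_one_mul_choose_eq L j'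
    rw [hL]
    have h2 : (L + 1).choose (j' + 1) * (j' + 1) = (k * B * c * L.choose j') * (j' + 1) := by
      rw [← h1, ← hL, hc]
      ring
    have h3 := Nat.eq_of_mul_eq_mul_right (Nat.succ_pos j') h2
    rw [h3]
    exact ⟨k * c * L.choose j', by ring⟩

theorem choose_period (B d n k : ℕ) :
    (n + k * (B * d.factorial)).choose d ≡ n.choose d [MOD B] := by
  rw [Nat.add_choose_eq]
  have hsplit : ∑ ij ∈ Finset.HasAntidiagonal.antidiagonal d, n.choose ij.1 * (k * (B * d.factorial)).choose ij.2
      = n.choose d + ∑ ij ∈ (Finset.HasAntidiagonal.antidiagonal d).erase (d, 0),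
          n.choose ij.1 * (k * (B * d.factorial)).choose ij.2 := by
    have hm : (d, 0) ∈ Finset.HasAntidiagonal.antidiagonal d := by simp
    rw [← Finset.add_sum_erase _ _ hm]
    simp
  rw [hsplit]
  have hz : (∑ ij ∈ (Finset.HasAntidiagonal.antidiagonal d).erase (d, 0),
      n.choose ij.1 * (k * (B * d.factorial)).choose ij.2) ≡ 0 [MOD B] := by
    rw [Nat.modEq_zero_iff_dvd]
    apply Finset.dvd_sum
    rintro ⟨i, j⟩ hij
    rw [Finset.mem_erase, Finset.HasAntidiagonal.mem_antidiagonal] at hij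
    obtain ⟨hne, hsum⟩ := hij
    simp only at hsum ⊢
    apply Dvd.dvd.mul_left
    apply rvp_dvd
    · by_contra hlt
      have hj0 : j = 0 := by omega
      subst hj0
      apply hne
      simp only [add_zero] at hsum
      rw [hsum]
    · omega
  simpa using Nat.ModEq.add_left (n.choose d) hz

end Pool.Agent.PTN
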