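import Mathlib
import Pool.Agent.PTN.RVP

set_option autoImplicit false

/-!
RVQ: backward chains modulo an explicit prime.
-/

namespace Pool.Agent.PTN

private theorem rvq_core (c Q a : ℕ → ℤ) (hc : ∀ n, a n * c n = c (n + 1) + Q n)
    (hQ : ∀ n, Q (n + 1) = a n * Q n) (n0 : ℕ) (g : ℤ) (hg : 0 < g) (N : ℕ → ℤ)
    (hN : ∀ n, n0 ≤ n → c n = g * N n) :
    ∃ q : ℕ → ℤ, (∀ m, n0 ≤ m → a m * N m = N (m + 1) + q m) ∧
      ∀ m, n0 ≤ m → q (m + 1) * N m = q m * (N (m + 1) + q m) := by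
  have hg0 : g ≠ 0 := hg.ne'
  have hq : ∀ m, n0 ≤ m → Q m = g * (a m * N m - N (m + 1)) := by
    intro m hm
    have h1 := hc m
    rw [hN m hm, hN (m + 1) (by omega)] at h1
    linear_combination -h1
  refine ⟨fun m => a m * N m - N (m + 1), fun m hm => by ring, fun m hm => ?_⟩
  have h1 := hQ m
  rw [hq m hm, hq (m + 1) (by omega)] at h1
  have h2 : a (m + 1) * N (m + 1) - N (m + 1 + 1) = a m * (a m * N m - N (m + 1)) := by
    apply mul_left_cancel₀ hg0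
    linear_combination h1
  show (a (m + 1) * N (m + 1) - N (m + 1 + 1)) * N m =
    (a m * N m - N (m + 1)) * (N (m + 1) + (a m * N m - N (m + 1)))
  rw [h2]
  ring

theorem chain_two (c Q a : ℕ → ℤ) (hc : ∀ n, a n * c n = c (n + 1) + Q n)
    (hQ : ∀ n, Q (n + 1) = a n * Q n) (d n0 : ℕ) (hd : 2 ≤ d) (g u : ℤ) (hg : 0 < g)
    (hshape : ∀ n, n0 ≤ n → c n = g * (u * ((n + d - 1).choose d : ℕ) + 1))
    (p n : ℕ) (hp : p.Prime) (hn : 2 ≤ n)
    (hdiv : (p : ℤ) ∣ u * ((n + d - 1).choose d : ℕ) + 1) :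
    ∃ x y : ℤ, (p : ℤ) ∣ x ^ 2 + (u * ((n + d - 2).choose d : ℕ) + 1) *
        (u * ((n + d).choose d : ℕ) + 1) ∧
      (p : ℤ) ∣ y * (y + (u * ((n + d - 2).choose d : ℕ) + 1)) -
        x * (u * ((n + d - 3).choose d : ℕ) + 1) := by
  obtain ⟨q, hq1, hq2⟩ := rvq_core c Q a hc hQ n0 g hg
    (fun m => u * ((m + d - 1).choose d : ℕ) + 1) hshape
  -- large time congruent to `n`
  have hL : 1 ≤ p * d.factorial := Nat.mul_pos hp.pos d.factorial_pos
  have hbig : n0 + 3 ≤ (n0 + 3) * (p * d.factorial) := Nat.le_mul_of_pos_right _ hL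
  obtain ⟨K, hK⟩ : ∃ K, K = (n0 + 3) * (p * d.factorial) := ⟨_, rfl⟩
  rw [← hK] at hbig
  have hper : ∀ e : ℕ, (((e + K).choose d : ℕ) : ZMod p) = ((e.choose d : ℕ) : ZMod p) := by
    intro e
    rw [hK]
    exact (ZMod.natCast_eq_natCast_iff _ _ _).2 (choose_period p d e (n0 + 3))
  have e0 : n + K + d - 1 = n + d - 1 + K := by omega
  have e1 : n + K + 1 + d - 1 = n + d + K := by omega
  obtain ⟨m1, hm1⟩ : ∃ m1, n + K = m1 + 1 := ⟨n + K - 1, by omega⟩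
  obtain ⟨m2, hm2⟩ : ∃ m2, m1 = m2 + 1 := ⟨m1 - 1, by omega⟩
  have e2 : m1 + d - 1 = n + d - 2 + K := by omega
  have e3 : m2 + d - 1 = n + d - 3 + K := by omega
  have f0 := hq1 (n + K) (by omega)
  have f1 := hq2 m1 (by omega)
  have f2 := hq2 m2 (by omega)
  have e4 : m2 + 1 = m1 := hm2.symm
  have e5 : m1 + 1 = n + K := hm1.symm
  simp only [e4] at f2
  simp only [e5] at f1
  rw [e0, e1] at f0
  rw [e0, e2] at f1
  rw [e2, e3] at f2
  have z0 := congrArg (Int.cast : ℤ → ZMod p) f0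
  have z1 := congrArg (Int.cast : ℤ → ZMod p) f1
  have z2 := congrArg (Int.cast : ℤ → ZMod p) f2
  push_cast at z0 z1 z2
  simp only [hper] at z0 z1 z2
  have hd0 : ((u : ZMod p)) * (((n + d - 1).choose d : ℕ) : ZMod p) + 1 = 0 := by
    have h1 := (ZMod.intCast_zmod_eq_zero_iff_dvd _ p).2 hdiv
    push_cast at h1
    exact h1
  rw [hd0] at z0 z1
  refine ⟨q m1, q m2, ?_, ?_⟩
  · rw [← ZMod.intCast_zmod_eq_zero_iff_dvd]
    push_cast
    linear_combination -z1 - ((u : ZMod p) * (((n + d - 2).choose d : ℕ) : ZMod p) + 1) * z0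
  · rw [← ZMod.intCast_zmod_eq_zero_iff_dvd]
    push_cast
    linear_combination -z2

theorem chain_one (c Q a : ℕ → ℤ) (hc : ∀ n, a n * c n = c (n + 1) + Q n)
    (hQ : ∀ n, Q (n + 1) = a n * Q n) (d n0 : ℕ) (hd : 2 ≤ d) (g u : ℤ) (hg : 0 < g)
    (hshape : ∀ n, n0 ≤ n → c n = g * (u * ((n + d - 1).choose d : ℕ) + 1))
    (p n : ℕ) (hp : p.Prime) (hn : 1 ≤ n)
    (hdiv : (p : ℤ) ∣ u * ((n + d - 1).choose d : ℕ) + 1) :
    ∃ x : ℤ, (p : ℤ) ∣ x ^ 2 + (u * ((n + d - 2).choose d : ℕ) + 1) *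
        (u * ((n + d).choose d : ℕ) + 1) := by
  obtain ⟨q, hq1, hq2⟩ := rvq_core c Q a hc hQ n0 g hg
    (fun m => u * ((m + d - 1).choose d : ℕ) + 1) hshape
  have hL : 1 ≤ p * d.factorial := Nat.mul_pos hp.pos d.factorial_pos
  have hbig : n0 + 3 ≤ (n0 + 3) * (p * d.factorial) := Nat.le_mul_of_pos_right _ hL
  obtain ⟨K, hK⟩ : ∃ K, K = (n0 + 3) * (p * d.factorial) := ⟨_, rfl⟩
  rw [← hK] at hbig
  have hper : ∀ e : ℕ, (((e + K).choose d : ℕ) : ZMod p) = ((e.choose d : ℕ) : ZMod p) := by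
    intro e
    rw [hK]
    exact (ZMod.natCast_eq_natCast_iff _ _ _).2 (choose_period p d e (n0 + 3))
  have e0 : n + K + d - 1 = n + d - 1 + K := by omega
  have e1 : n + K + 1 + d - 1 = n + d + K := by omega
  obtain ⟨m1, hm1⟩ : ∃ m1, n + K = m1 + 1 := ⟨n + K - 1, by omega⟩
  have e2 : m1 + d - 1 = n + d - 2 + K := by omega
  have f0 := hq1 (n + K) (by omega)
  have f1 := hq2 m1 (by omega)
  have e5 : m1 + 1 = n + K := hm1.symm
  simp only [e5] at f1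
  rw [e0, e1] at f0
  rw [e0, e2] at f1
  have z0 := congrArg (Int.cast : ℤ → ZMod p) f0
  have z1 := congrArg (Int.cast : ℤ → ZMod p) f1
  push_cast at z0 z1
  simp only [hper] at z0 z1
  have hd0 : ((u : ZMod p)) * (((n + d - 1).choose d : ℕ) : ZMod p) + 1 = 0 := by
    have h1 := (ZMod.intCast_zmod_eq_zero_iff_dvd _ p).2 hdiv
    push_cast at h1
    exact h1
  rw [hd0] at z0 z1
  refine ⟨q m1, ?_⟩
  rw [← ZMod.intCast_zmod_eq_zero_iff_dvd]
  push_cast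
  linear_combination -z1 - ((u : ZMod p) * (((n + d - 2).choose d : ℕ) : ZMod p) + 1) * z0

end Pool.Agent.PTN
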