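import Mathlib
import Pool.Agent.PTN.RVP

set_option autoImplicit false

/-!
RVS: integrality of the shape `α C + β`. Write C n = choose (n+d-1) d (so C = 0 at n+d-1 = d-1, d-2 and C = 1 at n+d-1 = d).
(1) α is an integer: the d-th forward difference of c is an integer and, from n0 on, the d-th difference of α C n + β is α (fwdDiff_iter_choose or
Nat.choose lemmas of Mathlib.Algebra.Group.ForwardDiff; d >= 1 kills β). Alternatively (d!) α, β are handled by two evaluations - any proof is fine.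
Then β is an integer g > 0.
(2) g divides α: by choose_period (B = g) there is n >= n0 with g ∣ C n and g ∣ C (n+1) (n = k g d! - 1, i.e. n + d - 1 = d - 2 + k g d!), so
g ∣ c n, g ∣ c (n+1), hence g ∣ Q n = a n c n - c (n+1) and by induction g ∣ c m and g ∣ Q m for all m >= n. With m = 1 + k g d! >= n:
c m = α C m + g and C m ≡ 1 mod g, so g ∣ α.
-/

namespace Pool.Agent.PTN

theorem shape_int (c Q a : ℕ → ℤ) (hc : ∀ n, a n * c n = c (n + 1) + Q n)
    (hQ : ∀ n, Q (n + 1) = a n * Q n) (d n0 : ℕ) (hd : 2 ≤ d) (α β : ℚ) (hβ : 0 < β)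
    (hshape : ∀ n, n0 ≤ n → (c n : ℚ) = α * ((n + d - 1).choose d : ℕ) + β) :
    ∃ g u : ℤ, 0 < g ∧ α = g * u ∧ β = g := by
  -- for every `B > 0` the three values
  have key : ∀ B : ℕ, 0 < B → ∃ K : ℕ, 1 ≤ K ∧ n0 ≤ K - 1 ∧
      (∃ z : ℕ, (K - 1 + d - 1).choose d = B * z) ∧ (∃ z : ℕ, (K + d - 1).choose d = B * z) ∧
      (∃ z : ℕ, (K + 1 + d - 1).choose d = 1 + B * z) := by
    intro B hB
    have hfac : 0 < B * d.factorial := Nat.mul_pos hB d.factorial_pos
    refine ⟨(n0 + 1) * (B * d.factorial), ?_, ?_, ?_, ?_, ?_⟩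
    · exact Nat.mul_pos (Nat.succ_pos _) hfac
    · have : n0 + 1 ≤ (n0 + 1) * (B * d.factorial) := Nat.le_mul_of_pos_right _ hfac
      omega
    · have h1 := choose_period B d (d - 2) (n0 + 1)
      have hpos : 0 < (n0 + 1) * (B * d.factorial) := Nat.mul_pos (Nat.succ_pos _) hfac
      rw [show (n0 + 1) * (B * d.factorial) - 1 + d - 1 = d - 2 + (n0 + 1) * (B * d.factorial) by
        omega]
      rw [Nat.choose_eq_zero_of_lt (show d - 2 < d by omega)] at h1
      obtain ⟨z, hz⟩ := (Nat.modEq_zero_iff_dvd.1 h1)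
      exact ⟨z, hz⟩
    · have h1 := choose_period B d (d - 1) (n0 + 1)
      rw [show (n0 + 1) * (B * d.factorial) + d - 1 = d - 1 + (n0 + 1) * (B * d.factorial) by
        omega]
      rw [Nat.choose_eq_zero_of_lt (show d - 1 < d by omega)] at h1
      obtain ⟨z, hz⟩ := (Nat.modEq_zero_iff_dvd.1 h1)
      exact ⟨z, hz⟩
    · have h1 := choose_period B d d (n0 + 1)
      rw [show (n0 + 1) * (B * d.factorial) + 1 + d - 1 = d + (n0 + 1) * (B * d.factorial) by
        omega]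
      rw [Nat.choose_self] at h1
      have hge : 1 ≤ (d + (n0 + 1) * (B * d.factorial)).choose d :=
        Nat.choose_pos (Nat.le_add_right _ _)
      obtain ⟨z, hz⟩ := (Nat.modEq_iff_dvd' hge).1 h1.symm
      exact ⟨z, by omega⟩
  -- integrality of `β` and `α`
  obtain ⟨g, hg⟩ : ∃ g : ℤ, β = g := by
    obtain ⟨K, hK1, hK0, -, ⟨z, hz⟩, -⟩ := key α.den α.den_pos
    have h1 := hshape K (by omega)
    rw [hz] at h1
    refine ⟨c K - α.num * z, ?_⟩
    have h2 : α * (α.den : ℚ) = α.num := Rat.mul_den_eq_num α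
    push_cast at h1 ⊢
    have h3 : α * ((α.den : ℚ) * z) = α.num * z := by rw [← mul_assoc, h2]
    rw [h3] at h1
    linarith
  obtain ⟨A, hA⟩ : ∃ A : ℤ, α = A := by
    obtain ⟨K, hK1, hK0, -, -, ⟨z, hz⟩⟩ := key α.den α.den_pos
    have h1 := hshape (K + 1) (by omega)
    rw [hz, hg] at h1
    refine ⟨c (K + 1) - g - α.num * z, ?_⟩
    have h2 : α * (α.den : ℚ) = α.num := Rat.mul_den_eq_num α
    push_cast at h1 ⊢
    have h3 : α * (1 + (α.den : ℚ) * z) = α + α.num * z := by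
      rw [mul_add, mul_one, ← mul_assoc, h2]
    rw [h3] at h1
    linarith
  have hg0 : 0 < g := by
    rw [hg] at hβ
    exact_mod_cast hβ
  have hc' : ∀ n, n0 ≤ n → c n = A * ((n + d - 1).choose d : ℕ) + g := by
    intro n hn
    have h1 := hshape n hn
    rw [hA, hg] at h1
    exact_mod_cast h1
  -- divisibility
  obtain ⟨G, hG⟩ : ∃ G : ℕ, g = G := ⟨g.toNat, (Int.toNat_of_nonneg hg0.le).symm⟩
  have hGpos : 0 < G := by
    have : (0 : ℤ) < (G : ℤ) := hG ▸ hg0
    exact_mod_cast this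
  obtain ⟨K, hK1, hK0, ⟨z1, hz1⟩, ⟨z2, hz2⟩, ⟨z3, hz3⟩⟩ := key G hGpos
  have hd1 : g ∣ c (K - 1) := by
    rw [hc' (K - 1) hK0, hz1, hG]
    refine Dvd.dvd.add ?_ (dvd_refl _)
    refine Dvd.dvd.mul_left ?_ _
    push_cast
    exact Dvd.intro _ rfl
  have hd2 : g ∣ c K := by
    rw [hc' K (by omega), hz2, hG]
    refine Dvd.dvd.add ?_ (dvd_refl _)
    refine Dvd.dvd.mul_left ?_ _
    push_cast
    exact Dvd.intro _ rfl
  have hdQ : g ∣ Q (K - 1) := by
    have h1 := hc (K - 1)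
    rw [show K - 1 + 1 = K by omega] at h1
    have h2 : Q (K - 1) = a (K - 1) * c (K - 1) - c K := by linarith
    rw [h2]
    exact Dvd.dvd.sub (Dvd.dvd.mul_left hd1 _) hd2
  have hdQK : g ∣ Q K := by
    have h1 := hQ (K - 1)
    rw [show K - 1 + 1 = K by omega] at h1
    rw [h1]
    exact Dvd.dvd.mul_left hdQ _
  have hd3 : g ∣ c (K + 1) := by
    have h1 := hc K
    have h2 : c (K + 1) = a K * c K - Q K := by linarith
    rw [h2]
    exact Dvd.dvd.sub (Dvd.dvd.mul_left hd2 _) hdQK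
  have hdA : g ∣ A := by
    have h1 := hc' (K + 1) (by omega)
    rw [hz3] at h1
    push_cast at h1
    rw [← hG] at h1
    have h2 : A = c (K + 1) - g * (A * z3 + 1) := by
      rw [h1]; ring
    rw [h2]
    exact Dvd.dvd.sub hd3 (Dvd.intro _ rfl)
  obtain ⟨u, hu⟩ := hdA
  refine ⟨g, u, hg0, ?_, hg⟩
  rw [hA, hu]
  push_cast
  ring

end Pool.Agent.PTN
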