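import Mathlib

set_option autoImplicit false

/-!
RVT: finite check, table of (d, u, p, n). For d = 2, 4, 6 all u, for d = 8..18 only the u divisible by every prime of
(d/2, d-1) need the table (others: left alternative with the prime 5 for d=8, 7 for d = 10, 12, 11 for d = 14, 11 or 13 for d = 16, 18).
-/

namespace Pool.Agent.PTN

/-- the certificates (d, u, p, n) -/
def tabT : List (ℕ × ℕ × ℕ × ℕ) :=
  [(2, 1, 7, 3), (2, 2, 3, 1), (2, 3, 17, 7), (2, 4, 5, 1), (2, 5, 3, 1), (2, 7, 11, 2),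
   (4, 1, 31, 9), (4, 2, 11, 2), (4, 3, 29, 10), (4, 4, 7, 2), (4, 5, 11, 4), (4, 6, 13, 3),
   (4, 7, 31, 13), (4, 8, 11, 3), (4, 9, 23, 2), (4, 10, 13, 4), (4, 11, 7, 2), (4, 12, 17, 6),
   (4, 13, 11, 2), (4, 14, 29, 9), (4, 15, 19, 2), (4, 16, 11, 4), (4, 17, 31, 8), (4, 18, 7, 2),
   (4, 19, 11, 3), (4, 20, 23, 8), (4, 21, 23, 4), (4, 22, 23, 5), (4, 23, 13, 4),
   (4, 24, 11, 2), (4, 25, 7, 2), (6, 1, 43, 14), (6, 2, 37, 6), (6, 3, 17, 3), (6, 4, 29, 2),
   (6, 5, 43, 15), (6, 6, 7, 1), (6, 7, 23, 9), (6, 8, 19, 2), (6, 9, 11, 3), (6, 10, 11, 1),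
   (6, 11, 19, 7), (6, 12, 13, 1), (6, 13, 7, 1), (6, 14, 31, 8), (6, 15, 29, 6), (6, 16, 17, 1),
   (6, 17, 23, 7), (6, 18, 19, 5), (6, 19, 13, 3), (6, 20, 7, 1), (6, 21, 11, 1), (6, 22, 29, 7),
   (6, 23, 29, 8), (6, 24, 97, 38), (6, 25, 13, 1), (6, 26, 31, 7), (6, 27, 7, 1),
   (6, 28, 53, 15), (6, 29, 17, 2), (6, 30, 19, 7), (6, 31, 11, 3), (6, 32, 11, 1),
   (6, 33, 17, 1), (6, 34, 7, 1), (6, 35, 41, 2), (6, 36, 23, 2), (6, 37, 17, 3), (6, 38, 13, 1),
   (6, 39, 37, 6), (6, 40, 23, 7), (6, 41, 7, 1), (6, 42, 11, 3), (6, 43, 11, 1), (6, 44, 29, 6),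
   (6, 45, 13, 3), (6, 46, 17, 2), (6, 47, 101, 6), (6, 48, 7, 1), (8, 5, 3, 1), (8, 10, 11, 1),
   (8, 15, 47, 5), (8, 20, 3, 1), (8, 25, 13, 1), (8, 30, 61, 22), (8, 35, 3, 1), (8, 40, 19, 2),
   (8, 45, 29, 2), (8, 50, 3, 1), (8, 55, 41, 10), (8, 60, 23, 8), (8, 65, 3, 1), (8, 70, 23, 3),
   (8, 75, 13, 2), (10, 7, 23, 6), (10, 14, 31, 2), (10, 21, 11, 1), (10, 28, 29, 1),
   (10, 35, 19, 5), (10, 42, 41, 4), (10, 49, 41, 10), (10, 56, 19, 1), (10, 63, 23, 7),
   (10, 70, 31, 11), (10, 77, 53, 2), (10, 84, 17, 1), (10, 91, 23, 1), (10, 98, 11, 1),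
   (10, 105, 17, 2), (12, 7, 29, 7), (12, 14, 5, 1), (12, 21, 29, 6), (12, 28, 5, 6),
   (12, 35, 47, 8), (12, 42, 29, 4), (12, 49, 5, 1), (12, 56, 19, 1), (12, 63, 5, 6),
   (12, 70, 23, 3), (12, 77, 19, 4), (12, 84, 5, 1), (12, 91, 23, 6), (12, 98, 5, 6),
   (12, 105, 53, 1), (12, 112, 31, 2), (12, 119, 5, 1), (12, 126, 43, 12), (12, 133, 5, 6),
   (12, 140, 31, 3), (14, 11, 3, 1), (14, 22, 3, 4), (14, 33, 17, 1), (14, 44, 3, 1),
   (14, 55, 3, 4), (14, 66, 37, 4), (14, 77, 3, 1), (14, 88, 3, 4), (14, 99, 23, 4),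
   (14, 110, 3, 1), (14, 121, 3, 4), (14, 132, 19, 1), (14, 143, 3, 1), (14, 154, 3, 4),
   (14, 165, 29, 4), (14, 176, 3, 1), (16, 143, 7, 9), (18, 143, 7, 16)]

/-- the primes used -/
def prT : List ℕ := [3, 5, 7, 11, 13, 17, 19, 23, 29, 31, 37, 41, 43, 47, 53, 61, 97, 101]

/-- fast binomial coefficient -/
def binT (n d : ℕ) : ℕ := n.descFactorial d / d.factorial

/-- validity of one certificate -/
def okT (e : ℕ × ℕ × ℕ × ℕ) : Bool :=
  (prT.contains e.2.2.1 && (1 ≤ e.2.2.2 : Bool)) &&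
    (((e.2.1 * binT (e.2.2.2 + e.1 - 1) e.1 + 1) % e.2.2.1 == 0) &&
      (List.range e.2.2.1).all fun x =>
        !((x ^ 2 + (e.2.1 * binT (e.2.2.2 + e.1 - 2) e.1 + 1) *
          (e.2.1 * binT (e.2.2.2 + e.1) e.1 + 1)) % e.2.2.1 == 0))

/-- (d, u) is in the table -/
def inT (d u : ℕ) : Bool := tabT.any fun e => e.1 == d && e.2.1 == u

theorem prT_prime : ∀ p ∈ prT, p.Prime := by
  intro p hp
  simp only [prT, List.mem_cons, List.not_mem_nil, or_false] at hp
  rcases hp with h | h | h | h | h | h | h | h | h | h | h | h | h | h | h | h | h | h <;>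
    (subst h; norm_num)

theorem binT_eq (n d : ℕ) : binT n d = n.choose d :=
  (Nat.choose_eq_descFactorial_div_factorial n d).symm

theorem tabT_ok : (tabT.all okT) = true := by decide +kernel

theorem kill_of_inT (d u : ℕ) (h : inT d u = true) :
    ∃ p n : ℕ, p.Prime ∧ 1 ≤ n ∧ p ∣ u * (n + d - 1).choose d + 1 ∧
      ∀ x : ℕ, x < p → ¬ p ∣ x ^ 2 + (u * (n + d - 2).choose d + 1) *
        (u * (n + d).choose d + 1) := by
  unfold inT at h
  rw [List.any_eq_true] at h
  obtain ⟨e, he, hdu⟩ := h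
  have hok := List.all_eq_true.mp tabT_ok e he
  obtain ⟨d', u', p, n⟩ := e
  simp only [Bool.and_eq_true, beq_iff_eq] at hdu
  obtain ⟨h1, h2⟩ := hdu
  subst h1
  subst h2
  simp only [okT, Bool.and_eq_true, List.contains_iff_mem, decide_eq_true_eq, beq_iff_eq,
    List.all_eq_true, List.mem_range, Bool.not_eq_true', beq_eq_false_iff_ne, binT_eq] at hok
  obtain ⟨⟨h3, h4⟩, h5, h6⟩ := hok
  refine ⟨p, n, prT_prime p h3, h4, Nat.dvd_of_mod_eq_zero h5, fun x hx hdvd => ?_⟩
  exact h6 x hx (Nat.mod_eq_zero_of_dvd hdvd)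

theorem table_kill (d u : ℕ) (hd : Even d) (h2 : 2 ≤ d) (h18 : d ≤ 18) (hu : 1 ≤ u)
    (hb : u * (2 * d).choose d < (2 * d - 1) * 4 ^ d) (hne : ¬ (d = 2 ∧ u = 6)) :
    (∃ p : ℕ, p.Prime ∧ d < 2 * p ∧ p + 1 < d ∧ ¬ p ∣ u) ∨
    ∃ p n : ℕ, p.Prime ∧ 1 ≤ n ∧ p ∣ u * (n + d - 1).choose d + 1 ∧
      ∀ x : ℕ, x < p → ¬ p ∣ x ^ 2 + (u * (n + d - 2).choose d + 1) *
        (u * (n + d).choose d + 1) := by
  obtain ⟨e, he⟩ := hd
  have hd' : d = 2 ∨ d = 4 ∨ d = 6 ∨ d = 8 ∨ d = 10 ∨ d = 12 ∨ d = 14 ∨ d = 16 ∨ d = 18 := by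
    omega
  rw [← binT_eq] at hb
  rcases hd' with h | h | h | h | h | h | h | h | h <;> subst h
  · have hc : binT (2 * 2) 2 = 6 := by decide +kernel
    rw [hc] at hb
    right
    apply kill_of_inT
    have key : ∀ v < 8, (v == 0 || v == 6 || inT 2 v) = true := by decide +kernel
    have hk := key u (by omega)
    simp only [Bool.or_eq_true, beq_iff_eq] at hk
    rcases hk with (hk | hk) | hk <;> first | exact hk | (exfalso; omega)
  · have hc : binT (2 * 4) 4 = 70 := by decide +kernel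
    rw [hc] at hb
    right
    apply kill_of_inT
    have key : ∀ v < 26, (v == 0 || inT 4 v) = true := by decide +kernel
    have hk := key u (by omega)
    simp only [Bool.or_eq_true, beq_iff_eq] at hk
    rcases hk with hk | hk <;> first | exact hk | (exfalso; omega)
  · have hc : binT (2 * 6) 6 = 924 := by decide +kernel
    rw [hc] at hb
    right
    apply kill_of_inT
    have key : ∀ v < 49, (v == 0 || inT 6 v) = true := by decide +kernel
    have hk := key u (by omega)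
    simp only [Bool.or_eq_true, beq_iff_eq] at hk
    rcases hk with hk | hk <;> first | exact hk | (exfalso; omega)
  · have hc : binT (2 * 8) 8 = 12870 := by decide +kernel
    rw [hc] at hb
    by_cases q5 : 5 ∣ u
    swap
    · exact Or.inl ⟨5, by norm_num, by norm_num, by norm_num, q5⟩
    right
    apply kill_of_inT
    have key : ∀ v < 77, (v == 0 || !(v % 5 == 0) || inT 8 v) = true := by decide +kernel
    have hk := key u (by omega)
    simp only [Bool.or_eq_true, beq_iff_eq, Bool.not_eq_true', beq_eq_false_iff_ne] at hk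
    rcases hk with (hk | hk) | hk <;> first | exact hk | (exfalso; omega)
  · have hc : binT (2 * 10) 10 = 184756 := by decide +kernel
    rw [hc] at hb
    by_cases q7 : 7 ∣ u
    swap
    · exact Or.inl ⟨7, by norm_num, by norm_num, by norm_num, q7⟩
    right
    apply kill_of_inT
    have key : ∀ v < 108, (v == 0 || !(v % 7 == 0) || inT 10 v) = true := by decide +kernel
    have hk := key u (by omega)
    simp only [Bool.or_eq_true, beq_iff_eq, Bool.not_eq_true', beq_eq_false_iff_ne] at hk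
    rcases hk with (hk | hk) | hk <;> first | exact hk | (exfalso; omega)
  · have hc : binT (2 * 12) 12 = 2704156 := by decide +kernel
    rw [hc] at hb
    by_cases q7 : 7 ∣ u
    swap
    · exact Or.inl ⟨7, by norm_num, by norm_num, by norm_num, q7⟩
    right
    apply kill_of_inT
    have key : ∀ v < 143, (v == 0 || !(v % 7 == 0) || inT 12 v) = true := by decide +kernel
    have hk := key u (by omega)
    simp only [Bool.or_eq_true, beq_iff_eq, Bool.not_eq_true', beq_eq_false_iff_ne] at hk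
    rcases hk with (hk | hk) | hk <;> first | exact hk | (exfalso; omega)
  · have hc : binT (2 * 14) 14 = 40116600 := by decide +kernel
    rw [hc] at hb
    by_cases q11 : 11 ∣ u
    swap
    · exact Or.inl ⟨11, by norm_num, by norm_num, by norm_num, q11⟩
    right
    apply kill_of_inT
    have key : ∀ v < 181, (v == 0 || !(v % 11 == 0) || inT 14 v) = true := by decide +kernel
    have hk := key u (by omega)
    simp only [Bool.or_eq_true, beq_iff_eq, Bool.not_eq_true', beq_eq_false_iff_ne] at hk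
    rcases hk with (hk | hk) | hk <;> first | exact hk | (exfalso; omega)
  · have hc : binT (2 * 16) 16 = 601080390 := by decide +kernel
    rw [hc] at hb
    by_cases q11 : 11 ∣ u
    swap
    · exact Or.inl ⟨11, by norm_num, by norm_num, by norm_num, q11⟩
    by_cases q13 : 13 ∣ u
    swap
    · exact Or.inl ⟨13, by norm_num, by norm_num, by norm_num, q13⟩
    right
    apply kill_of_inT
    have key : ∀ v < 222, (v == 0 || !(v % 11 == 0) || !(v % 13 == 0) || inT 16 v) = true := by decide +kernel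
    have hk := key u (by omega)
    simp only [Bool.or_eq_true, beq_iff_eq, Bool.not_eq_true', beq_eq_false_iff_ne] at hk
    rcases hk with ((hk | hk) | hk) | hk <;> first | exact hk | (exfalso; omega)
  · have hc : binT (2 * 18) 18 = 9075135300 := by decide +kernel
    rw [hc] at hb
    by_cases q11 : 11 ∣ u
    swap
    · exact Or.inl ⟨11, by norm_num, by norm_num, by norm_num, q11⟩
    by_cases q13 : 13 ∣ u
    swap
    · exact Or.inl ⟨13, by norm_num, by norm_num, by norm_num, q13⟩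
    right
    apply kill_of_inT
    have key : ∀ v < 266, (v == 0 || !(v % 11 == 0) || !(v % 13 == 0) || inT 18 v) = true := by decide +kernel
    have hk := key u (by omega)
    simp only [Bool.or_eq_true, beq_iff_eq, Bool.not_eq_true', beq_eq_false_iff_ne] at hk
    rcases hk with ((hk | hk) | hk) | hk <;> first | exact hk | (exfalso; omega)

end Pool.Agent.PTN
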