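import Pool.Agent.PTN.FIM
import Pool.Agent.PTN.RTA
import Pool.Agent.PTN.RTB
import Pool.Agent.PTN.RVS
import Pool.Agent.PTN.RVQ
import Pool.Agent.PTN.RVB
import Pool.Agent.PTN.RVF
import Pool.Agent.PTN.RVK
import Pool.Agent.PTN.RVE
import Pool.Agent.PTN.RVC
import Pool.Agent.PTN.RVT
import Pool.Agent.PTN.RVI

set_option autoImplicit false

/-!
RVZ: rates `1 + d/n + o(n^-d)` with `d > 1` real: irrational sum.
-/

namespace Pool.Agent.PTN

open NumberField Polynomial Filter Pool.Agent.SYL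

/-- A prime of `(d/2, d-1)` not dividing `u`, for `d ≥ 20`. -/
theorem prime_not_dvd (d u : ℕ) (hd : Even d) (h20 : 20 ≤ d) (hu : 1 ≤ u)
    (hu2 : u < 4 * d ^ 2) : ∃ p : ℕ, p.Prime ∧ d < 2 * p ∧ p + 1 < d ∧ ¬ p ∣ u := by
  rcases Nat.lt_or_ge d 4096 with h | h
  · exact prime_not_dvd_small d u hd h20 (by omega) hu hu2
  · exact prime_not_dvd_large d u hd h hu hu2

theorem bound_sq (d u : ℕ) (hd : 1 ≤ d) (h : u * (2 * d).choose d < (2 * d - 1) * 4 ^ d) :
    u < 4 * d ^ 2 := by
  have h1 : 4 ^ d ≤ 2 * d * d.centralBinom := Nat.four_pow_le_two_mul_self_mul_centralBinom d hd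
  have h2 : d.centralBinom = (2 * d).choose d := rfl
  have h3 : 0 < (2 * d).choose d := Nat.choose_pos (by omega)
  by_contra hcon
  push Not at hcon
  rw [h2] at h1
  have h4 : (2 * d - 1) * 4 ^ d ≤ (2 * d) * (2 * d * (2 * d).choose d) :=
    Nat.mul_le_mul (by omega) h1
  have h5 : 4 * d ^ 2 * (2 * d).choose d ≤ u * (2 * d).choose d := Nat.mul_le_mul_right _ hcon
  have h6 : 4 * d ^ 2 * (2 * d).choose d = (2 * d) * (2 * d * (2 * d).choose d) := by ring
  omega

/-- The case `(d, u) = (2, 6)`: no chain of length two modulo 7. -/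
theorem seven_kill (x y : ℤ) (h1 : (7 : ℤ) ∣ x ^ 2 + 169 * 271)
    (h2 : (7 : ℤ) ∣ y * (y + 169) - x * 127) : False := by
  have e1 : ((x : ZMod 7)) ^ 2 + 169 * 271 = 0 := by
    have := (ZMod.intCast_zmod_eq_zero_iff_dvd (x ^ 2 + 169 * 271) 7).2 (by exact_mod_cast h1)
    push_cast at this
    exact this
  have e2 : (y : ZMod 7) * (y + 169) - x * 127 = 0 := by
    have := (ZMod.intCast_zmod_eq_zero_iff_dvd (y * (y + 169) - x * 127) 7).2
      (by exact_mod_cast h2)
    push_cast at this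
    exact this
  have key : ∀ a b : ZMod 7, a ^ 2 + 169 * 271 = 0 → b * (b + 169) - a * 127 = 0 → False := by
    decide
  exact key _ _ e1 e2

theorem even_false (c Q a : ℕ → ℤ) (hc : ∀ n, a n * c n = c (n + 1) + Q n)
    (hQ : ∀ n, Q (n + 1) = a n * Q n) (hpos : ∀ n, 0 < c n) (F : ℚ[X]) (n0 : ℕ)
    (hcF : ∀ n, n0 ≤ n → (c n : ℚ) = F.eval (n : ℚ)) (d : ℕ) (hd : 2 ≤ d) (hev : Even d)
    (hdeg : 1 ≤ F.natDegree)
    (hshape : ∀ n : ℕ, 1 ≤ n →
      F.eval (n : ℚ) = F.eval 0 + (F.eval 1 - F.eval 0) * ((n + d - 1).choose d : ℕ))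
    (hreal : ∀ x : ℝ, aeval x F ≠ 0)
    (hsq : ∀ t : ℂ, aeval t F = 0 → ∃ y ∈ IntermediateField.adjoin ℚ {t},
      y ^ 2 = -(aeval (t - 1) F * aeval (t + 1) F)) : False := by
  -- positivity on the real line
  have hcont : Continuous fun x : ℝ => aeval x F := by
    have h1 : (fun x : ℝ => aeval x F) = fun x : ℝ => (F.map (algebraMap ℚ ℝ)).eval x := by
      funext x
      rw [eval_map_algebraMap]
    rw [h1]
    exact Polynomial.continuous _
  have hcast : ∀ n : ℕ, aeval (n : ℝ) F = ((F.eval (n : ℚ) : ℚ) : ℝ) := by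
    intro n
    have h1 := Polynomial.aeval_algebraMap_apply ℝ (n : ℚ) F
    rw [map_natCast] at h1
    rw [h1]
    simp
  have hbig : 0 < aeval ((n0 : ℕ) : ℝ) F := by
    rw [hcast, ← hcF n0 le_rfl]
    exact_mod_cast hpos n0
  have hallpos : ∀ x : ℝ, 0 < aeval x F := by
    intro x
    by_contra hneg
    push Not at hneg
    have h1 := mem_range_of_exists_le_of_exists_ge hcont ⟨x, hneg⟩ ⟨(n0 : ℝ), hbig.le⟩
    obtain ⟨z, hz⟩ := h1
    exact hreal z hz
  have hβ : 0 < F.eval 0 := by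
    have h1 := hallpos ((0 : ℕ) : ℝ)
    rw [hcast] at h1
    have h2 : (0 : ℚ) < F.eval ((0 : ℕ) : ℚ) := by exact_mod_cast h1
    simpa using h2
  obtain ⟨g, u, hg, hα, hβg⟩ := shape_int c Q a hc hQ d (max n0 1) hd (F.eval 1 - F.eval 0)
    (F.eval 0) hβ (by
      intro n hn
      rw [hcF n (le_trans (le_max_left _ _) hn), hshape n (le_trans (le_max_right _ _) hn)]
      ring)
  -- `u` is positive
  have hupos : 0 < u := by
    rcases lt_trichotomy u 0 with hu | hu | hu
    · exfalso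
      -- negative for large `n`
      have hgq : (0 : ℚ) < g := by exact_mod_cast hg
      have huq : (u : ℚ) ≤ -1 := by exact_mod_cast (by omega : u ≤ -1)
      have h1 := hallpos ((2 : ℕ) : ℝ)
      rw [hcast] at h1
      have h2 : (0 : ℚ) < F.eval ((2 : ℕ) : ℚ) := by exact_mod_cast h1
      rw [hshape 2 (by omega), hα, hβg] at h2
      have h3 : (2 : ℚ) ≤ ((2 + d - 1).choose d : ℕ) := by
        have h4 : 2 + d - 1 = d + 1 := by omega
        rw [h4, Nat.choose_succ_self_right]
        push_cast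
        have : (2 : ℚ) ≤ d := by exact_mod_cast hd
        linarith
      have h4 : (g : ℚ) * u * ((2 + d - 1).choose d : ℕ) ≤ g * (-1) * 2 := by
        have h5 : (g : ℚ) * u ≤ g * (-1) := mul_le_mul_of_nonneg_left huq hgq.le
        have h6 : (g : ℚ) * u * ((2 + d - 1).choose d : ℕ) ≤
            g * (-1) * ((2 + d - 1).choose d : ℕ) := mul_le_mul_of_nonneg_right h5 (by positivity)
        have h7 : g * (-1) * (((2 + d - 1).choose d : ℕ) : ℚ) ≤ g * (-1) * 2 := by nlinarith
        exact h6.trans h7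
      linarith
    · exfalso
      subst hu
      have h1 : ∀ n : ℕ, 1 ≤ n → F.eval (n : ℚ) = F.eval 0 := by
        intro n hn
        rw [hshape n hn, hα]
        simp
      have h2 : F = C (F.eval 0) := by
        apply Polynomial.eq_of_infinite_eval_eq
        refine Set.Infinite.mono (s := Set.range fun n : ℕ => ((n + 1 : ℕ) : ℚ)) ?_ ?_
        · rintro x ⟨n, rfl⟩
          show F.eval ((n + 1 : ℕ) : ℚ) = (C (F.eval 0)).eval ((n + 1 : ℕ) : ℚ)
          rw [h1 (n + 1) (by omega), eval_C]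
        · apply Set.infinite_range_of_injective
          intro m n hmn
          have : ((m + 1 : ℕ) : ℚ) = ((n + 1 : ℕ) : ℚ) := hmn
          have h3 : m + 1 = n + 1 := by exact_mod_cast this
          omega
      rw [h2, natDegree_C] at hdeg
      omega
    · exact hu
  obtain ⟨v, rfl⟩ : ∃ v : ℕ, u = v := ⟨u.toNat, (Int.toNat_of_nonneg hupos.le).symm⟩
  have hv : 1 ≤ v := by exact_mod_cast hupos
  have hβ0 : F.eval 0 ≠ 0 := hβ.ne'
  have hform : ∀ n : ℕ, 1 ≤ n →
      F.eval (n : ℚ) = F.eval 0 * (v * ((n + d - 1).choose d : ℕ) + 1) := by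
    intro n hn
    rw [hshape n hn, hα, hβg]
    push_cast
    ring
  have hno : ∀ x : ℝ, 1 + (v : ℝ) / d.factorial * (ascPochhammer ℝ d).eval x ≠ 0 := by
    intro x hx
    apply hreal x
    rw [shape_eval F d v 1 (by omega) (F.eval 0) hform ℝ x, hx, mul_zero]
  have hbound := half_bound d v (by omega) (pos_of_no_zero d v (by omega) hno (-1 / 2))
  -- killing primes of Eisenstein type
  have hEis : ∀ p : ℕ, p.Prime → d < 2 * p → p + 1 < d → ¬ p ∣ v → False := by
    intro p hp h1 h2 h3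
    obtain ⟨t, ht, hns⟩ := eisenstein_kill d v p hp h1 h2 hv h3
    apply hns
    refine square_transfer F d v 1 hd (F.eval 0) hβ0 hform t ht (hsq t ?_)
    rw [shape_eval F d v 1 (by omega) (F.eval 0) hform ℂ t, ht, mul_zero]
  have hcshape : ∀ n, max n0 1 ≤ n →
      c n = g * ((v : ℤ) * ((n + d - 1).choose d : ℕ) + 1) := by
    intro n hn
    have h1 := hcF n (le_trans (le_max_left _ _) hn)
    rw [hform n (le_trans (le_max_right _ _) hn), hβg] at h1
    exact_mod_cast h1
  rcases Nat.lt_or_ge d 19 with h19 | h19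
  · by_cases hspec : d = 2 ∧ v = 6
    · obtain ⟨rfl, rfl⟩ := hspec
      obtain ⟨x, y, hx, hy⟩ := chain_two c Q a hc hQ 2 (max n0 1) hd g ((6 : ℕ) : ℤ) hg hcshape 7 8
        (by norm_num) (by norm_num) (by
          norm_num [Nat.choose])
      have e1 : (((6 : ℕ) : ℤ) * ((8 + 2 - 2).choose 2 : ℕ) + 1) = 169 := by decide
      have e2 : (((6 : ℕ) : ℤ) * ((8 + 2).choose 2 : ℕ) + 1) = 271 := by decide
      have e3 : (((6 : ℕ) : ℤ) * ((8 + 2 - 3).choose 2 : ℕ) + 1) = 127 := by decide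
      rw [e1, e2] at hx
      rw [e1, e3] at hy
      exact seven_kill x y (by exact_mod_cast hx) (by exact_mod_cast hy)
    · rcases table_kill d v hev hd (by omega) hv hbound hspec with
        ⟨p, hp, h1, h2, h3⟩ | ⟨p, n, hp, hn, hdiv, hall⟩
      · exact hEis p hp h1 h2 h3
      · obtain ⟨x, hx⟩ := chain_one c Q a hc hQ d (max n0 1) hd g (v : ℤ) hg hcshape p n hp hn
          (by exact_mod_cast hdiv)
        have hp0 : (0 : ℤ) < p := by exact_mod_cast hp.pos
        apply hall (x % p).toNat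
        · have h1 := Int.emod_lt_of_pos x hp0
          have h2 := Int.emod_nonneg x hp0.ne'
          omega
        · have h2 := Int.emod_nonneg x hp0.ne'
          have h3 : (p : ℤ) ∣ x ^ 2 - (x % p) ^ 2 := by
            have h4 : x ^ 2 - (x % p) ^ 2 = (x - x % p) * (x + x % p) := by ring
            rw [h4]
            exact Dvd.dvd.mul_right (Int.dvd_self_sub_emod) _
          have h5 := dvd_sub hx h3
          have h6 : (p : ℤ) ∣ (((x % p).toNat ^ 2 + (v * (n + d - 2).choose d + 1) *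
              (v * (n + d).choose d + 1) : ℕ) : ℤ) := by
            push_cast
            rw [Int.toNat_of_nonneg h2]
            have h7 : (x % p) ^ 2 + ((v : ℤ) * ((n + d - 2).choose d : ℕ) + 1) *
                ((v : ℤ) * ((n + d).choose d : ℕ) + 1) =
                x ^ 2 + ((v : ℤ) * ((n + d - 2).choose d : ℕ) + 1) *
                ((v : ℤ) * ((n + d).choose d : ℕ) + 1) - (x ^ 2 - (x % p) ^ 2) := by ring
            rw [h7]
            exact h5
          exact_mod_cast h6
  · obtain ⟨p, hp, h1, h2, h3⟩ := prime_not_dvd d v hev (by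
      obtain ⟨k, hk⟩ := hev
      omega) hv (bound_sq d v (by omega) hbound)
    exact hEis p hp h1 h2 h3

end Pool.Agent.PTN
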