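import Pool.Agent.PTN.Defs
import Pool.Agent.PTN.FIM
import Pool.Agent.PTN.RTA
import Pool.Agent.PTN.RTB
import Pool.Agent.PTN.RVZ

set_option autoImplicit false

/-!
RVY: rates `1 + d/n + o(n^-d)`, `d > 1` real: irrational sum.
-/

namespace Pool.Agent.PTN

open NumberField Polynomial Filter Pool.Agent.SYL

theorem rates_all (a : ℕ → ℕ) (ha : StrictMono a) (h0 : 0 < a 0) (d : ℝ) (hd : 1 < d)
    (hrate : Tendsto (fun n : ℕ => ((a n : ℝ) ^ 2 / a (n + 1) - 1 - d / n) * (n : ℝ) ^ d) atTop
      (nhds 0)) :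
    Irrational (∑' n : ℕ, (1 : ℝ) / a n) := by
  have hapos : ∀ n, (0 : ℝ) < a n := fun n => by
    exact_mod_cast lt_of_lt_of_le h0 (ha.monotone (Nat.zero_le n))
  have hage : ∀ n, n + 1 ≤ a n := by
    intro n
    induction n with
    | zero => omega
    | succ n ih =>
      have h1 : a n < a (n + 1) := ha (Nat.lt_succ_self n)
      omega
  -- powers
  have hpow : Tendsto (fun n : ℕ => (n : ℝ) ^ d) atTop atTop :=
    (tendsto_rpow_atTop (by linarith)).comp tendsto_natCast_atTop_atTop
  have hpow1 : Tendsto (fun n : ℕ => (n : ℝ) ^ (d - 1)) atTop atTop :=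
    (tendsto_rpow_atTop (by linarith)).comp tendsto_natCast_atTop_atTop
  have hx0 : Tendsto (fun n : ℕ => ((a n : ℝ) ^ 2 / a (n + 1) - 1 - d / n) * (n : ℝ)) atTop
      (nhds 0) := by
    have h1 := hrate.mul (tendsto_inv_atTop_zero.comp hpow1)
    rw [mul_zero] at h1
    refine h1.congr' ?_
    filter_upwards [eventually_gt_atTop 0] with n hn
    have hn' : (0 : ℝ) < n := by exact_mod_cast hn
    simp only [Function.comp]
    rw [Real.rpow_sub hn', Real.rpow_one]
    have h2 : (n : ℝ) ^ d ≠ 0 := (Real.rpow_pos_of_pos hn' d).ne'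
    field_simp
  have hrate1 : Tendsto (fun n : ℕ => ((a n : ℝ) ^ 2 / a (n + 1) - 1) * (n : ℝ)) atTop
      (nhds d) := by
    have h1 := hx0.add_const d
    rw [zero_add] at h1
    refine h1.congr' ?_
    filter_upwards [eventually_gt_atTop 0] with n hn
    have hn' : (n : ℝ) ≠ 0 := by exact_mod_cast hn.ne'
    field_simp
    ring
  have hinv : Tendsto (fun n : ℕ => ((n : ℝ))⁻¹) atTop (nhds 0) :=
    tendsto_inv_atTop_zero.comp tendsto_natCast_atTop_atTop
  have hlim1 : Tendsto (fun n : ℕ => (a n : ℝ) ^ 2 / a (n + 1)) atTop (nhds 1) := by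
    have h1 := (hrate1.mul hinv).add_const 1
    rw [mul_zero, zero_add] at h1
    refine h1.congr' ?_
    filter_upwards [eventually_gt_atTop 0] with n hn
    have hn' : (n : ℝ) ≠ 0 := by exact_mod_cast hn.ne'
    field_simp
    ring
  have hlim : Tendsto (fun n : ℕ => (a (n + 1) : ℝ) / (a n : ℝ) ^ 2) atTop (nhds 1) := by
    have h1 := hlim1.inv₀ one_ne_zero
    rw [inv_one] at h1
    refine h1.congr fun n => ?_
    rw [inv_div]
  have hainf : Tendsto (fun n : ℕ => (a n : ℝ)) atTop atTop :=
    tendsto_natCast_atTop_atTop.comp ha.tendsto_atTop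
  have hsummable : Summable (fun n : ℕ => (1 : ℝ) / a n) := by
    refine summable_of_ratio_test_tendsto_lt_one (l := 0) (by norm_num) ?_ ?_
    · exact Eventually.of_forall fun n => (one_div_pos.2 (hapos n)).ne'
    · have h1 := hlim1.mul (tendsto_inv_atTop_zero.comp hainf)
      rw [mul_zero] at h1
      refine h1.congr fun n => ?_
      have h2 := hapos n
      have h3 := hapos (n + 1)
      simp only [Function.comp]
      rw [Real.norm_of_nonneg (by positivity), Real.norm_of_nonneg (by positivity)]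
      field_simp
  rintro ⟨r, hr⟩
  have hsum : HasSum (fun n : ℕ => (1 : ℝ) / a n) (r : ℝ) := by
    rw [hr]
    exact hsummable.hasSum
  -- the ratio
  have hRpos : ∀ n, 0 < Rat0 a n := fun n =>
    div_pos (Finset.prod_pos fun j _ => hapos j) (hapos n)
  have hRratio : ∀ n, Rat0 a (n + 1) / Rat0 a n = (a n : ℝ) ^ 2 / a (n + 1) := by
    intro n
    have h1 : (0 : ℝ) < ∏ j ∈ Finset.range n, (a j : ℝ) := Finset.prod_pos fun j _ => hapos j
    have h2 := hapos n
    have h3 := hapos (n + 1)
    unfold Rat0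
    rw [Finset.prod_range_succ]
    field_simp
  obtain ⟨k, hk⟩ := rate_diff (Rat0 a) hRpos d hd (hrate.congr fun n => by rw [hRratio])
  rcases final_poly a ha h0 hlim r hsum k hk with hS | ⟨f, hf2, hclose, hreal, hsq⟩
  · -- Sylvester: `n (a n ^ 2 / a (n+1) - 1)` is at most one
    have h1 : ∀ᶠ n : ℕ in atTop, ((a n : ℝ) ^ 2 / a (n + 1) - 1) * (n : ℝ) ≤ 1 := by
      filter_upwards [hS] with n hn
      have h2 : (n : ℝ) + 1 ≤ a n := by exact_mod_cast hage n
      have h3 : (a (n + 1) : ℝ) = (a n : ℝ) ^ 2 - a n + 1 := by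
        rw [hn]
        have h4 : a n ≤ a n ^ 2 := Nat.le_self_pow two_ne_zero _
        rw [Nat.cast_add, Nat.cast_sub h4]
        push_cast
        ring
      have h5 := hapos (n + 1)
      have h6 : (0 : ℝ) ≤ n := Nat.cast_nonneg n
      rw [div_sub_one h5.ne', div_mul_eq_mul_div, div_le_one h5, h3]
      nlinarith
    have h2 := le_of_tendsto hrate1 h1
    linarith
  · have h1 : d = f.natDegree := rate_degree (Rat0 a) hRpos f (by omega) hclose d
      (hrate1.congr fun n => by rw [hRratio])
    rcases Nat.even_or_odd f.natDegree with hev | h2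
    · obtain ⟨c, D, hD, hpos, hrec, hct, hratio, hca⟩ := exists_system a ha h0 hlim r hsum
      have hDR : (0 : ℝ) < D := by exact_mod_cast hD
      have hD0 : (D : ℚ) ≠ 0 := by exact_mod_cast hD.ne'
      have hcl := c_sub_R a c D ha h0 hpos hrec hlim hratio
      -- `c n` is close to `D f n`
      have hclF : Tendsto (fun n : ℕ => ((c n : ℤ) : ℝ) - aeval (n : ℝ) (C (D : ℚ) * f)) atTop
          (nhds 0) := by
        have h3 := hcl.add (hclose.const_mul (D : ℝ))
        rw [mul_zero, add_zero] at h3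
        refine h3.congr fun n => ?_
        rw [map_mul, aeval_C, map_natCast]
        push_cast
        ring
      obtain ⟨n0, hn0⟩ := int_eq_poly (fun n => (c n : ℤ)) (C (D : ℚ) * f) hclF
      have hratN : Tendsto (fun n : ℕ => (Rat0 a (n + 1) / Rat0 a n - 1 -
          ((f.natDegree : ℕ) : ℝ) / n) * (n : ℝ) ^ f.natDegree) atTop (nhds 0) := by
        refine hrate.congr fun n => ?_
        rw [hRratio, ← h1]
        congr 1
        rw [h1, Real.rpow_natCast]
      have hshape := rate_shape (Rat0 a) hRpos f f.natDegree (by omega) rfl hclose hratN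
      have hnd : (C (D : ℚ) * f).natDegree = f.natDegree := natDegree_C_mul hD0
      refine even_false (fun n => (c n : ℤ)) (fun n => (D : ℤ) * ∏ j ∈ Finset.range n, (a j : ℤ))
        (fun n => (a n : ℤ)) (fun n => ?_) (fun n => ?_) (fun n => ?_) (C (D : ℚ) * f) n0 hn0
        f.natDegree hf2 hev (by rw [hnd]; omega) (fun n hn => ?_) (fun x hx => ?_)
        (fun t ht => ?_)
      · exact_mod_cast hrec n
      · show (D : ℤ) * ∏ j ∈ Finset.range (n + 1), (a j : ℤ) = _
        rw [Finset.prod_range_succ]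
        ring
      · exact_mod_cast hpos n
      · rw [eval_mul, eval_mul, eval_mul, eval_C, eval_C, eval_C, hshape n hn]
        ring
      · rw [map_mul, aeval_C, map_natCast] at hx
        rcases mul_eq_zero.1 hx with h3 | h3
        · exact hDR.ne' h3
        · exact hreal x h3
      · have hDC : (D : ℂ) ≠ 0 := Nat.cast_ne_zero.2 hD.ne'
        rw [map_mul, aeval_C, map_natCast] at ht
        obtain ⟨y, hy, hy2⟩ := hsq t ((mul_eq_zero.1 ht).resolve_left hDC)
        refine ⟨(D : ℂ) * y, (IntermediateField.adjoin ℚ {t}).mul_mem (natCast_mem _ D) hy, ?_⟩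
        rw [mul_pow, hy2, map_mul, map_mul, aeval_C, aeval_C, map_natCast]
        ring
    · obtain ⟨x, hx⟩ := odd_root f h2
      exact hreal x hx

end Pool.Agent.PTN
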